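import Pool.Agent.Pet19.Defs

/-!
# Pet19.Bi: the bialgebra `PP`

Everything is checked on generators (`MvPolynomial.algHom_ext`, `MvPolynomial.induction_on`);
`Fr x = x ^ 2` is `MvPolynomial.expand_zmod`-like.
-/

set_option autoImplicit false
open MvPolynomial TensorProduct

namespace Pool.Agent.Pet19

noncomputable section

theorem xi_zero : xi 0 = 1 := by simp [xi]

theorem xi_succ (n : ℕ) : xi (n + 1) = X (n + 1) := by simp [xi]

theorem Dl_T : Dl T = T ⊗ₜ[ZMod 2] T := by simp [Dl, T]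

theorem Dl_T_pow (j : ℕ) : Dl (T ^ j) = (T ^ j) ⊗ₜ[ZMod 2] (T ^ j) := by
  rw [map_pow, Dl_T, Algebra.TensorProduct.tmul_pow]

theorem Dl_xi (n : ℕ) : Dl (xi n) = ∑ i ∈ Finset.range (n + 1),
    (xi (n - i) ^ (2 ^ i) * T ^ (2 ^ i - 1)) ⊗ₜ[ZMod 2] xi i := by
  cases n with
  | zero =>
    rw [xi_zero, map_one, zero_add, Finset.sum_range_one, pow_zero, pow_one, Nat.sub_self, Nat.sub_self,
      pow_zero, mul_one, xi_zero]
    rfl
  | succ n =>
    conv_lhs => rw [xi_succ, Dl, aeval_X, if_neg (Nat.succ_ne_zero n)]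

theorem ep_T : ep T = 1 := by simp [ep, T]

theorem ep_xi (n : ℕ) : ep (xi n) = if n = 0 then 1 else 0 := by
  by_cases h : n = 0 <;> simp [ep, xi, h]

theorem Fr_apply (x : PP) : Fr x = x ^ 2 := by
  rw [Fr]
  exact expand_zmod x

private theorem add_self2 {M : Type} [AddCommGroup M] [Module (ZMod 2) M] (x : M) :
    x + x = 0 := by
  have h : (2 : ZMod 2) • x = 0 := by
    have : (2 : ZMod 2) = 0 := by decide
    rw [this, zero_smul]
  rwa [two_smul] at h

theorem Fr_inj : Function.Injective Fr := by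
  intro x y h
  rw [Fr_apply, Fr_apply] at h
  have h1 : (x + y) ^ 2 = 0 := by
    have e : (x + y) ^ 2 = (x ^ 2 + y ^ 2) + (x * y + x * y) := by ring
    rw [e, h, add_self2, add_self2, add_zero]
  have h2 : x + y = 0 := pow_eq_zero_iff (two_ne_zero) |>.1 h1
  have h3 : y + y = 0 := add_self2 y
  exact add_right_cancel (h2.trans h3.symm)

theorem ep_Fr (x : PP) : ep (Fr x) = ep x := by
  rw [Fr_apply, map_pow]
  exact ZMod.pow_card (ep x)

private theorem map_FrL (u : PP ⊗[ZMod 2] PP) : TensorProduct.map FrL FrL u = u ^ 2 := by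
  induction u using TensorProduct.induction_on with
  | zero => rw [map_zero, zero_pow two_ne_zero]
  | tmul a b =>
    rw [TensorProduct.map_tmul, FrL_apply, FrL_apply, Fr_apply, Fr_apply,
      Algebra.TensorProduct.tmul_pow]
  | add u v hu hv =>
    have e : (u + v) ^ 2 = (u ^ 2 + v ^ 2) + (u * v + u * v) := by ring
    rw [map_add, hu, hv, e, add_self2, add_zero]

theorem Dl_Fr (x : PP) : Dl (Fr x) = TensorProduct.map FrL FrL (Dl x) := by
  rw [Fr_apply, map_pow, map_FrL]

theorem FrL_sq (x : PP) : FrL x = x ^ 2 := by rw [FrL_apply, Fr_apply]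

theorem FrL_inj : Function.Injective FrL := by
  intro x y h
  rw [FrL_apply, FrL_apply] at h
  exact Fr_inj h

theorem FrL_mul (x y : PP) : FrL (x * y) = FrL x * FrL y := by
  simp only [FrL_sq, mul_pow]

end

end Pool.Agent.Pet19
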