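import Pool.Agent.Pet19.Bi

/-!
# Pet19.BiC: coassociativity and counit of `PP`

Everything is checked on generators (`MvPolynomial.algHom_ext`, `MvPolynomial.induction_on`).
Coassociativity on `xi n`: both sides are
`∑_(i+j ≤ n) xi_(n-i-j)^(2^(i+j)) T^(2^(i+j)-1) ⊗ (xi_j^(2^i) T^(2^i-1) ⊗ xi_i)`
(use `char 2`: `(a+b)^(2^i) = a^(2^i) + b^(2^i)`, `sum_pow_char_pow` / `frobenius`).  The linear map
`TensorProduct.assoc` is the coercion of `Algebra.TensorProduct.assoc`.
-/

set_option autoImplicit false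
open MvPolynomial TensorProduct

namespace Pool.Agent.Pet19

noncomputable section

private theorem add_self2 {M : Type} [AddCommGroup M] [Module (ZMod 2) M] (x : M) :
    x + x = 0 := by
  have h : (2 : ZMod 2) • x = 0 := by
    have : (2 : ZMod 2) = 0 := by decide
    rw [this, zero_smul]
  rwa [two_smul] at h

private theorem sum_sq2 {R ι : Type} [CommRing R] [Algebra (ZMod 2) R] (s : Finset ι)
    (f : ι → R) : (∑ i ∈ s, f i) ^ 2 = ∑ i ∈ s, f i ^ 2 := by
  classical
  induction s using Finset.induction_on with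
  | empty => simp
  | insert a s ha ih =>
    rw [Finset.sum_insert ha, Finset.sum_insert ha, ← ih]
    have e : (f a + ∑ i ∈ s, f i) ^ 2 = (f a ^ 2 + (∑ i ∈ s, f i) ^ 2) +
        (f a * ∑ i ∈ s, f i + f a * ∑ i ∈ s, f i) := by ring
    rw [e, add_self2, add_zero]

/-- powers of sums in characteristic two -/
theorem sum_pow2 {R ι : Type} [CommRing R] [Algebra (ZMod 2) R] (s : Finset ι) (f : ι → R)
    (j : ℕ) : (∑ i ∈ s, f i) ^ (2 ^ j) = ∑ i ∈ s, f i ^ (2 ^ j) := by
  induction j with
  | zero => simp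
  | succ j ih => simp only [pow_succ 2 j, pow_mul, ih, sum_sq2]

/-- two algebra maps on `PP` which agree on the `xi n` and on `T` are equal -/
theorem algHom_ext_xi {R : Type} [CommRing R] [Algebra (ZMod 2) R] {f g : PP →ₐ[ZMod 2] R}
    (hT : f T = g T) (h : ∀ n, f (xi (n + 1)) = g (xi (n + 1))) : f = g := by
  refine MvPolynomial.algHom_ext fun i => ?_
  cases i with
  | zero =>
    have h1 : T = X 0 := by simp [T]
    rwa [h1] at hT
  | succ n =>
    have := h n
    rwa [xi_succ] at this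

private def coL : PP →ₐ[ZMod 2] PP ⊗[ZMod 2] (PP ⊗[ZMod 2] PP) :=
  (Algebra.TensorProduct.assoc (ZMod 2) (ZMod 2) (ZMod 2) PP PP PP).toAlgHom.comp
    ((Algebra.TensorProduct.map Dl (AlgHom.id (ZMod 2) PP)).comp Dl)

private def coR : PP →ₐ[ZMod 2] PP ⊗[ZMod 2] (PP ⊗[ZMod 2] PP) :=
  (Algebra.TensorProduct.map (AlgHom.id (ZMod 2) PP) Dl).comp Dl

private theorem coL_apply (x : PP) : coL x = DlT PP (Dl x) := by
  have h : ∀ u : PP ⊗[ZMod 2] PP,
      (Algebra.TensorProduct.assoc (ZMod 2) (ZMod 2) (ZMod 2) PP PP PP)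
        (Algebra.TensorProduct.map Dl (AlgHom.id (ZMod 2) PP) u) = DlT PP u := by
    intro u
    induction u using TensorProduct.induction_on with
    | zero => rw [map_zero, map_zero, map_zero]
    | add u v hu hv => rw [map_add, map_add, map_add, hu, hv]
    | tmul a b =>
      rw [DlT_tmul, Algebra.TensorProduct.map_tmul]
      rfl
  exact h (Dl x)

private theorem coR_apply (x : PP) : coR x = LinearMap.lTensor PP Dl.toLinearMap (Dl x) := by
  have h : ∀ u : PP ⊗[ZMod 2] PP,
      Algebra.TensorProduct.map (AlgHom.id (ZMod 2) PP) Dl u =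
        LinearMap.lTensor PP Dl.toLinearMap u := by
    intro u
    induction u using TensorProduct.induction_on with
    | zero => rw [map_zero, map_zero]
    | add u v hu hv => rw [map_add, map_add, hu, hv]
    | tmul a b =>
      rw [LinearMap.lTensor_tmul, Algebra.TensorProduct.map_tmul]
      rfl
  exact h (Dl x)

private theorem Dl_xi_pow (n j : ℕ) : Dl (xi n ^ (2 ^ j)) = ∑ i ∈ Finset.range (n + 1),
    (xi (n - i) ^ (2 ^ (j + i)) * T ^ ((2 ^ i - 1) * 2 ^ j)) ⊗ₜ[ZMod 2] (xi i ^ (2 ^ j)) := by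
  rw [map_pow, Dl_xi, sum_pow2]
  refine Finset.sum_congr rfl fun i _ => ?_
  rw [Algebra.TensorProduct.tmul_pow, mul_pow, ← pow_mul, ← pow_mul, ← pow_add, add_comm i j]

private theorem co_eq : coL = coR := by
  refine algHom_ext_xi (R := PP ⊗[ZMod 2] (PP ⊗[ZMod 2] PP)) ?_ fun n => ?_
  · rw [coL_apply, coR_apply, Dl_T, DlT_tmul, LinearMap.lTensor_tmul, Dl_T,
      TensorProduct.assoc_tmul, AlgHom.toLinearMap_apply, Dl_T]
  · generalize n + 1 = n
    rw [coL_apply, coR_apply, Dl_xi, map_sum, map_sum]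
    have h1 : ∀ j ∈ Finset.range (n + 1),
        DlT PP ((xi (n - j) ^ (2 ^ j) * T ^ (2 ^ j - 1)) ⊗ₜ[ZMod 2] xi j) =
        ∑ k ∈ Finset.Ico j (n + 1), (xi (n - k) ^ (2 ^ k) * T ^ (2 ^ k - 1)) ⊗ₜ[ZMod 2]
          ((xi (k - j) ^ (2 ^ j) * T ^ (2 ^ j - 1)) ⊗ₜ[ZMod 2] xi j) := by
      intro j hj
      rw [Finset.mem_range] at hj
      rw [DlT_tmul, map_mul, Dl_xi_pow, Dl_T_pow, Finset.sum_mul, TensorProduct.sum_tmul, map_sum,
        Finset.sum_Ico_eq_sum_range]
      have e0 : n + 1 - j = n - j + 1 := by omega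
      rw [e0]
      refine Finset.sum_congr rfl fun i hi => ?_
      rw [Finset.mem_range] at hi
      rw [Algebra.TensorProduct.tmul_mul_tmul, TensorProduct.assoc_tmul, mul_assoc, ← pow_add]
      have e1 : n - j - i = n - (j + i) := by omega
      have e2 : (2 ^ i - 1) * 2 ^ j + (2 ^ j - 1) = 2 ^ (j + i) - 1 := by
        have h1 : 1 ≤ 2 ^ i := Nat.one_le_two_pow
        have h2 : 1 ≤ 2 ^ j := Nat.one_le_two_pow
        have h3 : 2 ^ j ≤ 2 ^ i * 2 ^ j := Nat.le_mul_of_pos_left _ (by omega)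
        rw [Nat.sub_mul, one_mul, pow_add, mul_comm (2 ^ j) (2 ^ i)]
        omega
      have e3 : j + i - j = i := by omega
      rw [e1, e2, e3]
    rw [Finset.sum_congr rfl h1]
    have h2 : ∀ k ∈ Finset.range (n + 1),
        LinearMap.lTensor PP Dl.toLinearMap
          ((xi (n - k) ^ (2 ^ k) * T ^ (2 ^ k - 1)) ⊗ₜ[ZMod 2] xi k) =
        ∑ j ∈ Finset.range (k + 1), (xi (n - k) ^ (2 ^ k) * T ^ (2 ^ k - 1)) ⊗ₜ[ZMod 2]
          ((xi (k - j) ^ (2 ^ j) * T ^ (2 ^ j - 1)) ⊗ₜ[ZMod 2] xi j) := by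
      intro k _
      rw [LinearMap.lTensor_tmul, AlgHom.toLinearMap_apply, Dl_xi, TensorProduct.tmul_sum]
    rw [Finset.sum_congr rfl h2]
    refine Finset.sum_comm' fun j k => ?_
    rw [Finset.mem_range, Finset.mem_Ico, Finset.mem_range, Finset.mem_range]
    omega

theorem Dl_co (x : PP) : DlT PP (Dl x) = LinearMap.lTensor PP Dl.toLinearMap (Dl x) := by
  rw [← coL_apply, ← coR_apply, co_eq]

private def cuL : PP →ₐ[ZMod 2] PP :=
  (Algebra.TensorProduct.lid (ZMod 2) PP).toAlgHom.comp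
    ((Algebra.TensorProduct.map ep (AlgHom.id (ZMod 2) PP)).comp Dl)

private def cuR : PP →ₐ[ZMod 2] PP :=
  (Algebra.TensorProduct.rid (ZMod 2) (ZMod 2) PP).toAlgHom.comp
    ((Algebra.TensorProduct.map (AlgHom.id (ZMod 2) PP) ep).comp Dl)

private theorem cuL_apply (x : PP) :
    cuL x = TensorProduct.lid (ZMod 2) PP (LinearMap.rTensor PP ep.toLinearMap (Dl x)) := by
  have h : ∀ u : PP ⊗[ZMod 2] PP,
      (Algebra.TensorProduct.lid (ZMod 2) PP)
        (Algebra.TensorProduct.map ep (AlgHom.id (ZMod 2) PP) u) =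
      TensorProduct.lid (ZMod 2) PP (LinearMap.rTensor PP ep.toLinearMap u) := by
    intro u
    induction u using TensorProduct.induction_on with
    | zero => rw [map_zero, map_zero, map_zero, map_zero]
    | add u v hu hv => rw [map_add, map_add, map_add, map_add, hu, hv]
    | tmul a b =>
      rw [LinearMap.rTensor_tmul, Algebra.TensorProduct.map_tmul]
      rfl
  exact h (Dl x)

private theorem cuR_apply (x : PP) :
    cuR x = TensorProduct.rid (ZMod 2) PP (LinearMap.lTensor PP ep.toLinearMap (Dl x)) := by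
  have h : ∀ u : PP ⊗[ZMod 2] PP,
      (Algebra.TensorProduct.rid (ZMod 2) (ZMod 2) PP)
        (Algebra.TensorProduct.map (AlgHom.id (ZMod 2) PP) ep u) =
      TensorProduct.rid (ZMod 2) PP (LinearMap.lTensor PP ep.toLinearMap u) := by
    intro u
    induction u using TensorProduct.induction_on with
    | zero => rw [map_zero, map_zero, map_zero, map_zero]
    | add u v hu hv => rw [map_add, map_add, map_add, map_add, hu, hv]
    | tmul a b =>
      rw [LinearMap.lTensor_tmul, Algebra.TensorProduct.map_tmul]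
      rfl
  exact h (Dl x)

theorem Dl_cu (x : PP) :
    TensorProduct.lid (ZMod 2) PP (LinearMap.rTensor PP ep.toLinearMap (Dl x)) = x := by
  have h : cuL = AlgHom.id (ZMod 2) PP := by
    refine algHom_ext_xi ?_ fun n => ?_
    · rw [cuL_apply, Dl_T, LinearMap.rTensor_tmul, AlgHom.toLinearMap_apply, ep_T,
        TensorProduct.lid_tmul, one_smul, AlgHom.id_apply]
    · generalize n + 1 = n
      rw [cuL_apply, Dl_xi, map_sum, map_sum, Finset.sum_eq_single n]
      · rw [Nat.sub_self, xi_zero, one_pow, one_mul, LinearMap.rTensor_tmul,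
          AlgHom.toLinearMap_apply, map_pow, ep_T, one_pow, TensorProduct.lid_tmul, one_smul,
          AlgHom.id_apply]
      · intro i hi hne
        rw [Finset.mem_range] at hi
        rw [LinearMap.rTensor_tmul, AlgHom.toLinearMap_apply, map_mul, map_pow, ep_xi,
          if_neg (by omega), zero_pow (by positivity), zero_mul, TensorProduct.zero_tmul, map_zero]
      · intro h
        exact absurd (Finset.mem_range.2 (Nat.lt_succ_self n)) h
  rw [← cuL_apply, h, AlgHom.id_apply]

theorem Dl_cu' (x : PP) :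
    TensorProduct.rid (ZMod 2) PP (LinearMap.lTensor PP ep.toLinearMap (Dl x)) = x := by
  have h : cuR = AlgHom.id (ZMod 2) PP := by
    refine algHom_ext_xi ?_ fun n => ?_
    · rw [cuR_apply, Dl_T, LinearMap.lTensor_tmul, AlgHom.toLinearMap_apply, ep_T,
        TensorProduct.rid_tmul, one_smul, AlgHom.id_apply]
    · generalize n + 1 = n
      rw [cuR_apply, Dl_xi, map_sum, map_sum, Finset.sum_eq_single 0]
      · rw [Nat.sub_zero, pow_zero, pow_one, Nat.sub_self, pow_zero, mul_one,
          LinearMap.lTensor_tmul, AlgHom.toLinearMap_apply, ep_xi, if_pos rfl,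
          TensorProduct.rid_tmul, one_smul, AlgHom.id_apply]
      · intro i _ hne
        rw [LinearMap.lTensor_tmul, AlgHom.toLinearMap_apply, ep_xi, if_neg hne,
          TensorProduct.tmul_zero, map_zero]
      · intro h
        exact absurd (Finset.mem_range.2 (Nat.succ_pos n)) h
  rw [← cuR_apply, h, AlgHom.id_apply]

end

end Pool.Agent.Pet19
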