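import Pool.Agent.Pet19.BiC

/-!
# Pet19.BiQ: division by powers of `T`

`Δ(T^j a) = (T^j ⊗ T^j) Δ(a)`, and for `a` not involving `T` the right tensor factor of `Δ a`
does not involve `T`.  Check the two identities on monomials `T^j a`, separately for `j ≥ i`
and `j < i` (in the second case both sides vanish because the right factor is not divisible by `T^i`).
-/

set_option autoImplicit false
open MvPolynomial TensorProduct

namespace Pool.Agent.Pet19

noncomputable section

private theorem T_pow (i : ℕ) : T ^ i = monomial (Finsupp.single 0 i) (1 : ZMod 2) := by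
  unfold T
  exact X_pow_eq_monomial

theorem qT_mul (i : ℕ) (x : PP) : qT i (T ^ i * x) = x := by
  rw [qT_apply, T_pow]
  exact divMonomial_monomial_mul _ _

/-- `X 0 ↦ 0`, `X n ↦ X n` -/
private def k0 : PP →ₐ[ZMod 2] PP := aeval (fun n => if n = 0 then (0 : PP) else X n)

private theorem k0_monomial (t : ℕ →₀ ℕ) (ht : t 0 = 0) (c : ZMod 2) :
    k0 (monomial t c) = monomial t c := by
  unfold k0
  rw [aeval_monomial, monomial_eq]
  congr 1
  refine Finsupp.prod_congr fun n hn => ?_
  have h : n ≠ 0 := by
    rintro rfl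
    exact (Finsupp.mem_support_iff.1 hn) ht
  rw [if_neg h]

private theorem k0_monomial' (t : ℕ →₀ ℕ) (ht : t 0 ≠ 0) (c : ZMod 2) :
    k0 (monomial t c) = 0 := by
  unfold k0
  rw [aeval_monomial]
  have h : (0 : ℕ) ∈ t.support := Finsupp.mem_support_iff.2 ht
  have h1 : t.prod (fun i k => (if i = 0 then (0 : PP) else X i) ^ k) = 0 := by
    unfold Finsupp.prod
    refine Finset.prod_eq_zero h ?_
    simp [ht]
  rw [h1, mul_zero]

private theorem mono_decomp (s : ℕ →₀ ℕ) (c : ZMod 2) :
    monomial s c = T ^ (s 0) * k0 (monomial (s.erase 0) c) := by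
  rw [k0_monomial _ (Finsupp.erase_same), T_pow, monomial_mul, one_mul,
    Finsupp.single_add_erase]

private theorem lin_ext {M : Type} [AddCommGroup M] [Module (ZMod 2) M]
    (L₁ L₂ : PP →ₗ[ZMod 2] M) (h : ∀ j a, L₁ (T ^ j * k0 a) = L₂ (T ^ j * k0 a)) : L₁ = L₂ := by
  refine MvPolynomial.linearMap_ext fun s => ?_
  refine LinearMap.ext fun c => ?_
  rw [LinearMap.comp_apply, LinearMap.comp_apply, mono_decomp]
  exact h _ _

private theorem qT_low {i j : ℕ} (hij : j < i) (b : PP) : qT i (T ^ j * k0 b) = 0 := by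
  have key : qT i ∘ₗ LinearMap.mulLeft (ZMod 2) (T ^ j) ∘ₗ k0.toLinearMap = 0 := by
    refine MvPolynomial.linearMap_ext fun t => ?_
    refine LinearMap.ext fun c => ?_
    rw [LinearMap.comp_apply, LinearMap.comp_apply, LinearMap.comp_apply, LinearMap.comp_apply,
      LinearMap.zero_apply, AlgHom.toLinearMap_apply, LinearMap.mulLeft_apply]
    by_cases ht : t 0 = 0
    · rw [k0_monomial t ht, qT_apply, T_pow, monomial_mul, one_mul]
      ext μ
      rw [coeff_divMonomial, coeff_monomial, if_neg, coeff_zero]
      intro h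
      have h1 := DFunLike.congr_fun h 0
      simp only [Finsupp.add_apply, Finsupp.single_eq_same, ht] at h1
      omega
    · rw [k0_monomial' t ht, mul_zero, map_zero]
  have h := LinearMap.congr_fun key b
  rw [LinearMap.comp_apply, LinearMap.comp_apply, LinearMap.zero_apply,
    AlgHom.toLinearMap_apply, LinearMap.mulLeft_apply] at h
  exact h

private theorem qT_high {i j : ℕ} (hij : i ≤ j) (b : PP) : qT i (T ^ j * b) = T ^ (j - i) * b := by
  have h : T ^ j * b = T ^ i * (T ^ (j - i) * b) := by
    rw [← mul_assoc, ← pow_add]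
    congr 2
    omega
  rw [h, qT_mul]

private theorem k0_xi (n : ℕ) : k0 (xi n) = xi n := by
  cases n with
  | zero => rw [xi_zero, map_one]
  | succ n =>
    rw [xi_succ]
    unfold k0
    rw [aeval_X, if_neg (Nat.succ_ne_zero n)]

private theorem Dl_k0 (a : PP) :
    Algebra.TensorProduct.map (AlgHom.id (ZMod 2) PP) k0 (Dl (k0 a)) = Dl (k0 a) := by
  have key : ((Algebra.TensorProduct.map (AlgHom.id (ZMod 2) PP) k0).comp Dl).comp k0
      = Dl.comp k0 := by
    refine MvPolynomial.algHom_ext fun n => ?_
    rw [AlgHom.comp_apply, AlgHom.comp_apply, AlgHom.comp_apply]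
    have h1 : k0 (X n) = if n = 0 then 0 else xi n := by
      unfold k0
      rw [aeval_X]
      by_cases h : n = 0
      · rw [if_pos h, if_pos h]
      · rw [if_neg h, if_neg h]
        obtain ⟨n, rfl⟩ := Nat.exists_eq_succ_of_ne_zero h
        exact (xi_succ n).symm
    rw [h1]
    by_cases h : n = 0
    · rw [if_pos h, map_zero, map_zero]
    · rw [if_neg h, Dl_xi, map_sum]
      refine Finset.sum_congr rfl fun i _ => ?_
      rw [Algebra.TensorProduct.map_tmul, k0_xi]
      rfl
  exact AlgHom.congr_fun key a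

private theorem Dl_mul_pow (j : ℕ) (x : PP) :
    Dl (T ^ j * x) = ((T ^ j) ⊗ₜ[ZMod 2] (T ^ j)) * Dl x := by
  rw [map_mul, Dl_T_pow]

/-- `(q_i ⊗ q_i) Δ = Δ q_i` -/
theorem Dl_qT_both (i : ℕ) (x : PP) :
    TensorProduct.map (qT i) (qT i) (Dl x) = Dl (qT i x) := by
  have key : TensorProduct.map (qT i) (qT i) ∘ₗ Dl.toLinearMap = Dl.toLinearMap ∘ₗ qT i := by
    refine lin_ext _ _ fun j a => ?_
    rw [LinearMap.comp_apply, LinearMap.comp_apply, AlgHom.toLinearMap_apply,
      AlgHom.toLinearMap_apply, Dl_mul_pow]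
    rcases le_or_gt i j with hij | hij
    · rw [qT_high hij, Dl_mul_pow]
      generalize Dl (k0 a) = u
      induction u with
      | zero => rw [mul_zero, mul_zero, map_zero]
      | add u v hu hv => rw [mul_add, mul_add, map_add, hu, hv]
      | tmul b c =>
        rw [Algebra.TensorProduct.tmul_mul_tmul, Algebra.TensorProduct.tmul_mul_tmul,
          TensorProduct.map_tmul, qT_high hij, qT_high hij]
    · rw [qT_low hij, map_zero, ← Dl_k0]
      generalize Dl (k0 a) = u
      induction u with
      | zero => rw [map_zero, mul_zero, map_zero]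
      | add u v hu hv => rw [map_add, mul_add, map_add, hu, hv, add_zero]
      | tmul b c =>
        rw [Algebra.TensorProduct.map_tmul, Algebra.TensorProduct.tmul_mul_tmul,
          TensorProduct.map_tmul, qT_low hij, TensorProduct.tmul_zero]
  exact LinearMap.congr_fun key x

/-- `(1 ⊗ q_m) Δ x = (T^m ⊗ 1) Δ (q_m x)` -/
theorem Dl_qT_right (m : ℕ) (x : PP) :
    LinearMap.lTensor PP (qT m) (Dl x) =
      LinearMap.rTensor PP (mT m) (Dl (qT m x)) := by
  have key : LinearMap.lTensor PP (qT m) ∘ₗ Dl.toLinearMap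
      = LinearMap.rTensor PP (mT m) ∘ₗ Dl.toLinearMap ∘ₗ qT m := by
    refine lin_ext _ _ fun j a => ?_
    rw [LinearMap.comp_apply, LinearMap.comp_apply, LinearMap.comp_apply,
      AlgHom.toLinearMap_apply, AlgHom.toLinearMap_apply, Dl_mul_pow]
    rcases le_or_gt m j with hij | hij
    · rw [qT_high hij, Dl_mul_pow]
      generalize Dl (k0 a) = u
      induction u with
      | zero => rw [mul_zero, mul_zero, map_zero, map_zero]
      | add u v hu hv => rw [mul_add, mul_add, map_add, map_add, hu, hv]
      | tmul b c =>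
        rw [Algebra.TensorProduct.tmul_mul_tmul, Algebra.TensorProduct.tmul_mul_tmul,
          LinearMap.lTensor_tmul, LinearMap.rTensor_tmul, qT_high hij, mT_apply, ← mul_assoc,
          ← pow_add]
        congr 3
        omega
    · rw [qT_low hij, map_zero, map_zero, ← Dl_k0]
      generalize Dl (k0 a) = u
      induction u with
      | zero => rw [map_zero, mul_zero, map_zero]
      | add u v hu hv => rw [map_add, mul_add, map_add, hu, hv, add_zero]
      | tmul b c =>
        rw [Algebra.TensorProduct.map_tmul, Algebra.TensorProduct.tmul_mul_tmul,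
          LinearMap.lTensor_tmul, qT_low hij, TensorProduct.tmul_zero]
  exact LinearMap.congr_fun key x

end

end Pool.Agent.Pet19
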