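import Pool.Agent.Pet19.BrD
import Pool.Agent.Pet19.Bi

/-!
# Pet19.Br1: the differential on polynomials

`thS_d`: induction on `s`; `s = 0`: `(itT 0).d w c = T^w ⊗ c + 1 ⊗ c`.  `s + 1`, on `c ⊗ x`:
`δ' (c ⊗ x) = Δ c ⊗ x + c ⊗ δ x`; `joinL (Δ c-part) = DB 0 (slot0 c * shS z)` where
`DB 0 (shS z) = shS (shS z)` and `DB 0 (slot0 c) = ∑ slot0 c' * shS (slot0 c'')` (check on generators), and
`shS (DB m z) = DB (m+1) (shS z)`, `DB (m+1) (slot0 c) = slot0 c`.
It is convenient to prove first: `thS (s+1) ((itT s).δ x) = thS s x + ∑_(m<s) DB m (thS s x)`.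
-/

set_option autoImplicit false
open MvPolynomial TensorProduct

namespace Pool.Agent.Pet19

noncomputable section

private theorem br1_slot0_X (n : ℕ) : slot0 (X n) = X (0, n) := by
  simp [slot0]

private theorem br1_shS_X (v : ℕ × ℕ) : shS (X v) = X (v.1 + 1, v.2) := by
  simp [shS]

private theorem br1_joinL_tmul (c : PP) (z : EE) : joinL (c ⊗ₜ[ZMod 2] z) = slot0 c * shS z := by
  simp [joinL]

/-- `c ⊗ x ↦ slot0 c * shS (f x)` -/
private def br1_jn {N : Type} [AddCommGroup N] [Module (ZMod 2) N] (f : N →ₗ[ZMod 2] EE) :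
    PP ⊗[ZMod 2] N →ₗ[ZMod 2] EE :=
  joinL ∘ₗ LinearMap.lTensor PP f

private theorem br1_jn_tmul {N : Type} [AddCommGroup N] [Module (ZMod 2) N] (f : N →ₗ[ZMod 2] EE)
    (c : PP) (x : N) : br1_jn f (c ⊗ₜ[ZMod 2] x) = slot0 c * shS (f x) := by
  unfold br1_jn
  rw [LinearMap.comp_apply, LinearMap.lTensor_tmul, br1_joinL_tmul]

private theorem br1_slot0_xi (n : ℕ) : slot0 (xi n) = xS 0 n := by
  unfold xi xS
  by_cases hn : n = 0
  · rw [if_pos hn, if_pos hn, map_one]
  · rw [if_neg hn, if_neg hn, br1_slot0_X]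

private theorem br1_slot0_T : slot0 T = X (0, 0) := by
  unfold T
  exact br1_slot0_X 0

private theorem br1_shS_xS (m n : ℕ) : shS (xS m n) = xS (m + 1) n := by
  unfold xS
  by_cases hn : n = 0
  · rw [if_pos hn, if_pos hn, map_one]
  · rw [if_neg hn, if_neg hn, br1_shS_X]

private theorem br1_DB_X (m : ℕ) (v : ℕ × ℕ) : DB m (X v) =
    if v.1 < m then (X v : EE)
    else if v.1 = m then
      (if v.2 = 0 then X (m, 0) * X (m + 1, 0)
        else ∑ i ∈ Finset.range (v.2 + 1),
          (xS m (v.2 - i) ^ (2 ^ i) * X (m, 0) ^ (2 ^ i - 1)) * xS (m + 1) i)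
    else X (v.1 + 1, v.2) := by
  unfold DB
  rw [aeval_X]

private theorem br1_DB_shS (z : EE) : DB 0 (shS z) = shS (shS z) := by
  have h : (DB 0).comp shS = shS.comp shS := by
    refine MvPolynomial.algHom_ext fun v => ?_
    rw [AlgHom.comp_apply, AlgHom.comp_apply, br1_shS_X, br1_DB_X, if_neg (by simp),
      if_neg (by simp), br1_shS_X]
  exact DFunLike.congr_fun h z

private theorem br1_shS_DB (m : ℕ) (z : EE) : shS (DB m z) = DB (m + 1) (shS z) := by
  have h : shS.comp (DB m) = (DB (m + 1)).comp shS := by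
    refine MvPolynomial.algHom_ext fun v => ?_
    obtain ⟨a, n⟩ := v
    rw [AlgHom.comp_apply, AlgHom.comp_apply, br1_shS_X, br1_DB_X, br1_DB_X]
    dsimp only
    by_cases h1 : a < m
    · rw [if_pos h1, if_pos (show a + 1 < m + 1 by omega), br1_shS_X]
    · rw [if_neg h1, if_neg (show ¬ (a + 1 < m + 1) by omega)]
      by_cases h2 : a = m
      · subst h2
        rw [if_pos rfl, if_pos rfl]
        by_cases h3 : n = 0
        · rw [if_pos h3, if_pos h3, map_mul, br1_shS_X, br1_shS_X]
        · rw [if_neg h3, if_neg h3, map_sum]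
          refine Finset.sum_congr rfl fun i _ => ?_
          rw [map_mul, map_mul, map_pow, map_pow, br1_shS_xS, br1_shS_xS, br1_shS_X]
      · rw [if_neg h2, if_neg (show ¬ (a + 1 = m + 1) by omega), br1_shS_X]
  exact DFunLike.congr_fun h z

private theorem br1_DB_slot0 (m : ℕ) (c : PP) : DB (m + 1) (slot0 c) = slot0 c := by
  have h : (DB (m + 1)).comp slot0 = slot0 := by
    refine MvPolynomial.algHom_ext fun n => ?_
    rw [AlgHom.comp_apply, br1_slot0_X, br1_DB_X, if_pos (by simp)]
  exact DFunLike.congr_fun h c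

private theorem br1_DB_zero_slot0 (c : PP) :
    DB 0 (slot0 c) = Algebra.TensorProduct.productMap slot0 (shS.comp slot0) (Dl c) := by
  have h : (DB 0).comp slot0 = (Algebra.TensorProduct.productMap slot0 (shS.comp slot0)).comp Dl := by
    refine MvPolynomial.algHom_ext fun n => ?_
    rw [AlgHom.comp_apply, AlgHom.comp_apply, br1_slot0_X, br1_DB_X, if_neg (by simp), if_pos rfl]
    dsimp only
    by_cases hn : n = 0
    · subst hn
      rw [if_pos rfl]
      have h1 : Dl (X 0) = T ⊗ₜ[ZMod 2] T := by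
        have := Dl_T
        unfold T at this ⊢
        exact this
      rw [h1, Algebra.TensorProduct.productMap_apply_tmul, AlgHom.comp_apply, br1_slot0_T,
        br1_shS_X]
    · rw [if_neg hn]
      have h1 : (X n : PP) = xi n := by
        unfold xi
        rw [if_neg hn]
      rw [h1, Dl_xi, map_sum]
      refine Finset.sum_congr rfl fun i _ => ?_
      rw [Algebra.TensorProduct.productMap_apply_tmul, AlgHom.comp_apply, map_mul, map_pow,
        map_pow, br1_slot0_xi, br1_slot0_xi, br1_slot0_T, br1_shS_xS]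
  exact DFunLike.congr_fun h c

private theorem br1_assoc {N : Type} [AddCommGroup N] [Module (ZMod 2) N] (f : N →ₗ[ZMod 2] EE)
    (u : PP ⊗[ZMod 2] PP) (y : N) :
    br1_jn (br1_jn f) (TensorProduct.assoc (ZMod 2) PP PP N (u ⊗ₜ[ZMod 2] y)) =
      Algebra.TensorProduct.productMap slot0 (shS.comp slot0) u * shS (shS (f y)) := by
  induction u using TensorProduct.induction_on with
  | zero => rw [TensorProduct.zero_tmul, map_zero, map_zero, map_zero, zero_mul]
  | tmul a b =>
    rw [TensorProduct.assoc_tmul, Algebra.TensorProduct.productMap_apply_tmul, AlgHom.comp_apply,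
      br1_jn_tmul, br1_jn_tmul, map_mul, ← mul_assoc]
  | add u v hu hv =>
    rw [TensorProduct.add_tmul, map_add, map_add, hu, hv, map_add, add_mul]

private theorem br1_step (A : Pre) (f : A.N →ₗ[ZMod 2] EE) (s : ℕ)
    (h : ∀ x : A.N, br1_jn f (A.δ x) = f x + ∑ m ∈ Finset.range s, DB m (f x))
    (x : PP ⊗[ZMod 2] A.N) : br1_jn (br1_jn f) (nextδ A x) =
      br1_jn f x + ∑ m ∈ Finset.range (s + 1), DB m (br1_jn f x) := by
  induction x using TensorProduct.induction_on with
  | zero => simp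
  | tmul c y =>
    rw [nextδ_tmul, map_add, br1_assoc, br1_jn_tmul, br1_jn_tmul, h, map_add, map_sum,
      Finset.sum_range_succ', mul_add, Finset.mul_sum, map_mul, br1_DB_zero_slot0, br1_DB_shS]
    have h3 : ∀ m, DB (m + 1) (slot0 c * shS (f y)) = slot0 c * shS (DB m (f y)) := by
      intro m
      rw [map_mul, br1_DB_slot0, br1_shS_DB]
    rw [Finset.sum_congr rfl fun m _ => h3 m]
    ring
  | add x y hx hy =>
    rw [map_add, map_add, hx, hy, map_add]
    simp only [map_add]
    rw [Finset.sum_add_distrib]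
    ring

private theorem br1_key : ∀ (s : ℕ) (x : (itT s).N), br1_jn (thS s) ((itT s).δ x) =
    thS s x + ∑ m ∈ Finset.range s, DB m (thS s x)
  | 0, x => by
    have h1 := br1_jn_tmul (thS 0) 1 x
    rw [map_one, one_mul] at h1
    rw [Finset.range_zero, Finset.sum_empty, add_zero]
    refine h1.trans ?_
    exact AlgHom.commutes shS x
  | (s + 1), x => br1_step (itT s) (thS s) s (br1_key s) x

theorem thS_d (w s : ℕ) (x : (itT s).N) :
    thS (s + 1) ((itT s).d w x) = dB w s (thS s x) := by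
  have h1 : thS (s + 1) ((itT s).d w x) = br1_jn (thS s) ((itT s).d w x) := rfl
  rw [h1, d_apply, map_add, br1_jn_tmul, br1_key, map_pow, br1_slot0_T]
  unfold dB
  ring

end

end Pool.Agent.Pet19
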