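import Pool.Agent.Pet19.BrD

/-!
# Pet19.Br2: `thS s` is an isomorphism onto the polynomials in the slots `< s`

Inverse: `split : EE →ₐ PP ⊗ EE`, `X (0, n) ↦ X n ⊗ 1`, `X (m+1, n) ↦ 1 ⊗ X (m, n)` satisfies
`joinL ∘ split = id`, `split ∘ joinL = id`.  `thS (s+1) = joinL ∘ (1 ⊗ thS s)` is injective by
induction (flatness).  Surjectivity: `split` maps polynomials in the slots `< s+1` to the image of
`PP ⊗ (polynomials in the slots < s)` (`supported` is generated as an algebra by the variables,
`MvPolynomial.supported_eq_adjoin_X`, or use `MvPolynomial.induction_on` for renamed polynomials).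
-/

set_option autoImplicit false
open MvPolynomial TensorProduct

namespace Pool.Agent.Pet19

noncomputable section

private theorem slot0_X (n : ℕ) : slot0 (X n) = X (0, n) := by
  simp [slot0]

private theorem shS_X (v : ℕ × ℕ) : shS (X v) = X (v.1 + 1, v.2) := by
  simp [shS]

private theorem joinL_tmul (c : PP) (z : EE) : joinL (c ⊗ₜ[ZMod 2] z) = slot0 c * shS z := by
  simp [joinL]

private def joinA : PP ⊗[ZMod 2] EE →ₐ[ZMod 2] EE := Algebra.TensorProduct.productMap slot0 shS

private theorem joinA_tmul (c : PP) (z : EE) : joinA (c ⊗ₜ[ZMod 2] z) = slot0 c * shS z := by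
  unfold joinA
  rw [Algebra.TensorProduct.productMap_apply_tmul]

private theorem joinL_eq (u : PP ⊗[ZMod 2] EE) : joinL u = joinA u := by
  induction u using TensorProduct.induction_on with
  | zero => rw [map_zero, map_zero]
  | tmul c z => rw [joinL_tmul, joinA_tmul]
  | add u v hu hv => rw [map_add, map_add, hu, hv]

private def splitV (v : ℕ × ℕ) : PP ⊗[ZMod 2] EE :=
  if v.1 = 0 then (X v.2 : PP) ⊗ₜ[ZMod 2] (1 : EE) else (1 : PP) ⊗ₜ[ZMod 2] (X (v.1 - 1, v.2) : EE)

private def splitA : EE →ₐ[ZMod 2] PP ⊗[ZMod 2] EE := aeval splitV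

private theorem splitA_X (v : ℕ × ℕ) : splitA (X v) = splitV v := by
  unfold splitA
  rw [aeval_X]

private theorem join_split (z : EE) : joinL (splitA z) = z := by
  rw [joinL_eq]
  have h : joinA.comp splitA = AlgHom.id (ZMod 2) EE := by
    refine MvPolynomial.algHom_ext fun v => ?_
    obtain ⟨m, n⟩ := v
    rw [AlgHom.comp_apply, splitA_X, AlgHom.id_apply]
    unfold splitV
    dsimp only
    cases m with
    | zero => rw [if_pos rfl, joinA_tmul, slot0_X, map_one, mul_one]
    | succ m =>
      rw [if_neg (Nat.succ_ne_zero m), joinA_tmul, map_one, one_mul, shS_X]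
      rfl
  have h2 := congrArg (fun f => f z) h
  exact h2

private theorem split_join (u : PP ⊗[ZMod 2] EE) : splitA (joinL u) = u := by
  rw [joinL_eq]
  have h : splitA.comp joinA = AlgHom.id (ZMod 2) (PP ⊗[ZMod 2] EE) := by
    refine Algebra.TensorProduct.ext ?_ ?_
    · refine MvPolynomial.algHom_ext fun n => ?_
      change splitA (joinA ((X n : PP) ⊗ₜ[ZMod 2] (1 : EE))) = (X n : PP) ⊗ₜ[ZMod 2] (1 : EE)
      rw [joinA_tmul, slot0_X, map_one, mul_one, splitA_X]
      unfold splitV
      rw [if_pos rfl]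
    · refine MvPolynomial.algHom_ext fun v => ?_
      change splitA (joinA ((1 : PP) ⊗ₜ[ZMod 2] (X v : EE))) = (1 : PP) ⊗ₜ[ZMod 2] (X v : EE)
      rw [joinA_tmul, shS_X, map_one, one_mul, splitA_X]
      unfold splitV
      rw [if_neg (Nat.succ_ne_zero _)]
      rfl
  have h2 := congrArg (fun f => f u) h
  exact h2

private theorem thS_succ (s : ℕ) (x : PP ⊗[ZMod 2] (itT s).N) :
    thS (s + 1) x = joinL (LinearMap.lTensor PP (thS s) x) := rfl

theorem thS_inj (s : ℕ) : Function.Injective (thS s) := by
  induction s with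
  | zero =>
    intro x y h
    exact MvPolynomial.C_injective (ℕ × ℕ) (ZMod 2) h
  | succ s ih =>
    intro x y h
    have h1 : joinL (LinearMap.lTensor PP (thS s) x) = joinL (LinearMap.lTensor PP (thS s) y) := h
    have h2 := congrArg splitA h1
    rw [split_join, split_join] at h2
    exact Module.Flat.lTensor_preserves_injective_linearMap (M := PP) (thS s) ih h2

private theorem slot0_supp (s : ℕ) (c : PP) :
    slot0 c ∈ supported (ZMod 2) {v : ℕ × ℕ | v.1 < s + 1} := by
  induction c using MvPolynomial.induction_on with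
  | C a =>
    have : slot0 (C a) = algebraMap (ZMod 2) EE a := by
      rw [← MvPolynomial.algebraMap_eq, AlgHom.commutes]
    rw [this]
    exact Subalgebra.algebraMap_mem _ a
  | add p q hp hq =>
    rw [map_add]
    exact Subalgebra.add_mem _ hp hq
  | mul_X p n hp =>
    rw [map_mul, slot0_X]
    refine Subalgebra.mul_mem _ hp ?_
    exact MvPolynomial.X_mem_supported.2 (Nat.succ_pos s)

private theorem shS_supp (s : ℕ) {z : EE} (hz : z ∈ supported (ZMod 2) {v : ℕ × ℕ | v.1 < s}) :
    shS z ∈ supported (ZMod 2) {v : ℕ × ℕ | v.1 < s + 1} := by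
  rw [supported_eq_adjoin_X] at hz
  induction hz using Algebra.adjoin_induction with
  | mem x hx =>
    obtain ⟨v, hv, rfl⟩ := hx
    rw [shS_X]
    have hv' : v.1 < s := hv
    exact MvPolynomial.X_mem_supported.2 (show v.1 + 1 < s + 1 by omega)
  | algebraMap r =>
    rw [AlgHom.commutes]
    exact Subalgebra.algebraMap_mem _ r
  | add x y _ _ hx hy =>
    rw [map_add]
    exact Subalgebra.add_mem _ hx hy
  | mul x y _ _ hx hy =>
    rw [map_mul]
    exact Subalgebra.mul_mem _ hx hy

theorem thS_supp (s : ℕ) (x : (itT s).N) :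
    thS s x ∈ supported (ZMod 2) {v : ℕ × ℕ | v.1 < s} := by
  induction s with
  | zero => exact Subalgebra.algebraMap_mem _ _
  | succ s ih =>
    have h : ∀ u : PP ⊗[ZMod 2] (itT s).N, joinL (LinearMap.lTensor PP (thS s) u) ∈
        supported (ZMod 2) {v : ℕ × ℕ | v.1 < s + 1} := by
      intro u
      induction u using TensorProduct.induction_on with
      | zero =>
        rw [map_zero, map_zero]
        exact Subalgebra.zero_mem _
      | tmul c y =>
        rw [LinearMap.lTensor_tmul, joinL_tmul]
        exact Subalgebra.mul_mem _ (slot0_supp s c) (shS_supp s (ih y))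
      | add u v hu hv =>
        rw [map_add, map_add]
        exact Subalgebra.add_mem _ hu hv
    exact h x

private theorem split_mem (s : ℕ) {z : EE}
    (hz : z ∈ supported (ZMod 2) {v : ℕ × ℕ | v.1 < s + 1}) :
    splitA z ∈ (Algebra.TensorProduct.map (AlgHom.id (ZMod 2) PP)
      (supported (ZMod 2) {v : ℕ × ℕ | v.1 < s}).val).range := by
  rw [supported_eq_adjoin_X] at hz
  induction hz using Algebra.adjoin_induction with
  | mem x hx =>
    obtain ⟨v, hv, rfl⟩ := hx
    obtain ⟨m, n⟩ := v
    rw [splitA_X]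
    unfold splitV
    dsimp only
    cases m with
    | zero =>
      rw [if_pos rfl]
      exact ⟨(X n : PP) ⊗ₜ[ZMod 2] 1, by
        change Algebra.TensorProduct.map _ _ _ = _
        rw [Algebra.TensorProduct.map_tmul]
        rfl⟩
    | succ m =>
      rw [if_neg (Nat.succ_ne_zero m)]
      have hm : (m + 1, n).1 < s + 1 := hv
      have hm' : m < s := by
        dsimp only at hm
        omega
      exact ⟨(1 : PP) ⊗ₜ[ZMod 2] ⟨X (m, n), MvPolynomial.X_mem_supported.2 hm'⟩, by
        change Algebra.TensorProduct.map _ _ _ = _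
        rw [Algebra.TensorProduct.map_tmul]
        rfl⟩
  | algebraMap r =>
    rw [AlgHom.commutes]
    exact Subalgebra.algebraMap_mem _ r
  | add x y _ _ hx hy =>
    rw [map_add]
    exact Subalgebra.add_mem _ hx hy
  | mul x y _ _ hx hy =>
    rw [map_mul]
    exact Subalgebra.mul_mem _ hx hy

theorem thS_surj (s : ℕ) (z : EE) (hz : z ∈ supported (ZMod 2) {v : ℕ × ℕ | v.1 < s}) :
    ∃ x : (itT s).N, thS s x = z := by
  induction s generalizing z with
  | zero =>
    have he : {v : ℕ × ℕ | v.1 < 0} = ∅ := by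
      ext v
      simp
    rw [he, supported_empty] at hz
    obtain ⟨x, hx⟩ := Algebra.mem_bot.1 hz
    exact ⟨x, hx⟩
  | succ s ih =>
    obtain ⟨w, hw⟩ := split_mem s hz
    have h : ∀ w : PP ⊗[ZMod 2] (supported (ZMod 2) {v : ℕ × ℕ | v.1 < s}),
        ∃ x : PP ⊗[ZMod 2] (itT s).N, LinearMap.lTensor PP (thS s) x =
          Algebra.TensorProduct.map (AlgHom.id (ZMod 2) PP)
            (supported (ZMod 2) {v : ℕ × ℕ | v.1 < s}).val w := by
      intro w
      induction w using TensorProduct.induction_on with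
      | zero => exact ⟨0, by rw [map_zero, map_zero]⟩
      | tmul c y =>
        obtain ⟨x, hx⟩ := ih y.1 y.2
        refine ⟨c ⊗ₜ[ZMod 2] x, ?_⟩
        rw [LinearMap.lTensor_tmul, Algebra.TensorProduct.map_tmul, hx]
        rfl
      | add u v hu hv =>
        obtain ⟨x, hx⟩ := hu
        obtain ⟨y, hy⟩ := hv
        exact ⟨x + y, by rw [map_add, map_add, hx, hy]⟩
    obtain ⟨x, hx⟩ := h w
    refine ⟨x, ?_⟩
    rw [thS_succ, hx]
    have hw' : Algebra.TensorProduct.map (AlgHom.id (ZMod 2) PP)
      (supported (ZMod 2) {v : ℕ × ℕ | v.1 < s}).val w = splitA z := hw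
    rw [hw', join_split]

end

end Pool.Agent.Pet19
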