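import Pool.Agent.Pet19.Br1
import Pool.Agent.Pet19.Br2

/-!
# Pet19.Br3: from `V w s triv` to the polynomial complex

`V w (s+2) A = V w (s+1) A.next`, and iterating `next` from inside or from outside is the same:
prove for `A : Pre` and `itA A : ℕ → Pre`, `itA A 0 = A`, `itA A (s+1) = (itA A s).next`, that
`itA A.next s = itA A (s+1)` and so `V w (s+1) A ↔ V w 1 (itA A s)`; `itA triv = itT`.
-/

set_option autoImplicit false
open MvPolynomial TensorProduct

namespace Pool.Agent.Pet19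

noncomputable section

private theorem br3_V_aux (w : ℕ) : ∀ (s k : ℕ), V w (s + 1) (itT k) → V w 1 (itT (k + s))
  | 0, _, h => h
  | (s + 1), k, h => by
    have h1 : V w (s + 1) (itT (k + 1)) := h
    have h2 := br3_V_aux w s (k + 1) h1
    have h3 : k + 1 + s = k + (s + 1) := by omega
    rw [h3] at h2
    exact h2

theorem V_itT (w s : ℕ) (h : V w (s + 1) triv) (x : (itT (s + 1)).N)
    (hx : (itT (s + 1)).d w x = 0) : ∃ y : (itT s).N, (itT s).d w y = x := by
  have h1 : V w 1 (itT (0 + s)) := br3_V_aux w s 0 h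
  rw [Nat.zero_add] at h1
  exact h1 x hx

theorem cobarB (w s : ℕ) (h : V w s triv) (z : EE)
    (hz : z ∈ supported (ZMod 2) {v : ℕ × ℕ | v.1 < s}) (hd : dB w s z = 0) :
    z = 0 ∨ ∃ n : ℕ, s = n + 1 ∧
      ∃ y ∈ supported (ZMod 2) {v : ℕ × ℕ | v.1 < n}, dB w n y = z := by
  obtain ⟨x, hx⟩ := thS_surj s z hz
  have h1 : thS (s + 1) ((itT s).d w x) = 0 := by rw [thS_d, hx, hd]
  have h0 : thS (s + 1) (0 : (itT (s + 1)).N) = 0 := map_zero _
  have h2 : (itT s).d w x = 0 := thS_inj (s + 1) (h1.trans h0.symm)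
  cases s with
  | zero =>
    left
    have h3 : x = 0 := h x h2
    rw [← hx, h3, map_zero]
  | succ n =>
    right
    obtain ⟨y, hy⟩ := V_itT w n h x h2
    refine ⟨n, rfl, thS n y, thS_supp n y, ?_⟩
    rw [← thS_d, hy, hx]

end

end Pool.Agent.Pet19
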