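import Pool.Agent.Pet19.BrD

/-!
# Pet19.Br4: the embedding `JJ` and its retraction

`JJ_DE`, `JJ_shS`, `JJ_supp`: on generators (for `JJ_shS`: the `ZMod 2`-span of monomials; each
variable of weight `w` picks up `T_0^w`).
`exists_rr`: let `lam : EE →ₐ AddMonoidAlgebra EE (ℕ →₀ ℤ)` be the algebra map
`X (l, 0) ↦ single (e_(l+1)) 1`, `X (m, n+1) ↦ single (-(2^(n+1)-1) ∑_(l ≤ m) e_l) (X (m, n))`, and let `rr z`
be the coefficient of `lam z` at `-t e_0`.
* `lam (DB m z) = (DE m ⊗ σ_m) (lam z)` with `σ_m : (ℕ →₀ ℤ) → (ℕ →₀ ℤ)` the injective additive map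
`e_l ↦ e_l (l ≤ m), e_(m+1) ↦ e_(m+1) + e_(m+2), e_l ↦ e_(l+1) (l ≥ m+2)` (check on generators), and
`σ_m (-t e_0) = -t e_0`.
* `lam (shS z) = (shS ⊗ σ') (lam z)` with `σ' e_0 = e_0 + e_1`, `σ' e_l = e_(l+1)` (`l ≥ 1`), injective, so the
coefficient of `lam (X (0,0)^t * shS z)` at `-t e_0` is the one of `(shS ⊗ σ')(lam z)` at `-t e_0 - t e_1`.
* `lam (JJ (X (m, n))) = single (-(2^(n+1)-1) e_0) (X (m, n))`.
* supports: coefficients of `lam z` only involve slots of `z`.
-/

set_option autoImplicit false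
open MvPolynomial

namespace Pool.Agent.Pet19

noncomputable section

private theorem br4x_JJX (a b : ℕ) : JJ (X (a, b)) =
    X (a, b + 1) * ∏ l ∈ Finset.range a, X (l, 0) ^ (2 ^ (b + 1) - 1) := by
  unfold JJ
  rw [aeval_X]

private theorem br4x_JJxi (m b : ℕ) :
    JJ (if b = 0 then (1 : EE) else X (m, b - 1)) =
      xS m b * ∏ l ∈ Finset.range m, X (l, 0) ^ (2 ^ b - 1) := by
  unfold xS
  rcases Nat.eq_zero_or_pos b with h | h
  · subst h; simp
  · obtain ⟨c, rfl⟩ : ∃ c, b = c + 1 := ⟨b - 1, by omega⟩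
    rw [if_neg (by omega), if_neg (by omega), Nat.add_sub_cancel, br4x_JJX]

private theorem br4x_DBlt (m a b : ℕ) (h : a < m) : DB m (X (a, b)) = X (a, b) := by
  unfold DB
  rw [aeval_X, if_pos h]

private theorem br4x_DBgt (m a b : ℕ) (h : m < a) : DB m (X (a, b)) = X (a + 1, b) := by
  unfold DB
  rw [aeval_X, if_neg (by simp; omega), if_neg (by simp; omega)]

private theorem br4x_DBT (m : ℕ) : DB m (X (m, 0)) = X (m, 0) * X (m + 1, 0) := by
  unfold DB
  rw [aeval_X, if_neg (by simp), if_pos rfl, if_pos rfl]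

private theorem br4x_DBX (m n : ℕ) : DB m (X (m, n + 1)) =
    ∑ i ∈ Finset.range (n + 2),
      (xS m (n + 1 - i) ^ (2 ^ i) * X (m, 0) ^ (2 ^ i - 1)) * xS (m + 1) i := by
  unfold DB
  rw [aeval_X, if_neg (by simp), if_pos rfl, if_neg (by simp)]

private theorem br4x_prod (m a w : ℕ) (h : m < a) :
    ∏ l ∈ Finset.range a, (DB m (X (l, 0)) : EE) ^ w =
      ∏ l ∈ Finset.range (a + 1), (X (l, 0) : EE) ^ w := by
  induction a with
  | zero => omega
  | succ a ih =>
    rw [Finset.prod_range_succ, Finset.prod_range_succ _ (a + 1)]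
    rcases Nat.lt_or_ge m a with h1 | h1
    · rw [ih h1, br4x_DBgt m a 0 h1]
    · have : m = a := by omega
      subst this
      rw [br4x_DBT, mul_pow, ← mul_assoc, Finset.prod_range_succ]
      congr 2
      apply Finset.prod_congr rfl
      intro l hl
      rw [br4x_DBlt m l 0 (Finset.mem_range.mp hl)]

theorem JJ_DE (m : ℕ) (p : EE) : JJ (DE m p) = DB m (JJ p) := by
  suffices h : JJ.comp (DE m) = (DB m).comp JJ from DFunLike.congr_fun h p
  apply MvPolynomial.algHom_ext
  rintro ⟨a, b⟩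
  rw [AlgHom.comp_apply, AlgHom.comp_apply, br4x_JJX, map_mul, map_prod]
  simp only [map_pow]
  rcases Nat.lt_trichotomy a m with h | h | h
  · unfold DE
    rw [aeval_X, if_pos h, br4x_JJX, br4x_DBlt m a (b + 1) h]
    congr 1
    apply Finset.prod_congr rfl
    intro l hl
    rw [br4x_DBlt m l 0 (by have := Finset.mem_range.mp hl; omega)]
  · subst h
    have e1 : ∏ l ∈ Finset.range a, (DB a (X (l, 0)) : EE) ^ (2 ^ (b + 1) - 1) =
        ∏ l ∈ Finset.range a, (X (l, 0) : EE) ^ (2 ^ (b + 1) - 1) := by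
      apply Finset.prod_congr rfl
      intro l hl
      rw [br4x_DBlt a l 0 (Finset.mem_range.mp hl)]
    rw [e1, br4x_DBX, Finset.sum_mul]
    unfold DE
    rw [aeval_X, if_neg (by simp), if_pos rfl, map_sum]
    apply Finset.sum_congr rfl
    intro i hi
    have hi' : i < b + 2 := Finset.mem_range.mp hi
    have e2 : (if i = b + 1 then (1 : EE) else X (a, b - i)) =
        (if b + 1 - i = 0 then (1 : EE) else X (a, (b + 1 - i) - 1)) := by
      rcases Nat.lt_or_ge i (b + 1) with h1 | h1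
      · rw [if_neg (by omega), if_neg (by omega)]
        congr 2
        omega
      · rw [if_pos (by omega), if_pos (by omega)]
    rw [e2, map_mul, map_pow, br4x_JJxi, br4x_JJxi, Finset.prod_range_succ, mul_pow,
      ← Finset.prod_pow]
    have e3 : (∏ l ∈ Finset.range a, ((X (l, 0) : EE) ^ (2 ^ (b + 1 - i) - 1)) ^ 2 ^ i) *
        (∏ l ∈ Finset.range a, (X (l, 0) : EE) ^ (2 ^ i - 1)) =
        ∏ l ∈ Finset.range a, (X (l, 0) : EE) ^ (2 ^ (b + 1) - 1) := by
      rw [← Finset.prod_mul_distrib]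
      apply Finset.prod_congr rfl
      intro l _
      rw [← pow_mul, ← pow_add]
      congr 1
      have h2 : 2 ^ (b + 1 - i) * 2 ^ i = 2 ^ (b + 1) := by
        rw [← pow_add]; congr 1; omega
      have h3 : 1 ≤ 2 ^ (b + 1 - i) := Nat.one_le_two_pow
      have h4 : 1 ≤ 2 ^ i := Nat.one_le_two_pow
      have h5 : (2 ^ (b + 1 - i) - 1) * 2 ^ i = 2 ^ (b + 1) - 2 ^ i := by
        rw [Nat.sub_mul, h2, one_mul]
      have h6 : 2 ^ i ≤ 2 ^ (b + 1) := Nat.pow_le_pow_right (by norm_num) (by omega)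
      rw [h5]
      omega
    rw [← e3]
    ring
  · have e1 : DE m (X (a, b)) = X (a + 1, b) := by
      unfold DE
      rw [aeval_X, if_neg (by simp; omega), if_neg (by simp; omega)]
    rw [e1, br4x_JJX, br4x_DBgt m a (b + 1) h, br4x_prod m a _ h]

private theorem br4x_mono (c : (ℕ × ℕ) →₀ ℕ) (r : ZMod 2) :
    JJ (shS (monomial c r)) =
      X (0, 0) ^ (Finsupp.weight wtE c) * shS (JJ (monomial c r)) := by
  have hX : ∀ v : ℕ × ℕ, JJ (shS (X v)) = X (0, 0) ^ (wtE v) * shS (JJ (X v)) := by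
    rintro ⟨a, b⟩
    rw [br4x_JJX]
    unfold shS
    rw [rename_X, br4x_JJX, map_mul, rename_X, map_prod, Finset.prod_range_succ']
    simp only [map_pow, rename_X]
    ring
  induction c using Finsupp.induction_linear generalizing r with
  | zero =>
    have : (monomial (0 : (ℕ × ℕ) →₀ ℕ) r : EE) = algebraMap (ZMod 2) EE r := rfl
    rw [this, AlgHom.commutes, AlgHom.commutes, AlgHom.commutes]
    simp
  | add c c' ih ih' =>
    have e : (monomial (c + c') r : EE) = monomial c r * monomial c' 1 := by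
      rw [monomial_mul, mul_one]
    rw [e, map_mul, map_mul, map_mul, map_mul, ih, ih', map_add, pow_add]
    ring
  | single v n =>
    have e : (monomial (Finsupp.single v n) r : EE) = algebraMap (ZMod 2) EE r * X v ^ n := by
      rw [MvPolynomial.algebraMap_eq, C_mul_X_pow_eq_monomial]
    rw [e, map_mul, map_mul, map_mul, map_mul, AlgHom.commutes, AlgHom.commutes,
      AlgHom.commutes, map_pow, map_pow, map_pow, map_pow, hX, mul_pow, ← pow_mul]
    have e2 : Finsupp.weight wtE (Finsupp.single v n) = wtE v * n := by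
      rw [Finsupp.weight_single, smul_eq_mul, mul_comm]
    rw [e2]
    ring

theorem JJ_shS (t : ℕ) (p : EE) (hp : IsWeightedHomogeneous wtE p t) :
    JJ (shS p) = X (0, 0) ^ t * shS (JJ p) := by
  conv_lhs => rw [p.as_sum]
  conv_rhs => rw [p.as_sum]
  rw [map_sum, map_sum, map_sum, map_sum, Finset.mul_sum]
  apply Finset.sum_congr rfl
  intro c hc
  rw [br4x_mono, hp (mem_support_iff.mp hc)]

theorem JJ_supp (s : ℕ) (p : EE) (hp : p ∈ supported (ZMod 2) {v : ℕ × ℕ | v.1 < s}) :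
    JJ p ∈ supported (ZMod 2) {v : ℕ × ℕ | v.1 < s} := by
  have h1 : (supported (ZMod 2) {v : ℕ × ℕ | v.1 < s}) ≤
      (supported (ZMod 2) {v : ℕ × ℕ | v.1 < s}).comap JJ := by
    conv_lhs => rw [supported]
    rw [Algebra.adjoin_le_iff]
    rintro _ ⟨⟨a, b⟩, hv, rfl⟩
    have hv' : a < s := hv
    change JJ (X (a, b)) ∈ supported (ZMod 2) {v : ℕ × ℕ | v.1 < s}
    rw [br4x_JJX]
    apply Subalgebra.mul_mem
    · exact X_mem_supported.mpr hv'
    · apply Subalgebra.prod_mem
      intro l hl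
      apply Subalgebra.pow_mem
      exact X_mem_supported.mpr (lt_trans (Finset.mem_range.mp hl) hv')
  exact h1 hp

end

end Pool.Agent.Pet19
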