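import Pool.Agent.Pet19.BrD

/-!
# Pet19.Br5: the retraction of `JJ`

See the header of `Pet19.Br4` for the construction: let
`lam : EE →ₐ AddMonoidAlgebra EE (ℕ → ℤ)` be the algebra map
`X (l, 0) ↦ single (e_(l+1)) 1`, `X (m, n+1) ↦ single (-(2^(n+1)-1) ∑_(l ≤ m) e_l) (X (m, n))`, and let `rr z`
be the coefficient of `lam z` at `-t e_0`.
* `lam (DB m z) = (DE m ⊗ σ_m) (lam z)` with `σ_m` the injective additive map
`e_l ↦ e_l (l ≤ m), e_(m+1) ↦ e_(m+1) + e_(m+2), e_l ↦ e_(l+1) (l ≥ m+2)` (check on generators), and
`σ_m (-t e_0) = -t e_0`.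
* `lam (shS z) = (shS ⊗ σ') (lam z)` with `σ' e_0 = e_0 + e_1`, `σ' e_l = e_(l+1)` (`l ≥ 1`), injective, so the
coefficient of `lam (X (0,0)^t * shS z)` at `-t e_0` is the one of `(shS ⊗ σ')(lam z)` at `-t e_0 - t e_1`.
* `lam (JJ (X (m, n))) = single (-(2^(n+1)-1) e_0) (X (m, n))`.
* supports: coefficients of `lam z` only involve slots of `z`.
(Exponents are arbitrary functions `ℕ → ℤ`; the maps `σ` are compositions with surjections of `ℕ`.)
-/

set_option autoImplicit false
open MvPolynomial

namespace Pool.Agent.Pet19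

noncomputable section

/-- Laurent polynomials over `EE` -/
abbrev Br5A := AddMonoidAlgebra EE (ℕ → ℤ)

/-- exponents of the generators -/
def br5ex (v : ℕ × ℕ) : ℕ → ℤ := fun j =>
  if v.2 = 0 then (if j = v.1 + 1 then 1 else 0) else (if j ≤ v.1 then -((2 : ℤ) ^ v.2 - 1) else 0)

/-- coefficients of the generators -/
def br5cf (v : ℕ × ℕ) : EE := if v.2 = 0 then 1 else X (v.1, v.2 - 1)

/-- the algebra map `lam` -/
def br5lam : EE →ₐ[ZMod 2] Br5A :=
  aeval (fun v : ℕ × ℕ => (AddMonoidAlgebra.single (br5ex v) (br5cf v) : Br5A))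

theorem br5lam_X (v : ℕ × ℕ) : br5lam (X v) = AddMonoidAlgebra.single (br5ex v) (br5cf v) := by
  unfold br5lam
  rw [aeval_X]

theorem br5_single_sum {ι : Type*} (s : Finset ι) (e : ℕ → ℤ) (f : ι → EE) :
    (AddMonoidAlgebra.single e (∑ i ∈ s, f i) : Br5A) =
      ∑ i ∈ s, AddMonoidAlgebra.single e (f i) := by
  classical
  induction s using Finset.induction_on with
  | empty => simp
  | insert a s ha ih =>
    rw [Finset.sum_insert ha, Finset.sum_insert ha, ← ih, AddMonoidAlgebra.single_add]

/-- the ring map `φ ⊗ (precomposition with c)` -/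
def br5psi (φ : EE →ₐ[ZMod 2] EE) (c : ℕ → ℕ) : Br5A →+* Br5A :=
  (AddMonoidAlgebra.mapRingHom (ℕ → ℤ) (φ : EE →+* EE)).comp
    (AddMonoidAlgebra.mapDomainRingHom EE (LinearMap.funLeft ℤ ℤ c).toAddMonoidHom)

theorem br5psi_single (φ : EE →ₐ[ZMod 2] EE) (c : ℕ → ℕ) (e : ℕ → ℤ) (p : EE) :
    br5psi φ c (AddMonoidAlgebra.single e p) = AddMonoidAlgebra.single (fun j => e (c j)) (φ p) := by
  unfold br5psi
  simp only [RingHom.comp_apply, AddMonoidAlgebra.mapDomainRingHom_apply,
    AddMonoidAlgebra.mapDomain_single, AddMonoidAlgebra.mapRingHom_single]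
  rfl

theorem br5psi_coeff (φ : EE →ₐ[ZMod 2] EE) {c : ℕ → ℕ} (hc : Function.Surjective c) (x : Br5A)
    (e : ℕ → ℤ) : (br5psi φ c x).coeff (fun j => e (c j)) = φ (x.coeff e) := by
  unfold br5psi
  rw [RingHom.comp_apply, AddMonoidAlgebra.coeff_mapRingHom,
    AddMonoidAlgebra.mapDomainRingHom_apply]
  have hinj : Function.Injective (LinearMap.funLeft ℤ ℤ c).toAddMonoidHom := by
    intro a b hab
    funext j
    obtain ⟨i, rfl⟩ := hc j
    exact congrFun hab i
  have h1 : (AddMonoidAlgebra.mapDomain (LinearMap.funLeft ℤ ℤ c).toAddMonoidHom x).coeff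
      (fun j => e (c j)) = x.coeff e := by
    show (Finsupp.mapDomain (LinearMap.funLeft ℤ ℤ c).toAddMonoidHom x.coeff)
      ((LinearMap.funLeft ℤ ℤ c).toAddMonoidHom e) = x.coeff e
    exact Finsupp.mapDomain_apply hinj _ _
  rw [h1]
  rfl

/-- two ring maps from `EE` agree if they agree on the variables -/
theorem br5_ext {A : Type*} [CommRing A] {f g : EE →+* A} (h : ∀ v, f (X v) = g (X v)) (z : EE) :
    f z = g z := by
  have : f = g := by
    apply MvPolynomial.ringHom_ext
    · intro r
      have h1 : f.comp C = g.comp C := Subsingleton.elim _ _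
      exact congrArg (fun k : ZMod 2 →+* A => k r) h1
    · exact h
  rw [this]

/-- the surjection for `DB m` -/
def br5c (m j : ℕ) : ℕ := if j ≤ m + 1 then j else j - 1

theorem br5c_surj (m : ℕ) : Function.Surjective (br5c m) := by
  intro l
  by_cases h : l ≤ m + 1
  · exact ⟨l, by unfold br5c; rw [if_pos h]⟩
  · exact ⟨l + 1, by unfold br5c; rw [if_neg (by omega)]; omega⟩

theorem br5lam_xS (m n : ℕ) (hn : n ≠ 0) : br5lam (xS m n) =
    AddMonoidAlgebra.single (fun j => if j ≤ m then -((2 : ℤ) ^ n - 1) else 0) (X (m, n - 1)) := by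
  unfold xS
  rw [if_neg hn, br5lam_X]
  unfold br5ex br5cf
  simp only [if_neg hn]

theorem br5lam_DB (m : ℕ) (z : EE) : br5lam (DB m z) = br5psi (DE m) (br5c m) (br5lam z) := by
  refine br5_ext (f := (br5lam : EE →+* Br5A).comp (DB m : EE →+* EE))
    (g := (br5psi (DE m) (br5c m)).comp (br5lam : EE →+* Br5A)) (fun v => ?_) z
  obtain ⟨l, n⟩ := v
  simp only [RingHom.comp_apply, RingHom.coe_coe]
  rw [br5lam_X, br5psi_single]
  unfold DB
  rw [aeval_X]
  simp only
  rcases lt_trichotomy l m with hl | hl | hl
  · rw [if_pos hl, br5lam_X]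
    unfold br5ex br5cf br5c
    by_cases hn : n = 0
    · simp only [hn, if_true, map_one]
      congr 1
      funext j
      by_cases hj : j ≤ m + 1
      · rw [if_pos hj]
      · rw [if_neg hj, if_neg (by omega), if_neg (by omega)]
    · simp only [hn, if_false]
      congr 1
      · funext j
        by_cases hj : j ≤ m + 1
        · rw [if_pos hj]
        · rw [if_neg hj, if_neg (by omega), if_neg (by omega)]
      · unfold DE
        rw [aeval_X]
        simp only [if_pos hl]
  · subst hl
    rw [if_neg (lt_irrefl _), if_pos rfl]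
    by_cases hn : n = 0
    · subst hn
      rw [if_pos rfl, map_mul, br5lam_X, br5lam_X, AddMonoidAlgebra.single_mul_single]
      unfold br5ex br5cf br5c
      simp only [if_true, map_one, mul_one]
      congr 1
      funext j
      simp only [Pi.add_apply]
      by_cases hj : j ≤ l + 1
      · rw [if_pos hj, if_neg (show ¬ j = l + 1 + 1 by omega), add_zero]
      · rw [if_neg hj, if_neg (show ¬ j = l + 1 by omega), zero_add]
        by_cases hj2 : j = l + 1 + 1
        · rw [if_pos hj2, if_pos (by omega)]
        · rw [if_neg hj2, if_neg (by omega)]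
    · rw [if_neg hn, map_sum]
      obtain ⟨k, rfl⟩ : ∃ k, n = k + 1 := ⟨n - 1, by omega⟩
      have hexp : (fun j => br5ex (l, k + 1) (br5c l j)) =
          fun j => if j ≤ l then -((2 : ℤ) ^ (k + 1) - 1) else 0 := by
        funext j
        unfold br5ex br5c
        simp only [Nat.succ_ne_zero, if_false]
        by_cases hj : j ≤ l + 1
        · rw [if_pos hj]
        · rw [if_neg hj, if_neg (by omega), if_neg (by omega)]
      rw [hexp]
      have hDE : DE l (br5cf (l, k + 1)) = ∑ a ∈ Finset.range (k + 2),
          (if a = k + 1 then (1 : EE) else X (l, k - a)) ^ (2 ^ a)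
          * (if a = 0 then (1 : EE) else X (l + 1, a - 1)) := by
        unfold br5cf DE
        simp only [Nat.succ_ne_zero, if_false, Nat.add_sub_cancel]
        rw [aeval_X]
        simp only [lt_irrefl, if_false, if_true]
      rw [hDE]
      have hsum : AddMonoidAlgebra.single (fun j => if j ≤ l then -((2 : ℤ) ^ (k + 1) - 1) else 0)
          (∑ a ∈ Finset.range (k + 2),
          (if a = k + 1 then (1 : EE) else X (l, k - a)) ^ (2 ^ a)
          * (if a = 0 then (1 : EE) else X (l + 1, a - 1))) =
          ∑ a ∈ Finset.range (k + 2),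
          (AddMonoidAlgebra.single (fun j => if j ≤ l then -((2 : ℤ) ^ (k + 1) - 1) else 0)
          ((if a = k + 1 then (1 : EE) else X (l, k - a)) ^ (2 ^ a)
          * (if a = 0 then (1 : EE) else X (l + 1, a - 1))) : Br5A) :=
        br5_single_sum _ _ _
      rw [hsum]
      refine Finset.sum_congr rfl fun a ha => ?_
      have ha' : a ≤ k + 1 := by
        have := Finset.mem_range.1 ha
        omega
      -- the three factors
      have hpow : ∀ b : ℕ, (((2 ^ b - 1 : ℕ) : ℕ) : ℤ) = (2 : ℤ) ^ b - 1 := by
        intro b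
        have : 1 ≤ 2 ^ b := Nat.one_le_two_pow
        push_cast [Nat.cast_sub this]
        ring
      have f1 : br5lam (xS l (k + 1 - a)) = AddMonoidAlgebra.single
          (fun j => if j ≤ l then -((2 : ℤ) ^ (k + 1 - a) - 1) else 0)
          (if a = k + 1 then (1 : EE) else X (l, k - a)) := by
        by_cases h : a = k + 1
        · subst h
          rw [if_pos rfl, Nat.sub_self]
          unfold xS
          rw [if_pos rfl, map_one, AddMonoidAlgebra.one_def]
          congr 1
          funext j
          simp
        · rw [br5lam_xS _ _ (by omega), if_neg h]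
          congr 3
          omega
      have f2 : br5lam (X (l, 0)) = AddMonoidAlgebra.single
          (fun j => if j = l + 1 then (1 : ℤ) else 0) (1 : EE) := by
        rw [br5lam_X]
        unfold br5ex br5cf
        simp only [if_true]
      have f3 : br5lam (xS (l + 1) a) = AddMonoidAlgebra.single
          (fun j => if j ≤ l + 1 then -((2 : ℤ) ^ a - 1) else 0)
          (if a = 0 then (1 : EE) else X (l + 1, a - 1)) := by
        by_cases h : a = 0
        · subst h
          rw [if_pos rfl]
          unfold xS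
          rw [if_pos rfl, map_one, AddMonoidAlgebra.one_def]
          congr 1
          funext j
          simp
        · rw [br5lam_xS _ _ h, if_neg h]
      rw [map_mul, map_mul, map_pow, map_pow, f1, f2, f3, AddMonoidAlgebra.single_pow,
        AddMonoidAlgebra.single_pow, AddMonoidAlgebra.single_mul_single,
        AddMonoidAlgebra.single_mul_single]
      congr 1
      · funext j
        simp only [Pi.add_apply, Pi.smul_apply]
        simp only [nsmul_eq_mul]
        rw [hpow]
        have h2 : (2 : ℤ) ^ (k + 1) = 2 ^ a * 2 ^ (k + 1 - a) := by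
          rw [← pow_add]
          congr 1
          omega
        rw [h2]
        push_cast
        by_cases hj : j ≤ l
        · rw [if_pos hj, if_neg (show ¬ j = l + 1 by omega), if_pos (show j ≤ l + 1 by omega),
            if_pos hj]
          ring
        · rw [if_neg hj, if_neg hj]
          by_cases hj2 : j = l + 1
          · rw [if_pos hj2, if_pos (show j ≤ l + 1 by omega)]
            ring
          · rw [if_neg hj2, if_neg (show ¬ j ≤ l + 1 by omega)]
            ring
      · rw [one_pow, mul_one]
  · rw [if_neg (by omega), if_neg (by omega), br5lam_X]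
    unfold br5ex br5cf br5c
    by_cases hn : n = 0
    · simp only [hn, if_true, map_one]
      congr 1
      funext j
      by_cases hj : j ≤ m + 1
      · rw [if_pos hj, if_neg (by omega), if_neg (by omega)]
      · rw [if_neg hj]
        by_cases hj2 : j = l + 1 + 1
        · rw [if_pos hj2, if_pos (by omega)]
        · rw [if_neg hj2, if_neg (by omega)]
    · simp only [hn, if_false]
      congr 1
      · funext j
        by_cases hj : j ≤ m + 1
        · rw [if_pos hj, if_pos (by omega), if_pos (by omega)]
        · rw [if_neg hj]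
          by_cases hj2 : j ≤ l + 1
          · rw [if_pos hj2, if_pos (by omega)]
          · rw [if_neg hj2, if_neg (by omega)]
      · unfold DE
        rw [aeval_X]
        simp only
        rw [if_neg (by omega), if_neg (by omega)]

theorem br5lam_shS (z : EE) : br5lam (shS z) = br5psi shS (fun j => j - 1) (br5lam z) := by
  refine br5_ext (f := (br5lam : EE →+* Br5A).comp (shS : EE →+* EE))
    (g := (br5psi shS (fun j => j - 1)).comp (br5lam : EE →+* Br5A)) (fun v => ?_) z
  obtain ⟨l, n⟩ := v
  simp only [RingHom.comp_apply, RingHom.coe_coe]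
  rw [br5lam_X, br5psi_single]
  have h1 : shS (X (l, n)) = X (l + 1, n) := by
    unfold shS
    rw [rename_X]
  rw [h1, br5lam_X]
  unfold br5ex br5cf
  by_cases hn : n = 0
  · simp only [hn, if_true, map_one]
    congr 1
    funext j
    by_cases hj : j = l + 1 + 1
    · rw [if_pos hj, if_pos (by omega)]
    · rw [if_neg hj, if_neg (by omega)]
  · simp only [hn, if_false]
    congr 1
    · funext j
      by_cases hj : j ≤ l + 1
      · rw [if_pos hj, if_pos (by omega)]
      · rw [if_neg hj, if_neg (by omega)]
    · unfold shS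
      rw [rename_X]

/-- the exponent `-t e_0` -/
def br5e (t : ℕ) : ℕ → ℤ := fun j => if j = 0 then -(t : ℤ) else 0

theorem br5lam_JJ_X (v : ℕ × ℕ) : br5lam (JJ (X v)) =
    AddMonoidAlgebra.single (br5e (wtE v)) (X v) := by
  obtain ⟨m, n⟩ := v
  unfold JJ
  rw [aeval_X, map_mul, map_prod]
  simp only
  have h1 : ∀ M : ℕ, (∏ l ∈ Finset.range M, br5lam (X (l, 0) ^ (2 ^ (n + 1) - 1))) =
      AddMonoidAlgebra.single (fun j => if 1 ≤ j ∧ j ≤ M then (2 : ℤ) ^ (n + 1) - 1 else 0)
        (1 : EE) := by
    intro M
    induction M with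
    | zero =>
      rw [Finset.prod_range_zero, AddMonoidAlgebra.one_def]
      congr 1
      funext j
      rw [if_neg (by omega)]
      rfl
    | succ M ih =>
      rw [Finset.prod_range_succ, ih, map_pow, br5lam_X, AddMonoidAlgebra.single_pow,
        AddMonoidAlgebra.single_mul_single]
      congr 1
      · funext j
        have : 1 ≤ 2 ^ (n + 1) := Nat.one_le_two_pow
        unfold br5ex
        simp only [Pi.add_apply, Pi.smul_apply, if_true]
        simp only [nsmul_eq_mul]
        push_cast [Nat.cast_sub this]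
        by_cases hj : j = M + 1
        · rw [if_pos hj, if_neg (by omega), if_pos (by omega)]
          ring
        · rw [if_neg hj]
          by_cases hj2 : 1 ≤ j ∧ j ≤ M
          · rw [if_pos hj2, if_pos (by omega)]
            ring
          · rw [if_neg hj2, if_neg (by omega)]
            ring
      · unfold br5cf
        simp
  rw [h1, br5lam_X, AddMonoidAlgebra.single_mul_single]
  congr 1
  · funext j
    have : 1 ≤ 2 ^ (n + 1) := Nat.one_le_two_pow
    unfold br5ex br5e
    simp only [Pi.add_apply, Nat.succ_ne_zero, if_false]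
    push_cast [Nat.cast_sub this]
    by_cases hj : j = 0
    · rw [if_pos hj, if_pos (by omega), if_neg (by omega)]
      ring
    · rw [if_neg hj]
      by_cases hj2 : j ≤ m
      · rw [if_pos hj2, if_pos (by omega)]
        ring
      · rw [if_neg hj2, if_neg (by omega)]
        ring
  · unfold br5cf
    simp

theorem br5lam_JJ_mon (s : ℕ × ℕ →₀ ℕ) : br5lam (JJ (monomial s 1)) =
    AddMonoidAlgebra.single (br5e (Finsupp.weight wtE s)) (monomial s 1) := by
  induction s using Finsupp.induction_linear with
  | zero =>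
    rw [show (monomial (0 : ℕ × ℕ →₀ ℕ) (1 : ZMod 2)) = 1 from rfl, map_one, map_one, map_zero,
      AddMonoidAlgebra.one_def]
    congr 1
    funext j
    unfold br5e
    simp
  | add a b ha hb =>
    have h1 : (monomial (a + b) (1 : ZMod 2)) = monomial a 1 * monomial b 1 := by
      rw [monomial_mul, one_mul]
    rw [h1, map_mul, map_mul, ha, hb, AddMonoidAlgebra.single_mul_single, map_add]
    congr 1
    funext j
    unfold br5e
    simp only [Pi.add_apply]
    push_cast
    split_ifs <;> ring
  | single v k =>
    have h1 : (monomial (Finsupp.single v k) (1 : ZMod 2)) = X v ^ k := by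
      rw [X_pow_eq_monomial]
    rw [h1, map_pow, map_pow, br5lam_JJ_X, AddMonoidAlgebra.single_pow, Finsupp.weight_single]
    congr 1
    funext j
    unfold br5e
    simp only [Pi.smul_apply, smul_eq_mul, nsmul_eq_mul]
    push_cast
    split_ifs <;> ring

theorem br5lam_JJ (t : ℕ) (p : EE) (hp : IsWeightedHomogeneous wtE p t) :
    br5lam (JJ p) = AddMonoidAlgebra.single (br5e t) p := by
  have h1 : br5lam (JJ p) = ∑ s ∈ p.support,
      (AddMonoidAlgebra.single (br5e t) (monomial s (coeff s p)) : Br5A) := by
    conv_lhs => rw [← p.support_sum_monomial_coeff]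
    rw [map_sum, map_sum]
    refine Finset.sum_congr rfl fun s hs => ?_
    have h2 : (monomial s (coeff s p)) = coeff s p • (monomial s (1 : ZMod 2)) := by
      rw [smul_monomial, smul_eq_mul, mul_one]
    rw [h2, map_smul, map_smul, br5lam_JJ_mon, hp (mem_support_iff.1 hs),
      AddMonoidAlgebra.smul_single]
  rw [h1, ← br5_single_sum, p.support_sum_monomial_coeff]

theorem br5_supp (n : ℕ) (z : EE) (hz : z ∈ supported (ZMod 2) {v : ℕ × ℕ | v.1 < n})
    (e : ℕ → ℤ) : (br5lam z).coeff e ∈ supported (ZMod 2) {v : ℕ × ℕ | v.1 < n} := by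
  classical
  unfold supported at hz
  induction hz using Algebra.adjoin_induction generalizing e with
  | mem x hx =>
    obtain ⟨v, hv, rfl⟩ := hx
    rw [br5lam_X, AddMonoidAlgebra.coeff_single, Finsupp.single_apply]
    split_ifs with h
    · unfold br5cf
      split_ifs with h0
      · exact Subalgebra.one_mem _
      · exact X_mem_supported.2 hv
    · exact Subalgebra.zero_mem _
  | algebraMap r =>
    rw [AlgHom.commutes, Algebra.algebraMap_eq_smul_one, AddMonoidAlgebra.coeff_smul_apply,
      AddMonoidAlgebra.one_def, AddMonoidAlgebra.coeff_single, Finsupp.single_apply]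
    apply Subalgebra.smul_mem
    split_ifs
    · exact Subalgebra.one_mem _
    · exact Subalgebra.zero_mem _
  | add x y _ _ hx hy =>
    rw [map_add, AddMonoidAlgebra.coeff_add]
    exact Subalgebra.add_mem _ (hx e) (hy e)
  | mul x y _ _ hx hy =>
    rw [map_mul, AddMonoidAlgebra.coeff_mul]
    refine Subalgebra.sum_mem _ fun a _ => Subalgebra.sum_mem _ fun b _ => ?_
    simp only
    split_ifs
    · exact Subalgebra.mul_mem _ (hx a) (hy b)
    · exact Subalgebra.zero_mem _

theorem exists_rr (t : ℕ) : ∃ rr : EE →ₗ[ZMod 2] EE,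
    (∀ m z, rr (DB m z) = DE m (rr z)) ∧
    (∀ z, rr (X (0, 0) ^ t * shS z) = shS (rr z)) ∧
    (∀ p, IsWeightedHomogeneous wtE p t → rr (JJ p) = p) ∧
    (∀ n z, z ∈ supported (ZMod 2) {v : ℕ × ℕ | v.1 < n} →
      rr z ∈ supported (ZMod 2) {v : ℕ × ℕ | v.1 < n}) := by
  let rr : EE →ₗ[ZMod 2] EE :=
    { toFun := fun z => (br5lam z).coeff (br5e t)
      map_add' := fun x y => by rw [map_add, AddMonoidAlgebra.coeff_add]; rfl
      map_smul' := fun c x => by
        rw [map_smul, AddMonoidAlgebra.coeff_smul_apply]; rfl }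
  refine ⟨rr, fun m z => ?_, fun z => ?_, fun p hp => ?_, fun n z hz => br5_supp n z hz _⟩
  · show (br5lam (DB m z)).coeff (br5e t) = DE m ((br5lam z).coeff (br5e t))
    rw [br5lam_DB]
    have h := br5psi_coeff (DE m) (br5c_surj m) (br5lam z) (br5e t)
    rw [← h]
    congr 1
    funext j
    unfold br5e br5c
    by_cases hj : j ≤ m + 1
    · rw [if_pos hj]
    · rw [if_neg hj, if_neg (by omega), if_neg (by omega)]
  · show (br5lam (X (0, 0) ^ t * shS z)).coeff (br5e t) = shS ((br5lam z).coeff (br5e t))
    rw [map_mul, map_pow, br5lam_X, AddMonoidAlgebra.single_pow,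
      AddMonoidAlgebra.coeff_single_mul_apply, br5lam_shS]
    have h := br5psi_coeff shS (c := fun j => j - 1) (fun l => ⟨l + 1, rfl⟩) (br5lam z) (br5e t)
    rw [← h]
    have h1 : br5cf (0, 0) ^ t = 1 := by
      unfold br5cf
      simp
    rw [h1, one_mul]
    congr 1
    funext j
    unfold br5e br5ex
    simp only [Pi.add_apply, Pi.neg_apply, Pi.smul_apply, if_true, zero_add]
    simp only [nsmul_eq_mul]
    by_cases hj : j = 0
    · subst hj
      simp
    · rw [if_neg hj]
      by_cases hj1 : j = 1
      · rw [if_pos hj1, if_pos (by omega)]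
        ring
      · rw [if_neg hj1, if_neg (by omega)]
        ring
  · show (br5lam (JJ p)).coeff (br5e t) = p
    rw [br5lam_JJ t p hp, AddMonoidAlgebra.coeff_single, Finsupp.single_eq_same]

end

end Pool.Agent.Pet19
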