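import Pool.Agent.Pet19.Br3
import Pool.Agent.Pet19.Br4
import Pool.Agent.Pet19.Br5

/-!
# Pet19.Br6: from `V t s triv` to the explicit cobar complex

For a cocycle `p` of weight `t`: `dB t s (JJ p) = JJ (d p) = 0`, so `JJ p = 0` or `JJ p = dB t n y` by
`cobarB`; apply `rr`: `rr (dB t n y) = shS (rr y) + rr y + ∑ DE m (rr y)` and `rr (JJ p) = p`.
-/

set_option autoImplicit false
open MvPolynomial

namespace Pool.Agent.Pet19

noncomputable section

theorem bridge (s t : ℕ) (h : V t s triv) (p : MvPolynomial (ℕ × ℕ) (ZMod 2))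
    (hp : p ∈ MvPolynomial.supported (ZMod 2) {v : ℕ × ℕ | v.1 < s})
    (hw : MvPolynomial.IsWeightedHomogeneous (fun v : ℕ × ℕ => 2 ^ (v.2 + 1) - 1) p t)
    (hd : shS p + p + ∑ m ∈ Finset.range s, DE m p = 0) :
    p = 0 ∨ ∃ n : ℕ, s = n + 1 ∧
      ∃ q ∈ MvPolynomial.supported (ZMod 2) {v : ℕ × ℕ | v.1 < n},
        shS q + q + ∑ m ∈ Finset.range n, DE m q = p := by
  obtain ⟨rr, hr1, hr2, hr3, hr4⟩ := exists_rr t
  have hz : dB t s (JJ p) = 0 := by
    unfold dB
    rw [← JJ_shS t p hw]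
    have h1 : ∑ m ∈ Finset.range s, DB m (JJ p) = JJ (∑ m ∈ Finset.range s, DE m p) := by
      rw [map_sum]
      exact Finset.sum_congr rfl fun m _ => (JJ_DE m p).symm
    rw [h1, ← map_add, ← map_add, hd, map_zero]
  rcases cobarB t s h (JJ p) (JJ_supp s p hp) hz with h0 | ⟨n, hn, y, hy, hyz⟩
  · left
    rw [← hr3 p hw, h0, map_zero]
  · right
    refine ⟨n, hn, rr y, hr4 n y hy, ?_⟩
    have h2 : rr (dB t n y) = p := by rw [hyz, hr3 p hw]
    rw [← h2]
    unfold dB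
    rw [map_add, map_add, hr2, map_sum]
    congr 1
    exact Finset.sum_congr rfl fun m _ => (hr1 m y).symm

end

end Pool.Agent.Pet19
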