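import Pool.Agent.Pet19.Defs

/-!
# Pet19.BrD: definitions for the comparison with the explicit cobar complex
-/

set_option autoImplicit false
open MvPolynomial TensorProduct

namespace Pool.Agent.Pet19

/-- polynomials in the variables `(m, n)` -/
abbrev EE := MvPolynomial (ℕ × ℕ) (ZMod 2)

noncomputable section

/-- the iterated `next` of the trivial comodule: the cobar complex of `PP` -/
def itT : ℕ → Pre
  | 0 => triv
  | (s + 1) => (itT s).next

/-- `PP` in slot `0`: `X n ↦ X (0, n)` -/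
@[irreducible] def slot0 : PP →ₐ[ZMod 2] EE := rename (fun n : ℕ => ((0, n) : ℕ × ℕ))

/-- shift of the slots -/
@[irreducible] def shS : EE →ₐ[ZMod 2] EE := rename (fun v : ℕ × ℕ => (v.1 + 1, v.2))

/-- `c ⊗ z ↦ slot0 c * shS z` -/
@[irreducible] def joinL : PP ⊗[ZMod 2] EE →ₗ[ZMod 2] EE :=
  LinearMap.mul' (ZMod 2) EE ∘ₗ TensorProduct.map slot0.toLinearMap shS.toLinearMap

/-- the map from the cobar complex of `PP` to polynomials -/
def thS : ∀ s : ℕ, (itT s).N →ₗ[ZMod 2] EE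
  | 0 => Algebra.linearMap (ZMod 2) EE
  | (s + 1) => joinL ∘ₗ LinearMap.lTensor PP (thS s)

/-- `xi_n` in slot `m` (with `T` being the variable `(m, 0)`) -/
@[irreducible] def xS (m n : ℕ) : EE := if n = 0 then 1 else X (m, n)

/-- comultiplication in slot `m` -/
@[irreducible] def DB (m : ℕ) : EE →ₐ[ZMod 2] EE :=
  aeval (fun v : ℕ × ℕ =>
    if v.1 < m then (X v : EE)
    else if v.1 = m then
      (if v.2 = 0 then X (m, 0) * X (m + 1, 0)
        else ∑ i ∈ Finset.range (v.2 + 1),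
          (xS m (v.2 - i) ^ (2 ^ i) * X (m, 0) ^ (2 ^ i - 1)) * xS (m + 1) i)
    else X (v.1 + 1, v.2))

/-- the differential on polynomials in the first `s` slots -/
def dB (w s : ℕ) (z : EE) : EE :=
  X (0, 0) ^ w * shS z + z + ∑ m ∈ Finset.range s, DB m z

/-- comultiplication in slot `m` of the explicit cobar complex (variable `(m, n)` is `xi_(n+1)` in
slot `m`) -/
@[irreducible] def DE (m : ℕ) : EE →ₐ[ZMod 2] EE :=
  aeval (fun v : ℕ × ℕ =>
    if v.1 < m then (X v : MvPolynomial (ℕ × ℕ) (ZMod 2))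
    else if v.1 = m then
      ∑ a ∈ Finset.range (v.2 + 2),
        (if a = v.2 + 1 then (1 : MvPolynomial (ℕ × ℕ) (ZMod 2)) else X (m, v.2 - a)) ^ (2 ^ a)
          * (if a = 0 then (1 : MvPolynomial (ℕ × ℕ) (ZMod 2)) else X (m + 1, a - 1))
    else X (v.1 + 1, v.2))

/-- the explicit cobar complex inside polynomials with weight variables:
`xi_(n+1)` in slot `m` is multiplied by `T_l^(2^(n+1)-1)` for all `l < m` -/
@[irreducible] def JJ : EE →ₐ[ZMod 2] EE :=
  aeval (fun v : ℕ × ℕ => X (v.1, v.2 + 1) * ∏ l ∈ Finset.range v.1, X (l, 0) ^ (2 ^ (v.2 + 1) - 1))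

/-- weights -/
abbrev wtE : ℕ × ℕ → ℕ := fun v : ℕ × ℕ => 2 ^ (v.2 + 1) - 1

end

end Pool.Agent.Pet19
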