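import Pool.Agent.Pet19.Defs

/-!
# Pet19.Lin: linear algebra of `PP ⊗ -` and of the functor `next`

Everything is over the field `ZMod 2`, so `PP ⊗ -` is exact.
-/

set_option autoImplicit false
open MvPolynomial TensorProduct

namespace Pool.Agent.Pet19

noncomputable section

theorem add_self_zero {M : Type} [AddCommGroup M] [Module (ZMod 2) M] (x : M) : x + x = 0 := by
  have h : (2 : ZMod 2) • x = 0 := by
    have : (2 : ZMod 2) = 0 := by decide
    rw [this, zero_smul]
  rwa [two_smul] at h

/-- `x + y = 0 ↔ x = y` -/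
theorem add_eq_zero_iff_eq2 {M : Type} [AddCommGroup M] [Module (ZMod 2) M] (x y : M) :
    x + y = 0 ↔ x = y := by
  constructor
  · intro h
    have := add_self_zero y
    exact add_right_cancel (h.trans this.symm)
  · rintro rfl; exact add_self_zero x

/-- naturality of `DlT` -/
theorem DlT_nat {M N : Type} [AddCommGroup M] [Module (ZMod 2) M] [AddCommGroup N]
    [Module (ZMod 2) N] (f : M →ₗ[ZMod 2] N) (x : PP ⊗[ZMod 2] M) :
    DlT N (LinearMap.lTensor PP f x) =
      LinearMap.lTensor PP (LinearMap.lTensor PP f) (DlT M x) := by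
  induction x using TensorProduct.induction_on with
  | zero => simp only [map_zero]
  | add u v hu hv => simp only [map_add, hu, hv]
  | tmul c m =>
    rw [LinearMap.lTensor_tmul, DlT_tmul, DlT_tmul]
    generalize Dl c = w
    induction w using TensorProduct.induction_on with
    | zero => simp only [TensorProduct.zero_tmul, map_zero]
    | add u v hu hv => simp only [TensorProduct.add_tmul, map_add, hu, hv]
    | tmul a b =>
      rw [TensorProduct.assoc_tmul, TensorProduct.assoc_tmul, LinearMap.lTensor_tmul,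
        LinearMap.lTensor_tmul]

theorem lTensor_inj {M N : Type} [AddCommGroup M] [Module (ZMod 2) M] [AddCommGroup N]
    [Module (ZMod 2) N] (Z : Type) [AddCommGroup Z] [Module (ZMod 2) Z]
    {f : M →ₗ[ZMod 2] N} (hf : Function.Injective f) :
    Function.Injective (LinearMap.lTensor Z f) :=
  Module.Flat.lTensor_preserves_injective_linearMap f hf

theorem rTensor_inj {M N : Type} [AddCommGroup M] [Module (ZMod 2) M] [AddCommGroup N]
    [Module (ZMod 2) N] (Z : Type) [AddCommGroup Z] [Module (ZMod 2) Z]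
    {f : M →ₗ[ZMod 2] N} (hf : Function.Injective f) :
    Function.Injective (LinearMap.rTensor Z f) :=
  Module.Flat.rTensor_preserves_injective_linearMap f hf

theorem lTensor_ex {M N Q : Type} [AddCommGroup M] [Module (ZMod 2) M] [AddCommGroup N]
    [Module (ZMod 2) N] [AddCommGroup Q] [Module (ZMod 2) Q]
    (Z : Type) [AddCommGroup Z] [Module (ZMod 2) Z]
    {f : M →ₗ[ZMod 2] N} {g : N →ₗ[ZMod 2] Q} (h : Function.Exact f g) :
    Function.Exact (LinearMap.lTensor Z f) (LinearMap.lTensor Z g) :=
  Module.Flat.lTensor_exact Z h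

theorem rTensor_ex {M N Q : Type} [AddCommGroup M] [Module (ZMod 2) M] [AddCommGroup N]
    [Module (ZMod 2) N] [AddCommGroup Q] [Module (ZMod 2) Q]
    (Z : Type) [AddCommGroup Z] [Module (ZMod 2) Z]
    {f : M →ₗ[ZMod 2] N} {g : N →ₗ[ZMod 2] Q} (h : Function.Exact f g) :
    Function.Exact (LinearMap.rTensor Z f) (LinearMap.rTensor Z g) :=
  Module.Flat.rTensor_exact Z h

/-- `T^w ⊗ -` is injective, more generally `c ⊗ -` for `c ≠ 0` -/
theorem tmul_inj {M : Type} [AddCommGroup M] [Module (ZMod 2) M] {c : PP} (hc : c ≠ 0) {x y : M}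
    (h : c ⊗ₜ[ZMod 2] x = c ⊗ₜ[ZMod 2] y) : x = y := by
  obtain ⟨φ, hφ⟩ : ∃ φ : Module.Dual (ZMod 2) PP, φ c ≠ 0 := by
    by_contra hno
    push Not at hno
    exact hc ((Module.forall_dual_apply_eq_zero_iff (ZMod 2) c).1 hno)
  have h1 := congrArg (fun z => TensorProduct.lid (ZMod 2) M (LinearMap.rTensor M φ z)) h
  simp only [LinearMap.rTensor_tmul, TensorProduct.lid_tmul] at h1
  exact smul_right_injective M hφ h1

theorem T_pow_ne (j : ℕ) : (T ^ j : PP) ≠ 0 := by
  rw [T]
  exact pow_ne_zero _ (X_ne_zero 0)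

/-- multiplication by `T^i` is injective on `PP ⊗ M` -/
theorem mulT_inj {M : Type} [AddCommGroup M] [Module (ZMod 2) M] (i : ℕ) :
    Function.Injective (LinearMap.rTensor M (mT i)) := by
  refine rTensor_inj M fun x y h => ?_
  rw [mT_apply, mT_apply] at h
  exact mul_left_cancel₀ (T_pow_ne i) h

end

end Pool.Agent.Pet19
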