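import Pool.Agent.Pet19.Nx

/-!
# Pet19.Sub: sub and quotient comodules

`retr S` is a linear retraction, `sect S` a linear section.  `IsSub A S` says that `A.δ x` maps to
`0` in `PP ⊗ A.N/S` for `x ∈ S`; equivalently it lies in the image of `PP ⊗ S`, and then
`PP ⊗ retr S` recovers the (unique) preimage.
-/

set_option autoImplicit false
open MvPolynomial TensorProduct

namespace Pool.Agent.Pet19

noncomputable section

theorem isSub_iff (A : Pre) (S : Submodule (ZMod 2) A.N) :
    IsSub A S ↔ ∀ x ∈ S, ∃ u : PP ⊗[ZMod 2] S, LinearMap.lTensor PP S.subtype u = A.δ x := by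
  have hex : Function.Exact S.subtype S.mkQ := by
    intro x
    simp
  have h := lTensor_ex PP hex
  constructor
  · intro hS x hx
    exact (h _).1 (hS x hx)
  · intro hS x hx
    exact (h _).2 (hS x hx)

theorem subP_hom (A : Pre) (S : Submodule (ZMod 2) A.N) (h : IsSub A S) :
    IsHom (subP A S) A S.subtype := by
  intro x
  obtain ⟨u, hu⟩ := (isSub_iff A S).1 h x x.2
  change A.δ (x : A.N) = LinearMap.lTensor PP S.subtype (subδ A S x)
  rw [subδ_apply, ← hu, ← LinearMap.lTensor_comp_apply, ← LinearMap.lTensor_comp_apply]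
  congr 2
  ext y
  change (y : A.N) = ((retr S (y : A.N) : S) : A.N)
  rw [retr_apply]

theorem quoP_hom (A : Pre) (S : Submodule (ZMod 2) A.N) (h : IsSub A S) :
    IsHom A (quoP A S) S.mkQ := by
  intro x
  change quoδ A S (S.mkQ x) = LinearMap.lTensor PP S.mkQ (A.δ x)
  rw [quoδ_apply, ← sub_eq_zero, ← map_sub, ← map_sub]
  apply h
  rw [← Submodule.Quotient.mk_eq_zero, ← Submodule.mkQ_apply, map_sub, sect_apply, sub_self]

/-- a linear map is colinear if its composition with an injective colinear map is -/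
theorem hom_of_inj {A B C : Pre} {f : A.N →ₗ[ZMod 2] B.N} {i : B.N →ₗ[ZMod 2] C.N}
    (hi : IsHom B C i) (hinj : Function.Injective i) (h : IsHom A C (i ∘ₗ f)) : IsHom A B f := by
  intro x
  apply lTensor_inj PP hinj
  have h1 := h x
  have h2 := hi (f x)
  rw [LinearMap.comp_apply] at h1
  rw [← h2, h1, LinearMap.lTensor_comp_apply]

theorem hom_of_surj {A B C : Pre} {q : A.N →ₗ[ZMod 2] B.N} {f : B.N →ₗ[ZMod 2] C.N}
    (hq : IsHom A B q) (hsurj : Function.Surjective q) (h : IsHom A C (f ∘ₗ q)) :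
    IsHom B C f := by
  intro y
  obtain ⟨x, rfl⟩ := hsurj y
  have h1 := h x
  rw [LinearMap.comp_apply, LinearMap.lTensor_comp_apply, ← hq x] at h1
  exact h1

theorem hom_comp {A B C : Pre} {f : A.N →ₗ[ZMod 2] B.N} {g : B.N →ₗ[ZMod 2] C.N}
    (hf : IsHom A B f) (hg : IsHom B C g) : IsHom A C (g ∘ₗ f) := by
  intro x
  rw [LinearMap.comp_apply, hg, hf, LinearMap.lTensor_comp_apply]

/-- naturality of the map used in the counit condition -/
theorem sub_cu_nat {M N : Type} [AddCommGroup M] [Module (ZMod 2) M] [AddCommGroup N]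
    [Module (ZMod 2) N] (f : M →ₗ[ZMod 2] N) (u : PP ⊗[ZMod 2] M) :
    TensorProduct.lid (ZMod 2) N (LinearMap.rTensor N ep.toLinearMap (LinearMap.lTensor PP f u)) =
      f (TensorProduct.lid (ZMod 2) M (LinearMap.rTensor M ep.toLinearMap u)) := by
  induction u using TensorProduct.induction_on with
  | zero => simp only [map_zero]
  | add u v hu hv => simp only [map_add, hu, hv]
  | tmul c m => simp

/-- naturality of the coassociativity condition -/
theorem sub_co_nat {A B : Pre} {f : A.N →ₗ[ZMod 2] B.N} (hf : IsHom A B f)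
    (u : PP ⊗[ZMod 2] A.N) :
    LinearMap.lTensor PP B.δ (LinearMap.lTensor PP f u) =
      LinearMap.lTensor PP (LinearMap.lTensor PP f) (LinearMap.lTensor PP A.δ u) := by
  rw [← LinearMap.lTensor_comp_apply, ← LinearMap.lTensor_comp_apply]
  congr 2
  ext x
  exact hf x

/-- a comodule structure restricts along an injective colinear map -/
theorem cmd_of_inj {A B : Pre} [IsCmd B] {i : A.N →ₗ[ZMod 2] B.N} (hi : IsHom A B i)
    (hinj : Function.Injective i) : IsCmd A := by
  constructor
  · intro x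
    apply lTensor_inj PP (lTensor_inj PP hinj)
    rw [← sub_co_nat hi, ← DlT_nat, ← hi x]
    exact IsCmd.co (i x)
  · intro x
    apply hinj
    rw [← sub_cu_nat, ← hi x]
    exact IsCmd.cu (i x)

theorem cmd_of_surj {A B : Pre} [IsCmd A] {q : A.N →ₗ[ZMod 2] B.N} (hq : IsHom A B q)
    (hsurj : Function.Surjective q) : IsCmd B := by
  constructor
  · intro y
    obtain ⟨x, rfl⟩ := hsurj y
    rw [hq x, sub_co_nat hq, DlT_nat]
    congr 1
    exact IsCmd.co x
  · intro y
    obtain ⟨x, rfl⟩ := hsurj y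
    rw [hq x, sub_cu_nat]
    congr 1
    exact IsCmd.cu x

theorem subP_cmd (A : Pre) [IsCmd A] (S : Submodule (ZMod 2) A.N) (h : IsSub A S) :
    IsCmd (subP A S) := cmd_of_inj (subP_hom A S h) S.injective_subtype

theorem quoP_cmd (A : Pre) [IsCmd A] (S : Submodule (ZMod 2) A.N) (h : IsSub A S) :
    IsCmd (quoP A S) := cmd_of_surj (quoP_hom A S h) S.mkQ_surjective

theorem isSub_ker {A B : Pre} {f : A.N →ₗ[ZMod 2] B.N} (hf : IsHom A B f) :
    IsSub A (LinearMap.ker f) := by
  rw [isSub_iff]
  intro x hx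
  have hex : Function.Exact (LinearMap.ker f).subtype f := by
    intro y
    simp
  refine (lTensor_ex PP hex _).1 ?_
  rw [← hf x, LinearMap.mem_ker.1 hx, map_zero]

theorem isSub_range {A B : Pre} {f : A.N →ₗ[ZMod 2] B.N} (hf : IsHom A B f) :
    IsSub B (LinearMap.range f) := by
  rw [isSub_iff]
  rintro _ ⟨x, rfl⟩
  refine ⟨LinearMap.lTensor PP f.rangeRestrict (A.δ x), ?_⟩
  rw [hf x, ← LinearMap.lTensor_comp_apply]
  congr 1

theorem ses_sub_quo (A : Pre) (S : Submodule (ZMod 2) A.N) (h : IsSub A S) :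
    SES (subP A S) A (quoP A S) S.subtype S.mkQ where
  hi := subP_hom A S h
  hp := quoP_hom A S h
  inj := S.injective_subtype
  surj := S.mkQ_surjective
  ex := by
    intro x
    simp

end

end Pool.Agent.Pet19
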