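import Pool.Agent.Pet19.BiC
import Pool.Agent.Pet19.Lin
import Pool.Agent.Pet19.Sub

/-!
# Pet19.CmdI: the basic comodules are comodules

(`no_index` makes instance search work for nested reducible constructions.)
-/

set_option autoImplicit false
open MvPolynomial TensorProduct

namespace Pool.Agent.Pet19

noncomputable section

private theorem DlT_flip (N : Type) [AddCommGroup N] [Module (ZMod 2) N] (c : PP) (n : N) :
    DlT N (c ⊗ₜ[ZMod 2] n) =
      LinearMap.lTensor PP ((TensorProduct.mk (ZMod 2) PP N).flip n) (Dl c) := by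
  rw [DlT_tmul]
  have h : ∀ u : PP ⊗[ZMod 2] PP, TensorProduct.assoc (ZMod 2) PP PP N (u ⊗ₜ[ZMod 2] n) =
      LinearMap.lTensor PP ((TensorProduct.mk (ZMod 2) PP N).flip n) u := by
    intro u
    induction u using TensorProduct.induction_on with
    | zero => rw [TensorProduct.zero_tmul, map_zero, map_zero]
    | tmul a b =>
      rw [TensorProduct.assoc_tmul, LinearMap.lTensor_tmul, LinearMap.flip_apply,
        TensorProduct.mk_apply]
    | add u v hu hv => rw [TensorProduct.add_tmul, map_add, map_add, hu, hv]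
  exact h _

private theorem DlT_co (N : Type) [AddCommGroup N] [Module (ZMod 2) N] (x : PP ⊗[ZMod 2] N) :
    DlT (PP ⊗[ZMod 2] N) (DlT N x) = LinearMap.lTensor PP (DlT N) (DlT N x) := by
  induction x using TensorProduct.induction_on with
  | zero => simp only [map_zero]
  | tmul c n =>
    have h : DlT N ∘ₗ ((TensorProduct.mk (ZMod 2) PP N).flip n) =
        LinearMap.lTensor PP ((TensorProduct.mk (ZMod 2) PP N).flip n) ∘ₗ Dl.toLinearMap := by
      apply LinearMap.ext
      intro b
      rw [LinearMap.comp_apply, LinearMap.comp_apply, LinearMap.flip_apply,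
        TensorProduct.mk_apply, DlT_flip, AlgHom.toLinearMap_apply]
    rw [DlT_flip, DlT_nat, Dl_co, ← LinearMap.lTensor_comp_apply, ← LinearMap.lTensor_comp_apply,
      h]
  | add u v hu hv => simp only [map_add, hu, hv]

private theorem lid_nat {M N : Type} [AddCommGroup M] [Module (ZMod 2) M] [AddCommGroup N]
    [Module (ZMod 2) N] (f : M →ₗ[ZMod 2] N) (u : PP ⊗[ZMod 2] M) :
    TensorProduct.lid (ZMod 2) N (LinearMap.rTensor N ep.toLinearMap (LinearMap.lTensor PP f u)) =
      f (TensorProduct.lid (ZMod 2) M (LinearMap.rTensor M ep.toLinearMap u)) := by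
  induction u using TensorProduct.induction_on with
  | zero => simp only [map_zero]
  | tmul c n =>
    rw [LinearMap.lTensor_tmul, LinearMap.rTensor_tmul, LinearMap.rTensor_tmul,
      TensorProduct.lid_tmul, TensorProduct.lid_tmul, map_smul]
  | add u v hu hv => simp only [map_add, hu, hv]

private theorem DlT_cu (N : Type) [AddCommGroup N] [Module (ZMod 2) N] (x : PP ⊗[ZMod 2] N) :
    TensorProduct.lid (ZMod 2) (PP ⊗[ZMod 2] N)
      (LinearMap.rTensor (PP ⊗[ZMod 2] N) ep.toLinearMap (DlT N x)) = x := by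
  induction x using TensorProduct.induction_on with
  | zero => simp only [map_zero]
  | tmul c n =>
    rw [DlT_flip, lid_nat, Dl_cu, LinearMap.flip_apply, TensorProduct.mk_apply]
  | add u v hu hv => simp only [map_add, hu, hv]

/-- a coalgebra endomorphism (of the comultiplication) and `DlT` -/
private theorem DlT_end (φ : PP →ₗ[ZMod 2] PP)
    (hφ : ∀ c, Dl (φ c) = TensorProduct.map φ φ (Dl c))
    (N : Type) [AddCommGroup N] [Module (ZMod 2) N] (x : PP ⊗[ZMod 2] N) :
    DlT N (LinearMap.rTensor N φ x) =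
      TensorProduct.map φ (LinearMap.rTensor N φ) (DlT N x) := by
  induction x using TensorProduct.induction_on with
  | zero => simp only [map_zero]
  | tmul c n =>
    rw [LinearMap.rTensor_tmul, DlT_flip, DlT_flip, hφ]
    have h : ∀ u : PP ⊗[ZMod 2] PP,
        LinearMap.lTensor PP ((TensorProduct.mk (ZMod 2) PP N).flip n)
          (TensorProduct.map φ φ u) = TensorProduct.map φ (LinearMap.rTensor N φ)
            (LinearMap.lTensor PP ((TensorProduct.mk (ZMod 2) PP N).flip n) u) := by
      intro u
      induction u using TensorProduct.induction_on with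
      | zero => simp only [map_zero]
      | tmul a b =>
        rw [TensorProduct.map_tmul, LinearMap.lTensor_tmul, LinearMap.lTensor_tmul,
          TensorProduct.map_tmul, LinearMap.flip_apply, LinearMap.flip_apply,
          TensorProduct.mk_apply, TensorProduct.mk_apply, LinearMap.rTensor_tmul]
      | add u v hu hv => simp only [map_add, hu, hv]
    exact h _
  | add u v hu hv => simp only [map_add, hu, hv]

private theorem cmd_end (A : Pre) [hA : IsCmd A] (φ : PP →ₗ[ZMod 2] PP)
    (hφ : ∀ c, Dl (φ c) = TensorProduct.map φ φ (Dl c)) (hε : ∀ c, ep (φ c) = ep c)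
    (δ' : A.N →ₗ[ZMod 2] PP ⊗[ZMod 2] A.N)
    (hδ : ∀ x, δ' x = LinearMap.rTensor A.N φ (A.δ x)) :
    (∀ x : A.N, DlT A.N (δ' x) = LinearMap.lTensor PP δ' (δ' x)) ∧
      ∀ x : A.N, TensorProduct.lid (ZMod 2) A.N
        (LinearMap.rTensor A.N ep.toLinearMap (δ' x)) = x := by
  have hδ' : δ' = LinearMap.rTensor A.N φ ∘ₗ A.δ := LinearMap.ext hδ
  constructor
  · intro x
    rw [hδ x, DlT_end φ hφ, hA.co x]
    have h : ∀ u : PP ⊗[ZMod 2] A.N,
        TensorProduct.map φ (LinearMap.rTensor A.N φ) (LinearMap.lTensor PP A.δ u) =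
          LinearMap.lTensor PP δ' (LinearMap.rTensor A.N φ u) := by
      intro u
      induction u using TensorProduct.induction_on with
      | zero => simp only [map_zero]
      | tmul a b =>
        rw [LinearMap.lTensor_tmul, LinearMap.rTensor_tmul, LinearMap.lTensor_tmul,
          TensorProduct.map_tmul, hδ']
        rfl
      | add u v hu hv => simp only [map_add, hu, hv]
    exact h _
  · intro x
    have h : ∀ u : PP ⊗[ZMod 2] A.N,
        TensorProduct.lid (ZMod 2) A.N
          (LinearMap.rTensor A.N ep.toLinearMap (LinearMap.rTensor A.N φ u)) =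
        TensorProduct.lid (ZMod 2) A.N (LinearMap.rTensor A.N ep.toLinearMap u) := by
      intro u
      induction u using TensorProduct.induction_on with
      | zero => simp only [map_zero]
      | tmul a b =>
        rw [LinearMap.rTensor_tmul, LinearMap.rTensor_tmul, LinearMap.rTensor_tmul,
          AlgHom.toLinearMap_apply, AlgHom.toLinearMap_apply, hε]
      | add u v hu hv => simp only [map_add, hu, hv]
    rw [hδ x, h]
    exact hA.cu x

private theorem Dl_mT (j : ℕ) (c : PP) :
    Dl (mT j c) = TensorProduct.map (mT j) (mT j) (Dl c) := by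
  rw [mT_apply, map_mul, Dl_T_pow]
  have h : ∀ u : PP ⊗[ZMod 2] PP, ((T ^ j) ⊗ₜ[ZMod 2] (T ^ j)) * u =
      TensorProduct.map (mT j) (mT j) u := by
    intro u
    induction u using TensorProduct.induction_on with
    | zero => rw [mul_zero, map_zero]
    | tmul a b =>
      rw [Algebra.TensorProduct.tmul_mul_tmul, TensorProduct.map_tmul, mT_apply, mT_apply]
    | add u v hu hv => rw [mul_add, map_add, hu, hv]
  exact h _

private theorem ep_mT (j : ℕ) (c : PP) : ep (mT j c) = ep c := by
  rw [mT_apply, map_mul, map_pow, ep_T, one_pow, one_mul]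

instance cmd_zeroP : IsCmd zeroP := by
  constructor
  · intro x
    change DlT PUnit ((0 : PUnit →ₗ[ZMod 2] PP ⊗[ZMod 2] PUnit) x) =
      LinearMap.lTensor PP (0 : PUnit →ₗ[ZMod 2] PP ⊗[ZMod 2] PUnit)
        ((0 : PUnit →ₗ[ZMod 2] PP ⊗[ZMod 2] PUnit) x)
    rw [LinearMap.zero_apply, map_zero, map_zero]
  · intro x
    exact Subsingleton.elim _ _

instance cmd_triv : IsCmd triv := by
  constructor
  · intro x
    change DlT (ZMod 2) ((1 : PP) ⊗ₜ[ZMod 2] x) =
      LinearMap.lTensor PP (TensorProduct.mk (ZMod 2) PP (ZMod 2) 1) ((1 : PP) ⊗ₜ[ZMod 2] x)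
    rw [DlT_tmul, map_one, Algebra.TensorProduct.one_def, TensorProduct.assoc_tmul,
      LinearMap.lTensor_tmul, TensorProduct.mk_apply]
  · intro x
    change TensorProduct.lid (ZMod 2) (ZMod 2)
      (LinearMap.rTensor (ZMod 2) ep.toLinearMap ((1 : PP) ⊗ₜ[ZMod 2] x)) = x
    rw [LinearMap.rTensor_tmul, AlgHom.toLinearMap_apply, map_one, TensorProduct.lid_tmul,
      one_smul]

instance cmd_cof (N : Type) [AddCommGroup N] [Module (ZMod 2) N] : IsCmd (no_index (cof N)) := by
  constructor
  · intro x
    exact DlT_co N x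
  · intro x
    exact DlT_cu N x

instance cmd_shift (A : Pre) [IsCmd A] (j : ℕ) : IsCmd (no_index (shift A j)) := by
  have h := cmd_end A (mT j) (Dl_mT j) (ep_mT j) (shiftδ A j) (shiftδ_apply A j)
  exact ⟨h.1, h.2⟩

instance cmd_infl (A : Pre) [IsCmd A] : IsCmd (no_index (infl A)) := by
  have h := cmd_end A FrL (fun c => by rw [FrL_apply, Dl_Fr])
    (fun c => by rw [FrL_apply, ep_Fr]) (inflδ A) (inflδ_apply A)
  exact ⟨h.1, h.2⟩

/-- the coaction is an injective colinear map to the cofree comodule -/
theorem hom_δ (A : Pre) [IsCmd A] : IsHom A (cof A.N) A.δ := by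
  intro x
  exact IsCmd.co x

theorem δ_inj (A : Pre) [IsCmd A] : Function.Injective A.δ := by
  intro x y h
  have hx := IsCmd.cu (A := A) x
  have hy := IsCmd.cu (A := A) y
  rw [← hx, ← hy, h]

instance cmd_Om (A : Pre) [IsCmd A] : IsCmd (no_index (Om A)) :=
  quoP_cmd _ _ (isSub_range (hom_δ A))

theorem ses_Om (A : Pre) [IsCmd A] :
    SES A (cof A.N) (Om A) A.δ (LinearMap.range A.δ).mkQ where
  hi := hom_δ A
  hp := quoP_hom _ _ (isSub_range (hom_δ A))
  inj := δ_inj A
  surj := Submodule.mkQ_surjective _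
  ex := LinearMap.exact_map_mkQ_range A.δ

end

end Pool.Agent.Pet19
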