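import Pool.Agent.Pet19.CmdI

/-!
# Pet19.CmdT: tensor products of comodules are comodules

Reduce to bilinear identities and use `TensorProduct.induction_on` on the (generalized) elements
`A.δ x`, `B.δ y`.
-/

set_option autoImplicit false
open MvPolynomial TensorProduct

namespace Pool.Agent.Pet19

noncomputable section

namespace CmdTAux

variable (M N : Type) [AddCommGroup M] [Module (ZMod 2) M] [AddCommGroup N] [Module (ZMod 2) N]

/-- the iterated star product -/
def star2 : (PP ⊗[ZMod 2] (PP ⊗[ZMod 2] M)) ⊗[ZMod 2] (PP ⊗[ZMod 2] (PP ⊗[ZMod 2] N)) →ₗ[ZMod 2]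
    PP ⊗[ZMod 2] (PP ⊗[ZMod 2] (M ⊗[ZMod 2] N)) :=
  LinearMap.lTensor PP (star M N) ∘ₗ star (PP ⊗[ZMod 2] M) (PP ⊗[ZMod 2] N)

theorem star2_tmul (a b : PP) (u : PP ⊗[ZMod 2] M) (v : PP ⊗[ZMod 2] N) :
    star2 M N ((a ⊗ₜ[ZMod 2] u) ⊗ₜ[ZMod 2] (b ⊗ₜ[ZMod 2] v)) =
      (a * b) ⊗ₜ[ZMod 2] star M N (u ⊗ₜ[ZMod 2] v) := by
  rw [star2, LinearMap.comp_apply, star_tmul, LinearMap.lTensor_tmul]

theorem assoc_mul (z z' : PP ⊗[ZMod 2] PP) (m : M) (n : N) :
    TensorProduct.assoc (ZMod 2) PP PP (M ⊗[ZMod 2] N) ((z * z') ⊗ₜ[ZMod 2] (m ⊗ₜ[ZMod 2] n)) =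
      star2 M N (TensorProduct.assoc (ZMod 2) PP PP M (z ⊗ₜ[ZMod 2] m) ⊗ₜ[ZMod 2]
        TensorProduct.assoc (ZMod 2) PP PP N (z' ⊗ₜ[ZMod 2] n)) := by
  induction z using TensorProduct.induction_on with
  | zero => simp only [zero_mul, TensorProduct.zero_tmul, map_zero]
  | tmul a b =>
    induction z' using TensorProduct.induction_on with
    | zero => simp only [mul_zero, TensorProduct.zero_tmul, TensorProduct.tmul_zero, map_zero]
    | tmul a' b' =>
      rw [Algebra.TensorProduct.tmul_mul_tmul, TensorProduct.assoc_tmul, TensorProduct.assoc_tmul,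
        TensorProduct.assoc_tmul, star2_tmul, star_tmul]
    | add x y hx hy =>
      rw [mul_add, TensorProduct.add_tmul, map_add, hx, hy, TensorProduct.add_tmul, map_add,
        TensorProduct.tmul_add, map_add]
  | add x y hx hy =>
    rw [add_mul, TensorProduct.add_tmul, map_add, hx, hy, TensorProduct.add_tmul, map_add,
      TensorProduct.add_tmul, map_add]

theorem DlT_star (u : PP ⊗[ZMod 2] M) (v : PP ⊗[ZMod 2] N) :
    DlT (M ⊗[ZMod 2] N) (star M N (u ⊗ₜ[ZMod 2] v)) =
      star2 M N (DlT M u ⊗ₜ[ZMod 2] DlT N v) := by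
  induction u using TensorProduct.induction_on with
  | zero => simp only [TensorProduct.zero_tmul, map_zero]
  | tmul a m =>
    induction v using TensorProduct.induction_on with
    | zero => simp only [TensorProduct.tmul_zero, map_zero]
    | tmul b n =>
      rw [star_tmul, DlT_tmul, DlT_tmul, DlT_tmul, map_mul, assoc_mul]
    | add x y hx hy =>
      rw [TensorProduct.tmul_add, map_add, map_add, hx, hy, map_add, TensorProduct.tmul_add, map_add]
  | add x y hx hy =>
    rw [TensorProduct.add_tmul, map_add, map_add, hx, hy, map_add, TensorProduct.add_tmul, map_add]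

theorem lT_star (A B : Pre) (u : PP ⊗[ZMod 2] A.N) (v : PP ⊗[ZMod 2] B.N) :
    LinearMap.lTensor PP (tensδ A B) (star A.N B.N (u ⊗ₜ[ZMod 2] v)) =
      star2 A.N B.N (LinearMap.lTensor PP A.δ u ⊗ₜ[ZMod 2] LinearMap.lTensor PP B.δ v) := by
  induction u using TensorProduct.induction_on with
  | zero => simp only [TensorProduct.zero_tmul, map_zero]
  | tmul a m =>
    induction v using TensorProduct.induction_on with
    | zero => simp only [TensorProduct.tmul_zero, map_zero]
    | tmul b n =>
      rw [star_tmul, LinearMap.lTensor_tmul, LinearMap.lTensor_tmul, LinearMap.lTensor_tmul,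
        tensδ_tmul, star2_tmul]
    | add x y hx hy =>
      rw [TensorProduct.tmul_add, map_add, map_add, hx, hy, map_add, TensorProduct.tmul_add, map_add]
  | add x y hx hy =>
    rw [TensorProduct.add_tmul, map_add, map_add, hx, hy, map_add, TensorProduct.add_tmul, map_add]

theorem lid_star (u : PP ⊗[ZMod 2] M) (v : PP ⊗[ZMod 2] N) :
    TensorProduct.lid (ZMod 2) (M ⊗[ZMod 2] N)
      (LinearMap.rTensor (M ⊗[ZMod 2] N) ep.toLinearMap (star M N (u ⊗ₜ[ZMod 2] v))) =
      TensorProduct.lid (ZMod 2) M (LinearMap.rTensor M ep.toLinearMap u) ⊗ₜ[ZMod 2]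
        TensorProduct.lid (ZMod 2) N (LinearMap.rTensor N ep.toLinearMap v) := by
  induction u using TensorProduct.induction_on with
  | zero => simp only [TensorProduct.zero_tmul, map_zero]
  | tmul a m =>
    induction v using TensorProduct.induction_on with
    | zero => simp only [TensorProduct.tmul_zero, map_zero]
    | tmul b n =>
      rw [star_tmul, LinearMap.rTensor_tmul, LinearMap.rTensor_tmul, LinearMap.rTensor_tmul,
        TensorProduct.lid_tmul, TensorProduct.lid_tmul, TensorProduct.lid_tmul,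
        TensorProduct.smul_tmul_smul, AlgHom.toLinearMap_apply, AlgHom.toLinearMap_apply,
        AlgHom.toLinearMap_apply, map_mul]
    | add x y hx hy =>
      rw [TensorProduct.tmul_add, map_add, map_add, map_add, hx, hy, map_add, map_add,
        TensorProduct.tmul_add]
  | add x y hx hy =>
    rw [TensorProduct.add_tmul, map_add, map_add, map_add, hx, hy, map_add, map_add,
      TensorProduct.add_tmul]

end CmdTAux

instance cmd_tens (A B : Pre) [IsCmd A] [IsCmd B] : IsCmd (no_index (tens A B)) := by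
  constructor
  · intro x
    change DlT (A.N ⊗[ZMod 2] B.N) (tensδ A B x) = LinearMap.lTensor PP (tensδ A B) (tensδ A B x)
    induction x using TensorProduct.induction_on with
    | zero => simp only [map_zero]
    | tmul a b =>
      rw [tensδ_tmul, CmdTAux.DlT_star, CmdTAux.lT_star, (IsCmd.co : IsCo A) a,
        (IsCmd.co : IsCo B) b]
    | add x y hx hy => simp only [map_add, hx, hy]
  · intro x
    change TensorProduct.lid (ZMod 2) (A.N ⊗[ZMod 2] B.N)
      (LinearMap.rTensor (A.N ⊗[ZMod 2] B.N) ep.toLinearMap (tensδ A B x)) = x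
    induction x using TensorProduct.induction_on with
    | zero => simp only [map_zero]
    | tmul a b =>
      rw [tensδ_tmul, CmdTAux.lid_star, (IsCmd.cu : IsCu A) a, (IsCmd.cu : IsCu B) b]
    | add x y hx hy => rw [map_add, map_add, map_add, hx, hy]

end

end Pool.Agent.Pet19
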