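import Pool.Agent.Pet19.CombG

/-!
# Pet19.Comb: the combinatorics of the recursion

Call `l` with `d = l.sum`.  Claims, by strong induction on `(s, w)` (lexicographic):
(C1) `d ≥ 1`, `c ≤ d`, `c ≤ w`, `2s + d + 1 < gb (w - c)` ⟹ `G s l w`;
(C2) `d = 0`, `l ≠ []`, `2s < ga w` ⟹ `G s l w`;
(C3) `d = 1`, `1 ≤ w`, `2s + 1 < gb (w - 1)` ⟹ `G s l w`;
(C4) `d = 2`, all parts `≤ 1`, `1 ≤ w`, `2s + 2 < ga (w - 1)` ⟹ `G s l w`.
If `w < d` use `h0`.  So let `w ≥ d`.  If `d ≥ 1` reorder (`hp`) so that the head `n` is `≥ 1`; apply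
`hr`.  Let `E = μ.sum - ν.sum`.
Successor A (`a = 0`): `w = 2w' + ε + E`, `ε = n % 2`, new list `n/2 :: ν`, `d' = n/2 + |μ| - E`.
Successor B (`a ≥ 1`): `w + a = 2w' + E`, new list `(a+j) :: (n-j) :: ν`, `d' = a + d - E ≥ 1`,
`s' = s - (a+j)`.
Each successor is proved to be `G` by contradiction: if not, the induction hypotheses give upper bounds
for `gb`, `ga` at `w' - c'`, and `w' ≥ d'` (by `h0`).

(C1), A: put `X = ε + E - c` (integer), `w - c = 2w' + X`.  If `X ≤ 0` let `c'' = ⌈-X/2⌉ ≤ d'`;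
`gb (w-c) ≤ 1 + gb (w'-c'')` (`gb_le_half`).  If `X > 0` let `m = X/2`:
`gb (w-c) ≤ 1 + m + gb w'`.  If `d' ≥ 1`: `gb (w'-c'') ≤ 2s + d' + 1` by (C1); since
`d - d' = ⌈n/2⌉ + E` and `1 + max(0, (ε+E)/2) ≤ ⌈n/2⌉ + E` we get `gb (w-c) ≤ 2s + d + 1`.
If `d' = 0`: `n = 1`, `E = |μ|`, `d = 1 + E`, `X = 1 + E - c ≥ 0`, by (C2) `ga w' ≤ 2s`, so
`gb (w-c) ≤ 1 + (1+E)/2 + 1 + 2s ≤ 2s + d + 1`.
(C1), B: `X = E - a - c`, `c'' = ⌈(a+c-E)/2⌉ ≤ d'` or `m = X/2`; by (C1)
`gb (w'-c'') ≤ 2(s-a-j) + (a+d-E) + 1`, so `gb (w-c) ≤ 1 + 2s - 2a - 2j + a + d - E + 1 + max(0,(E-a-c)/2)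
≤ 2s + d + 1`.
(C2) (`n = 0`, `E = 0`, `μ`, `ν` zero lists; here no reordering is needed, the head is `0`):
A: `w = 2w'`, `ga w = ga w'`, use (C2) for `w' < w`.  B: `j = 0`, `w + a = 2w'`, `d' = a`.
`a = 1`: (C3) gives `gb (w'-1) ≤ 2s - 1`, `w = 2(w'-1) + 1`, `ga w = 1 + gb (w'-1) ≤ 2s`.
`a ≥ 2`: (C1) gives `gb (w' - c'') ≤ 2s - a + 1`, `c'' = ⌈a/2⌉`; `a` even: `ga w = ga (w'-a/2) ≤ gb (..)`;
`a` odd (`≥ 3`): `ga w = 1 + gb (..) ≤ 2s + 2 - a ≤ 2s`.
(C3) (`n = 1`, `E = 0`, `ν = μ` all zeros): A: `w = 2w' + 1`, list of zeros, (C2): `ga w' ≤ 2s`,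
`gb (w-1) = ga w' + 1`.  B: `w + a = 2w'`, `d' = a + 1`: `a = 1, j = 0`: new list `1 :: 1 :: zeros`, (C4):
`ga (w'-1) ≤ 2s`, `gb (w-1) = gb (2(w'-1)) = ga (w'-1) + 1 ≤ 2s + 1`.  `a = 1, j = 1`: (C1) with `c = 1`:
`gb (w'-1) ≤ 2(s-2) + 3`.  `a ≥ 2`: `gb (w-1) ≤ 1 + gb (w'-c'') ≤ 1 + 2(s-a-j) + (a+1) + 1 ≤ 2s + 1`,
`c'' = ⌈(a+1)/2⌉`.
(C4) (`n = 1`, `μ` has sum `1`): A, `E = 1`: `w = 2w' + 2`, (C2): `ga w' ≤ 2s`,
`ga (w-1) = 1 + gb w' ≤ 2 + ga w'`.  A, `E = 0`: `w = 2w' + 1`, `d' = 1`, (C1), `c = 0`: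
`ga (w-1) = ga w' ≤ gb w' ≤ 2s + 2`.  B: `w + a = 2w' + E`, `d' = a + 2 - E`,
bound `2(s-a-j) + d' + 1 = 2s - a - 2j + 3 - E` for `gb (w'-c'')`, `c'' = ⌈(a+1-E)/2⌉`.
If `a+1-E` is even: `ga (w-1) = ga (w'-c'') ≤ gb (w'-c'')`, fine; if odd: `ga (w-1) = 1 + gb (w'-c'')
≤ 2s - a - 2j + 4 - E ≤ 2s + 2` (if `a = 1` then `E = 1`).
-/

set_option autoImplicit false

namespace Pool.Agent.Pet19

private theorem comb_sum_le {ν μ : List ℕ} (h : List.Forall₂ (· ≤ ·) ν μ) : ν.sum ≤ μ.sum := by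
  induction h with
  | nil => exact le_rfl
  | cons h1 _ ih =>
    rw [List.sum_cons, List.sum_cons]
    omega

private theorem comb_head (l : List ℕ) (h : 1 ≤ l.sum) : ∃ n μ, 1 ≤ n ∧ l.Perm (n :: μ) := by
  have h1 : ∃ x ∈ l, 1 ≤ x := by
    by_contra hc
    push Not at hc
    have h2 : l.sum = 0 := List.sum_eq_zero fun x hx => by
      have := hc x hx
      omega
    omega
  obtain ⟨x, hx, hx1⟩ := h1
  exact ⟨x, l.erase x, hx1, List.perm_cons_erase hx⟩

private theorem comb_le_sum {l : List ℕ} {x : ℕ} (h : x ∈ l) : x ≤ l.sum :=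
  List.single_le_sum (fun _ _ => Nat.zero_le _) x h

theorem comb_all (G : ℕ → List ℕ → ℕ → Prop)
    (h0 : ∀ s l z, z < l.sum → G s l z)
    (hp : ∀ s (l l' : List ℕ) z, l.Perm l' → G s l z → G s l' z)
    (hr : ∀ s n (μ : List ℕ) z, (∀ ν : List ℕ, List.Forall₂ (· ≤ ·) ν μ →
      (∀ z', z + ν.sum = 2 * z' + n % 2 + μ.sum → G s (n / 2 :: ν) z') ∧
      (∀ a j z', 1 ≤ a → j ≤ n → a + j ≤ s → z + a + ν.sum = 2 * z' + μ.sum →
        G (s - (a + j)) ((a + j) :: (n - j) :: ν) z')) → G s (n :: μ) z) :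
    ∀ (s w : ℕ) (l : List ℕ),
      (1 ≤ l.sum → ∀ c, c ≤ l.sum → c ≤ w → 2 * s + l.sum + 1 < gb (w - c) → G s l w) ∧
      (l.sum = 0 → l ≠ [] → 2 * s < ga w → G s l w) ∧
      (l.sum = 1 → 1 ≤ w → 2 * s + 1 < gb (w - 1) → G s l w) ∧
      (l.sum = 2 → (∀ x ∈ l, x ≤ 1) → 1 ≤ w → 2 * s + 2 < ga (w - 1) → G s l w) := by
  intro s
  induction s using Nat.strong_induction_on with
  | _ s ihs =>
  intro w
  induction w using Nat.strong_induction_on with
  | _ w ihw =>
  -- contrapositive form of the induction hypothesis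
  have B : ∀ (s' w' : ℕ) (l' : List ℕ), (s' < s ∨ (s' = s ∧ w' < w)) → ¬ G s' l' w' →
      l'.sum ≤ w' ∧ (1 ≤ l'.sum → ∀ c, c ≤ l'.sum → gb (w' - c) ≤ 2 * s' + l'.sum + 1) ∧
      (l'.sum = 0 → l' ≠ [] → ga w' ≤ 2 * s') ∧
      (l'.sum = 1 → gb (w' - 1) ≤ 2 * s' + 1) ∧
      (l'.sum = 2 → (∀ x ∈ l', x ≤ 1) → ga (w' - 1) ≤ 2 * s' + 2) := by
    intro s' w' l' hlt hG
    have hle : l'.sum ≤ w' := by
      by_contra hc
      exact hG (h0 s' l' w' (not_le.1 hc))
    have hI : (1 ≤ l'.sum → ∀ c, c ≤ l'.sum → c ≤ w' → 2 * s' + l'.sum + 1 < gb (w' - c) →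
          G s' l' w') ∧
        (l'.sum = 0 → l' ≠ [] → 2 * s' < ga w' → G s' l' w') ∧
        (l'.sum = 1 → 1 ≤ w' → 2 * s' + 1 < gb (w' - 1) → G s' l' w') ∧
        (l'.sum = 2 → (∀ x ∈ l', x ≤ 1) → 1 ≤ w' → 2 * s' + 2 < ga (w' - 1) → G s' l' w') := by
      rcases hlt with hlt | ⟨rfl, hlt⟩
      · exact ihs s' hlt w' l'
      · exact ihw w' hlt l'
    refine ⟨hle, fun h1 c hc => ?_, fun h1 h2 => ?_, fun h1 => ?_, fun h1 h2 => ?_⟩
    · by_contra hcon
      exact hG (hI.1 h1 c hc (hc.trans hle) (not_le.1 hcon))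
    · by_contra hcon
      exact hG (hI.2.1 h1 h2 (not_le.1 hcon))
    · by_contra hcon
      exact hG (hI.2.2.1 h1 (by omega) (not_le.1 hcon))
    · by_contra hcon
      exact hG (hI.2.2.2 h1 h2 (by omega) (not_le.1 hcon))
  intro l
  refine ⟨?_, ?_, ?_, ?_⟩
  · -- (C1)
    intro hl c hc hcw hgb
    by_contra hG
    have hw : l.sum ≤ w := by
      by_contra hcon
      exact hG (h0 s l w (not_le.1 hcon))
    obtain ⟨n, μ, hn, hperm⟩ := comb_head l hl
    have hsum : l.sum = n + μ.sum := by rw [hperm.sum_eq, List.sum_cons]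
    apply hG
    apply hp s (n :: μ) l w hperm.symm
    apply hr
    intro ν hν
    have hνμ := comb_sum_le hν
    constructor
    · intro w' hw'
      by_contra hG'
      obtain ⟨b0, b1, b2, -, -⟩ := B s w' (n / 2 :: ν) (Or.inr ⟨rfl, by omega⟩) hG'
      rw [List.sum_cons] at b0 b1 b2
      rcases Nat.eq_zero_or_pos (n / 2 + ν.sum) with hd | hd
      · have h1 := b2 hd (by simp)
        have h2 := gb_add w' ((1 + μ.sum - c) / 2)
        have h3 := gb_le_half (w' + (1 + μ.sum - c) / 2) (w - c) (by omega)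
        have h4 := gb_le w'
        omega
      · rcases Nat.lt_or_ge c (n % 2 + (μ.sum - ν.sum)) with hX | hX
        · have h1 := b1 hd 0 (Nat.zero_le _)
          have h2 := gb_add w' ((n % 2 + (μ.sum - ν.sum) - c) / 2)
          have h3 := gb_le_half (w' + (n % 2 + (μ.sum - ν.sum) - c) / 2) (w - c) (by omega)
          rw [Nat.sub_zero] at h1
          omega
        · have h1 := b1 hd ((c - (n % 2 + (μ.sum - ν.sum)) + 1) / 2) (by omega)
          have h3 := gb_le_half (w' - (c - (n % 2 + (μ.sum - ν.sum)) + 1) / 2) (w - c) (by omega)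
          omega
    · intro a j w' ha hj haj hw'
      by_contra hG'
      obtain ⟨b0, b1, -, -, -⟩ := B (s - (a + j)) w' ((a + j) :: (n - j) :: ν)
        (Or.inl (by omega)) hG'
      rw [List.sum_cons, List.sum_cons] at b0 b1
      rcases Nat.lt_or_ge (a + c) (μ.sum - ν.sum) with hX | hX
      · have h1 := b1 (by omega) 0 (Nat.zero_le _)
        have h2 := gb_add w' (((μ.sum - ν.sum) - (a + c)) / 2)
        have h3 := gb_le_half (w' + ((μ.sum - ν.sum) - (a + c)) / 2) (w - c) (by omega)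
        rw [Nat.sub_zero] at h1
        omega
      · have h1 := b1 (by omega) ((a + c - (μ.sum - ν.sum) + 1) / 2) (by omega)
        have h3 := gb_le_half (w' - (a + c - (μ.sum - ν.sum) + 1) / 2) (w - c) (by omega)
        omega
  · -- (C2)
    intro hl hne hga
    rcases Nat.eq_zero_or_pos w with hw0 | hw0
    · rw [hw0, ga_zero] at hga
      omega
    obtain ⟨n, μ, rfl⟩ : ∃ n μ, l = n :: μ := by
      cases l with
      | nil => exact absurd rfl hne
      | cons n μ => exact ⟨n, μ, rfl⟩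
    rw [List.sum_cons] at hl
    apply hr
    intro ν hν
    have hνμ := comb_sum_le hν
    have hn : n = 0 := by omega
    have hμ : μ.sum = 0 := by omega
    have hν0 : ν.sum = 0 := by omega
    subst hn
    constructor
    · intro w' hw'
      by_contra hG'
      obtain ⟨-, -, b2, -, -⟩ := B s w' (0 / 2 :: ν) (Or.inr ⟨rfl, by omega⟩) hG'
      have h1 := b2 (by rw [List.sum_cons]; omega) (by simp)
      have h2 : w = 2 * w' := by omega
      rw [h2, ga_even] at hga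
      omega
    · intro a j w' ha hj haj hw'
      by_contra hG'
      obtain ⟨b0, b1, -, b3, -⟩ := B (s - (a + j)) w' ((a + j) :: (0 - j) :: ν)
        (Or.inl (by omega)) hG'
      rw [List.sum_cons, List.sum_cons] at b0 b1 b3
      rcases Nat.lt_or_ge a 2 with ha2 | ha2
      · have h1 := b3 (by omega)
        have h2 : w = 2 * (w' - 1) + 1 := by omega
        rw [h2, ga_odd] at hga
        omega
      · have h1 := b1 (by omega) ((a + 1) / 2) (by omega)
        rcases Nat.even_or_odd' a with ⟨b, hb | hb⟩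
        · have h2 : w = 2 * (w' - (a + 1) / 2) := by omega
          rw [h2, ga_even] at hga
          have h3 := ga_le_gb (w' - (a + 1) / 2)
          omega
        · have h2 : w = 2 * (w' - (a + 1) / 2) + 1 := by omega
          rw [h2, ga_odd] at hga
          omega
  · -- (C3)
    intro hl hw hgb
    obtain ⟨n, μ, hn, hperm⟩ := comb_head l (by omega)
    have hsum : l.sum = n + μ.sum := by rw [hperm.sum_eq, List.sum_cons]
    apply hp s (n :: μ) l w hperm.symm
    apply hr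
    intro ν hν
    have hνμ := comb_sum_le hν
    have hn1 : n = 1 := by omega
    have hμ : μ.sum = 0 := by omega
    have hν0 : ν.sum = 0 := by omega
    subst hn1
    constructor
    · intro w' hw'
      by_contra hG'
      obtain ⟨-, -, b2, -, -⟩ := B s w' (1 / 2 :: ν) (Or.inr ⟨rfl, by omega⟩) hG'
      have h1 := b2 (by rw [List.sum_cons]; omega) (by simp)
      have h2 : w - 1 = 2 * w' := by omega
      rw [h2, gb_even] at hgb
      omega
    · intro a j w' ha hj haj hw'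
      by_contra hG'
      obtain ⟨b0, b1, -, -, b4⟩ := B (s - (a + j)) w' ((a + j) :: (1 - j) :: ν)
        (Or.inl (by omega)) hG'
      rw [List.sum_cons, List.sum_cons] at b0 b1 b4
      rcases Nat.lt_or_ge a 2 with ha2 | ha2
      · rcases Nat.eq_zero_or_pos j with hj0 | hj0
        · have h1 := b4 (by omega) (by
            intro x hx
            rw [List.mem_cons, List.mem_cons] at hx
            rcases hx with hx | hx | hx
            · omega
            · omega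
            · have := comb_le_sum hx
              omega)
          have h2 : w - 1 = 2 * (w' - 1) := by omega
          rw [h2, gb_even] at hgb
          omega
        · have h1 := b1 (by omega) 1 (by omega)
          have h2 := gb_le_half (w' - 1) (w - 1) (by omega)
          omega
      · have h1 := b1 (by omega) ((a + 2) / 2) (by omega)
        have h2 := gb_le_half (w' - (a + 2) / 2) (w - 1) (by omega)
        omega
  · -- (C4)
    intro hl hall hw hga
    by_contra hG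
    have hwd : l.sum ≤ w := by
      by_contra hcon
      exact hG (h0 s l w (not_le.1 hcon))
    obtain ⟨n, μ, hn, hperm⟩ := comb_head l (by omega)
    have hsum : l.sum = n + μ.sum := by rw [hperm.sum_eq, List.sum_cons]
    have hn1 : n ≤ 1 := hall n (hperm.mem_iff.2 (by simp))
    apply hG
    apply hp s (n :: μ) l w hperm.symm
    apply hr
    intro ν hν
    have hνμ := comb_sum_le hν
    have hn1 : n = 1 := by omega
    have hμ : μ.sum = 1 := by omega
    subst hn1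
    constructor
    · intro w' hw'
      by_contra hG'
      obtain ⟨-, b1, b2, -, -⟩ := B s w' (1 / 2 :: ν) (Or.inr ⟨rfl, by omega⟩) hG'
      rw [List.sum_cons] at b1 b2
      rcases Nat.eq_zero_or_pos ν.sum with hν0 | hν0
      · have h1 := b2 (by omega) (by simp)
        have h2 : w - 1 = 2 * w' + 1 := by omega
        rw [h2, ga_odd] at hga
        have h3 := gb_le w'
        omega
      · have h1 := b1 (by omega) 0 (Nat.zero_le _)
        have h2 : w - 1 = 2 * w' := by omega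
        rw [h2, ga_even] at hga
        have h3 := ga_le_gb w'
        rw [Nat.sub_zero] at h1
        omega
    · intro a j w' ha hj haj hw'
      by_contra hG'
      obtain ⟨b0, b1, -, -, -⟩ := B (s - (a + j)) w' ((a + j) :: (1 - j) :: ν)
        (Or.inl (by omega)) hG'
      rw [List.sum_cons, List.sum_cons] at b0 b1
      have h1 := b1 (by omega) ((a + 1 - (μ.sum - ν.sum) + 1) / 2) (by omega)
      rcases Nat.even_or_odd' (a + 1 - (μ.sum - ν.sum)) with ⟨b, hb | hb⟩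
      · have h2 : w - 1 = 2 * (w' - (a + 1 - (μ.sum - ν.sum) + 1) / 2) := by omega
        rw [h2, ga_even] at hga
        have h3 := ga_le_gb (w' - (a + 1 - (μ.sum - ν.sum) + 1) / 2)
        omega
      · have h2 : w - 1 = 2 * (w' - (a + 1 - (μ.sum - ν.sum) + 1) / 2) + 1 := by omega
        rw [h2, ga_odd] at hga
        omega

theorem comb (G : ℕ → List ℕ → ℕ → Prop)
    (h0 : ∀ s l z, z < l.sum → G s l z)
    (hp : ∀ s (l l' : List ℕ) z, l.Perm l' → G s l z → G s l' z)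
    (hr : ∀ s n (μ : List ℕ) z, (∀ ν : List ℕ, List.Forall₂ (· ≤ ·) ν μ →
      (∀ z', z + ν.sum = 2 * z' + n % 2 + μ.sum → G s (n / 2 :: ν) z') ∧
      (∀ a j z', 1 ≤ a → j ≤ n → a + j ≤ s → z + a + ν.sum = 2 * z' + μ.sum →
        G (s - (a + j)) ((a + j) :: (n - j) :: ν) z')) → G s (n :: μ) z)
    (s t : ℕ) (h : 2 * s < ga t) : G s [0] t :=
  (comb_all G h0 hp hr s t [0]).2.1 (by simp) (by simp) h

end Pool.Agent.Pet19
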