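import Pool.Agent.Pet19.Defs

/-!
# Pet19.CombG: binary digits

`ga x` = number of ones of `x ||| 2x`; `gb x` = number of ones of `(x ||| 2x) ||| 1`.
`Nat.digits 2 (2x) = 0 :: digits x`, `Nat.digits 2 (2x+1) = 1 :: digits x`,
`(2x) ||| (2y) = 2 (x ||| y)`, `(2x+1) ||| (2y) = 2 (x ||| y) + 1`, and
`(2x+1) ||| 2(2x+1) = 2 (x ||| (2x+1)) + 1`, `x ||| (2x+1) = (x ||| 2x) ||| 1`.
`gb_succ`: strong induction using `ga_le_gb`, `gb_le`.
-/

set_option autoImplicit false

namespace Pool.Agent.Pet19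

/-- number of ones of `(x ||| 2x) ||| 1` -/
def gb (x : ℕ) : ℕ := ga x + (1 - x % 2)

namespace CombGAux

theorem lor_even (x y : ℕ) : (2 * x) ||| (2 * y) = 2 * (x ||| y) := by
  apply Nat.eq_of_testBit_eq
  intro i
  cases i with
  | zero => simp [Nat.testBit_zero]
  | succ i =>
    rw [Nat.testBit_lor, Nat.testBit_succ, Nat.testBit_succ, Nat.testBit_succ,
      show 2 * x / 2 = x by omega, show 2 * y / 2 = y by omega,
      show 2 * (x ||| y) / 2 = x ||| y by omega, Nat.testBit_lor]

theorem lor_odd (x y a b : ℕ) (ha : a ≤ 1) (hb : b ≤ 1) (hab : a = 1 ∨ b = 1) :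
    (2 * x + a) ||| (2 * y + b) = 2 * (x ||| y) + 1 := by
  apply Nat.eq_of_testBit_eq
  intro i
  cases i with
  | zero =>
    rw [Nat.testBit_lor, Nat.testBit_zero, Nat.testBit_zero, Nat.testBit_zero,
      show (2 * (x ||| y) + 1) % 2 = 1 by omega]
    rcases hab with h | h
    · rw [show (2 * x + a) % 2 = 1 by omega]
      simp
    · rw [show (2 * y + b) % 2 = 1 by omega]
      simp
  | succ i =>
    rw [Nat.testBit_lor, Nat.testBit_succ, Nat.testBit_succ, Nat.testBit_succ,
      show (2 * x + a) / 2 = x by omega, show (2 * y + b) / 2 = y by omega,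
      show (2 * (x ||| y) + 1) / 2 = x ||| y by omega, Nat.testBit_lor]

theorem cnt_even (z : ℕ) : (Nat.digits 2 (2 * z)).count 1 = (Nat.digits 2 z).count 1 := by
  rcases Nat.eq_zero_or_pos z with h | h
  · rw [h]
  · rw [Nat.digits_def' (by norm_num) (by omega), show 2 * z % 2 = 0 by omega,
      show 2 * z / 2 = z by omega, List.count_cons_of_ne (by decide)]

theorem cnt_odd (z : ℕ) : (Nat.digits 2 (2 * z + 1)).count 1 = 1 + (Nat.digits 2 z).count 1 := by
  rw [Nat.digits_def' (by norm_num) (by omega), show (2 * z + 1) % 2 = 1 by omega,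
    show (2 * z + 1) / 2 = z by omega, List.count_cons_self, Nat.add_comm]

end CombGAux

theorem ga_zero : ga 0 = 0 := by simp [ga]

theorem ga_even (x : ℕ) : ga (2 * x) = ga x := by
  rw [ga, ga, CombGAux.lor_even, CombGAux.cnt_even]

theorem ga_odd (x : ℕ) : ga (2 * x + 1) = 1 + gb x := by
  have h0 : (2 * x + 1) ||| (2 * (2 * x + 1)) = 2 * (x ||| (2 * x + 1)) + 1 :=
    CombGAux.lor_odd x (2 * x + 1) 1 0 (by norm_num) (by norm_num) (Or.inl rfl)
  rw [ga, h0, CombGAux.cnt_odd]
  congr 1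
  rcases Nat.even_or_odd' x with ⟨u, hu | hu⟩
  · have h1 : x ||| (2 * x + 1) = 2 * (u ||| x) + 1 := by
      have := CombGAux.lor_odd u x 0 1 (by norm_num) (by norm_num) (Or.inr rfl)
      rw [Nat.add_zero, ← hu] at this
      exact this
    have h2 : x ||| (2 * x) = 2 * (u ||| x) := by
      have := CombGAux.lor_even u x
      rw [← hu] at this
      exact this
    rw [gb, ga, h1, h2, CombGAux.cnt_odd, CombGAux.cnt_even]
    omega
  · have h1 : x ||| (2 * x + 1) = 2 * (u ||| x) + 1 := by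
      have := CombGAux.lor_odd u x 1 1 (by norm_num) (by norm_num) (Or.inr rfl)
      rw [← hu] at this
      exact this
    have h2 : x ||| (2 * x) = 2 * (u ||| x) + 1 := by
      have := CombGAux.lor_odd u x 1 0 (by norm_num) (by norm_num) (Or.inl rfl)
      rw [← hu] at this
      exact this
    rw [gb, ga, h1, h2]
    omega

theorem gb_even (x : ℕ) : gb (2 * x) = ga x + 1 := by
  rw [gb, ga_even]
  omega

theorem gb_odd (x : ℕ) : gb (2 * x + 1) = 1 + gb x := by
  rw [gb, ga_odd]
  omega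

theorem ga_le_gb (x : ℕ) : ga x ≤ gb x := by
  unfold gb; omega

theorem gb_le (x : ℕ) : gb x ≤ ga x + 1 := by
  unfold gb; omega

theorem gb_pos (x : ℕ) : 1 ≤ gb x := by
  rcases Nat.even_or_odd' x with ⟨u, hu | hu⟩
  · rw [hu, gb_even]
    omega
  · rw [hu, gb_odd]
    omega

theorem gb_succ (a : ℕ) : gb (a + 1) ≤ gb a + 1 := by
  induction a using Nat.strong_induction_on with
  | _ a ih =>
    rcases Nat.even_or_odd' a with ⟨u, hu | hu⟩
    · rw [hu, gb_odd, gb_even]
      have := gb_le u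
      omega
    · have h1 : a + 1 = 2 * (u + 1) := by omega
      rw [h1, gb_even, hu, gb_odd]
      have h2 := ga_le_gb (u + 1)
      have h3 := ih u (by omega)
      omega

theorem gb_add (a m : ℕ) : gb (a + m) ≤ gb a + m := by
  induction m with
  | zero => exact le_rfl
  | succ m ih =>
    have := gb_succ (a + m)
    rw [← Nat.add_assoc]
    omega

theorem gb_le_half (u v : ℕ) (h : v = 2 * u ∨ v = 2 * u + 1) : gb v ≤ 1 + gb u := by
  rcases h with h | h
  · rw [h, gb_even]
    have := ga_le_gb u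
    omega
  · rw [h, gb_odd]

end Pool.Agent.Pet19
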