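import Pool.Agent.Pet19.Nx

/-!
# Pet19.Contr: cofree comodules are acyclic

Say that `h : PP ⊗ A.N → A.N` is a contraction of `A : Pre` if for all `x : PP ⊗ A.N`
`(1 ⊗ h)(A.next.δ x) + A.δ (h x) = x`.
(1) `cof N` has the contraction `c ⊗ (c' ⊗ n) ↦ ε(c') c ⊗ n`.
(2) if `h` is a contraction of `A` then `1 ⊗ h` is one of `A.next` (char 2).
(3) if `A` has a contraction then `V w 1 A`: for a cocycle `x`, `T^w ⊗ x = A.next.δ x`, apply `1 ⊗ h`:
`T^w ⊗ h x = x + A.δ (h x)`, i.e. `x = A.d w (h x)`.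
Then induct on `s`.
-/

set_option autoImplicit false
open MvPolynomial TensorProduct

namespace Pool.Agent.Pet19

noncomputable section

namespace ContrAux

/-- a contraction of `A` -/
def IsContr (A : Pre) (h : PP ⊗[ZMod 2] A.N →ₗ[ZMod 2] A.N) : Prop :=
  ∀ x : PP ⊗[ZMod 2] A.N, LinearMap.lTensor PP h (nextδ A x) + A.δ (h x) = x

/-- `c ⊗ n ↦ ε(c) n` -/
def kk (N : Type) [AddCommGroup N] [Module (ZMod 2) N] : PP ⊗[ZMod 2] N →ₗ[ZMod 2] N :=
  (TensorProduct.lid (ZMod 2) N).toLinearMap ∘ₗ LinearMap.rTensor N ep.toLinearMap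

theorem kk_tmul (N : Type) [AddCommGroup N] [Module (ZMod 2) N] (c : PP) (n : N) :
    kk N (c ⊗ₜ[ZMod 2] n) = ep c • n := by
  simp [kk]

theorem kk_assoc (N : Type) [AddCommGroup N] [Module (ZMod 2) N] (z : PP ⊗[ZMod 2] PP) (n : N) :
    LinearMap.lTensor PP (kk N) (TensorProduct.assoc (ZMod 2) PP PP N (z ⊗ₜ[ZMod 2] n)) =
      (TensorProduct.rid (ZMod 2) PP (LinearMap.lTensor PP ep.toLinearMap z)) ⊗ₜ[ZMod 2] n := by
  induction z using TensorProduct.induction_on with
  | zero => simp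
  | tmul a b =>
    rw [TensorProduct.assoc_tmul, LinearMap.lTensor_tmul, kk_tmul, LinearMap.lTensor_tmul,
      TensorProduct.rid_tmul, TensorProduct.tmul_smul, TensorProduct.smul_tmul']
    rfl
  | add x y hx hy =>
    rw [TensorProduct.add_tmul, map_add, map_add, hx, hy, map_add, map_add, TensorProduct.add_tmul]

theorem kk_DlT (N : Type) [AddCommGroup N] [Module (ZMod 2) N] (x : PP ⊗[ZMod 2] N) :
    LinearMap.lTensor PP (kk N) (DlT N x) = x := by
  induction x using TensorProduct.induction_on with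
  | zero => simp
  | tmul c n => rw [DlT_tmul, kk_assoc, Dl_cu']
  | add x y hx hy => rw [map_add, map_add, hx, hy]

theorem contr_cof (N : Type) [AddCommGroup N] [Module (ZMod 2) N] :
    IsContr (cof N) (LinearMap.lTensor PP (kk N)) := by
  intro x
  have h1 : DlT N (LinearMap.lTensor PP (kk N) x) =
      LinearMap.lTensor PP (LinearMap.lTensor PP (kk N)) (DlT (PP ⊗[ZMod 2] N) x) :=
    DlT_nat (kk N) x
  have h2 : LinearMap.lTensor PP (LinearMap.lTensor PP (kk N))
      (LinearMap.lTensor PP (DlT N) x) = x := by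
    have h3 : LinearMap.lTensor PP (kk N) ∘ₗ DlT N = LinearMap.id :=
      LinearMap.ext (kk_DlT N)
    rw [← LinearMap.comp_apply, ← LinearMap.lTensor_comp, h3, LinearMap.lTensor_id,
      LinearMap.id_apply]
  rw [nextδ_apply, map_add]
  change LinearMap.lTensor PP (LinearMap.lTensor PP (kk N)) (DlT (PP ⊗[ZMod 2] N) x) +
    LinearMap.lTensor PP (LinearMap.lTensor PP (kk N)) (LinearMap.lTensor PP (DlT N) x) +
    DlT N (LinearMap.lTensor PP (kk N) x) = x
  rw [h2, h1, add_right_comm, add_self_zero, zero_add]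

theorem contr_next {A : Pre} {h : PP ⊗[ZMod 2] A.N →ₗ[ZMod 2] A.N} (hh : IsContr A h) :
    IsContr A.next (LinearMap.lTensor PP h) := by
  intro x
  have h1 : DlT A.N (LinearMap.lTensor PP h x) =
      LinearMap.lTensor PP (LinearMap.lTensor PP h) (DlT (PP ⊗[ZMod 2] A.N) x) := DlT_nat h x
  have h2 : LinearMap.lTensor PP (LinearMap.lTensor PP h) (LinearMap.lTensor PP (nextδ A) x) +
      LinearMap.lTensor PP A.δ (LinearMap.lTensor PP h x) = x := by
    have h3 : LinearMap.lTensor PP h ∘ₗ nextδ A + A.δ ∘ₗ h = LinearMap.id :=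
      LinearMap.ext hh
    rw [← LinearMap.comp_apply, ← LinearMap.comp_apply, ← LinearMap.lTensor_comp,
      ← LinearMap.lTensor_comp, ← LinearMap.add_apply, ← LinearMap.lTensor_add, h3,
      LinearMap.lTensor_id, LinearMap.id_apply]
  rw [nextδ_apply, map_add]
  change LinearMap.lTensor PP (LinearMap.lTensor PP h) (DlT (PP ⊗[ZMod 2] A.N) x) +
    LinearMap.lTensor PP (LinearMap.lTensor PP h) (LinearMap.lTensor PP (nextδ A) x) +
    nextδ A (LinearMap.lTensor PP h x) = x
  rw [nextδ_apply, h1, add_add_add_comm, add_self_zero, zero_add, h2]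

theorem V_one {A : Pre} {h : PP ⊗[ZMod 2] A.N →ₗ[ZMod 2] A.N} (hh : IsContr A h) (w : ℕ) :
    V w 1 A := by
  intro x hx
  refine ⟨h x, ?_⟩
  rw [d_apply] at hx ⊢
  have h1 := congrArg (LinearMap.lTensor PP h) hx
  rw [map_add, map_zero, LinearMap.lTensor_tmul] at h1
  have h2 := hh x
  have h3 := (add_eq_zero_iff_eq2 _ _).1 h1
  rw [h3]
  exact h2

theorem V_succ (w s : ℕ) : ∀ {A : Pre} {h : PP ⊗[ZMod 2] A.N →ₗ[ZMod 2] A.N}, IsContr A h →
    V w (s + 1) A := by
  induction s with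
  | zero => intro A h hh; exact V_one hh w
  | succ s ih => intro A h hh; exact ih (contr_next hh)

end ContrAux

theorem V_cof (N : Type) [AddCommGroup N] [Module (ZMod 2) N] (w s : ℕ) :
    V w (s + 1) (cof N) :=
  ContrAux.V_succ w s (ContrAux.contr_cof N)

end

end Pool.Agent.Pet19
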