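import Pool.Agent.Pet19.BiC
import Pool.Agent.Pet19.Lin

/-!
# Pet19.Nx: the functor `next` preserves coassociativity, colinear maps, exact sequences

`IsCo A.next`: for `c ⊗ x`, with `δ' (c ⊗ x) = Δ c ⊗ x + c ⊗ δ x`,
`(Δ ⊗ 1) δ' (c ⊗ x) = (Δ⊗1)Δ c ⊗ x + Δ c ⊗ δ x` and
`(1 ⊗ δ') δ' (c ⊗ x) = (1⊗Δ)Δ c ⊗ x + Δ c ⊗ δ x + c ⊗ [(Δ⊗1) δ x + (1⊗δ) δ x]`,
where the bracket is `0` by `IsCo A` and `char 2`.
-/

set_option autoImplicit false
open MvPolynomial TensorProduct

namespace Pool.Agent.Pet19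

noncomputable section

theorem hom_next {A B : Pre} {f : A.N →ₗ[ZMod 2] B.N} (hf : IsHom A B f) :
    IsHom A.next B.next (LinearMap.lTensor PP f) := by
  intro x
  change nextδ B (LinearMap.lTensor PP f x) =
    LinearMap.lTensor PP (LinearMap.lTensor PP f) (nextδ A x)
  have h1 : B.δ ∘ₗ f = LinearMap.lTensor PP f ∘ₗ A.δ := LinearMap.ext hf
  rw [nextδ_apply, nextδ_apply, DlT_nat, map_add]
  congr 1
  rw [← LinearMap.lTensor_comp_apply, h1, LinearMap.lTensor_comp_apply]

private theorem DlT_tmul' (N : Type) [AddCommGroup N] [Module (ZMod 2) N] (c : PP) (n : N) :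
    DlT N (c ⊗ₜ[ZMod 2] n) =
      LinearMap.lTensor PP ((TensorProduct.mk (ZMod 2) PP N).flip n) (Dl c) := by
  rw [DlT_tmul]
  have h : ∀ u : PP ⊗[ZMod 2] PP, TensorProduct.assoc (ZMod 2) PP PP N (u ⊗ₜ[ZMod 2] n) =
      LinearMap.lTensor PP ((TensorProduct.mk (ZMod 2) PP N).flip n) u := by
    intro u
    induction u using TensorProduct.induction_on with
    | zero => rw [TensorProduct.zero_tmul, map_zero, map_zero]
    | tmul a b =>
      rw [TensorProduct.assoc_tmul, LinearMap.lTensor_tmul, LinearMap.flip_apply,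
        TensorProduct.mk_apply]
    | add u v hu hv => rw [TensorProduct.add_tmul, map_add, map_add, hu, hv]
  exact h _

private theorem DlT_DlT (N : Type) [AddCommGroup N] [Module (ZMod 2) N] (x : PP ⊗[ZMod 2] N) :
    DlT (PP ⊗[ZMod 2] N) (DlT N x) = LinearMap.lTensor PP (DlT N) (DlT N x) := by
  induction x using TensorProduct.induction_on with
  | zero => simp only [map_zero]
  | tmul c n =>
    have h : DlT N ∘ₗ ((TensorProduct.mk (ZMod 2) PP N).flip n) =
        LinearMap.lTensor PP ((TensorProduct.mk (ZMod 2) PP N).flip n) ∘ₗ Dl.toLinearMap := by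
      apply LinearMap.ext
      intro b
      rw [LinearMap.comp_apply, LinearMap.comp_apply, LinearMap.flip_apply,
        TensorProduct.mk_apply, DlT_tmul', AlgHom.toLinearMap_apply]
    rw [DlT_tmul', DlT_nat, Dl_co, ← LinearMap.lTensor_comp_apply, ← LinearMap.lTensor_comp_apply,
      h]
  | add u v hu hv => simp only [map_add, hu, hv]

theorem co_next {A : Pre} (hA : IsCo A) : IsCo A.next := by
  intro x
  change DlT (PP ⊗[ZMod 2] A.N) (nextδ A x) = LinearMap.lTensor PP (nextδ A) (nextδ A x)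
  have hn : nextδ A = DlT A.N + LinearMap.lTensor PP A.δ := by
    apply LinearMap.ext
    intro y
    rw [nextδ_apply, LinearMap.add_apply]
  have h1 : DlT A.N ∘ₗ A.δ = LinearMap.lTensor PP A.δ ∘ₗ A.δ := LinearMap.ext hA
  have h2 : LinearMap.lTensor PP (DlT A.N) (LinearMap.lTensor PP A.δ x) =
      LinearMap.lTensor PP (LinearMap.lTensor PP A.δ) (LinearMap.lTensor PP A.δ x) := by
    rw [← LinearMap.lTensor_comp_apply, h1, LinearMap.lTensor_comp_apply]
  rw [nextδ_apply, map_add, DlT_nat, DlT_DlT, hn, LinearMap.lTensor_add, LinearMap.add_apply,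
    map_add, map_add, h2, add_add_add_comm]
  rw [add_self_zero, add_zero]

theorem ses_next {A B C : Pre} {i : A.N →ₗ[ZMod 2] B.N} {p : B.N →ₗ[ZMod 2] C.N}
    (h : SES A B C i p) :
    SES A.next B.next C.next (LinearMap.lTensor PP i) (LinearMap.lTensor PP p) where
  hi := hom_next h.hi
  hp := hom_next h.hp
  inj := lTensor_inj PP h.inj
  surj := LinearMap.lTensor_surjective PP h.surj
  ex := lTensor_ex PP h.ex

/-- colinear maps commute with `d` -/
theorem hom_d {A B : Pre} {f : A.N →ₗ[ZMod 2] B.N} (hf : IsHom A B f) (w : ℕ) (x : A.N) :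
    B.d w (f x) = LinearMap.lTensor PP f (A.d w x) := by
  rw [d_apply, d_apply, map_add, LinearMap.lTensor_tmul, hf]

/-- `d ∘ d = 0` -/
theorem d_d {A : Pre} (hA : IsCo A) (w : ℕ) (x : A.N) : A.next.d w (A.d w x) = 0 := by
  rw [d_apply A.next]
  change (T ^ w) ⊗ₜ[ZMod 2] (A.d w x) + nextδ A (A.d w x) = 0
  rw [d_apply A, map_add, nextδ_tmul, nextδ_apply, hA x, add_self_zero, add_zero, Dl_T_pow,
    TensorProduct.assoc_tmul, TensorProduct.tmul_add, add_self_zero]

end

end Pool.Agent.Pet19
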