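import Pool.Agent.Pet19.Th
import Pool.Agent.Pet19.Nx

/-!
# Pet19.KdN: basic facts on the Koszul differential
-/

set_option autoImplicit false
open MvPolynomial TensorProduct

namespace Pool.Agent.Pet19

noncomputable section

theorem mulh_coe (a : ℕ) (f : HH a) (x : PP) (hx : x ∈ HH 1) :
    ((mulh a (f ⊗ₜ[ZMod 2] x) : HH (a + 1)) : PP) = (f : PP) * x := by
  have h1 : (f : PP) * x ∈ HH (a + 1) := by
    rw [mem_homogeneousSubmodule] at hx ⊢
    exact ((mem_homogeneousSubmodule _ _).1 f.2).mul hx
  have h2 : mulh a (f ⊗ₜ[ZMod 2] x) = hc (a + 1) ((f : PP) * x) := by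
    simp [mulh]
  rw [h2, hc_coe, homogeneousComponent_of_mem h1, if_pos rfl]

theorem Kd_nat (a : ℕ) {M M' : Pre} {f : M.N →ₗ[ZMod 2] M'.N} (hf : IsHom M M' f)
    (x : (Kc a M).N) :
    Kd a M' (LinearMap.lTensor (HH a) f x) = LinearMap.lTensor (HH (a + 1)) f (Kd a M x) := by
  induction x using TensorProduct.induction_on with
  | zero => rw [map_zero, map_zero, map_zero, map_zero]
  | add x y hx hy => rw [map_add, map_add, hx, hy, map_add, map_add]
  | tmul h m =>
    rw [LinearMap.lTensor_tmul, Kd_tmul, Kd_tmul, hf m]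
    generalize M.δ m = u
    generalize mulh a ∘ₗ LinearMap.lTensor (HH a) theta = g
    induction u using TensorProduct.induction_on with
    | zero => simp only [map_zero, tmul_zero]
    | add u v hu hv => simp only [map_add, tmul_add, hu, hv]
    | tmul c n =>
      rw [LinearMap.lTensor_tmul, TensorProduct.assoc_symm_tmul, TensorProduct.assoc_symm_tmul,
        LinearMap.rTensor_tmul, LinearMap.rTensor_tmul, LinearMap.lTensor_tmul]

end

end Pool.Agent.Pet19
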