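import Pool.Agent.Pet19.Poly

/-!
# Pet19.P0: the exact sequence `0 → S^n(P)⟨1⟩ → S^(n+1)(P) → S^(n+1)(P)^(1) → 0`

First map: multiplication by `p_0 = X 0` (`coP (X 0) = T ⊗ X 0`).  Second map `qq`:
`p_0 ↦ 0, p_(j+1) ↦ p_j`; `(1 ⊗ qq) (coP f) = (Fr ⊗ 1) (coP (qq f))` (check on generators).
Exactness: `qq f = 0` iff every monomial of `f` contains `X 0` (`qq (sh1 g) = g`).
-/

set_option autoImplicit false
open MvPolynomial TensorProduct

namespace Pool.Agent.Pet19

noncomputable section

theorem qq_X_zero : qq (X 0) = 0 := by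
  unfold qq
  rw [aeval_X, if_pos rfl]

theorem qq_X_succ (j : ℕ) : qq (X (j + 1)) = X j := by
  unfold qq
  rw [aeval_X, if_neg (Nat.succ_ne_zero j), Nat.add_sub_cancel]

theorem sh1_X (j : ℕ) : sh1 (X j) = X (j + 1) := by
  unfold sh1
  rw [aeval_X]

theorem qq_sh1 (g : PP) : qq (sh1 g) = g := by
  have h : (qq.comp sh1) = AlgHom.id (ZMod 2) PP := by
    apply MvPolynomial.algHom_ext
    intro j
    rw [AlgHom.comp_apply, sh1_X, qq_X_succ, AlgHom.id_apply]
  have := DFunLike.congr_fun h g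
  simpa using this

theorem qq_hom {n : ℕ} {f : PP} (hf : f.IsHomogeneous n) : (qq f).IsHomogeneous n := by
  have := hf.aeval (fun j => if j = 0 then (0 : PP) else X (j - 1)) (n := 1) (by
    intro i
    by_cases h : i = 0
    · rw [if_pos h]; exact isHomogeneous_zero _ _ _
    · rw [if_neg h]; exact isHomogeneous_X _ _)
  rw [one_mul] at this
  unfold qq
  exact this

theorem sh1_hom {n : ℕ} {f : PP} (hf : f.IsHomogeneous n) : (sh1 f).IsHomogeneous n := by
  have := hf.aeval (fun j => (X (j + 1) : PP)) (n := 1) (fun i => isHomogeneous_X _ _)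
  rw [one_mul] at this
  unfold sh1
  exact this

theorem P0_hc_of_mem {n : ℕ} {f : PP} (hf : f.IsHomogeneous n) :
    homogeneousComponent n f = f := by
  rw [homogeneousComponent_of_mem ((mem_homogeneousSubmodule n f).2 hf), if_pos rfl]

theorem P0_mem {n : ℕ} (f : HH n) : (f : PP).IsHomogeneous n :=
  (mem_homogeneousSubmodule n _).1 f.2

theorem mulX0_coe (n : ℕ) (f : HH n) : ((mulX0 n f : HH (n + 1)) : PP) = X 0 * (f : PP) := by
  have h : (X 0 * (f : PP)).IsHomogeneous (n + 1) := by
    have := (isHomogeneous_X (R := ZMod 2) (0 : ℕ)).mul (P0_mem f)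
    rwa [add_comm] at this
  have h2 : ((mulX0 n f : HH (n + 1)) : PP) = homogeneousComponent (n + 1) (X 0 * (f : PP)) := by
    unfold mulX0
    rw [LinearMap.comp_apply, LinearMap.comp_apply, hc_coe]
    rfl
  rw [h2, P0_hc_of_mem h]

theorem qn_coe (n : ℕ) (f : HH n) : ((qn n f : HH n) : PP) = qq (f : PP) := by
  have h2 : ((qn n f : HH n) : PP) = homogeneousComponent n (qq (f : PP)) := by
    unfold qn
    rw [LinearMap.comp_apply, LinearMap.comp_apply, hc_coe]
    rfl
  rw [h2, P0_hc_of_mem (qq_hom (P0_mem f))]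

theorem sh1_mem (n : ℕ) {f : PP} (hf : f ∈ HH n) : sh1 f ∈ HH n :=
  (mem_homogeneousSubmodule n _).2 (sh1_hom ((mem_homogeneousSubmodule n _).1 hf))

theorem Fr_X (n : ℕ) : Fr (X n) = X n ^ 2 := by
  unfold Fr
  rw [expand_X]

theorem Fr_xi (n : ℕ) : Fr (xi n) = xi n ^ 2 := by
  unfold xi
  by_cases h : n = 0
  · rw [if_pos h, map_one, one_pow]
  · rw [if_neg h, Fr_X]

theorem Fr_T' : Fr T = T ^ 2 := by
  unfold T
  exact Fr_X 0

theorem coP_X (i : ℕ) : coP (X i) =
    ∑ j ∈ Finset.range (i + 1), ((xi (i - j) * T) ^ (2 ^ j)) ⊗ₜ[ZMod 2] X j := by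
  unfold coP
  rw [aeval_X]

theorem P0_lT (g : PP →ₐ[ZMod 2] PP) (z : PP ⊗[ZMod 2] PP) :
    LinearMap.lTensor PP g.toLinearMap z =
      Algebra.TensorProduct.map (AlgHom.id (ZMod 2) PP) g z := by
  induction z using TensorProduct.induction_on with
  | zero => rw [map_zero, map_zero]
  | tmul a b => rfl
  | add a b ha hb => rw [map_add, map_add, ha, hb]

theorem P0_rT (z : PP ⊗[ZMod 2] PP) :
    LinearMap.rTensor PP FrL z =
      Algebra.TensorProduct.map Fr (AlgHom.id (ZMod 2) PP) z := by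
  induction z using TensorProduct.induction_on with
  | zero => rw [map_zero, map_zero]
  | tmul a b =>
    rw [LinearMap.rTensor_tmul, FrL_apply, Algebra.TensorProduct.map_tmul, AlgHom.id_apply]
  | add a b ha hb => rw [map_add, map_add, ha, hb]

/-- `qq` is colinear up to Frobenius -/
theorem coP_qq (f : PP) :
    LinearMap.lTensor PP qq.toLinearMap (coP f) =
      LinearMap.rTensor PP FrL (coP (qq f)) := by
  rw [P0_lT, P0_rT]
  have h : (Algebra.TensorProduct.map (AlgHom.id (ZMod 2) PP) qq).comp coP =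
      ((Algebra.TensorProduct.map Fr (AlgHom.id (ZMod 2) PP)).comp coP).comp qq := by
    apply MvPolynomial.algHom_ext
    intro i
    rw [AlgHom.comp_apply, AlgHom.comp_apply, AlgHom.comp_apply, coP_X, map_sum]
    rcases i with _ | i
    · rw [qq_X_zero, map_zero, map_zero, Finset.sum_range_one, Algebra.TensorProduct.map_tmul,
        qq_X_zero, TensorProduct.tmul_zero]
    · rw [qq_X_succ, coP_X, map_sum, Finset.sum_range_succ', Algebra.TensorProduct.map_tmul,
        qq_X_zero, TensorProduct.tmul_zero, add_zero]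
      apply Finset.sum_congr rfl
      intro j hj
      rw [Algebra.TensorProduct.map_tmul, Algebra.TensorProduct.map_tmul, qq_X_succ,
        AlgHom.id_apply, AlgHom.id_apply, map_pow, map_mul, Fr_xi, Fr_T', ← mul_pow, ← pow_mul,
        Nat.add_sub_add_right, pow_succ' 2 j]
  exact DFunLike.congr_fun h f

theorem P0_inj (n : ℕ) :
    Function.Injective (LinearMap.lTensor PP (HH n).subtype) :=
  Module.Flat.lTensor_preserves_injective_linearMap _ (HH n).injective_subtype

theorem P0_comm {M N : Type} [AddCommGroup M] [Module (ZMod 2) M] [AddCommGroup N]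
    [Module (ZMod 2) N] (g : PP →ₗ[ZMod 2] PP) (f : M →ₗ[ZMod 2] N) (z : PP ⊗[ZMod 2] M) :
    LinearMap.lTensor PP f (LinearMap.rTensor M g z) =
      LinearMap.rTensor N g (LinearMap.lTensor PP f z) := by
  rw [← LinearMap.comp_apply, ← LinearMap.comp_apply, LinearMap.lTensor_comp_rTensor,
    LinearMap.rTensor_comp_lTensor]

theorem qn_hom (n : ℕ) : IsHom (SP n) (infl (SP n)) (qn n) := by
  intro x
  apply P0_inj n
  have h1 : LinearMap.lTensor PP (HH n).subtype ((infl (SP n)).δ (qn n x)) =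
      LinearMap.rTensor PP FrL (coP (qq (x : PP))) := by
    rw [← qn_coe, ← SP_δ, ← P0_comm]
    congr 1
    exact inflδ_apply (SP n) (qn n x)
  have h2 : (HH n).subtype ∘ₗ qn n = qq.toLinearMap ∘ₗ (HH n).subtype := by
    ext1 f
    exact qn_coe n f
  have h3 : LinearMap.lTensor PP (HH n).subtype (LinearMap.lTensor PP (qn n) ((SP n).δ x)) =
      LinearMap.lTensor PP qq.toLinearMap (coP (x : PP)) := by
    rw [← SP_δ, ← LinearMap.comp_apply, ← LinearMap.lTensor_comp, h2, LinearMap.lTensor_comp,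
      LinearMap.comp_apply]
  rw [h1, ← coP_qq, ← h3]

theorem P0_T (z : PP ⊗[ZMod 2] PP) :
    LinearMap.lTensor PP (LinearMap.mulLeft (ZMod 2) (X 0 : PP)) (LinearMap.rTensor PP (mT 1) z) =
      (T ⊗ₜ[ZMod 2] (X 0 : PP)) * z := by
  induction z using TensorProduct.induction_on with
  | zero => rw [map_zero, map_zero, mul_zero]
  | tmul a b =>
    rw [LinearMap.rTensor_tmul, LinearMap.lTensor_tmul, mT_apply, pow_one,
      Algebra.TensorProduct.tmul_mul_tmul]
    rfl
  | add a b ha hb => rw [map_add, map_add, ha, hb, mul_add]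

theorem mulX0_hom (n : ℕ) : IsHom (shift (SP n) 1) (SP (n + 1)) (mulX0 n) := by
  intro x
  apply P0_inj (n + 1)
  rw [SP_δ, mulX0_coe, map_mul, coP_X]
  have h2 : (HH (n + 1)).subtype ∘ₗ mulX0 n =
      LinearMap.mulLeft (ZMod 2) (X 0 : PP) ∘ₗ (HH n).subtype := by
    ext1 f
    exact mulX0_coe n f
  have h3 : LinearMap.lTensor PP (HH (n + 1)).subtype
      (LinearMap.lTensor PP (mulX0 n) ((shift (SP n) 1).δ x)) =
      LinearMap.lTensor PP (LinearMap.mulLeft (ZMod 2) (X 0 : PP))
        (LinearMap.rTensor PP (mT 1) (coP (x : PP))) := by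
    rw [← SP_δ, ← P0_comm, ← LinearMap.comp_apply, ← LinearMap.lTensor_comp, h2,
      LinearMap.lTensor_comp, LinearMap.comp_apply]
    congr 2
    exact shiftδ_apply (SP n) 1 x
  rw [h3, P0_T, Finset.sum_range_one]
  congr 2
  rw [Nat.sub_zero, pow_zero, pow_one]
  unfold xi
  rw [if_pos rfl, one_mul]

theorem X0_dvd_sub (y : PP) : (X 0 : PP) ∣ y - sh1 (qq y) := by
  induction y using MvPolynomial.induction_on with
  | C a =>
    have h1 : qq (C a) = C a := by
      rw [← algebraMap_eq, AlgHom.commutes]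
    have h2 : sh1 (C a) = C a := by
      rw [← algebraMap_eq, AlgHom.commutes]
    rw [h1, h2, sub_self]
    exact dvd_zero _
  | add p q hp hq =>
    rw [map_add, map_add, add_sub_add_comm]
    exact dvd_add hp hq
  | mul_X p j hp =>
    rw [map_mul, map_mul]
    rcases j with _ | j
    · rw [qq_X_zero, map_zero, mul_zero, sub_zero]
      exact dvd_mul_left _ _
    · rw [qq_X_succ, sh1_X, ← sub_mul]
      exact hp.mul_right _

theorem ses_P0 (n : ℕ) :
    SES (shift (SP n) 1) (SP (n + 1)) (infl (SP (n + 1))) (mulX0 n) (qn (n + 1)) where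
  hi := mulX0_hom n
  hp := qn_hom (n + 1)
  inj := by
    intro f g h
    have h1 : (X 0 : PP) * (f : PP) = X 0 * (g : PP) := by
      rw [← mulX0_coe, ← mulX0_coe, h]
    exact Subtype.ext (mul_left_cancel₀ (X_ne_zero 0) h1)
  surj := by
    intro g
    refine ⟨⟨sh1 (g : PP), sh1_mem (n + 1) g.2⟩, ?_⟩
    apply Subtype.ext
    rw [qn_coe]
    exact qq_sh1 _
  ex := by
    intro y
    constructor
    · intro h
      have h1 : qq (y : PP) = 0 := by
        rw [← qn_coe, h]; rfl
      have h2 := X0_dvd_sub (y : PP)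
      rw [h1, map_zero, sub_zero] at h2
      obtain ⟨f, hf⟩ := h2
      have h3 : f.IsHomogeneous n := by
        intro d hd
        have h4 : coeff (Finsupp.single 0 1 + d) (y : PP) ≠ 0 := by
          rw [hf, coeff_X_mul]
          exact hd
        have h5 := P0_mem y h4
        rw [map_add] at h5
        simp only [Finsupp.weight_single, Pi.one_apply, smul_eq_mul, mul_one] at h5
        omega
      refine ⟨⟨f, (mem_homogeneousSubmodule n f).2 h3⟩, ?_⟩
      apply Subtype.ext
      rw [mulX0_coe]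
      exact hf.symm
    · rintro ⟨f, rfl⟩
      apply Subtype.ext
      rw [qn_coe, mulX0_coe, map_mul, qq_X_zero, zero_mul]
      rfl

end

end Pool.Agent.Pet19
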