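import Pool.Agent.Pet19.KE
import Pool.Agent.Pet19.KdN
import Pool.Agent.Pet19.P0

/-!
# Pet19.D0a: the operator `D0`

`D0 (f ⊗ g) = ∑_j f X_j ⊗ ∂g/∂X_j`.  Since `qq ∘ sh1 = id` and
`∂(sh1 g)/∂X_(j+1) = sh1 (∂g/∂X_j)`, `∂(sh1 g)/∂X_0 = 0`:
`Dp a (1 ⊗ sh1) = (1 ⊗ sh1) D0 a`, and `(1 ⊗ qq) Dp a = D0 a (1 ⊗ qq)` (evaluate on `f ⊗ g`
with `tauP_eq`, `∂(qq g)/∂X_j = qq (∂g/∂X_(j+1))`).
Exactness of `D0` follows from `KE_exact`: for a cycle `z`, `(1 ⊗ sh1) z` is a `Dp`-cycle, so it is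
`Dp y`, and `z = (1 ⊗ qq)(1 ⊗ sh1) z = D0 ((1 ⊗ qq) y)`.
-/

set_option autoImplicit false
open MvPolynomial TensorProduct

namespace Pool.Agent.Pet19

noncomputable section

private lemma d0a_sh1_eq (g : PP) : sh1 g = rename (fun j => j + 1) g := by
  have h : sh1 = rename (fun j : ℕ => j + 1) := by
    apply MvPolynomial.algHom_ext
    intro i
    unfold sh1
    rw [aeval_X, rename_X]
  rw [h]

private lemma d0a_sh1_X (i : ℕ) : sh1 (X i) = X (i + 1) := by
  rw [d0a_sh1_eq, rename_X]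

private lemma d0a_qq_X (i : ℕ) : qq (X i) = if i = 0 then (0 : PP) else X (i - 1) := by
  unfold qq
  rw [aeval_X]

private lemma d0a_pd_sh1 (j : ℕ) (g : PP) : pderiv (j + 1) (sh1 g) = sh1 (pderiv j g) := by
  induction g using MvPolynomial.induction_on with
  | C a =>
    rw [← algebraMap_eq, AlgHom.commutes, algebraMap_eq, pderiv_C, pderiv_C, map_zero]
  | add p q hp hq => rw [map_add, map_add, map_add, map_add, hp, hq]
  | mul_X p i hp =>
    rw [map_mul, pderiv_mul, pderiv_mul, map_add, map_mul, map_mul, hp, d0a_sh1_X]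
    congr 2
    rw [pderiv_X, pderiv_X]
    by_cases h : i = j
    · subst h
      simp
    · rw [Pi.single_eq_of_ne (by omega), Pi.single_eq_of_ne (by omega), map_zero]

private lemma d0a_pd_qq (j : ℕ) (g : PP) : pderiv j (qq g) = qq (pderiv (j + 1) g) := by
  induction g using MvPolynomial.induction_on with
  | C a =>
    rw [← algebraMap_eq, AlgHom.commutes, algebraMap_eq, pderiv_C, pderiv_C, map_zero]
  | add p q hp hq => rw [map_add, map_add, map_add, map_add, hp, hq]
  | mul_X p i hp =>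
    rw [map_mul, pderiv_mul, pderiv_mul, map_add, map_mul, map_mul, hp, d0a_qq_X]
    congr 2
    rw [pderiv_X]
    by_cases h0 : i = 0
    · rw [if_pos h0, map_zero, Pi.single_eq_of_ne (by omega), map_zero]
    · rw [if_neg h0, pderiv_X]
      by_cases h : i = j + 1
      · subst h
        simp
      · rw [Pi.single_eq_of_ne (by omega), Pi.single_eq_of_ne (by omega), map_zero]

private lemma d0a_Dp_tmul (a : ℕ) (f : HH a) (g : PP) (N : ℕ) (h : ∀ n ∈ g.vars, n ≤ N) :
    Dp a (f ⊗ₜ[ZMod 2] g) =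
      ∑ j ∈ Finset.range N, mulh a (f ⊗ₜ[ZMod 2] X j) ⊗ₜ[ZMod 2] pderiv (j + 1) g := by
  unfold Dp
  rw [LinearMap.comp_apply, LinearMap.comp_apply, LinearMap.lTensor_tmul,
    tauP_eq g N h, TensorProduct.tmul_sum, map_sum, map_sum]
  refine Finset.sum_congr rfl fun j _ => ?_
  rw [LinearEquiv.coe_coe, TensorProduct.assoc_symm_tmul, LinearMap.rTensor_tmul]

theorem D0_tmul (a : ℕ) (f : HH a) (g : PP) (N : ℕ) (h : ∀ n ∈ g.vars, n < N) :
    D0 a (f ⊗ₜ[ZMod 2] g) =
      ∑ j ∈ Finset.range N, mulh a (f ⊗ₜ[ZMod 2] X j) ⊗ₜ[ZMod 2] pderiv j g := by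
  unfold D0
  have h1 : ∀ n ∈ (sh1 g).vars, n ≤ N := by
    intro n hn
    rw [d0a_sh1_eq] at hn
    have h2 := vars_rename (fun j => j + 1) g hn
    rw [Finset.mem_image] at h2
    obtain ⟨m, hm, rfl⟩ := h2
    exact h m hm
  rw [LinearMap.comp_apply, LinearMap.comp_apply, LinearMap.lTensor_tmul]
  change LinearMap.lTensor (HH (a + 1)) qq.toLinearMap (Dp a (f ⊗ₜ[ZMod 2] sh1 g)) = _
  rw [d0a_Dp_tmul a f (sh1 g) N h1, map_sum]
  refine Finset.sum_congr rfl fun j _ => ?_
  rw [LinearMap.lTensor_tmul, d0a_pd_sh1]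
  change _ ⊗ₜ[ZMod 2] (qq (sh1 (pderiv j g))) = _
  rw [qq_sh1]

private lemma d0a_bound (g g' : PP) : ∃ N : ℕ, (∀ n ∈ g.vars, n < N) ∧ ∀ n ∈ g'.vars, n < N := by
  refine ⟨(g.vars ∪ g'.vars).sup id + 1, fun n hn => ?_, fun n hn => ?_⟩
  · have h1 : n ≤ (g.vars ∪ g'.vars).sup id :=
      Finset.le_sup (f := id) (Finset.mem_union_left _ hn)
    omega
  · have h1 : n ≤ (g.vars ∪ g'.vars).sup id :=
      Finset.le_sup (f := id) (Finset.mem_union_right _ hn)
    omega

theorem Dp_sh1 (a : ℕ) (z : HH a ⊗[ZMod 2] PP) :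
    Dp a (LinearMap.lTensor (HH a) sh1.toLinearMap z) =
      LinearMap.lTensor (HH (a + 1)) sh1.toLinearMap (D0 a z) := by
  induction z using TensorProduct.induction_on with
  | zero => simp only [map_zero]
  | add x y hx hy => simp only [map_add, hx, hy]
  | tmul f g =>
    obtain ⟨N, h1, h2⟩ := d0a_bound g (sh1 g)
    rw [LinearMap.lTensor_tmul, D0_tmul a f g N h1, map_sum]
    change Dp a (f ⊗ₜ[ZMod 2] sh1 g) = _
    rw [d0a_Dp_tmul a f (sh1 g) N fun n hn => (h2 n hn).le]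
    refine Finset.sum_congr rfl fun j _ => ?_
    rw [LinearMap.lTensor_tmul, d0a_pd_sh1]
    rfl

theorem D0_qq (a : ℕ) (z : HH a ⊗[ZMod 2] PP) :
    D0 a (LinearMap.lTensor (HH a) qq.toLinearMap z) =
      LinearMap.lTensor (HH (a + 1)) qq.toLinearMap (Dp a z) := by
  induction z using TensorProduct.induction_on with
  | zero => simp only [map_zero]
  | add x y hx hy => simp only [map_add, hx, hy]
  | tmul f g =>
    obtain ⟨N, h1, h2⟩ := d0a_bound g (qq g)
    rw [LinearMap.lTensor_tmul, d0a_Dp_tmul a f g N fun n hn => (h1 n hn).le, map_sum]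
    change D0 a (f ⊗ₜ[ZMod 2] qq g) = _
    rw [D0_tmul a f (qq g) N h2]
    refine Finset.sum_congr rfl fun j _ => ?_
    rw [LinearMap.lTensor_tmul, d0a_pd_qq]
    rfl

/-- degrees: `D0 a` maps `HH a ⊗ HH (n+1)` to `HH (a+1) ⊗ HH n` -/
theorem D0_deg (a n : ℕ) (z : HH a ⊗[ZMod 2] HH (n + 1)) :
    ∃ y : HH (a + 1) ⊗[ZMod 2] HH n,
      D0 a (LinearMap.lTensor (HH a) (HH (n + 1)).subtype z) =
        LinearMap.lTensor (HH (a + 1)) (HH n).subtype y := by
  induction z using TensorProduct.induction_on with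
  | zero => exact ⟨0, by simp only [map_zero]⟩
  | add x y hx hy =>
    obtain ⟨x', hx'⟩ := hx
    obtain ⟨y', hy'⟩ := hy
    exact ⟨x' + y', by simp only [map_add, hx', hy']⟩
  | tmul f g =>
    obtain ⟨N, h1, -⟩ := d0a_bound (g : PP) (g : PP)
    have h2 : ∀ j, pderiv j (g : PP) ∈ HH n := by
      intro j
      have h3 : (g : PP).IsHomogeneous (n + 1) := (mem_homogeneousSubmodule _ _).1 g.2
      rw [mem_homogeneousSubmodule]
      exact h3.pderiv
    refine ⟨∑ j ∈ Finset.range N, mulh a (f ⊗ₜ[ZMod 2] X j) ⊗ₜ[ZMod 2]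
      (⟨pderiv j (g : PP), h2 j⟩ : HH n), ?_⟩
    rw [LinearMap.lTensor_tmul, Submodule.subtype_apply, D0_tmul a f (g : PP) N h1, map_sum]
    refine Finset.sum_congr rfl fun j _ => ?_
    rw [LinearMap.lTensor_tmul, Submodule.subtype_apply]

theorem D0_deg0 (a : ℕ) (z : HH a ⊗[ZMod 2] HH 0) :
    D0 a (LinearMap.lTensor (HH a) (HH 0).subtype z) = 0 := by
  induction z using TensorProduct.induction_on with
  | zero => simp only [map_zero]
  | add x y hx hy => simp only [map_add, hx, hy, add_zero]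
  | tmul f g =>
    have h1 : (g : PP).IsHomogeneous 0 := (mem_homogeneousSubmodule _ _).1 g.2
    have h2 : (g : PP).totalDegree = 0 := Nat.le_zero.1 h1.totalDegree_le
    rw [totalDegree_eq_zero_iff_eq_C] at h2
    have h3 : ∀ n ∈ (g : PP).vars, n < 0 := by
      intro n hn
      rw [h2, vars_C] at hn
      exact absurd hn (Finset.notMem_empty n)
    rw [LinearMap.lTensor_tmul, Submodule.subtype_apply, D0_tmul a f (g : PP) 0 h3,
      Finset.range_zero, Finset.sum_empty]

/-- exactness -/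
theorem D0_exact (a n : ℕ) (z : HH (a + 1) ⊗[ZMod 2] HH n)
    (hz : D0 (a + 1) (LinearMap.lTensor (HH (a + 1)) (HH n).subtype z) = 0) :
    ∃ y : HH a ⊗[ZMod 2] HH (n + 1), D0 a (LinearMap.lTensor (HH a) (HH (n + 1)).subtype y) =
      LinearMap.lTensor (HH (a + 1)) (HH n).subtype z := by
  let s1 : HH n →ₗ[ZMod 2] HH n := sh1.toLinearMap.restrict fun x hx => sh1_mem n hx
  have hs1 : ∀ w : HH (a + 1) ⊗[ZMod 2] HH n,
      LinearMap.lTensor (HH (a + 1)) (HH n).subtype (LinearMap.lTensor (HH (a + 1)) s1 w) =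
      LinearMap.lTensor (HH (a + 1)) sh1.toLinearMap
        (LinearMap.lTensor (HH (a + 1)) (HH n).subtype w) := by
    intro w
    induction w using TensorProduct.induction_on with
    | zero => simp only [map_zero]
    | add x y hx hy => simp only [map_add, hx, hy]
    | tmul f g =>
      simp only [LinearMap.lTensor_tmul]
      rfl
  have hq : ∀ w : HH a ⊗[ZMod 2] HH (n + 1),
      LinearMap.lTensor (HH a) (HH (n + 1)).subtype (LinearMap.lTensor (HH a) (qn (n + 1)) w) =
      LinearMap.lTensor (HH a) qq.toLinearMap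
        (LinearMap.lTensor (HH a) (HH (n + 1)).subtype w) := by
    intro w
    induction w using TensorProduct.induction_on with
    | zero => simp only [map_zero]
    | add x y hx hy => simp only [map_add, hx, hy]
    | tmul f g =>
      simp only [LinearMap.lTensor_tmul, Submodule.subtype_apply, qn_coe]
      rfl
  have hqs : ∀ w : HH (a + 1) ⊗[ZMod 2] PP,
      LinearMap.lTensor (HH (a + 1)) qq.toLinearMap
        (LinearMap.lTensor (HH (a + 1)) sh1.toLinearMap w) = w := by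
    intro w
    induction w using TensorProduct.induction_on with
    | zero => simp only [map_zero]
    | add x y hx hy => simp only [map_add, hx, hy]
    | tmul f g =>
      simp only [LinearMap.lTensor_tmul]
      change f ⊗ₜ[ZMod 2] (qq (sh1 g)) = _
      rw [qq_sh1]
  have h1 : Dp (a + 1) (LinearMap.lTensor (HH (a + 1)) (HH n).subtype
      (LinearMap.lTensor (HH (a + 1)) s1 z)) = 0 := by
    rw [hs1, Dp_sh1, hz, map_zero]
  obtain ⟨y, hy⟩ := KE_exact a n _ h1
  refine ⟨LinearMap.lTensor (HH a) (qn (n + 1)) y, ?_⟩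
  rw [hq, D0_qq, hy, hs1, hqs]

private lemma d0a_two {M : Type} [AddCommGroup M] [Module (ZMod 2) M] (x : M) : x + x = 0 := by
  have h1 : x + x = ((1 : ZMod 2) + 1) • x := by rw [add_smul, one_smul]
  have h2 : (1 : ZMod 2) + 1 = 0 := by decide
  rw [h1, h2, zero_smul]

private lemma d0a_pd_pd (i : ℕ) (g : PP) : pderiv i (pderiv i g) = 0 := by
  induction g using MvPolynomial.induction_on with
  | C a => rw [pderiv_C, map_zero]
  | add p q hp hq => rw [map_add, map_add, hp, hq, add_zero]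
  | mul_X p j hp =>
    rw [pderiv_mul, map_add, pderiv_mul, pderiv_mul, hp]
    have h1 : pderiv i (pderiv i (X j : PP)) = 0 := by
      rw [pderiv_X]
      by_cases h : j = i
      · subst h
        rw [Pi.single_eq_same]
        exact (pderiv j).map_one_eq_zero
      · rw [Pi.single_eq_of_ne h, map_zero]
    rw [h1, zero_mul, mul_zero, zero_add, add_zero]
    exact d0a_two _

private lemma d0a_pd_comm (i j : ℕ) (g : PP) :
    pderiv i (pderiv j g) = pderiv j (pderiv i g) := by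
  have hX : ∀ a b k : ℕ, pderiv a (pderiv b (X k : PP)) = 0 := by
    intro a b k
    rw [pderiv_X]
    by_cases h : k = b
    · subst h
      rw [Pi.single_eq_same]
      exact (pderiv a).map_one_eq_zero
    · rw [Pi.single_eq_of_ne h, map_zero]
  induction g using MvPolynomial.induction_on with
  | C a => simp only [pderiv_C, map_zero]
  | add p q hp hq => simp only [map_add, hp, hq]
  | mul_X p k hp =>
    simp only [pderiv_mul, map_add, hp, hX]
    ring

private lemma d0a_mulh (a : ℕ) (f : HH a) (i j : ℕ) :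
    mulh (a + 1) (mulh a (f ⊗ₜ[ZMod 2] X j) ⊗ₜ[ZMod 2] X i) =
      mulh (a + 1) (mulh a (f ⊗ₜ[ZMod 2] X i) ⊗ₜ[ZMod 2] X j) := by
  have hX : ∀ k : ℕ, (X k : PP) ∈ HH 1 := fun k =>
    (mem_homogeneousSubmodule _ _).2 (isHomogeneous_X _ k)
  apply Subtype.ext
  rw [mulh_coe (a + 1) (mulh a (f ⊗ₜ[ZMod 2] X j)) (X i) (hX i), mulh_coe a f (X j) (hX j),
    mulh_coe (a + 1) (mulh a (f ⊗ₜ[ZMod 2] X i)) (X j) (hX j), mulh_coe a f (X i) (hX i)]
  ring

theorem D0_D0 (a : ℕ) (z : HH a ⊗[ZMod 2] PP) : D0 (a + 1) (D0 a z) = 0 := by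
  induction z using TensorProduct.induction_on with
  | zero => simp only [map_zero]
  | add x y hx hy => simp only [map_add, hx, hy, add_zero]
  | tmul f g =>
    obtain ⟨N, h1, h2⟩ : ∃ N : ℕ, (∀ n ∈ g.vars, n < N) ∧
        ∀ j, ∀ n ∈ (pderiv j g).vars, n < N := by
      obtain ⟨N0, h0, -⟩ := d0a_bound g g
      refine ⟨N0 + ((Finset.range N0).biUnion fun j => (pderiv j g).vars).sup id + 1,
        fun n hn => ?_, fun j n hn => ?_⟩
      · have := h0 n hn
        omega
      · by_cases hj : j < N0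
        · have h3 : n ≤ ((Finset.range N0).biUnion fun j => (pderiv j g).vars).sup id :=
            Finset.le_sup (f := id) (Finset.mem_biUnion.2 ⟨j, Finset.mem_range.2 hj, hn⟩)
          omega
        · rw [pderiv_eq_zero_of_notMem_vars (fun h => hj (h0 j h)), vars_0] at hn
          exact absurd hn (Finset.notMem_empty n)
    rw [D0_tmul a f g N h1, map_sum]
    have h3 : ∀ j ∈ Finset.range N,
        D0 (a + 1) (mulh a (f ⊗ₜ[ZMod 2] X j) ⊗ₜ[ZMod 2] pderiv j g) =
        ∑ i ∈ Finset.range N, mulh (a + 1) (mulh a (f ⊗ₜ[ZMod 2] X j) ⊗ₜ[ZMod 2] X i) ⊗ₜ[ZMod 2]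
          pderiv i (pderiv j g) := fun j _ => D0_tmul (a + 1) _ _ N (h2 j)
    rw [Finset.sum_congr rfl h3, ← Finset.sum_product']
    refine Finset.sum_involution (fun x _ => (x.2, x.1)) ?_ ?_ ?_ ?_
    · intro x _
      change mulh (a + 1) (mulh a (f ⊗ₜ[ZMod 2] X x.1) ⊗ₜ[ZMod 2] X x.2) ⊗ₜ[ZMod 2]
          pderiv x.2 (pderiv x.1 g) +
        mulh (a + 1) (mulh a (f ⊗ₜ[ZMod 2] X x.2) ⊗ₜ[ZMod 2] X x.1) ⊗ₜ[ZMod 2]
          pderiv x.1 (pderiv x.2 g) = 0
      rw [d0a_mulh a f x.1 x.2, d0a_pd_comm x.1 x.2 g]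
      exact d0a_two _
    · intro x _ hne heq
      have h4 : x.2 = x.1 := congrArg Prod.fst heq
      apply hne
      rw [h4, d0a_pd_pd, TensorProduct.tmul_zero]
    · intro x hx
      rw [Finset.mem_product] at hx ⊢
      exact ⟨hx.2, hx.1⟩
    · intro x _
      rfl

end

end Pool.Agent.Pet19
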