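import Pool.Agent.Pet19.CmdT

/-!
# Pet19.TensF: functoriality and isomorphisms
-/

set_option autoImplicit false
open MvPolynomial TensorProduct

namespace Pool.Agent.Pet19

noncomputable section

/-- naturality of `star` -/
private lemma tensf_star_nat {M M' N N' : Type} [AddCommGroup M] [Module (ZMod 2) M]
    [AddCommGroup M'] [Module (ZMod 2) M'] [AddCommGroup N] [Module (ZMod 2) N]
    [AddCommGroup N'] [Module (ZMod 2) N'] (f : M →ₗ[ZMod 2] M') (g : N →ₗ[ZMod 2] N')
    (u : PP ⊗[ZMod 2] M) (v : PP ⊗[ZMod 2] N) :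
    star M' N' (LinearMap.lTensor PP f u ⊗ₜ[ZMod 2] LinearMap.lTensor PP g v) =
      LinearMap.lTensor PP (TensorProduct.map f g) (star M N (u ⊗ₜ[ZMod 2] v)) := by
  induction u using TensorProduct.induction_on with
  | zero => simp only [map_zero, TensorProduct.zero_tmul]
  | add a b ha hb => rw [map_add, TensorProduct.add_tmul, map_add, ha, hb,
      TensorProduct.add_tmul, map_add, map_add]
  | tmul a m =>
    induction v using TensorProduct.induction_on with
    | zero => simp only [map_zero, TensorProduct.tmul_zero]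
    | add c d hc hd => rw [map_add, TensorProduct.tmul_add, map_add, hc, hd,
        TensorProduct.tmul_add, map_add, map_add]
    | tmul b n =>
      rw [LinearMap.lTensor_tmul, LinearMap.lTensor_tmul, star_tmul, star_tmul,
        LinearMap.lTensor_tmul, TensorProduct.map_tmul]

/-- naturality of `star` in the first factors -/
private lemma tensf_star_r {M N : Type} [AddCommGroup M] [Module (ZMod 2) M]
    [AddCommGroup N] [Module (ZMod 2) N] (h k l : PP →ₗ[ZMod 2] PP)
    (hkl : ∀ a b, h a * k b = l (a * b)) (u : PP ⊗[ZMod 2] M) (v : PP ⊗[ZMod 2] N) :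
    star M N (LinearMap.rTensor M h u ⊗ₜ[ZMod 2] LinearMap.rTensor N k v) =
      LinearMap.rTensor (M ⊗[ZMod 2] N) l (star M N (u ⊗ₜ[ZMod 2] v)) := by
  induction u using TensorProduct.induction_on with
  | zero => simp only [map_zero, TensorProduct.zero_tmul]
  | add a b ha hb => rw [map_add, TensorProduct.add_tmul, map_add, ha, hb,
      TensorProduct.add_tmul, map_add, map_add]
  | tmul a m =>
    induction v using TensorProduct.induction_on with
    | zero => simp only [map_zero, TensorProduct.tmul_zero]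
    | add c d hc hd => rw [map_add, TensorProduct.tmul_add, map_add, hc, hd,
        TensorProduct.tmul_add, map_add, map_add]
    | tmul b n =>
      rw [LinearMap.rTensor_tmul, LinearMap.rTensor_tmul, star_tmul, star_tmul,
        LinearMap.rTensor_tmul, hkl]

private lemma tensf_rl {M N : Type} [AddCommGroup M] [Module (ZMod 2) M]
    [AddCommGroup N] [Module (ZMod 2) N] (g : PP →ₗ[ZMod 2] PP) (f : M →ₗ[ZMod 2] N)
    (u : PP ⊗[ZMod 2] M) :
    LinearMap.rTensor N g (LinearMap.lTensor PP f u) =
      LinearMap.lTensor PP f (LinearMap.rTensor M g u) := by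
  induction u using TensorProduct.induction_on with
  | zero => simp only [map_zero]
  | add a b ha hb => rw [map_add, map_add, ha, hb, map_add, map_add]
  | tmul a m =>
    rw [LinearMap.lTensor_tmul, LinearMap.rTensor_tmul, LinearMap.rTensor_tmul,
      LinearMap.lTensor_tmul]

private lemma tensf_lcomp {L M N : Type} [AddCommGroup L] [Module (ZMod 2) L] [AddCommGroup M]
    [Module (ZMod 2) M] [AddCommGroup N] [Module (ZMod 2) N] (f : L →ₗ[ZMod 2] M)
    (g : M →ₗ[ZMod 2] N) (x : PP ⊗[ZMod 2] L) :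
    LinearMap.lTensor PP g (LinearMap.lTensor PP f x) = LinearMap.lTensor PP (g ∘ₗ f) x := by
  rw [LinearMap.lTensor_comp]
  rfl

theorem hom_map {A A' B B' : Pre} {f : A.N →ₗ[ZMod 2] A'.N} {g : B.N →ₗ[ZMod 2] B'.N}
    (hf : IsHom A A' f) (hg : IsHom B B' g) :
    IsHom (tens A B) (tens A' B') (TensorProduct.map f g) := by
  intro x
  change tensδ A' B' (TensorProduct.map f g x) =
    LinearMap.lTensor PP (TensorProduct.map f g) (tensδ A B x)
  induction x using TensorProduct.induction_on with
  | zero => simp only [map_zero]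
  | add a b ha hb => rw [map_add, map_add, ha, hb, map_add, map_add]
  | tmul a b =>
    rw [TensorProduct.map_tmul, tensδ_tmul, tensδ_tmul, hf a, hg b, tensf_star_nat]

theorem hom_id (A : Pre) : IsHom A A LinearMap.id := by
  intro x; simp

theorem hom_shift {A B : Pre} {f : A.N →ₗ[ZMod 2] B.N} (hf : IsHom A B f) (j : ℕ) :
    IsHom (shift A j) (shift B j) f := by
  intro x
  change shiftδ B j (f x) = LinearMap.lTensor PP f (shiftδ A j x)
  rw [shiftδ_apply, shiftδ_apply, hf x, tensf_rl]

theorem hom_infl {A B : Pre} {f : A.N →ₗ[ZMod 2] B.N} (hf : IsHom A B f) :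
    IsHom (infl A) (infl B) f := by
  intro x
  change inflδ B (f x) = LinearMap.lTensor PP f (inflδ A x)
  rw [inflδ_apply, inflδ_apply, hf x, tensf_rl]

theorem iso_refl (A : Pre) : Iso A A := ⟨LinearEquiv.refl _ _, hom_id A⟩

theorem iso_symm {A B : Pre} (h : Iso A B) : Iso B A := by
  obtain ⟨e, he⟩ := h
  refine ⟨e.symm, fun y => ?_⟩
  obtain ⟨x, rfl⟩ := e.surjective y
  have h1 := he x
  have h2 : e.symm.toLinearMap ∘ₗ e.toLinearMap = LinearMap.id :=
    LinearMap.ext fun z => e.symm_apply_apply z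
  have h3 : A.δ (e.symm (e x)) = A.δ x := by rw [e.symm_apply_apply]
  change A.δ (e.symm (e x)) = LinearMap.lTensor PP e.symm.toLinearMap (B.δ (e x))
  have h4 : B.δ (e x) = LinearMap.lTensor PP e.toLinearMap (A.δ x) := h1
  rw [h3, h4, tensf_lcomp, h2, LinearMap.lTensor_id]
  rfl

theorem iso_trans {A B C : Pre} (h : Iso A B) (h' : Iso B C) : Iso A C := by
  obtain ⟨e, he⟩ := h
  obtain ⟨f, hf⟩ := h'
  refine ⟨e.trans f, fun x => ?_⟩
  have h1 : C.δ (f (e x)) = LinearMap.lTensor PP f.toLinearMap (B.δ (e x)) := hf (e x)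
  have h2 : B.δ (e x) = LinearMap.lTensor PP e.toLinearMap (A.δ x) := he x
  change C.δ (f (e x)) = LinearMap.lTensor PP (f.toLinearMap ∘ₗ e.toLinearMap) (A.δ x)
  rw [h1, h2, tensf_lcomp]

theorem iso_cmd {A B : Pre} (h : Iso A B) [IsCmd A] : IsCmd B := by
  obtain ⟨e, he⟩ := h
  exact cmd_of_surj he e.surjective

theorem iso_tens {A A' B B' : Pre} (h : Iso A A') (h' : Iso B B') :
    Iso (tens A B) (tens A' B') := by
  obtain ⟨e, he⟩ := h
  obtain ⟨f, hf⟩ := h'
  exact ⟨TensorProduct.congr e f, hom_map he hf⟩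

theorem iso_shift {A A' : Pre} (h : Iso A A') (j : ℕ) : Iso (shift A j) (shift A' j) := by
  obtain ⟨e, he⟩ := h
  exact ⟨e, hom_shift he j⟩

theorem iso_infl {A A' : Pre} (h : Iso A A') : Iso (infl A) (infl A') := by
  obtain ⟨e, he⟩ := h
  exact ⟨e, hom_infl he⟩

private lemma tensf_star_comm {M N : Type} [AddCommGroup M] [Module (ZMod 2) M]
    [AddCommGroup N] [Module (ZMod 2) N] (u : PP ⊗[ZMod 2] M) (v : PP ⊗[ZMod 2] N) :
    star N M (v ⊗ₜ[ZMod 2] u) = LinearMap.lTensor PP
      (TensorProduct.comm (ZMod 2) M N).toLinearMap (star M N (u ⊗ₜ[ZMod 2] v)) := by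
  induction u using TensorProduct.induction_on with
  | zero => simp only [map_zero, TensorProduct.zero_tmul, TensorProduct.tmul_zero]
  | add a b ha hb => rw [TensorProduct.add_tmul, TensorProduct.tmul_add, map_add, map_add,
      map_add, ha, hb]
  | tmul a m =>
    induction v using TensorProduct.induction_on with
    | zero => simp only [map_zero, TensorProduct.tmul_zero, TensorProduct.zero_tmul]
    | add c d hc hd => rw [TensorProduct.add_tmul, TensorProduct.tmul_add, map_add, map_add,
        map_add, hc, hd]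
    | tmul b n =>
      rw [star_tmul, star_tmul, LinearMap.lTensor_tmul, mul_comm]
      rfl

theorem iso_tens_comm (A B : Pre) : Iso (tens A B) (tens B A) := by
  refine ⟨TensorProduct.comm (ZMod 2) A.N B.N, fun x => ?_⟩
  change tensδ B A (TensorProduct.comm (ZMod 2) A.N B.N x) = LinearMap.lTensor PP
      (TensorProduct.comm (ZMod 2) A.N B.N).toLinearMap (tensδ A B x)
  induction x using TensorProduct.induction_on with
  | zero => simp only [map_zero]
  | add a b ha hb => rw [map_add, map_add, ha, hb, map_add, map_add]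
  | tmul a b => rw [TensorProduct.comm_tmul, tensδ_tmul, tensδ_tmul, tensf_star_comm]

private lemma tensf_star_assoc {L M N : Type} [AddCommGroup L] [Module (ZMod 2) L]
    [AddCommGroup M] [Module (ZMod 2) M] [AddCommGroup N] [Module (ZMod 2) N]
    (t : PP ⊗[ZMod 2] L) (u : PP ⊗[ZMod 2] M) (v : PP ⊗[ZMod 2] N) :
    star L (M ⊗[ZMod 2] N) (t ⊗ₜ[ZMod 2] star M N (u ⊗ₜ[ZMod 2] v)) =
      LinearMap.lTensor PP (TensorProduct.assoc (ZMod 2) L M N).toLinearMap
        (star (L ⊗[ZMod 2] M) N (star L M (t ⊗ₜ[ZMod 2] u) ⊗ₜ[ZMod 2] v)) := by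
  induction t using TensorProduct.induction_on with
  | zero => simp only [map_zero, TensorProduct.zero_tmul]
  | add a b ha hb => simp only [TensorProduct.add_tmul, map_add, ha, hb]
  | tmul a l =>
    induction u using TensorProduct.induction_on with
    | zero => simp only [map_zero, TensorProduct.tmul_zero, TensorProduct.zero_tmul]
    | add c d hc hd =>
      simp only [TensorProduct.add_tmul, TensorProduct.tmul_add, map_add, hc, hd]
    | tmul b m =>
      induction v using TensorProduct.induction_on with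
      | zero => simp only [map_zero, TensorProduct.tmul_zero]
      | add c d hc hd => simp only [TensorProduct.tmul_add, map_add, hc, hd]
      | tmul c n =>
        rw [star_tmul, star_tmul, star_tmul, star_tmul, LinearMap.lTensor_tmul, mul_assoc]
        rfl

theorem iso_tens_assoc (A B C : Pre) : Iso (tens (tens A B) C) (tens A (tens B C)) := by
  refine ⟨TensorProduct.assoc (ZMod 2) A.N B.N C.N, fun x => ?_⟩
  change tensδ A (tens B C) (TensorProduct.assoc (ZMod 2) A.N B.N C.N x) =
    LinearMap.lTensor PP (TensorProduct.assoc (ZMod 2) A.N B.N C.N).toLinearMap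
      (tensδ (tens A B) C x)
  induction x using TensorProduct.induction_on with
  | zero => simp only [map_zero]
  | add a b ha hb => rw [map_add, map_add, ha, hb, map_add, map_add]
  | tmul y c =>
    induction y using TensorProduct.induction_on with
    | zero => simp only [map_zero, TensorProduct.zero_tmul]
    | add a b ha hb =>
      rw [TensorProduct.add_tmul, map_add, map_add, ha, hb, map_add, map_add]
    | tmul a b =>
      rw [TensorProduct.assoc_tmul, tensδ_tmul A (tens B C) a (b ⊗ₜ[ZMod 2] c),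
        tensδ_tmul (tens A B) C (a ⊗ₜ[ZMod 2] b) c]
      change star A.N (B.N ⊗[ZMod 2] C.N) (A.δ a ⊗ₜ[ZMod 2] tensδ B C (b ⊗ₜ[ZMod 2] c)) =
        LinearMap.lTensor PP (TensorProduct.assoc (ZMod 2) A.N B.N C.N).toLinearMap
          (star (A.N ⊗[ZMod 2] B.N) C.N (tensδ A B (a ⊗ₜ[ZMod 2] b) ⊗ₜ[ZMod 2] C.δ c))
      rw [tensδ_tmul, tensδ_tmul, tensf_star_assoc]

private lemma tensf_star_triv {M : Type} [AddCommGroup M] [Module (ZMod 2) M]
    (u : PP ⊗[ZMod 2] M) (c : ZMod 2) :
    LinearMap.lTensor PP (TensorProduct.rid (ZMod 2) M).toLinearMap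
      (star M (ZMod 2) (u ⊗ₜ[ZMod 2] ((1 : PP) ⊗ₜ[ZMod 2] c))) = c • u := by
  induction u using TensorProduct.induction_on with
  | zero => simp only [map_zero, TensorProduct.zero_tmul, smul_zero]
  | add a b ha hb => rw [TensorProduct.add_tmul, map_add, map_add, ha, hb, smul_add]
  | tmul a m =>
    rw [star_tmul, LinearMap.lTensor_tmul, mul_one]
    change a ⊗ₜ[ZMod 2] (TensorProduct.rid (ZMod 2) M (m ⊗ₜ[ZMod 2] c)) = _
    rw [TensorProduct.rid_tmul, TensorProduct.tmul_smul]

theorem iso_tens_triv (A : Pre) : Iso (tens A triv) A := by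
  refine ⟨TensorProduct.rid (ZMod 2) A.N, fun x => ?_⟩
  change A.δ (TensorProduct.rid (ZMod 2) A.N x) =
    LinearMap.lTensor PP (TensorProduct.rid (ZMod 2) A.N).toLinearMap (tensδ A triv x)
  induction x using TensorProduct.induction_on with
  | zero => simp only [map_zero]
  | add a b ha hb => rw [map_add, map_add, ha, hb, map_add, map_add]
  | tmul a c =>
    rw [TensorProduct.rid_tmul, tensδ_tmul, map_smul]
    exact (tensf_star_triv (A.δ a) c).symm

theorem iso_shift_tens (A B : Pre) (j : ℕ) : Iso (shift (tens A B) j) (tens (shift A j) B) := by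
  refine ⟨LinearEquiv.refl _ _, fun x => ?_⟩
  change tensδ (shift A j) B x = LinearMap.lTensor PP LinearMap.id (shiftδ (tens A B) j x)
  rw [LinearMap.lTensor_id, shiftδ_apply, LinearMap.id_apply]
  change tensδ (shift A j) B x = LinearMap.rTensor (A.N ⊗[ZMod 2] B.N) (mT j) (tensδ A B x)
  induction x using TensorProduct.induction_on with
  | zero => simp only [map_zero]
  | add a b ha hb => rw [map_add, map_add, ha, hb, map_add]
  | tmul a b =>
    rw [tensδ_tmul, tensδ_tmul]
    change star A.N B.N (shiftδ A j a ⊗ₜ[ZMod 2] B.δ b) = _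
    have h1 := tensf_star_r (mT j) LinearMap.id (mT j)
      (fun a b => by rw [mT_apply, mT_apply, LinearMap.id_apply, mul_assoc]) (A.δ a) (B.δ b)
    rw [LinearMap.rTensor_id, LinearMap.id_apply] at h1
    rw [shiftδ_apply, h1]

theorem iso_infl_tens (A B : Pre) : Iso (infl (tens A B)) (tens (infl A) (infl B)) := by
  refine ⟨LinearEquiv.refl _ _, fun x => ?_⟩
  change tensδ (infl A) (infl B) x = LinearMap.lTensor PP LinearMap.id (inflδ (tens A B) x)
  rw [LinearMap.lTensor_id, inflδ_apply, LinearMap.id_apply]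
  change tensδ (infl A) (infl B) x =
    LinearMap.rTensor (A.N ⊗[ZMod 2] B.N) FrL (tensδ A B x)
  induction x using TensorProduct.induction_on with
  | zero => simp only [map_zero]
  | add a b ha hb => rw [map_add, map_add, ha, hb, map_add]
  | tmul a b =>
    rw [tensδ_tmul, tensδ_tmul]
    change star A.N B.N (inflδ A a ⊗ₜ[ZMod 2] inflδ B b) = _
    rw [inflδ_apply, inflδ_apply]
    exact tensf_star_r FrL FrL FrL (fun a b => (FrL_mul a b).symm) (A.δ a) (B.δ b)

private lemma tensf_rcomp {M : Type} [AddCommGroup M] [Module (ZMod 2) M]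
    {f g h : PP →ₗ[ZMod 2] PP} (hc : ∀ x, g (f x) = h x) (u : PP ⊗[ZMod 2] M) :
    LinearMap.rTensor M g (LinearMap.rTensor M f u) = LinearMap.rTensor M h u := by
  have h1 : g ∘ₗ f = h := LinearMap.ext hc
  rw [← h1, LinearMap.rTensor_comp]
  rfl

theorem iso_shift_shift (A : Pre) (i j : ℕ) : Iso (shift (shift A i) j) (shift A (i + j)) := by
  refine ⟨LinearEquiv.refl _ _, fun x => ?_⟩
  change shiftδ A (i + j) x = LinearMap.lTensor PP LinearMap.id (shiftδ (shift A i) j x)
  rw [LinearMap.lTensor_id, shiftδ_apply, shiftδ_apply, LinearMap.id_apply]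
  change _ = LinearMap.rTensor A.N (mT j) (shiftδ A i x)
  rw [shiftδ_apply]
  refine (tensf_rcomp (fun x => ?_) (A.δ x)).symm
  rw [mT_apply, mT_apply, mT_apply, ← mul_assoc, ← pow_add, add_comm]

theorem iso_shift_zero (A : Pre) : Iso (shift A 0) A := by
  refine ⟨LinearEquiv.refl _ _, fun x => ?_⟩
  change A.δ x = LinearMap.lTensor PP LinearMap.id (shiftδ A 0 x)
  have h1 : mT 0 = LinearMap.id := LinearMap.ext fun z => by
    rw [mT_apply, pow_zero, one_mul, LinearMap.id_apply]
  rw [LinearMap.lTensor_id, shiftδ_apply, LinearMap.id_apply, h1, LinearMap.rTensor_id,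
    LinearMap.id_apply]

theorem iso_infl_triv : Iso (infl triv) triv := by
  refine ⟨LinearEquiv.refl _ _, fun x => ?_⟩
  change (1 : PP) ⊗ₜ[ZMod 2] x = LinearMap.lTensor PP LinearMap.id (inflδ triv x)
  rw [LinearMap.lTensor_id, inflδ_apply, LinearMap.id_apply]
  change _ = LinearMap.rTensor (ZMod 2) FrL ((1 : PP) ⊗ₜ[ZMod 2] x)
  rw [LinearMap.rTensor_tmul, FrL_sq, one_pow]

theorem iso_infl_shift (A : Pre) (j : ℕ) : Iso (infl (shift A j)) (shift (infl A) (2 * j)) := by
  refine ⟨LinearEquiv.refl _ _, fun x => ?_⟩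
  change shiftδ (infl A) (2 * j) x = LinearMap.lTensor PP LinearMap.id (inflδ (shift A j) x)
  rw [LinearMap.lTensor_id, inflδ_apply, shiftδ_apply, LinearMap.id_apply]
  change LinearMap.rTensor A.N (mT (2 * j)) (inflδ A x) =
    LinearMap.rTensor A.N FrL (shiftδ A j x)
  rw [shiftδ_apply, inflδ_apply,
    tensf_rcomp (h := mT (2 * j) ∘ₗ FrL) (fun _ => rfl) (A.δ x)]
  refine (tensf_rcomp (fun x => ?_) (A.δ x)).symm
  rw [LinearMap.comp_apply, mT_apply, mT_apply, FrL_mul, FrL_sq, FrL_sq, ← pow_mul, mul_comm j 2]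

end

end Pool.Agent.Pet19
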