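import Pool.Agent.Pet19.PolyC
import Pool.Agent.Pet19.TensF

/-!
# Pet19.Poly: the polynomial comodules `S(P)`, `S(V)`, `S^n(P)`, `S^a(V)`

Degrees: `coP` of a monomial of degree `n` lies in the image of `PP ⊗ HH n` (induction), so
`(1 ⊗ homogeneousComponent m) (coP f) = 0` for `m ≠ n`, and `IsSub SfP (HH n)`.
Twist: `T ⊗ 1 * coV (X i) = (Fr ⊗ 1) (coP (X i))` because
`T * xi^(2^(j+1)) T^(2^(j+1)-1) = ((xi T)^(2^j))^2`; hence for `f` homogeneous of degree `a`,
`(T^a ⊗ 1) * coV f = (Fr ⊗ 1) (coP f)`.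
-/

set_option autoImplicit false
open MvPolynomial TensorProduct

namespace Pool.Agent.Pet19

noncomputable section

/-- induction for homogeneous polynomials over `ZMod 2` -/
private theorem HH_ind {P : ℕ → PP → Prop} (h0 : ∀ n, P n 0)
    (hadd : ∀ n f g, P n f → P n g → P n (f + g)) (h1 : P 0 1)
    (hmul : ∀ m n f g, P m f → P n g → P (m + n) (f * g)) (hX : ∀ i, P 1 (X i)) (n : ℕ) (f : PP)
    (hf : f ∈ HH n) : P n f := by
  classical
  have hpow : ∀ (i k : ℕ), P k (X i ^ k) := by
    intro i k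
    induction k with
    | zero => rw [pow_zero]; exact h1
    | succ k ih => rw [pow_succ]; exact hmul _ _ _ _ ih (hX i)
  have hmon : ∀ μ : ℕ →₀ ℕ, P μ.degree (monomial μ 1) := by
    intro μ
    induction μ using Finsupp.induction_linear with
    | zero => rw [map_zero]; exact h1
    | add μ ν hμ hν =>
      rw [map_add]
      have h := hmul _ _ _ _ hμ hν
      rwa [monomial_mul, one_mul] at h
    | single i k =>
      rw [Finsupp.degree_single, ← X_pow_eq_monomial]
      exact hpow i k
  have hmon' : ∀ (μ : ℕ →₀ ℕ) (c : ZMod 2), P μ.degree (monomial μ c) := by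
    intro μ c
    fin_cases c
    · change P _ (monomial μ 0)
      rw [map_zero]; exact h0 _
    · exact hmon μ
  have hf' : f.IsHomogeneous n := (mem_homogeneousSubmodule n f).1 hf
  have hsum : ∀ s : Finset (ℕ →₀ ℕ), s ⊆ f.support →
      P n (∑ μ ∈ s, monomial μ (coeff μ f)) := by
    intro s
    induction s using Finset.induction with
    | empty => intro _; rw [Finset.sum_empty]; exact h0 _
    | insert μ s hμ ih =>
      intro hs
      rw [Finset.sum_insert hμ]
      apply hadd
      · have h2 := hf' (mem_support_iff.1 (hs (Finset.mem_insert_self μ s)))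
        have h3 := hmon' μ (coeff μ f)
        have h4 : μ.degree = n := by
          rw [← h2, Finsupp.degree_eq_weight_one]
          rfl
        rwa [h4] at h3
      · exact ih fun x hx => hs (Finset.mem_insert_of_mem hx)
  rw [f.as_sum]
  exact hsum _ (Finset.Subset.refl _)

/-- the elements of `PP ⊗ HH n` divisible by `T^k`, in `PP ⊗ PP` -/
private def DD (k n : ℕ) : Submodule (ZMod 2) (PP ⊗[ZMod 2] PP) :=
  LinearMap.range (LinearMap.lTensor PP (HH n).subtype ∘ₗ LinearMap.rTensor (HH n) (mT k))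

private theorem DD_tmul (k n : ℕ) (a f : PP) (hf : f ∈ HH n) :
    (T ^ k * a) ⊗ₜ[ZMod 2] f ∈ DD k n :=
  ⟨a ⊗ₜ[ZMod 2] (⟨f, hf⟩ : HH n), by
    rw [LinearMap.comp_apply, LinearMap.rTensor_tmul, LinearMap.lTensor_tmul, mT_apply]; rfl⟩

private theorem DD_mul {k l m n : ℕ} {u v : PP ⊗[ZMod 2] PP} (hu : u ∈ DD k m) (hv : v ∈ DD l n) :
    u * v ∈ DD (k + l) (m + n) := by
  obtain ⟨u, rfl⟩ := hu
  obtain ⟨v, rfl⟩ := hv
  induction u using TensorProduct.induction_on with
  | zero => rw [map_zero, zero_mul]; exact Submodule.zero_mem _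
  | add u u' hu hu' => rw [map_add, add_mul]; exact Submodule.add_mem _ hu hu'
  | tmul a f =>
    induction v using TensorProduct.induction_on with
    | zero => rw [map_zero, mul_zero]; exact Submodule.zero_mem _
    | add v v' hv hv' => rw [map_add, mul_add]; exact Submodule.add_mem _ hv hv'
    | tmul b g =>
      rw [LinearMap.comp_apply, LinearMap.comp_apply, LinearMap.rTensor_tmul,
        LinearMap.rTensor_tmul, LinearMap.lTensor_tmul, LinearMap.lTensor_tmul, mT_apply, mT_apply,
        Algebra.TensorProduct.tmul_mul_tmul]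
      have h : T ^ k * a * (T ^ l * b) = T ^ (k + l) * (a * b) := by rw [pow_add]; ring
      rw [h]
      apply DD_tmul
      rw [mem_homogeneousSubmodule]
      exact ((mem_homogeneousSubmodule m _).1 f.2).mul ((mem_homogeneousSubmodule n _).1 g.2)

private theorem DD_one : (1 : PP ⊗[ZMod 2] PP) ∈ DD 0 0 := by
  have h := DD_tmul 0 0 1 1 ((mem_homogeneousSubmodule 0 _).2 (isHomogeneous_one ℕ (ZMod 2)))
  rwa [pow_zero, one_mul] at h

private theorem coP_mem (n : ℕ) (f : PP) (hf : f ∈ HH n) : coP f ∈ DD n n := by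
  refine HH_ind (P := fun n f => coP f ∈ DD n n) ?_ ?_ ?_ ?_ ?_ n f hf
  · intro n; rw [map_zero]; exact Submodule.zero_mem _
  · intro n f g hf hg; rw [map_add]; exact Submodule.add_mem _ hf hg
  · rw [map_one]; exact DD_one
  · intro m n f g hf hg; rw [map_mul]; exact DD_mul hf hg
  · intro i
    rw [coP, aeval_X]
    refine Submodule.sum_mem _ fun j _ => ?_
    have h : (xi (i - j) * T) ^ (2 ^ j) = T ^ 1 * (xi (i - j) ^ (2 ^ j) * T ^ (2 ^ j - 1)) := by
      have h2 : 2 ^ j = 1 + (2 ^ j - 1) := by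
        have := Nat.one_le_two_pow (n := j)
        omega
      rw [mul_pow]
      conv_lhs => rw [h2]
      conv_rhs => rw [h2]
      rw [Nat.add_sub_cancel_left, pow_add T]
      ring
    rw [h]
    exact DD_tmul _ _ _ _ ((mem_homogeneousSubmodule 1 _).2 (isHomogeneous_X (ZMod 2) j))

private theorem coV_mem (n : ℕ) (f : PP) (hf : f ∈ HH n) : coV f ∈ DD 0 n := by
  refine HH_ind (P := fun n f => coV f ∈ DD 0 n) ?_ ?_ ?_ ?_ ?_ n f hf
  · intro n; rw [map_zero]; exact Submodule.zero_mem _
  · intro n f g hf hg; rw [map_add]; exact Submodule.add_mem _ hf hg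
  · rw [map_one]; exact DD_one
  · intro m n f g hf hg
    have h := DD_mul hf hg
    rw [zero_add] at h
    rw [map_mul]
    exact h
  · intro i
    rw [coV, aeval_X]
    refine Submodule.sum_mem _ fun j _ => ?_
    have h := DD_tmul 0 1 (xi (i - j) ^ (2 ^ (j + 1)) * T ^ (2 ^ (j + 1) - 1)) (X j)
      ((mem_homogeneousSubmodule 1 _).2 (isHomogeneous_X (ZMod 2) j))
    rwa [pow_zero, one_mul] at h

theorem isSub_SfP (n : ℕ) : IsSub SfP (HH n) := by
  rw [isSub_iff]
  intro f hf
  obtain ⟨u, hu⟩ := coP_mem n f hf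
  exact ⟨LinearMap.rTensor (HH n) (mT n) u, hu⟩

theorem isSub_SfV (n : ℕ) : IsSub SfV (HH n) := by
  rw [isSub_iff]
  intro f hf
  obtain ⟨u, hu⟩ := coV_mem n f hf
  exact ⟨LinearMap.rTensor (HH n) (mT 0) u, hu⟩

instance cmd_SP (n : ℕ) : IsCmd (no_index (SP n)) := subP_cmd _ _ (isSub_SfP n)

instance cmd_SV (n : ℕ) : IsCmd (no_index (SV n)) := subP_cmd _ _ (isSub_SfV n)

theorem SP_δ (n : ℕ) (f : HH n) :
    LinearMap.lTensor PP (HH n).subtype ((SP n).δ f) = coP (f : PP) :=
  (subP_hom SfP (HH n) (isSub_SfP n) f).symm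

theorem SV_δ (n : ℕ) (f : HH n) :
    LinearMap.lTensor PP (HH n).subtype ((SV n).δ f) = coV (f : PP) :=
  (subP_hom SfV (HH n) (isSub_SfV n) f).symm

private theorem lr_comm {M N : Type} [AddCommGroup M] [Module (ZMod 2) M] [AddCommGroup N]
    [Module (ZMod 2) N] (f : M →ₗ[ZMod 2] N) (g : PP →ₗ[ZMod 2] PP) (x : PP ⊗[ZMod 2] M) :
    LinearMap.lTensor PP f (LinearMap.rTensor M g x) =
      LinearMap.rTensor N g (LinearMap.lTensor PP f x) := by
  induction x using TensorProduct.induction_on with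
  | zero => simp only [map_zero]
  | tmul a m => simp only [LinearMap.lTensor_tmul, LinearMap.rTensor_tmul]
  | add u v hu hv => simp only [map_add, hu, hv]

private theorem mT_mul (k l : ℕ) (u v : PP ⊗[ZMod 2] PP) :
    LinearMap.rTensor PP (mT (k + l)) (u * v) =
      LinearMap.rTensor PP (mT k) u * LinearMap.rTensor PP (mT l) v := by
  induction u using TensorProduct.induction_on with
  | zero => simp only [map_zero, zero_mul]
  | add u u' hu hu' => simp only [map_add, add_mul, hu, hu']
  | tmul a f =>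
    induction v using TensorProduct.induction_on with
    | zero => simp only [map_zero, mul_zero]
    | add v v' hv hv' => simp only [map_add, mul_add, hv, hv']
    | tmul b g =>
      simp only [LinearMap.rTensor_tmul, Algebra.TensorProduct.tmul_mul_tmul, mT_apply, pow_add]
      congr 1
      ring

private theorem FrL_mulT (u v : PP ⊗[ZMod 2] PP) :
    LinearMap.rTensor PP FrL (u * v) =
      LinearMap.rTensor PP FrL u * LinearMap.rTensor PP FrL v := by
  induction u using TensorProduct.induction_on with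
  | zero => simp only [map_zero, zero_mul]
  | add u u' hu hu' => simp only [map_add, add_mul, hu, hu']
  | tmul a f =>
    induction v using TensorProduct.induction_on with
    | zero => simp only [map_zero, mul_zero]
    | add v v' hv hv' => simp only [map_add, mul_add, hv, hv']
    | tmul b g =>
      simp only [LinearMap.rTensor_tmul, Algebra.TensorProduct.tmul_mul_tmul, FrL_mul]

private theorem twist_aux (a : ℕ) (f : PP) (hf : f ∈ HH a) :
    LinearMap.rTensor PP (mT a) (coV f) = LinearMap.rTensor PP FrL (coP f) := by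
  refine HH_ind (P := fun a f => LinearMap.rTensor PP (mT a) (coV f) =
    LinearMap.rTensor PP FrL (coP f)) ?_ ?_ ?_ ?_ ?_ a f hf
  · intro n; simp only [map_zero]
  · intro n f g hf hg; simp only [map_add, hf, hg]
  · rw [map_one coV, map_one coP, Algebra.TensorProduct.one_def, LinearMap.rTensor_tmul,
      LinearMap.rTensor_tmul, mT_apply, pow_zero, FrL_sq, one_mul, one_pow]
  · intro m n f g hf hg
    rw [map_mul coV, map_mul coP, mT_mul, FrL_mulT, hf, hg]
  · intro i
    rw [coP, coV, aeval_X, aeval_X, map_sum, map_sum]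
    refine Finset.sum_congr rfl fun j _ => ?_
    rw [LinearMap.rTensor_tmul, LinearMap.rTensor_tmul, mT_apply, FrL_sq]
    congr 1
    have h2 : 2 ^ (j + 1) = 1 + (2 ^ (j + 1) - 1) := by
      have := Nat.one_le_two_pow (n := j + 1)
      omega
    have h3 : (T : PP) ^ (2 ^ (j + 1)) = T ^ 1 * T ^ (2 ^ (j + 1) - 1) := by
      conv_lhs => rw [h2]
      rw [pow_add]
    rw [← pow_mul, ← pow_succ, mul_pow, h3]
    ring

/-- `S^a(V)⟨a⟩ = ` Frobenius twist of `S^a(P)` (same underlying space) -/
theorem SV_twist (a : ℕ) (f : HH a) :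
    LinearMap.rTensor (HH a) (mT a) ((SV a).δ f) =
      LinearMap.rTensor (HH a) FrL ((SP a).δ f) := by
  apply lTensor_inj PP (HH a).injective_subtype
  rw [lr_comm, lr_comm, SV_δ, SP_δ]
  exact twist_aux a f f.2

instance cmd_SPl : ∀ l : List ℕ, IsCmd (SPl l)
  | [] => cmd_triv
  | (n :: l) => by
    have := cmd_SPl l
    exact cmd_tens (SP n) (SPl l)

private theorem HH_zero (f : PP) (hf : f ∈ HH 0) : f = C (coeff 0 f) := by
  have h := homogeneousComponent_of_mem (m := 0) (n := 0) hf
  rw [if_pos rfl, homogeneousComponent_zero] at h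
  exact h.symm

/-- `S^0(P)` is trivial -/
theorem iso_SP_zero : Iso (SP 0) triv := by
  let φ : HH 0 →ₗ[ZMod 2] ZMod 2 := (lcoeff (ZMod 2) 0) ∘ₗ (HH 0).subtype
  have hφ : ∀ f : HH 0, φ f = coeff 0 (f : PP) := fun f => rfl
  have hb : Function.Bijective φ := by
    constructor
    · intro f g h
      rw [hφ, hφ] at h
      apply Subtype.ext
      rw [HH_zero f f.2, HH_zero g g.2, h]
    · intro c
      refine ⟨⟨C c, (mem_homogeneousSubmodule 0 _).2 (isHomogeneous_C ℕ c)⟩, ?_⟩
      rw [hφ]
      exact coeff_zero_C c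
  refine ⟨LinearEquiv.ofBijective φ hb, ?_⟩
  intro f
  change (1 : PP) ⊗ₜ[ZMod 2] φ f = LinearMap.lTensor PP φ ((SP 0).δ f)
  have h : (SP 0).δ f = (1 : PP) ⊗ₜ[ZMod 2] f := by
    apply lTensor_inj PP (HH 0).injective_subtype
    rw [SP_δ, LinearMap.lTensor_tmul, Submodule.subtype_apply]
    have h1 := HH_zero (f : PP) f.2
    rw [h1, ← algebraMap_eq, AlgHom.commutes, Algebra.TensorProduct.algebraMap_apply',
      algebraMap_eq]
  rw [h, LinearMap.lTensor_tmul]

theorem Div_SP (n : ℕ) : Div n (SP n) := by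
  intro f
  obtain ⟨u, hu⟩ := coP_mem n f f.2
  refine ⟨u, ?_⟩
  apply lTensor_inj PP (HH n).injective_subtype
  rw [SP_δ, ← hu]
  rfl

end

end Pool.Agent.Pet19
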