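import Pool.Agent.Pet19.D0a
import Pool.Agent.Pet19.Poly

/-!
# Pet19.D0h: `D0` is colinear

Full version on `PP ⊗ PP` first: `τ0 g = ∑_j X_j ⊗ ∂g/∂X_j` satisfies
`star (coP ⊗ coP) (τ0 g) = (1 ⊗ τ0)(coP g)`; both sides are derivations in `g`
(over multiplication by `coP g` placed in the first and third factor), and on `g = X i` both are
`∑_j a_(ij) ⊗ (X_j ⊗ 1)`.  Then multiply by `coP f`.
Injectivity of `PP ⊗ (HH (a+1) ⊗ PP) → PP ⊗ (PP ⊗ PP)` reduces the statement to the full version.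
-/

set_option autoImplicit false
open MvPolynomial TensorProduct

namespace Pool.Agent.Pet19

noncomputable section

/-! ### the full version on `PP ⊗ PP` -/

/-- `g ↦ ∑_j ∂g/∂X_j ⊗ X_j` -/
private def d0hτ : Derivation (ZMod 2) PP (PP ⊗[ZMod 2] PP) :=
  mkDerivation (ZMod 2) (fun j => (1 : PP) ⊗ₜ[ZMod 2] (X j : PP))

private lemma d0hτ_X (j : ℕ) : d0hτ (X j) = (1 : PP) ⊗ₜ[ZMod 2] (X j : PP) :=
  mkDerivation_X _ _ _

private lemma d0hτ_eq (g : PP) (N : ℕ) (h : ∀ n ∈ g.vars, n < N) :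
    d0hτ g = ∑ j ∈ Finset.range N, pderiv j g ⊗ₜ[ZMod 2] (X j : PP) := by
  set D : Derivation (ZMod 2) PP (PP ⊗[ZMod 2] PP) := ∑ j ∈ Finset.range N,
    (LinearMap.toSpanSingleton PP (PP ⊗[ZMod 2] PP)
      ((1 : PP) ⊗ₜ[ZMod 2] (X j : PP))).compDer (pderiv j) with hD
  have hDa : ∀ x, D x = ∑ j ∈ Finset.range N, pderiv j x ⊗ₜ[ZMod 2] (X j : PP) := by
    intro x
    have h1 : (D : PP → PP ⊗[ZMod 2] PP) = ∑ j ∈ Finset.range N,
        ((LinearMap.toSpanSingleton PP (PP ⊗[ZMod 2] PP)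
          ((1 : PP) ⊗ₜ[ZMod 2] (X j : PP))).compDer (pderiv j) : PP → PP ⊗[ZMod 2] PP) :=
      map_sum Derivation.coeFnAddMonoidHom _ _
    rw [h1, Finset.sum_apply]
    refine Finset.sum_congr rfl fun j _ => ?_
    change (pderiv j x) • ((1 : PP) ⊗ₜ[ZMod 2] (X j : PP)) = _
    rw [TensorProduct.smul_tmul', smul_eq_mul, mul_one]
  rw [← hDa]
  apply derivation_eq_of_forall_mem_vars
  intro i hi
  rw [d0hτ_X, hDa, Finset.sum_eq_single i]
  · rw [pderiv_X_self]
  · intro j _ hj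
    rw [pderiv_X_of_ne hj.symm, TensorProduct.zero_tmul]
  · intro hi'
    exact absurd (Finset.mem_range.2 (h i hi)) hi'

/-- `f ⊗ g ↦ ∑_j f X_j ⊗ ∂g/∂X_j` -/
private def d0hE : PP ⊗[ZMod 2] PP →ₗ[ZMod 2] PP ⊗[ZMod 2] PP :=
  TensorProduct.lift (LinearMap.mk₂ (ZMod 2)
    (fun f g => (f ⊗ₜ[ZMod 2] (1 : PP)) * TensorProduct.comm (ZMod 2) PP PP (d0hτ g))
    (fun f f' g => by rw [TensorProduct.add_tmul, add_mul])
    (fun c f g => by rw [← TensorProduct.smul_tmul', smul_mul_assoc])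
    (fun f g g' => by rw [map_add, map_add, mul_add])
    (fun c f g => by rw [Derivation.map_smul, map_smul, mul_smul_comm]))

private lemma d0hE_tmul (f g : PP) : d0hE (f ⊗ₜ[ZMod 2] g) =
    (f ⊗ₜ[ZMod 2] (1 : PP)) * TensorProduct.comm (ZMod 2) PP PP (d0hτ g) := by
  simp [d0hE]

private lemma d0h_comm_smul (g : PP) (u : PP ⊗[ZMod 2] PP) :
    TensorProduct.comm (ZMod 2) PP PP (g • u) =
      ((1 : PP) ⊗ₜ[ZMod 2] g) * TensorProduct.comm (ZMod 2) PP PP u := by
  induction u using TensorProduct.induction_on with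
  | zero => simp
  | add u v hu hv => rw [smul_add, map_add, hu, hv, map_add, mul_add]
  | tmul a b =>
    rw [TensorProduct.smul_tmul', TensorProduct.comm_tmul, TensorProduct.comm_tmul,
      Algebra.TensorProduct.tmul_mul_tmul, one_mul, smul_eq_mul]

/-- the product rule -/
private lemma d0hE_mul (z w : PP ⊗[ZMod 2] PP) : d0hE (z * w) = z * d0hE w + w * d0hE z := by
  induction z using TensorProduct.induction_on with
  | zero => simp
  | add u v hu hv => rw [add_mul, map_add, hu, hv, map_add]; ring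
  | tmul f g =>
    induction w using TensorProduct.induction_on with
    | zero => simp
    | add u v hu hv => rw [mul_add, map_add, hu, hv, map_add]; ring
    | tmul f' g' =>
      rw [Algebra.TensorProduct.tmul_mul_tmul, d0hE_tmul, d0hE_tmul, d0hE_tmul,
        Derivation.leibniz, map_add, d0h_comm_smul, d0h_comm_smul]
      have e1 : (f * f') ⊗ₜ[ZMod 2] (1 : PP) =
          (f ⊗ₜ[ZMod 2] (1 : PP)) * (f' ⊗ₜ[ZMod 2] (1 : PP)) := by
        rw [Algebra.TensorProduct.tmul_mul_tmul, one_mul]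
      have e2 : f ⊗ₜ[ZMod 2] g = (f ⊗ₜ[ZMod 2] (1 : PP)) * ((1 : PP) ⊗ₜ[ZMod 2] g) := by
        rw [Algebra.TensorProduct.tmul_mul_tmul, one_mul, mul_one]
      have e3 : f' ⊗ₜ[ZMod 2] g' = (f' ⊗ₜ[ZMod 2] (1 : PP)) * ((1 : PP) ⊗ₜ[ZMod 2] g') := by
        rw [Algebra.TensorProduct.tmul_mul_tmul, one_mul, mul_one]
      rw [e1, e2, e3]
      ring

/-- the product rule for `1 ⊗ E` -/
private lemma d0hL_gen {R : Type} [CommRing R] [Algebra (ZMod 2) R] (E : R →ₗ[ZMod 2] R)
    (hE : ∀ z w, E (z * w) = z * E w + w * E z) (u v : PP ⊗[ZMod 2] R) :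
    LinearMap.lTensor PP E (u * v) =
      u * LinearMap.lTensor PP E v + v * LinearMap.lTensor PP E u := by
  induction u using TensorProduct.induction_on with
  | zero => simp
  | add a b ha hb => rw [add_mul, map_add, ha, hb, map_add]; ring
  | tmul a z =>
    induction v using TensorProduct.induction_on with
    | zero => simp
    | add c d hc hd => rw [mul_add, map_add, hc, hd, map_add]; ring
    | tmul b w =>
      rw [Algebra.TensorProduct.tmul_mul_tmul, LinearMap.lTensor_tmul, hE,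
        LinearMap.lTensor_tmul, LinearMap.lTensor_tmul, Algebra.TensorProduct.tmul_mul_tmul,
        Algebra.TensorProduct.tmul_mul_tmul, TensorProduct.tmul_add, mul_comm b a]

private lemma d0h_coP_X (i : ℕ) : coP (X i) =
    ∑ j ∈ Finset.range (i + 1), ((xi (i - j) * T) ^ (2 ^ j)) ⊗ₜ[ZMod 2] X j := by
  simp [coP]

private lemma d0hE_left (f : PP) : d0hE (f ⊗ₜ[ZMod 2] (1 : PP)) = 0 := by
  rw [d0hE_tmul, Derivation.map_one_eq_zero, map_zero, mul_zero]

private lemma d0hE_X (i : ℕ) : d0hE ((1 : PP) ⊗ₜ[ZMod 2] (X i : PP)) =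
    (X i : PP) ⊗ₜ[ZMod 2] (1 : PP) := by
  rw [d0hE_tmul, d0hτ_X, TensorProduct.comm_tmul, Algebra.TensorProduct.tmul_mul_tmul, one_mul,
    one_mul]

section gen

variable {R : Type} [CommRing R] [Algebra (ZMod 2) R] (i1 i2 : PP →ₐ[ZMod 2] R)

/-- the coaction on `PP ⊗ PP` as an algebra map, with values in `PP ⊗ R` -/
private def d0hΓ : PP ⊗[ZMod 2] PP →ₐ[ZMod 2] PP ⊗[ZMod 2] R :=
  Algebra.TensorProduct.productMap
    ((Algebra.TensorProduct.map (AlgHom.id (ZMod 2) PP) i1).comp coP)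
    ((Algebra.TensorProduct.map (AlgHom.id (ZMod 2) PP) i2).comp coP)

private lemma d0hΓ_tmul (f g : PP) : d0hΓ i1 i2 (f ⊗ₜ[ZMod 2] g) =
    Algebra.TensorProduct.map (AlgHom.id (ZMod 2) PP) i1 (coP f) *
      Algebra.TensorProduct.map (AlgHom.id (ZMod 2) PP) i2 (coP g) :=
  Algebra.TensorProduct.productMap_apply_tmul _ _ _ _

private lemma d0h_star (u v : PP ⊗[ZMod 2] PP) :
    Algebra.TensorProduct.map (AlgHom.id (ZMod 2) PP) i1 u *
    Algebra.TensorProduct.map (AlgHom.id (ZMod 2) PP) i2 v =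
    LinearMap.lTensor PP (Algebra.TensorProduct.productMap i1 i2).toLinearMap
      (star PP PP (u ⊗ₜ[ZMod 2] v)) := by
  induction u using TensorProduct.induction_on with
  | zero => simp
  | add a b ha hb => rw [map_add, add_mul, ha, hb, TensorProduct.add_tmul, map_add, map_add]
  | tmul a m =>
    induction v using TensorProduct.induction_on with
    | zero => simp
    | add c d hc hd => rw [map_add, mul_add, hc, hd, TensorProduct.tmul_add, map_add, map_add]
    | tmul b n =>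
      rw [star_tmul, Algebra.TensorProduct.map_tmul, Algebra.TensorProduct.map_tmul,
        Algebra.TensorProduct.tmul_mul_tmul, LinearMap.lTensor_tmul, AlgHom.toLinearMap_apply,
        Algebra.TensorProduct.productMap_apply_tmul]
      rfl

private lemma d0hΓ_star (z : PP ⊗[ZMod 2] PP) : d0hΓ i1 i2 z =
    LinearMap.lTensor PP (Algebra.TensorProduct.productMap i1 i2).toLinearMap
      (tensδ SfP SfP z) := by
  induction z using TensorProduct.induction_on with
  | zero => simp only [map_zero]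
  | add a b ha hb => rw [map_add, map_add, map_add, ha, hb]
  | tmul f g =>
    rw [tensδ_tmul SfP SfP f g, d0hΓ_tmul, d0h_star]
    rfl

variable {i1 i2} {E : R →ₗ[ZMod 2] R}

private lemma d0hL_left (h1 : ∀ f, E (i1 f) = 0) (f : PP) :
    LinearMap.lTensor PP E (d0hΓ i1 i2 (f ⊗ₜ[ZMod 2] (1 : PP))) = 0 := by
  rw [d0hΓ_tmul, map_one, map_one, mul_one]
  generalize coP f = u
  induction u using TensorProduct.induction_on with
  | zero => simp only [map_zero]
  | add a b ha hb => rw [map_add, map_add, ha, hb, add_zero]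
  | tmul a m =>
    rw [Algebra.TensorProduct.map_tmul, LinearMap.lTensor_tmul, h1, TensorProduct.tmul_zero]

private lemma d0hL_X (h2 : ∀ j, E (i2 (X j)) = i1 (X j)) (i : ℕ) :
    LinearMap.lTensor PP E (d0hΓ i1 i2 ((1 : PP) ⊗ₜ[ZMod 2] (X i : PP))) =
      d0hΓ i1 i2 ((X i : PP) ⊗ₜ[ZMod 2] (1 : PP)) := by
  rw [d0hΓ_tmul, d0hΓ_tmul, map_one, map_one, map_one, one_mul, mul_one, d0h_coP_X, map_sum,
    map_sum, map_sum]
  refine Finset.sum_congr rfl fun j _ => ?_
  rw [Algebra.TensorProduct.map_tmul, Algebra.TensorProduct.map_tmul, LinearMap.lTensor_tmul, h2]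

/-- the full version -/
private lemma d0h_full (hE : ∀ z w, E (z * w) = z * E w + w * E z) (h1 : ∀ f, E (i1 f) = 0)
    (h2 : ∀ j, E (i2 (X j)) = i1 (X j)) (z : PP ⊗[ZMod 2] PP) :
    d0hΓ i1 i2 (d0hE z) = LinearMap.lTensor PP E (d0hΓ i1 i2 z) := by
  have hmul : ∀ z w : PP ⊗[ZMod 2] PP,
      d0hΓ i1 i2 (d0hE z) = LinearMap.lTensor PP E (d0hΓ i1 i2 z) →
      d0hΓ i1 i2 (d0hE w) = LinearMap.lTensor PP E (d0hΓ i1 i2 w) →
      d0hΓ i1 i2 (d0hE (z * w)) = LinearMap.lTensor PP E (d0hΓ i1 i2 (z * w)) := by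
    intro z w hz hw
    rw [d0hE_mul, map_add, map_mul, map_mul, map_mul, d0hL_gen E hE, hz, hw]
  have hleft : ∀ f : PP, d0hΓ i1 i2 (d0hE (f ⊗ₜ[ZMod 2] (1 : PP))) =
      LinearMap.lTensor PP E (d0hΓ i1 i2 (f ⊗ₜ[ZMod 2] (1 : PP))) := by
    intro f
    rw [d0hE_left, map_zero, d0hL_left h1]
  have hright : ∀ g : PP, d0hΓ i1 i2 (d0hE ((1 : PP) ⊗ₜ[ZMod 2] g)) =
      LinearMap.lTensor PP E (d0hΓ i1 i2 ((1 : PP) ⊗ₜ[ZMod 2] g)) := by
    intro g
    induction g using MvPolynomial.induction_on with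
    | C c =>
      have e : (1 : PP) ⊗ₜ[ZMod 2] (C c : PP) = (C c : PP) ⊗ₜ[ZMod 2] (1 : PP) := by
        have h1 : (C c : PP) = c • (1 : PP) := by rw [smul_eq_C_mul, mul_one]
        rw [h1, TensorProduct.tmul_smul, TensorProduct.smul_tmul']
      rw [e]
      exact hleft _
    | add p q hp hq => rw [TensorProduct.tmul_add]; simp only [map_add, hp, hq]
    | mul_X p i hp =>
      have e : (1 : PP) ⊗ₜ[ZMod 2] (p * X i : PP) =
          ((1 : PP) ⊗ₜ[ZMod 2] p) * ((1 : PP) ⊗ₜ[ZMod 2] (X i : PP)) := by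
        rw [Algebra.TensorProduct.tmul_mul_tmul, one_mul]
      rw [e]
      refine hmul _ _ hp ?_
      rw [d0hE_X, d0hL_X h2]
  induction z using TensorProduct.induction_on with
  | zero => simp only [map_zero]
  | add a b ha hb => simp only [map_add, ha, hb]
  | tmul f g =>
    have e : f ⊗ₜ[ZMod 2] g = (f ⊗ₜ[ZMod 2] (1 : PP)) * ((1 : PP) ⊗ₜ[ZMod 2] g) := by
      rw [Algebra.TensorProduct.tmul_mul_tmul, one_mul, mul_one]
    rw [e]
    exact hmul _ _ (hleft f) (hright g)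

end gen

private lemma d0hE_hom : IsHom (tens SfP SfP) (tens SfP SfP) d0hE := by
  intro z
  have e : (Algebra.TensorProduct.productMap
      (Algebra.TensorProduct.includeLeft : PP →ₐ[ZMod 2] PP ⊗[ZMod 2] PP)
      (Algebra.TensorProduct.includeRight : PP →ₐ[ZMod 2] PP ⊗[ZMod 2] PP)).toLinearMap =
      LinearMap.id := by
    apply TensorProduct.ext'
    intro f g
    rw [AlgHom.toLinearMap_apply, Algebra.TensorProduct.productMap_apply_tmul,
      Algebra.TensorProduct.includeLeft_apply, Algebra.TensorProduct.includeRight_apply,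
      Algebra.TensorProduct.tmul_mul_tmul, one_mul, mul_one]
    rfl
  have h := d0h_full (R := PP ⊗[ZMod 2] PP)
    (i1 := Algebra.TensorProduct.includeLeft) (i2 := Algebra.TensorProduct.includeRight)
    (E := d0hE) d0hE_mul (fun f => by
      rw [Algebra.TensorProduct.includeLeft_apply]; exact d0hE_left f) (fun j => by
      rw [Algebra.TensorProduct.includeLeft_apply, Algebra.TensorProduct.includeRight_apply]
      exact d0hE_X j) z
  rw [d0hΓ_star, d0hΓ_star, e, LinearMap.lTensor_id] at h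
  exact h

/-- the restriction of the full version -/
private lemma d0hE_restrict (a : ℕ) :
    TensorProduct.map (HH (a + 1)).subtype (LinearMap.id : PP →ₗ[ZMod 2] PP) ∘ₗ D0 a =
      d0hE ∘ₗ TensorProduct.map (HH a).subtype (LinearMap.id : PP →ₗ[ZMod 2] PP) := by
  apply TensorProduct.ext'
  intro f g
  obtain ⟨N, hN⟩ : ∃ N : ℕ, ∀ n ∈ g.vars, n < N :=
    ⟨g.vars.sup id + 1, fun n hn => Nat.lt_succ_of_le (Finset.le_sup (f := id) hn)⟩
  rw [LinearMap.comp_apply, LinearMap.comp_apply, D0_tmul a f g N hN, TensorProduct.map_tmul,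
    d0hE_tmul, LinearMap.id_apply, d0hτ_eq g N hN, map_sum, map_sum, Finset.mul_sum]
  refine Finset.sum_congr rfl fun j _ => ?_
  rw [TensorProduct.map_tmul, LinearMap.id_apply, TensorProduct.comm_tmul,
    Algebra.TensorProduct.tmul_mul_tmul, one_mul]
  congr 1
  change ((mulh a (f ⊗ₜ[ZMod 2] (X j : PP)) : HH (a + 1)) : PP) = (f : PP) * X j
  exact mulh_coe a f _ ((mem_homogeneousSubmodule _ _).2 (isHomogeneous_X _ _))

private lemma d0h_J_hom (a : ℕ) : IsHom (tens (SP a) SfP) (tens SfP SfP)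
    (TensorProduct.map (HH a).subtype (LinearMap.id : PP →ₗ[ZMod 2] PP)) :=
  hom_map (subP_hom SfP (HH a) (isSub_SfP a)) (hom_id SfP)

private lemma d0h_J_inj (a : ℕ) : Function.Injective
    (TensorProduct.map (HH a).subtype (LinearMap.id : PP →ₗ[ZMod 2] PP)) :=
  rTensor_inj PP (HH a).injective_subtype

theorem D0_hom (a : ℕ) : IsHom (tens (SP a) SfP) (tens (SP (a + 1)) SfP) (D0 a) := by
  refine hom_of_inj (d0h_J_hom (a + 1)) (d0h_J_inj (a + 1)) ?_
  have h := hom_comp (d0h_J_hom a) d0hE_hom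
  rw [← d0hE_restrict a] at h
  exact h

theorem D0n_hom (a n : ℕ) :
    IsHom (tens (SP a) (SP n)) (tens (SP (a + 1)) SfP) (D0n a n) := by
  have h := hom_comp (hom_map (hom_id (SP a)) (subP_hom SfP (HH n) (isSub_SfP n))) (D0_hom a)
  unfold D0n
  exact h

instance cmd_KK (a n : ℕ) : IsCmd (no_index (KK a n)) := subP_cmd _ _ (isSub_ker (D0n_hom a n))

end

end Pool.Agent.Pet19
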