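import Pool.Agent.Pet19.Nx

/-!
# Pet19.LES: the long exact sequence in vanishing form

Prove each statement for `s = 0` and `s = 1` by hand (element chase in
`A.N, B.N, C.N`, `PP ⊗ A.N, ...`, using `ses_next`, `d_d`, `hom_d`), then `s + 2` by induction:
`V w (s+2) A` is by definition `V w (s+1) A.next` (generalize over `A B C i p`).
-/

set_option autoImplicit false
open MvPolynomial TensorProduct

namespace Pool.Agent.Pet19

noncomputable section

private lemma les_lcomp {L M N : Type} [AddCommGroup L] [Module (ZMod 2) L] [AddCommGroup M]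
    [Module (ZMod 2) M] [AddCommGroup N] [Module (ZMod 2) N] (f : L →ₗ[ZMod 2] M)
    (g : M →ₗ[ZMod 2] N) (x : PP ⊗[ZMod 2] L) :
    LinearMap.lTensor PP g (LinearMap.lTensor PP f x) = LinearMap.lTensor PP (g ∘ₗ f) x := by
  rw [LinearMap.lTensor_comp]
  rfl

/-- cocycles of `C` come from cocycles of `B` if `H^1(A) = 0` -/
private lemma les_lift (w : ℕ) {A B C : Pre} {i : A.N →ₗ[ZMod 2] B.N} {p : B.N →ₗ[ZMod 2] C.N}
    (h : SES A B C i p) (hB : IsCo B) (hA : V w 1 A) (y : C.N) (hy : C.d w y = 0) :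
    ∃ x : B.N, B.d w x = 0 ∧ p x = y := by
  obtain ⟨b, rfl⟩ := h.surj y
  have hn := ses_next h
  have h1 : LinearMap.lTensor PP p (B.d w b) = 0 := by rw [← hom_d h.hp, hy]
  obtain ⟨a', ha'⟩ := (hn.ex (B.d w b)).1 h1
  have h2 : A.next.d w a' = 0 := by
    apply (ses_next hn).inj
    change LinearMap.lTensor PP (LinearMap.lTensor PP i) (A.next.d w a') =
      LinearMap.lTensor PP (LinearMap.lTensor PP i) 0
    rw [map_zero, ← hom_d hn.hi w a']
    change B.next.d w (LinearMap.lTensor PP i a') = 0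
    rw [ha']
    exact d_d hB w b
  obtain ⟨a, ha⟩ := hA a' h2
  refine ⟨b - i a, ?_, ?_⟩
  · rw [map_sub, hom_d h.hi, ha, ha', sub_self]
  · have h3 : p (i a) = 0 := (h.ex (i a)).2 ⟨a, rfl⟩
    rw [map_sub, h3, sub_zero]

private lemma les_V1 (w : ℕ) {A B C : Pre} {i : A.N →ₗ[ZMod 2] B.N} {p : B.N →ₗ[ZMod 2] C.N}
    (h : SES A B C i p) (hB1 : V w 1 B)
    (hs : ∀ y : C.N, C.d w y = 0 → ∃ x : B.N, B.d w x = 0 ∧ p x = y) : V w 1 A := by
  intro x hx
  have hn := ses_next h
  have h1 : B.next.d w (LinearMap.lTensor PP i x) = 0 := by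
    have h2 := hom_d hn.hi w x
    rw [hx, map_zero] at h2
    exact h2
  obtain ⟨b, hb⟩ := hB1 _ h1
  have h3 : C.d w (p b) = 0 := by
    rw [hom_d h.hp, hb]
    exact (hn.ex _).2 ⟨x, rfl⟩
  obtain ⟨x', hx', hpx⟩ := hs _ h3
  have h4 : p (b - x') = 0 := by rw [map_sub, hpx, sub_self]
  obtain ⟨a, ha⟩ := (h.ex _).1 h4
  refine ⟨a, hn.inj ?_⟩
  rw [← hom_d h.hi, ha, map_sub, hx', sub_zero, hb]

private lemma les_V0 (w : ℕ) {A B : Pre} {i : A.N →ₗ[ZMod 2] B.N} (hi : IsHom A B i)
    (hinj : Function.Injective i) (hB : V w 0 B) : V w 0 A := by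
  intro x hx
  have h1 : B.d w (i x) = 0 := by rw [hom_d hi, hx, map_zero]
  have h2 := hB _ h1
  apply hinj
  rw [h2, map_zero]

theorem V_mid (w : ℕ) : ∀ (s : ℕ) {A B C : Pre} {i : A.N →ₗ[ZMod 2] B.N} {p : B.N →ₗ[ZMod 2] C.N},
    SES A B C i p → IsCo B → V w s A → V w s C → V w s B := by
  intro s
  induction s with
  | zero =>
    intro A B C i p h hB hA hC x hx
    have h1 : C.d w (p x) = 0 := by rw [hom_d h.hp, hx, map_zero]
    obtain ⟨a, rfl⟩ := (h.ex x).1 (hC _ h1)
    have h2 : A.d w a = 0 := by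
      apply (ses_next h).inj
      rw [← hom_d h.hi, hx, map_zero]
    rw [hA a h2, map_zero]
  | succ n ih =>
    cases n with
    | zero =>
      intro A B C i p h hB hA hC x hx
      have hn := ses_next h
      have h1 : C.next.d w (LinearMap.lTensor PP p x) = 0 := by
        have h2 := hom_d hn.hp w x
        have hx' : B.next.d w x = 0 := hx
        rw [hx', map_zero] at h2
        exact h2
      obtain ⟨c, hc⟩ := hC _ h1
      obtain ⟨b, rfl⟩ := h.surj c
      have h3 : LinearMap.lTensor PP p (x - B.d w b) = 0 := by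
        rw [map_sub, ← hom_d h.hp, hc, sub_self]
      obtain ⟨a', ha'⟩ := (hn.ex _).1 h3
      have h4 : A.next.d w a' = 0 := by
        apply (ses_next hn).inj
        have h5 := hom_d hn.hi w a'
        rw [← h5, ha', map_zero]
        have h6 : B.next.d w (B.d w b) = 0 := d_d hB w b
        have hx' : B.next.d w x = 0 := hx
        rw [map_sub, h6, hx', sub_self]
      obtain ⟨a, ha⟩ := hA a' h4
      refine ⟨b + i a, ?_⟩
      rw [map_add, hom_d h.hi, ha, ha']
      abel
    | succ m =>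
      intro A B C i p h hB hA hC
      exact ih (ses_next h) (co_next hB) hA hC

theorem V_left (w : ℕ) : ∀ (s : ℕ) {A B C : Pre} {i : A.N →ₗ[ZMod 2] B.N}
    {p : B.N →ₗ[ZMod 2] C.N},
    SES A B C i p → IsCo B → V w s C → V w (s + 1) B → V w (s + 1) A := by
  intro s
  induction s with
  | zero =>
    intro A B C i p h _ hC hB1
    exact les_V1 w h hB1 fun y hy => ⟨0, map_zero _, by rw [hC y hy, map_zero]⟩
  | succ n ih =>
    cases n with
    | zero =>
      intro A B C i p h hB hC hB1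
      refine les_V1 (A := A.next) w (ses_next h) hB1 fun y hy => ?_
      obtain ⟨c, hc⟩ := hC y hy
      obtain ⟨b, rfl⟩ := h.surj c
      refine ⟨B.d w b, d_d hB w b, ?_⟩
      rw [← hc]
      exact (hom_d h.hp w b).symm
    | succ m =>
      intro A B C i p h hB hC hB1
      exact ih (A := A.next) (ses_next h) (co_next hB) hC hB1

theorem V_left0 (w : ℕ) {A B C : Pre} {i : A.N →ₗ[ZMod 2] B.N} {p : B.N →ₗ[ZMod 2] C.N}
    (h : SES A B C i p) (hB : V w 0 B) : V w 0 A :=
  les_V0 w h.hi h.inj hB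

theorem V_right (w : ℕ) : ∀ (s : ℕ) {A B C : Pre} {i : A.N →ₗ[ZMod 2] B.N}
    {p : B.N →ₗ[ZMod 2] C.N},
    SES A B C i p → IsCo B → V w s B → V w (s + 1) A → V w s C := by
  intro s
  induction s with
  | zero =>
    intro A B C i p h hB hB0 hA y hy
    obtain ⟨x, hx, rfl⟩ := les_lift w h hB hA y hy
    rw [hB0 x hx, map_zero]
  | succ n ih =>
    cases n with
    | zero =>
      intro A B C i p h hB hB1 hA y hy
      obtain ⟨b', hb', hb⟩ := les_lift (A := A.next) w (ses_next h) (co_next hB) hA y hy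
      obtain ⟨b, hb2⟩ := hB1 b' hb'
      refine ⟨p b, ?_⟩
      rw [hom_d h.hp, hb2]
      exact hb
    | succ m =>
      intro A B C i p h hB hB1 hA
      exact ih (A := A.next) (ses_next h) (co_next hB) hB1 hA

/-- `H^0` is right exact when `H^1` of the kernel vanishes -/
theorem H0_surj (w : ℕ) {A B C : Pre} {i : A.N →ₗ[ZMod 2] B.N} {p : B.N →ₗ[ZMod 2] C.N}
    (h : SES A B C i p) (hB : IsCo B) (hA : V w 1 A) (y : C.N) (hy : C.d w y = 0) :
    ∃ x : B.N, B.d w x = 0 ∧ p x = y :=
  les_lift w h hB hA y hy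

theorem V1_of_H0 (w : ℕ) {A B C : Pre} {i : A.N →ₗ[ZMod 2] B.N} {p : B.N →ₗ[ZMod 2] C.N}
    (h : SES A B C i p) (hB : IsCo B) (hB1 : V w 1 B)
    (hs : ∀ y : C.N, C.d w y = 0 → ∃ x : B.N, B.d w x = 0 ∧ p x = y) : V w 1 A :=
  les_V1 w h hB1 hs

/-- retracts -/
theorem V_retract (w : ℕ) : ∀ (s : ℕ) {A B : Pre} {i : A.N →ₗ[ZMod 2] B.N}
    {r : B.N →ₗ[ZMod 2] A.N},
    IsHom A B i → IsHom B A r → (∀ x, r (i x) = x) → V w s B → V w s A := by
  intro s
  have hR : ∀ {A B : Pre} {i : A.N →ₗ[ZMod 2] B.N} {r : B.N →ₗ[ZMod 2] A.N},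
      (∀ x, r (i x) = x) → ∀ x, LinearMap.lTensor PP r (LinearMap.lTensor PP i x) = x := by
    intro A B i r hri x
    have h1 : r ∘ₗ i = LinearMap.id := LinearMap.ext hri
    rw [les_lcomp, h1, LinearMap.lTensor_id]
    rfl
  induction s with
  | zero =>
    intro A B i r hi hr hri hB
    exact les_V0 w hi (Function.LeftInverse.injective hri) hB
  | succ n ih =>
    cases n with
    | zero =>
      intro A B i r hi hr hri hB x hx
      have h1 : B.next.d w (LinearMap.lTensor PP i x) = 0 := by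
        have h2 := hom_d (hom_next hi) w x
        have hx' : A.next.d w x = 0 := hx
        rw [hx', map_zero] at h2
        exact h2
      obtain ⟨b, hb⟩ := hB _ h1
      refine ⟨r b, ?_⟩
      rw [hom_d hr, hb, hR hri]
    | succ m =>
      intro A B i r hi hr hri hB
      exact ih (hom_next hi) (hom_next hr) (hR hri) hB

theorem V_subsingleton (w s : ℕ) {A : Pre} (h : ∀ x : A.N, x = 0) : V w s A := by
  have hN : ∀ {A : Pre}, (∀ x : A.N, x = 0) → ∀ x : A.next.N, x = 0 := by
    intro A h x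
    induction x using TensorProduct.induction_on with
    | zero => rfl
    | tmul c y => rw [h y, TensorProduct.tmul_zero]
    | add a b ha hb => rw [ha, hb, add_zero]
  induction s generalizing A with
  | zero => exact fun x _ => h x
  | succ n ih =>
    cases n with
    | zero => exact fun x _ => ⟨0, by rw [map_zero]; exact (hN h x).symm⟩
    | succ m => exact ih (hN h)

end

end Pool.Agent.Pet19
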