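import Pool.Agent.Pet19.TensF
import Pool.Agent.Pet19.LES

/-!
# Pet19.SEST: exactness of the constructions; isomorphism invariance of `V`
-/

set_option autoImplicit false
open MvPolynomial TensorProduct

namespace Pool.Agent.Pet19

noncomputable section

theorem ses_lTens {A B C : Pre} {i : A.N →ₗ[ZMod 2] B.N} {p : B.N →ₗ[ZMod 2] C.N}
    (h : SES A B C i p) (Z : Pre) :
    SES (tens Z A) (tens Z B) (tens Z C) (LinearMap.lTensor Z.N i) (LinearMap.lTensor Z.N p) where
  hi := hom_map (hom_id Z) h.hi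
  hp := hom_map (hom_id Z) h.hp
  inj := Module.Flat.lTensor_preserves_injective_linearMap (M := Z.N) i h.inj
  surj := LinearMap.lTensor_surjective Z.N h.surj
  ex := lTensor_exact Z.N h.ex h.surj

theorem ses_rTens {A B C : Pre} {i : A.N →ₗ[ZMod 2] B.N} {p : B.N →ₗ[ZMod 2] C.N}
    (h : SES A B C i p) (Z : Pre) :
    SES (tens A Z) (tens B Z) (tens C Z) (LinearMap.rTensor Z.N i) (LinearMap.rTensor Z.N p) where
  hi := hom_map h.hi (hom_id Z)
  hp := hom_map h.hp (hom_id Z)
  inj := Module.Flat.rTensor_preserves_injective_linearMap (M := Z.N) i h.inj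
  surj := LinearMap.rTensor_surjective Z.N h.surj
  ex := rTensor_exact Z.N h.ex h.surj

theorem ses_shift {A B C : Pre} {i : A.N →ₗ[ZMod 2] B.N} {p : B.N →ₗ[ZMod 2] C.N}
    (h : SES A B C i p) (j : ℕ) : SES (shift A j) (shift B j) (shift C j) i p where
  hi := hom_shift h.hi j
  hp := hom_shift h.hp j
  inj := h.inj
  surj := h.surj
  ex := h.ex

theorem V_iso {A B : Pre} (h : Iso A B) (w s : ℕ) (hV : V w s A) : V w s B := by
  obtain ⟨e, he⟩ := h
  have h1 : IsHom B A e.symm.toLinearMap := by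
    intro x
    obtain ⟨y, rfl⟩ := e.surjective x
    have h2 := he y
    have h3 : e.symm.toLinearMap (e y) = y := e.symm_apply_apply y
    have h4 : (e.symm.toLinearMap ∘ₗ e.toLinearMap : A.N →ₗ[ZMod 2] A.N) = LinearMap.id :=
      LinearMap.ext fun z => e.symm_apply_apply z
    have h5 : B.δ (e y) = LinearMap.lTensor PP e.toLinearMap (A.δ y) := h2
    rw [h3, h5, ← LinearMap.comp_apply, ← LinearMap.lTensor_comp, h4, LinearMap.lTensor_id]
    rfl
  exact V_retract w s h1 he (fun x => e.apply_symm_apply x) hV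

end

end Pool.Agent.Pet19
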