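import Pool.Agent.Pet19.KEc
import Pool.Agent.Pet19.Sub
import Pool.Agent.Pet19.SEST

/-!
# Pet19.DSU: dimension shifting for the Koszul cohomology

Let `I = cof M.N`, `Ω = Om M`, `p : I → Ω`.  Given `IsKH a M Q` through `Z, b, i, π`, construct
`π' : ker (Kd a Ω) → Q.N`: for `z` choose (linearly, e.g. through a linear section of
`lTensor (HH a) p`) a lift `z' : (Kc a I).N`; then `Kd a I z'` comes from `(Kc (a+1) M).N`, where it is
killed by `Kd (a+1) M`, so it equals the image of a unique `u : Z.N`; put `π' z = π u`.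
Independence of the lift: `π ∘ b = 0`.  Surjectivity and the kernel: `Kd_cof_exact`.
Colinearity: let `L = subP (Kc a I) (comap ...)` be the subcomodule of elements mapping into
`ker (Kd a Ω)`; `L → ker` is surjective colinear and `L → Z → Q` is colinear (`hom_of_inj`,
`hom_of_surj`).
-/

set_option autoImplicit false
open MvPolynomial TensorProduct

namespace Pool.Agent.Pet19

noncomputable section

theorem isSub_ker_Kd (a : ℕ) (M : Pre) [IsCmd M] : IsSub (Kc a M) (LinearMap.ker (Kd a M)) :=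
  isSub_ker (Kd_hom a M)

theorem DSU (a : ℕ) (M Q : Pre) [IsCmd M] (h : IsKH a M Q) :
    ∃ π : (LinearMap.ker (Kd a (Om M))) →ₗ[ZMod 2] Q.N,
      IsHom (subP (Kc a (Om M)) (LinearMap.ker (Kd a (Om M)))) Q π ∧
      Function.Surjective π ∧
      ∀ z, π z = 0 ↔ ∃ y : (Kc a (cof M.N)).N, Kd a (cof M.N) y = 0 ∧
        LinearMap.lTensor (HH a) (LinearMap.range M.δ).mkQ y = (z : (Kc a (Om M)).N) := by
  obtain ⟨Z, b, i, π, hZ, hi, hπ, hib, hinj, hex, hbπ, hsurj⟩ := h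
  have hS := ses_Om M
  have hSa := ses_lTens hS (SV a)
  have hSb := ses_lTens hS (SV (a + 1))
  have hSc := ses_lTens hS (SV (a + 1 + 1))
  -- the maps
  set P : (Kc a (cof M.N)).N →ₗ[ZMod 2] (Kc a (Om M)).N :=
    LinearMap.lTensor (HH a) (LinearMap.range M.δ).mkQ with hP
  set P1 : (Kc (a + 1) (cof M.N)).N →ₗ[ZMod 2] (Kc (a + 1) (Om M)).N :=
    LinearMap.lTensor (HH (a + 1)) (LinearMap.range M.δ).mkQ with hP1
  set D : (Kc a M).N →ₗ[ZMod 2] (Kc a (cof M.N)).N := LinearMap.lTensor (HH a) M.δ with hD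
  set D1 : (Kc (a + 1) M).N →ₗ[ZMod 2] (Kc (a + 1) (cof M.N)).N :=
    LinearMap.lTensor (HH (a + 1)) M.δ with hD1
  set D2 : (Kc (a + 1 + 1) M).N →ₗ[ZMod 2] (Kc (a + 1 + 1) (cof M.N)).N :=
    LinearMap.lTensor (HH (a + 1 + 1)) M.δ with hD2
  have hPK : ∀ x, Kd a (Om M) (P x) = P1 (Kd a (cof M.N) x) := fun x => Kd_nat a hS.hp x
  have hDK : ∀ x, Kd a (cof M.N) (D x) = D1 (Kd a M x) := fun x => Kd_nat a hS.hi x
  have hDK1 : ∀ x, Kd (a + 1) (cof M.N) (D1 x) = D2 (Kd (a + 1) M x) :=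
    fun x => Kd_nat (a + 1) hS.hi x
  have hPD : ∀ x, P x = 0 ↔ ∃ y, D y = x := fun x => hSa.ex x
  have hPD1 : ∀ x, P1 x = 0 ↔ ∃ y, D1 y = x := fun x => hSb.ex x
  have hD2inj : Function.Injective D2 := hSc.inj
  have hPsurj : Function.Surjective P := hSa.surj
  -- `j`
  set j : Z.N →ₗ[ZMod 2] (Kc (a + 1) (cof M.N)).N := D1 ∘ₗ i with hj
  have hjinj : Function.Injective j := hSb.inj.comp hinj
  have hjhom : IsHom Z (Kc (a + 1) (cof M.N)) j := hom_comp hi hSb.hi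
  obtain ⟨ρ, hρ⟩ := LinearMap.exists_leftInverse_of_injective j
    (LinearMap.ker_eq_bot.2 hjinj)
  have hρj : ∀ u, ρ (j u) = u := fun u => LinearMap.congr_fun hρ u
  -- `L`
  set L : Submodule (ZMod 2) (Kc a (cof M.N)).N := LinearMap.ker (Kd a (Om M) ∘ₗ P) with hL
  have hLsub : IsSub (Kc a (cof M.N)) L :=
    isSub_ker (A := Kc a (cof M.N)) (hom_comp hSa.hp (Kd_hom a (Om M)))
  have hLmem : ∀ x, x ∈ L ↔ P1 (Kd a (cof M.N) x) = 0 := by
    intro x
    rw [hL, LinearMap.mem_ker, LinearMap.comp_apply, hPK]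
  -- existence of `u`
  have hu : ∀ x ∈ L, ∃ u, j u = Kd a (cof M.N) x := by
    intro x hx
    obtain ⟨y, hy⟩ := (hPD1 _).1 ((hLmem x).1 hx)
    have h1 : Kd (a + 1) M y = 0 := by
      apply hD2inj
      rw [map_zero, ← hDK1, hy]
      exact Kd_Kd a (cof M.N) x
    obtain ⟨u, hu⟩ := (hex y).1 h1
    exact ⟨u, by rw [hj, LinearMap.comp_apply, hu, hy]⟩
  set lam : L →ₗ[ZMod 2] Z.N := ρ ∘ₗ Kd a (cof M.N) ∘ₗ L.subtype with hlam
  have hjl : ∀ x : L, j (lam x) = Kd a (cof M.N) x := by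
    intro x
    obtain ⟨u, hu⟩ := hu x x.2
    rw [hlam]
    simp only [LinearMap.comp_apply, Submodule.subtype_apply]
    rw [← hu, hρj]
  have hlamhom : IsHom (subP (Kc a (cof M.N)) L) Z lam := by
    refine hom_of_inj hjhom hjinj ?_
    have h1 : j ∘ₗ lam = Kd a (cof M.N) ∘ₗ L.subtype := by
      ext x
      exact hjl x
    rw [h1]
    exact hom_comp (subP_hom _ L hLsub) (Kd_hom a (cof M.N))
  -- `P'`
  set P' : L →ₗ[ZMod 2] LinearMap.ker (Kd a (Om M)) :=
    LinearMap.codRestrict _ (P ∘ₗ L.subtype) (fun x => x.2) with hP'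
  have hP'c : ∀ x : L, ((P' x : LinearMap.ker (Kd a (Om M))) : (Kc a (Om M)).N) = P x :=
    fun x => rfl
  have hP'hom : IsHom (subP (Kc a (cof M.N)) L)
      (subP (Kc a (Om M)) (LinearMap.ker (Kd a (Om M)))) P' := by
    refine hom_of_inj (subP_hom _ _ (isSub_ker_Kd a (Om M)))
      (Submodule.injective_subtype _) ?_
    have h1 : (LinearMap.ker (Kd a (Om M))).subtype ∘ₗ P' = P ∘ₗ L.subtype := by
      ext x
      rfl
    rw [h1]
    exact hom_comp (subP_hom _ L hLsub) hSa.hp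
  have hP'surj : Function.Surjective P' := by
    rintro ⟨z, hz⟩
    obtain ⟨x, hx⟩ := hPsurj z
    refine ⟨⟨x, ?_⟩, Subtype.ext hx⟩
    rw [hL, LinearMap.mem_ker, LinearMap.comp_apply, hx]
    exact hz
  obtain ⟨σ, hσ⟩ := LinearMap.exists_rightInverse_of_surjective P'
    (LinearMap.range_eq_top.2 hP'surj)
  have hσP : ∀ z, P' (σ z) = z := fun z => LinearMap.congr_fun hσ z
  have hker : ∀ x : L, P' x = 0 → π (lam x) = 0 := by
    intro x hx
    have h1 : P x = 0 := by rw [← hP'c, hx]; rfl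
    obtain ⟨y, hy⟩ := (hPD _).1 h1
    have h2 : lam x = b y := by
      apply hjinj
      rw [hjl, ← hy, hDK, hj, LinearMap.comp_apply, ← hib, LinearMap.comp_apply]
    rw [h2]
    exact (hbπ _).2 ⟨y, rfl⟩
  set π' : LinearMap.ker (Kd a (Om M)) →ₗ[ZMod 2] Q.N := π ∘ₗ lam ∘ₗ σ with hπ'
  have hπP : ∀ x, π' (P' x) = π (lam x) := by
    intro x
    rw [hπ']
    simp only [LinearMap.comp_apply]
    rw [← sub_eq_zero, ← map_sub, ← map_sub]
    apply hker
    rw [map_sub, hσP, sub_self]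
  refine ⟨π', ?_, ?_, ?_⟩
  · refine hom_of_surj hP'hom hP'surj ?_
    have h1 : π' ∘ₗ P' = π ∘ₗ lam := by
      ext x
      exact hπP x
    rw [h1]
    exact hom_comp hlamhom hπ
  · intro q
    obtain ⟨u, rfl⟩ := hsurj q
    have h1 : Kd (a + 1) (cof M.N) (j u) = 0 := by
      rw [hj, LinearMap.comp_apply, hDK1, (hex _).2 ⟨u, rfl⟩, map_zero]
    obtain ⟨y, hy⟩ := Kd_cof_exact M.N a (j u) h1
    have hyL : y ∈ L := by
      rw [hLmem, hy, hj, LinearMap.comp_apply]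
      exact (hPD1 _).2 ⟨_, rfl⟩
    refine ⟨P' ⟨y, hyL⟩, ?_⟩
    rw [hπP]
    congr 1
    apply hjinj
    rw [hjl]
    exact hy
  · intro z
    constructor
    · intro hz
      obtain ⟨x, rfl⟩ := hP'surj z
      rw [hπP] at hz
      obtain ⟨y, hy⟩ := (hbπ _).1 hz
      refine ⟨(x : (Kc a (cof M.N)).N) - D y, ?_, ?_⟩
      · rw [map_sub, hDK, ← hjl, ← hy, hj, LinearMap.comp_apply, ← LinearMap.comp_apply i b, hib,
          sub_self]
      · rw [map_sub, (hPD (D y)).2 ⟨y, rfl⟩, sub_zero, hP'c]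
    · rintro ⟨y, hy, hyz⟩
      have hyL : y ∈ L := by
        rw [hLmem, hy, map_zero]
      have h1 : z = P' ⟨y, hyL⟩ := Subtype.ext hyz.symm
      rw [h1, hπP]
      have h2 : lam ⟨y, hyL⟩ = 0 := by
        apply hjinj
        rw [hjl, map_zero]
        exact hy
      rw [h2, map_zero]

end

end Pool.Agent.Pet19
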