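import Mathlib

/-!
# Pet19: definitions

Cohomology of the mod 2 dual Steenrod algebra in internal weights, through comodules over the
bialgebra `PP = F_2[T, xi_1, xi_2, ...]` (variable `0` is `T`, variable `n ≥ 1` is `xi_n`):
`Δ T = T ⊗ T`, `Δ xi_n = ∑_i xi_(n-i)^(2^i) T^(2^i-1) ⊗ xi_i`.
A (left) `PP`-comodule is the same as a nonnegatively graded comodule over the dual Steenrod algebra.
Everything is over `ZMod 2`, all signs are `+`.

Technical remark: the basic maps and all coactions are `irreducible` definitions (otherwise the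
unifier sometimes runs wild comparing two comodules).  Use `unfold`, `simp only [name]` or the
`_apply` lemmas at the end of this file.
-/

set_option autoImplicit false
open MvPolynomial TensorProduct

namespace Pool.Agent.Pet19

/-- polynomials in `T = X 0`, `xi_n = X n` (`n ≥ 1`); the same type is used for all polynomial
rings in countably many variables below. -/
abbrev PP := MvPolynomial ℕ (ZMod 2)

noncomputable section

/-- `xi 0 = 1`, `xi n = X n` -/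
@[irreducible] def xi (n : ℕ) : PP := if n = 0 then 1 else X n

/-- the weight variable -/
@[irreducible] def T : PP := X 0

/-- comultiplication -/
@[irreducible] def Dl : PP →ₐ[ZMod 2] PP ⊗[ZMod 2] PP :=
  aeval (fun n => if n = 0 then T ⊗ₜ[ZMod 2] T
    else ∑ i ∈ Finset.range (n + 1), (xi (n - i) ^ (2 ^ i) * T ^ (2 ^ i - 1)) ⊗ₜ[ZMod 2] xi i)

/-- counit -/
@[irreducible] def ep : PP →ₐ[ZMod 2] ZMod 2 := aeval (fun n => if n = 0 then (1 : ZMod 2) else 0)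

/-- Frobenius `x ↦ x^2` as an algebra map (`X n ↦ X n ^ 2`). -/
@[irreducible] def Fr : PP →ₐ[ZMod 2] PP := expand 2

/-- Frobenius as a linear map -/
@[irreducible] def FrL : PP →ₗ[ZMod 2] PP := Fr.toLinearMap

/-- multiplication by `T^j` -/
@[irreducible] def mT (j : ℕ) : PP →ₗ[ZMod 2] PP := LinearMap.mulLeft (ZMod 2) (T ^ j)

/-- A vector space with a linear map `N → PP ⊗ N`. -/
structure Pre where
  N : Type
  [acg : AddCommGroup N]
  [mod : Module (ZMod 2) N]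
  δ : N →ₗ[ZMod 2] PP ⊗[ZMod 2] N

attribute [instance] Pre.acg Pre.mod

/-- `Δ ⊗ 1`, reassociated. -/
@[irreducible] def DlT (N : Type) [AddCommGroup N] [Module (ZMod 2) N] :
    PP ⊗[ZMod 2] N →ₗ[ZMod 2] PP ⊗[ZMod 2] (PP ⊗[ZMod 2] N) :=
  (TensorProduct.assoc (ZMod 2) PP PP N).toLinearMap ∘ₗ LinearMap.rTensor N Dl.toLinearMap

/-- coassociativity -/
def IsCo (A : Pre) : Prop := ∀ x : A.N, DlT A.N (A.δ x) = LinearMap.lTensor PP A.δ (A.δ x)

/-- counitality -/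
def IsCu (A : Pre) : Prop :=
  ∀ x : A.N, TensorProduct.lid (ZMod 2) A.N (LinearMap.rTensor A.N ep.toLinearMap (A.δ x)) = x

/-- comodules -/
class IsCmd (A : Pre) : Prop where
  co : IsCo A
  cu : IsCu A

/-- colinear maps -/
def IsHom (A B : Pre) (f : A.N →ₗ[ZMod 2] B.N) : Prop :=
  ∀ x : A.N, B.δ (f x) = LinearMap.lTensor PP f (A.δ x)

/-- short exact sequences -/
structure SES (A B C : Pre) (i : A.N →ₗ[ZMod 2] B.N) (p : B.N →ₗ[ZMod 2] C.N) : Prop where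
  hi : IsHom A B i
  hp : IsHom B C p
  inj : Function.Injective i
  surj : Function.Surjective p
  ex : Function.Exact i p

/-- isomorphic -/
def Iso (A B : Pre) : Prop :=
  ∃ e : A.N ≃ₗ[ZMod 2] B.N, IsHom A B e.toLinearMap

/-- the differential `x ↦ T^w ⊗ x + δ x` -/
@[irreducible] def Pre.d (A : Pre) (w : ℕ) : A.N →ₗ[ZMod 2] PP ⊗[ZMod 2] A.N :=
  TensorProduct.mk (ZMod 2) PP A.N (T ^ w) + A.δ

/-- coaction of `next` -/
@[irreducible] def nextδ (A : Pre) :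
    PP ⊗[ZMod 2] A.N →ₗ[ZMod 2] PP ⊗[ZMod 2] (PP ⊗[ZMod 2] A.N) :=
  DlT A.N + LinearMap.lTensor PP A.δ

/-- the next cochain module: `PP ⊗ N` with `δ'(c ⊗ x) = Δ c ⊗ x + c ⊗ δ x`. -/
abbrev Pre.next (A : Pre) : Pre where
  N := PP ⊗[ZMod 2] A.N
  δ := nextδ A

/-- `V w s A`: the degree `s` cohomology of `A` in weight `w`,
i.e. `Ext^s(k_w, A)`, vanishes. -/
def V (w : ℕ) : ℕ → Pre → Prop
  | 0, A => ∀ x : A.N, A.d w x = 0 → x = 0
  | 1, A => ∀ x : PP ⊗[ZMod 2] A.N, A.next.d w x = 0 → ∃ y : A.N, A.d w y = x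
  | (s + 2), A => V w (s + 1) A.next

/-! ## constructions -/

/-- the zero comodule -/
abbrev zeroP : Pre where
  N := PUnit
  δ := 0

/-- the trivial comodule `k` in weight 0 -/
abbrev triv : Pre where
  N := ZMod 2
  δ := TensorProduct.mk (ZMod 2) PP (ZMod 2) 1

/-- cofree comodules -/
abbrev cof (N : Type) [AddCommGroup N] [Module (ZMod 2) N] : Pre where
  N := PP ⊗[ZMod 2] N
  δ := DlT N

/-- coaction of `shift` -/
@[irreducible] def shiftδ (A : Pre) (j : ℕ) : A.N →ₗ[ZMod 2] PP ⊗[ZMod 2] A.N :=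
  LinearMap.rTensor A.N (mT j) ∘ₗ A.δ

/-- weight shift by `j` -/
abbrev shift (A : Pre) (j : ℕ) : Pre where
  N := A.N
  δ := shiftδ A j

/-- coaction of `infl` -/
@[irreducible] def inflδ (A : Pre) : A.N →ₗ[ZMod 2] PP ⊗[ZMod 2] A.N :=
  LinearMap.rTensor A.N FrL ∘ₗ A.δ

/-- Frobenius twist (doubling of weights) -/
abbrev infl (A : Pre) : Pre where
  N := A.N
  δ := inflδ A

/-- `(a ⊗ m) ⊗ (b ⊗ n) ↦ ab ⊗ (m ⊗ n)` -/
@[irreducible] def star (M N : Type) [AddCommGroup M] [Module (ZMod 2) M] [AddCommGroup N]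
    [Module (ZMod 2) N] :
    (PP ⊗[ZMod 2] M) ⊗[ZMod 2] (PP ⊗[ZMod 2] N) →ₗ[ZMod 2] PP ⊗[ZMod 2] (M ⊗[ZMod 2] N) :=
  LinearMap.rTensor (M ⊗[ZMod 2] N) (LinearMap.mul' (ZMod 2) PP) ∘ₗ
    (TensorProduct.tensorTensorTensorComm (ZMod 2) PP M PP N).toLinearMap

/-- coaction of `tens` -/
@[irreducible] def tensδ (A B : Pre) :
    A.N ⊗[ZMod 2] B.N →ₗ[ZMod 2] PP ⊗[ZMod 2] (A.N ⊗[ZMod 2] B.N) :=
  star A.N B.N ∘ₗ TensorProduct.map A.δ B.δ

/-- tensor product of comodules -/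
abbrev tens (A B : Pre) : Pre where
  N := A.N ⊗[ZMod 2] B.N
  δ := tensδ A B

/-- subcomodules: `S` is stable -/
def IsSub (A : Pre) (S : Submodule (ZMod 2) A.N) : Prop :=
  ∀ x ∈ S, LinearMap.lTensor PP S.mkQ (A.δ x) = 0

/-- some linear retraction onto a subspace -/
@[irreducible] def retr {M : Type} [AddCommGroup M] [Module (ZMod 2) M]
    (S : Submodule (ZMod 2) M) : M →ₗ[ZMod 2] S :=
  (LinearMap.exists_leftInverse_of_injective S.subtype (Submodule.ker_subtype S)).choose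

/-- some linear section of the quotient map -/
@[irreducible] def sect {M : Type} [AddCommGroup M] [Module (ZMod 2) M]
    (S : Submodule (ZMod 2) M) : (M ⧸ S) →ₗ[ZMod 2] M :=
  (LinearMap.exists_rightInverse_of_surjective S.mkQ (Submodule.range_mkQ S)).choose

/-- coaction of `subP` -/
@[irreducible] def subδ (A : Pre) (S : Submodule (ZMod 2) A.N) : S →ₗ[ZMod 2] PP ⊗[ZMod 2] S :=
  LinearMap.lTensor PP (retr S) ∘ₗ A.δ ∘ₗ S.subtype

/-- the induced structure on a subspace (a subcomodule when `IsSub A S`) -/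
abbrev subP (A : Pre) (S : Submodule (ZMod 2) A.N) : Pre where
  N := S
  δ := subδ A S

/-- coaction of `quoP` -/
@[irreducible] def quoδ (A : Pre) (S : Submodule (ZMod 2) A.N) :
    (A.N ⧸ S) →ₗ[ZMod 2] PP ⊗[ZMod 2] (A.N ⧸ S) :=
  LinearMap.lTensor PP S.mkQ ∘ₗ A.δ ∘ₗ sect S

/-- the induced structure on a quotient (a quotient comodule when `IsSub A S`) -/
abbrev quoP (A : Pre) (S : Submodule (ZMod 2) A.N) : Pre where
  N := A.N ⧸ S
  δ := quoδ A S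

/-- `Ω A = (PP ⊗ A) / A` -/
abbrev Om (A : Pre) : Pre := quoP (cof A.N) (LinearMap.range A.δ)

/-! ## primitive operations -/

/-- the functional `ε ∘ ∂/∂X_n` -/
@[irreducible] def phi (n : ℕ) : PP →ₗ[ZMod 2] ZMod 2 :=
  ep.toLinearMap ∘ₗ (pderiv n).toLinearMap

/-- `∂_n = (φ_n ⊗ 1) δ`; `n = 0` is the weight mod 2, `n ≥ 1` are the Milnor primitives -/
@[irreducible] def pd (A : Pre) (n : ℕ) : A.N →ₗ[ZMod 2] A.N :=
  (TensorProduct.lid (ZMod 2) A.N).toLinearMap ∘ₗ LinearMap.rTensor A.N (phi n) ∘ₗ A.δ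

/-- `(φ_n ⊗ 1) Δ` -/
@[irreducible] def Ln (n : ℕ) : PP →ₗ[ZMod 2] PP :=
  (TensorProduct.lid (ZMod 2) PP).toLinearMap ∘ₗ LinearMap.rTensor PP (phi n) ∘ₗ Dl.toLinearMap

/-- `Y` (through the semilinear inclusion `ι`) is the common kernel of all `∂_n`, untwisted -/
structure IsY0 (A Y : Pre) (ι : Y.N →ₗ[ZMod 2] A.N) : Prop where
  inj : Function.Injective ι
  mem : ∀ x : A.N, (∃ y, ι y = x) ↔ ∀ n, pd A n x = 0
  hom : ∀ y : Y.N, A.δ (ι y) = TensorProduct.map FrL ι (Y.δ y)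

/-! ## polynomial comodules -/

/-- homogeneous polynomials of degree `n` -/
abbrev HH (n : ℕ) : Submodule (ZMod 2) PP := homogeneousSubmodule ℕ (ZMod 2) n

/-- projection to the degree `n` part -/
@[irreducible] def hc (n : ℕ) : PP →ₗ[ZMod 2] HH n :=
  LinearMap.codRestrict (HH n) (homogeneousComponent n) (fun x => homogeneousComponent_mem n x)

/-- coaction on `F_2[p_0, p_1, ...]`, `p_i ↦ ∑_j (xi_(i-j) T)^(2^j) ⊗ p_j` -/
@[irreducible] def coP : PP →ₐ[ZMod 2] PP ⊗[ZMod 2] PP :=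
  aeval (fun i => ∑ j ∈ Finset.range (i + 1), ((xi (i - j) * T) ^ (2 ^ j)) ⊗ₜ[ZMod 2] X j)

/-- coaction on `F_2[v_1, v_2, ...]`, where `X i` stands for `v_(i+1)`:
`v_(i+1) ↦ ∑_j xi_(i-j)^(2^(j+1)) T^(2^(j+1)-1) ⊗ v_(j+1)` -/
@[irreducible] def coV : PP →ₐ[ZMod 2] PP ⊗[ZMod 2] PP :=
  aeval (fun i => ∑ j ∈ Finset.range (i + 1),
    (xi (i - j) ^ (2 ^ (j + 1)) * T ^ (2 ^ (j + 1) - 1)) ⊗ₜ[ZMod 2] X j)

/-- full polynomial comodule on the `p_i` -/
abbrev SfP : Pre where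
  N := PP
  δ := coP.toLinearMap

/-- full polynomial comodule on the `v_i` -/
abbrev SfV : Pre where
  N := PP
  δ := coV.toLinearMap

/-- `S^n(P)` -/
abbrev SP (n : ℕ) : Pre := subP SfP (HH n)

/-- `S^a(V)` -/
abbrev SV (a : ℕ) : Pre := subP SfV (HH a)

/-- tensor products of symmetric powers -/
def SPl : List ℕ → Pre
  | [] => triv
  | (n :: l) => tens (SP n) (SPl l)

/-! ## the Koszul-type complex `K^a(M) = S^a(V) ⊗ M` -/

/-- `θ(x) = ∑_n φ_(n+1)(x) X_n` -/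
@[irreducible] def theta : PP →ₗ[ZMod 2] PP :=
  (homogeneousComponent 1) ∘ₗ
    (aeval (fun n => if n = 0 then (1 : PP) else X (n - 1)) : PP →ₐ[ZMod 2] PP).toLinearMap

/-- multiplication `HH a ⊗ PP → HH (a+1)` followed by the projection -/
@[irreducible] def mulh (a : ℕ) : HH a ⊗[ZMod 2] PP →ₗ[ZMod 2] HH (a + 1) :=
  hc (a + 1) ∘ₗ LinearMap.mul' (ZMod 2) PP ∘ₗ LinearMap.rTensor PP (HH a).subtype

/-- the comodule `K^a(M)` -/
abbrev Kc (a : ℕ) (M : Pre) : Pre := tens (SV a) M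

/-- the differential `f ⊗ m ↦ ∑ f θ(m_(-1)) ⊗ m_0` -/
@[irreducible] def Kd (a : ℕ) (M : Pre) : (Kc a M).N →ₗ[ZMod 2] (Kc (a + 1) M).N :=
  LinearMap.rTensor M.N (mulh a ∘ₗ LinearMap.lTensor (HH a) theta) ∘ₗ
    (TensorProduct.assoc (ZMod 2) (HH a) PP M.N).symm.toLinearMap ∘ₗ
      LinearMap.lTensor (HH a) M.δ

/-- `Q` is the cohomology of `K(M)` in degree `a+1`. -/
def IsKH (a : ℕ) (M Q : Pre) : Prop :=
  ∃ (Z : Pre) (b : (Kc a M).N →ₗ[ZMod 2] Z.N) (i : Z.N →ₗ[ZMod 2] (Kc (a + 1) M).N)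
    (π : Z.N →ₗ[ZMod 2] Q.N),
    IsCmd Z ∧ IsHom Z (Kc (a + 1) M) i ∧ IsHom Z Q π ∧
    i ∘ₗ b = Kd a M ∧ Function.Injective i ∧ Function.Exact i (Kd (a + 1) M) ∧
    Function.Exact b π ∧ Function.Surjective π

/-- `τ = (θ ⊗ 1) Δ : g ↦ ∑_j X_j ⊗ ∂g/∂X_(j+1)` -/
@[irreducible] def tauP : PP →ₗ[ZMod 2] PP ⊗[ZMod 2] PP :=
  LinearMap.rTensor PP theta ∘ₗ Dl.toLinearMap

/-- `f ⊗ g ↦ ∑_j f X_j ⊗ ∂g/∂X_(j+1)` -/
@[irreducible] def Dp (a : ℕ) : HH a ⊗[ZMod 2] PP →ₗ[ZMod 2] HH (a + 1) ⊗[ZMod 2] PP :=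
  LinearMap.rTensor PP (mulh a) ∘ₗ (TensorProduct.assoc (ZMod 2) (HH a) PP PP).symm.toLinearMap ∘ₗ
    LinearMap.lTensor (HH a) tauP

/-- `X_j ↦ X_(j+1)` -/
@[irreducible] def sh1 : PP →ₐ[ZMod 2] PP := aeval (fun j => X (j + 1))

/-- `X_0 ↦ 0`, `X_(j+1) ↦ X_j` -/
@[irreducible] def qq : PP →ₐ[ZMod 2] PP :=
  aeval (fun j => if j = 0 then (0 : PP) else X (j - 1))

/-- `f ⊗ g ↦ ∑_j f X_j ⊗ ∂g/∂X_j` -/
@[irreducible] def D0 (a : ℕ) : HH a ⊗[ZMod 2] PP →ₗ[ZMod 2] HH (a + 1) ⊗[ZMod 2] PP :=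
  LinearMap.lTensor (HH (a + 1)) qq.toLinearMap ∘ₗ Dp a ∘ₗ
    LinearMap.lTensor (HH a) sh1.toLinearMap

/-- restriction of `D0` to `S^a ⊗ S^n` -/
@[irreducible] def D0n (a n : ℕ) :
    (tens (SP a) (SP n)).N →ₗ[ZMod 2] (tens (SP (a + 1)) SfP).N :=
  D0 a ∘ₗ LinearMap.lTensor (HH a) (HH n).subtype

/-- `K^{a,n} = ker (S^a ⊗ S^n → S^(a+1) ⊗ S^(n-1))` -/
abbrev KK (a n : ℕ) : Pre := subP (tens (SP a) (SP n)) (LinearMap.ker (D0n a n))

/-- multiplication by `p_0 = X 0`, `S^n(P) → S^(n+1)(P)` -/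
@[irreducible] def mulX0 (n : ℕ) : HH n →ₗ[ZMod 2] HH (n + 1) :=
  hc (n + 1) ∘ₗ LinearMap.mulLeft (ZMod 2) (X 0 : PP) ∘ₗ (HH n).subtype

/-- `p_0 ↦ 0`, `p_(j+1) ↦ p_j` on `S^n(P)` -/
@[irreducible] def qn (n : ℕ) : HH n →ₗ[ZMod 2] HH n :=
  hc n ∘ₗ qq.toLinearMap ∘ₗ (HH n).subtype

/-- division by `T^i` (monomials not divisible by `T^i` are sent to `0`) -/
@[irreducible] def qT (i : ℕ) : PP →ₗ[ZMod 2] PP where
  toFun x := x.divMonomial (Finsupp.single 0 i)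
  map_add' x y := add_divMonomial x y _
  map_smul' c x := by
    ext μ
    simp [coeff_divMonomial, coeff_smul]

/-- the coaction is divisible by `T^m` (all weights are `≥ m`) -/
def Div (m : ℕ) (A : Pre) : Prop :=
  ∀ x : A.N, ∃ u : PP ⊗[ZMod 2] A.N, A.δ x = LinearMap.rTensor A.N (mT m) u

/-- `Good s l z` -/
def Good (s : ℕ) (l : List ℕ) (z : ℕ) : Prop := ∀ e : ℕ, V (e + z) s (shift (SPl l) e)

/-- number of ones in the binary expansion of `x ||| 2x` -/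
def ga (x : ℕ) : ℕ := (Nat.digits 2 (x ||| (2 * x))).count 1

/-! ## unfolding lemmas -/

theorem FrL_apply (x : PP) : FrL x = Fr x := by simp [FrL]

theorem mT_apply (j : ℕ) (x : PP) : mT j x = T ^ j * x := by simp [mT]

theorem DlT_tmul (N : Type) [AddCommGroup N] [Module (ZMod 2) N] (c : PP) (x : N) :
    DlT N (c ⊗ₜ[ZMod 2] x) = TensorProduct.assoc (ZMod 2) PP PP N (Dl c ⊗ₜ[ZMod 2] x) := by
  simp [DlT]

theorem d_apply (A : Pre) (w : ℕ) (x : A.N) : A.d w x = (T ^ w) ⊗ₜ[ZMod 2] x + A.δ x := by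
  simp [Pre.d]

theorem nextδ_apply (A : Pre) (x : PP ⊗[ZMod 2] A.N) :
    nextδ A x = DlT A.N x + LinearMap.lTensor PP A.δ x := by simp [nextδ]

theorem nextδ_tmul (A : Pre) (c : PP) (x : A.N) :
    nextδ A (c ⊗ₜ[ZMod 2] x) =
      TensorProduct.assoc (ZMod 2) PP PP A.N (Dl c ⊗ₜ[ZMod 2] x) + c ⊗ₜ[ZMod 2] A.δ x := by
  simp [nextδ, DlT]

theorem shiftδ_apply (A : Pre) (j : ℕ) (x : A.N) :
    shiftδ A j x = LinearMap.rTensor A.N (mT j) (A.δ x) := by simp [shiftδ]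

theorem inflδ_apply (A : Pre) (x : A.N) :
    inflδ A x = LinearMap.rTensor A.N FrL (A.δ x) := by simp [inflδ]

theorem star_tmul (M N : Type) [AddCommGroup M] [Module (ZMod 2) M] [AddCommGroup N]
    [Module (ZMod 2) N] (a b : PP) (m : M) (n : N) :
    star M N ((a ⊗ₜ[ZMod 2] m) ⊗ₜ[ZMod 2] (b ⊗ₜ[ZMod 2] n)) =
      (a * b) ⊗ₜ[ZMod 2] (m ⊗ₜ[ZMod 2] n) := by
  simp [star]

theorem tensδ_tmul (A B : Pre) (x : A.N) (y : B.N) :
    tensδ A B (x ⊗ₜ[ZMod 2] y) = star A.N B.N (A.δ x ⊗ₜ[ZMod 2] B.δ y) := by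
  simp [tensδ]

theorem retr_apply {M : Type} [AddCommGroup M] [Module (ZMod 2) M] (S : Submodule (ZMod 2) M)
    (x : S) : retr S x = x := by
  have h := (LinearMap.exists_leftInverse_of_injective S.subtype
    (Submodule.ker_subtype S)).choose_spec
  unfold retr
  exact LinearMap.congr_fun h x

theorem sect_apply {M : Type} [AddCommGroup M] [Module (ZMod 2) M] (S : Submodule (ZMod 2) M)
    (x : M ⧸ S) : S.mkQ (sect S x) = x := by
  have h := (LinearMap.exists_rightInverse_of_surjective S.mkQ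
    (Submodule.range_mkQ S)).choose_spec
  unfold sect
  exact LinearMap.congr_fun h x

theorem subδ_apply (A : Pre) (S : Submodule (ZMod 2) A.N) (x : S) :
    subδ A S x = LinearMap.lTensor PP (retr S) (A.δ (x : A.N)) := by simp [subδ]

theorem quoδ_apply (A : Pre) (S : Submodule (ZMod 2) A.N) (x : A.N ⧸ S) :
    quoδ A S x = LinearMap.lTensor PP S.mkQ (A.δ (sect S x)) := by simp [quoδ]

theorem pd_apply (A : Pre) (n : ℕ) (x : A.N) :
    pd A n x = TensorProduct.lid (ZMod 2) A.N (LinearMap.rTensor A.N (phi n) (A.δ x)) := by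
  simp [pd]

theorem Ln_apply (n : ℕ) (x : PP) :
    Ln n x = TensorProduct.lid (ZMod 2) PP (LinearMap.rTensor PP (phi n) (Dl x)) := by
  simp [Ln]

theorem phi_apply (n : ℕ) (x : PP) : phi n x = ep (pderiv n x) := by simp [phi]

theorem hc_coe (n : ℕ) (x : PP) : ((hc n x : HH n) : PP) = homogeneousComponent n x := by
  simp [hc]

theorem Kd_tmul (a : ℕ) (M : Pre) (f : HH a) (m : M.N) :
    Kd a M (f ⊗ₜ[ZMod 2] m) =
      LinearMap.rTensor M.N (mulh a ∘ₗ LinearMap.lTensor (HH a) theta)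
        ((TensorProduct.assoc (ZMod 2) (HH a) PP M.N).symm (f ⊗ₜ[ZMod 2] M.δ m)) := by
  simp [Kd]

theorem qT_apply (i : ℕ) (x : PP) : qT i x = x.divMonomial (Finsupp.single 0 i) := by
  simp [qT]

end

end Pool.Agent.Pet19
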