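import Pool.Agent.Pet19.BiQ
import Pool.Agent.Pet19.TensF
import Pool.Agent.Pet19.SEST
import Pool.Agent.Pet19.Contr

/-!
# Pet19.DivB: comodules of large weight have no cohomology in small weight

`Div m A`: the coaction is divisible by `T^m`.

`V_div`: write `A = shift A' m` with `A' = ⟨A.N, (q_m ⊗ 1) A.δ⟩`; `A'` is a comodule
(`(T^m ⊗ T^m ⊗ 1)` is injective; counit: `ε(T^m c) = ε(c)`).  So it is enough to show:
for every comodule `B` and `w < m`: `V w s (shift B m)`, by induction on `s` generalizing `B`.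
`s = 0`: `T^w ⊗ x = T^m • B.δ x` forces `x = 0` (e.g. apply `rTensor (qT (w+1))`, `qT (w+1) (T^w) = 0`,
and then `mulT_inj`-type injectivity; or compare coefficients of `T^w`).
`s + 1`: use the exact sequence `ses_shift (ses_Om B) m`, `V_left`, the induction hypothesis for `Om B`,
and that `shift (cof N) m` is a retract of `cof N` through `T^m ·` and `qT m` (`Dl_qT_right`,
`V_retract`, `V_cof`).
-/

set_option autoImplicit false
open MvPolynomial TensorProduct

namespace Pool.Agent.Pet19

noncomputable section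

private lemma divB_mT_mT {M : Type} [AddCommGroup M] [Module (ZMod 2) M] (i j : ℕ)
    (u : PP ⊗[ZMod 2] M) : LinearMap.rTensor M (mT i) (LinearMap.rTensor M (mT j) u) =
      LinearMap.rTensor M (mT (j + i)) u := by
  rw [← LinearMap.comp_apply, ← LinearMap.rTensor_comp]
  have h : mT i ∘ₗ mT j = mT (j + i) := by
    refine LinearMap.ext fun z => ?_
    rw [LinearMap.comp_apply, mT_apply, mT_apply, mT_apply, ← mul_assoc, ← pow_add, add_comm i j]
  rw [h]

private lemma divB_comm {M N : Type} [AddCommGroup M] [Module (ZMod 2) M] [AddCommGroup N]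
    [Module (ZMod 2) N] (i : ℕ) (f : M →ₗ[ZMod 2] N) (u : PP ⊗[ZMod 2] M) :
    LinearMap.lTensor PP f (LinearMap.rTensor M (mT i) u) =
      LinearMap.rTensor N (mT i) (LinearMap.lTensor PP f u) := by
  induction u using TensorProduct.induction_on with
  | zero => simp only [map_zero]
  | tmul c n =>
    rw [LinearMap.rTensor_tmul, LinearMap.lTensor_tmul, LinearMap.lTensor_tmul,
      LinearMap.rTensor_tmul]
  | add x y hx hy => simp only [map_add, hx, hy]

private lemma divB_lcomp {L M N : Type} [AddCommGroup L] [Module (ZMod 2) L] [AddCommGroup M]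
    [Module (ZMod 2) M] [AddCommGroup N] [Module (ZMod 2) N] (f : L →ₗ[ZMod 2] M)
    (g : M →ₗ[ZMod 2] N) (x : PP ⊗[ZMod 2] L) :
    LinearMap.lTensor PP g (LinearMap.lTensor PP f x) = LinearMap.lTensor PP (g ∘ₗ f) x := by
  rw [LinearMap.lTensor_comp]
  rfl

/-- the coefficient of `1` -/
private def divB_cc : PP →ₗ[ZMod 2] ZMod 2 := (aeval (fun _ => (0 : ZMod 2)) : PP →ₐ[ZMod 2] ZMod 2).toLinearMap

private lemma divB_cc_one : divB_cc 1 = 1 := by
  simp [divB_cc]

private lemma divB_cc_mT (k : ℕ) (hk : 0 < k) (x : PP) : divB_cc (mT k x) = 0 := by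
  rw [mT_apply]
  simp only [divB_cc, AlgHom.toLinearMap_apply, map_mul, map_pow, T, aeval_X]
  rw [zero_pow hk.ne', zero_mul]

private lemma divB_T_tmul {M : Type} [AddCommGroup M] [Module (ZMod 2) M] (w : ℕ) (x : M) :
    (T ^ w) ⊗ₜ[ZMod 2] x = LinearMap.rTensor M (mT w) ((1 : PP) ⊗ₜ[ZMod 2] x) := by
  rw [LinearMap.rTensor_tmul, mT_apply, mul_one]

private lemma divB_zero (B : Pre) (m w : ℕ) (h : w < m) : V w 0 (shift B m) := by
  intro x hx
  rw [d_apply, add_eq_zero_iff_eq2] at hx
  change (T ^ w) ⊗ₜ[ZMod 2] x = shiftδ B m x at hx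
  rw [shiftδ_apply, divB_T_tmul] at hx
  obtain ⟨k, hk⟩ : ∃ k, m = (k + 1) + w := ⟨m - w - 1, by omega⟩
  rw [hk, ← divB_mT_mT w (k + 1)] at hx
  have h1 := mulT_inj w hx
  have h2 := congrArg (fun z => TensorProduct.lid (ZMod 2) B.N
    (LinearMap.rTensor B.N divB_cc z)) h1
  have h3 : LinearMap.rTensor B.N divB_cc (LinearMap.rTensor B.N (mT (k + 1)) (B.δ x)) = 0 := by
    rw [← LinearMap.comp_apply, ← LinearMap.rTensor_comp]
    have h4 : divB_cc ∘ₗ mT (k + 1) = 0 :=
      LinearMap.ext fun z => divB_cc_mT (k + 1) (Nat.succ_pos k) z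
    rw [h4, LinearMap.rTensor_zero]
    rfl
  simp only [h3, map_zero, LinearMap.rTensor_tmul, divB_cc_one, TensorProduct.lid_tmul,
    one_smul] at h2
  exact h2

/-- `Δ (T^m c) = (T^m ⊗ T^m) Δ c` on `PP ⊗ N` -/
private lemma divB_DlT (N : Type) [AddCommGroup N] [Module (ZMod 2) N] (m : ℕ)
    (x : PP ⊗[ZMod 2] N) : DlT N (LinearMap.rTensor N (mT m) x) =
      LinearMap.rTensor (PP ⊗[ZMod 2] N) (mT m)
        (LinearMap.lTensor PP (LinearMap.rTensor N (mT m)) (DlT N x)) := by
  induction x using TensorProduct.induction_on with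
  | zero => simp only [map_zero]
  | tmul c n =>
    rw [LinearMap.rTensor_tmul, DlT_tmul, DlT_tmul, mT_apply, map_mul, Dl_T_pow]
    generalize Dl c = z
    induction z using TensorProduct.induction_on with
    | zero => simp only [mul_zero, TensorProduct.zero_tmul, map_zero]
    | tmul a b =>
      rw [Algebra.TensorProduct.tmul_mul_tmul, TensorProduct.assoc_tmul, TensorProduct.assoc_tmul,
        LinearMap.lTensor_tmul, LinearMap.rTensor_tmul, LinearMap.rTensor_tmul, mT_apply, mT_apply]
    | add x y hx hy =>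
      rw [mul_add, TensorProduct.add_tmul, map_add, hx, hy, TensorProduct.add_tmul, map_add,
        map_add, map_add]
  | add x y hx hy => simp only [map_add, hx, hy]

private lemma divB_hom_i (N : Type) [AddCommGroup N] [Module (ZMod 2) N] (m : ℕ) :
    IsHom (shift (cof N) m) (cof N) (LinearMap.rTensor N (mT m)) := by
  intro x
  change DlT N (LinearMap.rTensor N (mT m) x) =
    LinearMap.lTensor PP (LinearMap.rTensor N (mT m)) (shiftδ (cof N) m x)
  rw [shiftδ_apply, divB_DlT]
  change LinearMap.rTensor (PP ⊗[ZMod 2] N) (mT m)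
    (LinearMap.lTensor PP (LinearMap.rTensor N (mT m)) (DlT N x)) =
    LinearMap.lTensor PP (LinearMap.rTensor N (mT m))
      (LinearMap.rTensor (PP ⊗[ZMod 2] N) (mT m) (DlT N x))
  rw [divB_comm]

private lemma divB_hom_r (N : Type) [AddCommGroup N] [Module (ZMod 2) N] (m : ℕ) :
    IsHom (cof N) (shift (cof N) m) (LinearMap.rTensor N (qT m)) := by
  intro x
  change shiftδ (cof N) m (LinearMap.rTensor N (qT m) x) =
    LinearMap.lTensor PP (LinearMap.rTensor N (qT m)) (DlT N x)
  rw [shiftδ_apply]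
  change LinearMap.rTensor (PP ⊗[ZMod 2] N) (mT m) (DlT N (LinearMap.rTensor N (qT m) x)) = _
  induction x using TensorProduct.induction_on with
  | zero => simp only [map_zero]
  | tmul c n =>
    rw [LinearMap.rTensor_tmul, DlT_tmul, DlT_tmul]
    have h1 : ∀ z : PP ⊗[ZMod 2] PP, LinearMap.lTensor PP (LinearMap.rTensor N (qT m))
        (TensorProduct.assoc (ZMod 2) PP PP N (z ⊗ₜ[ZMod 2] n)) =
        TensorProduct.assoc (ZMod 2) PP PP N ((LinearMap.lTensor PP (qT m) z) ⊗ₜ[ZMod 2] n) := by
      intro z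
      induction z using TensorProduct.induction_on with
      | zero => simp only [TensorProduct.zero_tmul, map_zero]
      | tmul a b =>
        rw [TensorProduct.assoc_tmul, LinearMap.lTensor_tmul, LinearMap.lTensor_tmul,
          LinearMap.rTensor_tmul, TensorProduct.assoc_tmul]
      | add x y hx hy =>
        rw [TensorProduct.add_tmul, map_add, map_add, hx, hy, map_add, TensorProduct.add_tmul,
          map_add]
    have h2 : ∀ z : PP ⊗[ZMod 2] PP, LinearMap.rTensor (PP ⊗[ZMod 2] N) (mT m)
        (TensorProduct.assoc (ZMod 2) PP PP N (z ⊗ₜ[ZMod 2] n)) =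
        TensorProduct.assoc (ZMod 2) PP PP N ((LinearMap.rTensor PP (mT m) z) ⊗ₜ[ZMod 2] n) := by
      intro z
      induction z using TensorProduct.induction_on with
      | zero => simp only [TensorProduct.zero_tmul, map_zero]
      | tmul a b =>
        rw [TensorProduct.assoc_tmul, LinearMap.rTensor_tmul, LinearMap.rTensor_tmul,
          TensorProduct.assoc_tmul]
      | add x y hx hy =>
        rw [TensorProduct.add_tmul, map_add, map_add, hx, hy, map_add, TensorProduct.add_tmul,
          map_add]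
    rw [h1, h2, Dl_qT_right]
  | add x y hx hy => simp only [map_add, hx, hy]

private lemma divB_ri (N : Type) [AddCommGroup N] [Module (ZMod 2) N] (m : ℕ)
    (x : PP ⊗[ZMod 2] N) : LinearMap.rTensor N (qT m) (LinearMap.rTensor N (mT m) x) = x := by
  rw [← LinearMap.comp_apply, ← LinearMap.rTensor_comp]
  have h1 : qT m ∘ₗ mT m = LinearMap.id := by
    refine LinearMap.ext fun z => ?_
    rw [LinearMap.comp_apply, mT_apply, qT_mul, LinearMap.id_apply]
  rw [h1, LinearMap.rTensor_id, LinearMap.id_apply]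

theorem V_shift_big (B : Pre) [IsCmd B] (m w s : ℕ) (h : w < m) : V w s (shift B m) := by
  have key : ∀ (s : ℕ) (B : Pre), IsCmd B → V w s (shift B m) := by
    intro s
    induction s with
    | zero => intro B _; exact divB_zero B m w h
    | succ s ih =>
      intro B hB
      have h1 := ses_shift (ses_Om B) m
      have h2 : IsCmd (shift (cof B.N) m) := inferInstance
      have h3 : V w s (shift (Om B) m) := ih (Om B) inferInstance
      refine V_left w s h1 h2.co h3 ?_
      exact V_retract w (s + 1) (divB_hom_i B.N m) (divB_hom_r B.N m) (divB_ri B.N m)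
        (V_cof B.N w s)
  exact key s B inferInstance

theorem V_div (A : Pre) [IsCmd A] (m w s : ℕ) (hD : Div m A) (h : w < m) : V w s A := by
  let A' : Pre := { N := A.N, δ := LinearMap.rTensor A.N (qT m) ∘ₗ A.δ }
  have e1 : ∀ x : A.N, A.δ x = LinearMap.rTensor A.N (mT m) (A'.δ x) := by
    intro x
    obtain ⟨u, hu⟩ := hD x
    change A.δ x = LinearMap.rTensor A.N (mT m) (LinearMap.rTensor A.N (qT m) (A.δ x))
    rw [hu, divB_ri]
  have e2 : A.δ = LinearMap.rTensor A.N (mT m) ∘ₗ A'.δ := LinearMap.ext e1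
  have hco : IsCo A' := by
    intro x
    have h1 := (IsCmd.co : IsCo A) x
    rw [e1 x, divB_DlT] at h1
    have h2 : LinearMap.lTensor PP A.δ (LinearMap.rTensor A.N (mT m) (A'.δ x)) =
        LinearMap.rTensor (PP ⊗[ZMod 2] A.N) (mT m)
          (LinearMap.lTensor PP (LinearMap.rTensor A.N (mT m))
            (LinearMap.lTensor PP A'.δ (A'.δ x))) := by
      have h3 : LinearMap.lTensor PP (LinearMap.rTensor A.N (mT m))
            (LinearMap.lTensor PP A'.δ (A'.δ x)) = LinearMap.lTensor PP A.δ (A'.δ x) := by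
        have h4 := divB_lcomp A'.δ (LinearMap.rTensor A.N (mT m)) (A'.δ x)
        rw [← e2] at h4
        exact h4
      rw [h3]
      exact divB_comm m A.δ (A'.δ x)
    rw [h2] at h1
    exact lTensor_inj PP (mulT_inj m) (mulT_inj m h1)
  have hcu : IsCu A' := by
    intro x
    have h1 := (IsCmd.cu : IsCu A) x
    rw [e1 x, ← LinearMap.comp_apply, ← LinearMap.rTensor_comp] at h1
    have h2 : ep.toLinearMap ∘ₗ mT m = ep.toLinearMap := by
      refine LinearMap.ext fun z => ?_
      rw [LinearMap.comp_apply, mT_apply, AlgHom.toLinearMap_apply, map_mul, map_pow, ep_T,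
        one_pow, one_mul]
      rfl
    rw [h2] at h1
    exact h1
  have hA' : IsCmd A' := ⟨hco, hcu⟩
  have h1 : V w s (shift A' m) := V_shift_big A' m w s h
  have hiso : Iso (shift A' m) A := by
    refine ⟨LinearEquiv.refl (ZMod 2) A.N, fun x => ?_⟩
    change A.δ x = LinearMap.lTensor PP (LinearMap.id) (shiftδ A' m x)
    rw [LinearMap.lTensor_id, LinearMap.id_apply, shiftδ_apply]
    exact e1 x
  exact V_iso hiso w s h1

private lemma divB_star (M N : Type) [AddCommGroup M] [Module (ZMod 2) M] [AddCommGroup N]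
    [Module (ZMod 2) N] (m n : ℕ) (u : PP ⊗[ZMod 2] M) (v : PP ⊗[ZMod 2] N) :
    star M N (LinearMap.rTensor M (mT m) u ⊗ₜ[ZMod 2] LinearMap.rTensor N (mT n) v) =
      LinearMap.rTensor (M ⊗[ZMod 2] N) (mT (m + n)) (star M N (u ⊗ₜ[ZMod 2] v)) := by
  induction u using TensorProduct.induction_on with
  | zero => simp only [map_zero, TensorProduct.zero_tmul]
  | tmul a x =>
    induction v using TensorProduct.induction_on with
    | zero => simp only [map_zero, TensorProduct.tmul_zero]
    | tmul b y =>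
      rw [LinearMap.rTensor_tmul, LinearMap.rTensor_tmul, star_tmul, star_tmul,
        LinearMap.rTensor_tmul, mT_apply, mT_apply, mT_apply, pow_add]
      congr 1
      ring
    | add x y hx hy =>
      rw [map_add, TensorProduct.tmul_add, map_add, hx, hy, TensorProduct.tmul_add, map_add,
        map_add]
  | add x y hx hy =>
    rw [map_add, TensorProduct.add_tmul, map_add, hx, hy, TensorProduct.add_tmul, map_add,
      map_add]

theorem div_tens {m n : ℕ} {A B : Pre} (hA : Div m A) (hB : Div n B) :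
    Div (m + n) (tens A B) := by
  intro x
  change ∃ u, tensδ A B x = LinearMap.rTensor (A.N ⊗[ZMod 2] B.N) (mT (m + n)) u
  induction x using TensorProduct.induction_on with
  | zero => exact ⟨0, by simp only [map_zero]⟩
  | tmul a b =>
    obtain ⟨u, hu⟩ := hA a
    obtain ⟨v, hv⟩ := hB b
    exact ⟨star A.N B.N (u ⊗ₜ[ZMod 2] v), by rw [tensδ_tmul, hu, hv, divB_star]⟩
  | add x y hx hy =>
    obtain ⟨u, hu⟩ := hx
    obtain ⟨v, hv⟩ := hy
    exact ⟨u + v, by rw [map_add, map_add, hu, hv]⟩

theorem div_shift {m : ℕ} {A : Pre} (hA : Div m A) (j : ℕ) : Div (m + j) (shift A j) := by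
  intro x
  obtain ⟨u, hu⟩ := hA x
  refine ⟨u, ?_⟩
  change shiftδ A j x = _
  rw [shiftδ_apply, hu, divB_mT_mT]

end

end Pool.Agent.Pet19
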