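import Pool.Agent.Pet19.P0
import Pool.Agent.Pet19.SEST

/-!
# Pet19.FL: the filtration lemma

`FL1`: induction on `n` (generalizing `Z`).  `n = 0`: `SP 0 ≅ triv ≅ infl (SP 0)`.
`n + 1`: `ses_lTens (ses_P0 n) Z : tens Z (shift (SP n) 1) → tens Z (SP (n+1)) → tens Z (infl (SP (n+1)))`,
`V_mid`; the right term is the case `m = n + 1` of the hypothesis, the left term is isomorphic to
`tens (shift Z 1) (SP n)` and is handled by induction.
`FL`: induction on `μ` generalizing `Z`; for `n :: μ` reassociate
`tens Z (tens (SP n) (SPl μ)) ≅ tens (tens Z (SP n)) (SPl μ)`, use the induction hypothesis, then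
for each `ν` reorder `tens (shift (tens Z (SP n)) E) (infl (SPl ν)) ≅
tens (tens (shift Z E) (infl (SPl ν))) (SP n)` and use `FL1`, and
`tens (shift (tens (shift Z E) (infl (SPl ν))) (n-m)) (infl (SP m)) ≅
tens (shift Z (E + (n-m))) (infl (tens (SP m) (SPl ν)))`.
-/

set_option autoImplicit false
open MvPolynomial TensorProduct

namespace Pool.Agent.Pet19

noncomputable section

private theorem fl_shift_swap (Z A : Pre) : Iso (tens Z (shift A 1)) (tens (shift Z 1) A) :=
  iso_trans (iso_tens_comm Z (shift A 1))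
    (iso_trans (iso_symm (iso_shift_tens A Z 1))
      (iso_trans (iso_shift (iso_tens_comm A Z) 1) (iso_shift_tens Z A 1)))

private theorem fl_shift_congr (A : Pre) {i j : ℕ} (h : i = j) : Iso (shift A i) (shift A j) := by
  subst h
  exact iso_refl _

theorem FL1 (w s : ℕ) : ∀ (n : ℕ) (Z : Pre) [IsCmd Z],
    (∀ m, m ≤ n → V w s (tens (shift Z (n - m)) (infl (SP m)))) → V w s (tens Z (SP n)) := by
  intro n
  induction n with
  | zero =>
    intro Z _ h
    refine V_iso (iso_tens (iso_shift_zero Z) ?_) w s (h 0 le_rfl)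
    exact iso_trans (iso_infl iso_SP_zero) (iso_trans iso_infl_triv (iso_symm iso_SP_zero))
  | succ n ih =>
    intro Z _ h
    have hcmd : IsCmd (tens Z (SP (n + 1))) := cmd_tens Z (SP (n + 1))
    refine V_mid w s (ses_lTens (ses_P0 n) Z) hcmd.co ?_ ?_
    · refine V_iso (iso_symm (fl_shift_swap Z (SP n))) w s ?_
      haveI : IsCmd (shift Z 1) := cmd_shift Z 1
      apply ih (shift Z 1)
      intro m hm
      refine V_iso (iso_tens ?_ (iso_refl _)) w s (h m (by omega))
      exact iso_trans (fl_shift_congr Z (by omega : n + 1 - m = 1 + (n - m)))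
        (iso_symm (iso_shift_shift Z 1 (n - m)))
    · refine V_iso (iso_tens ?_ (iso_refl _)) w s (h (n + 1) le_rfl)
      exact iso_trans (fl_shift_congr Z (by omega : n + 1 - (n + 1) = 0)) (iso_shift_zero Z)

private theorem fl_sum_le {ν μ : List ℕ} (h : List.Forall₂ (· ≤ ·) ν μ) : ν.sum ≤ μ.sum := by
  induction h with
  | nil => exact le_rfl
  | cons h1 _ ih =>
    rw [List.sum_cons, List.sum_cons]
    omega

theorem FL (w s : ℕ) : ∀ (μ : List ℕ) (Z : Pre) [IsCmd Z],
    (∀ ν : List ℕ, List.Forall₂ (· ≤ ·) ν μ →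
      V w s (tens (shift Z (μ.sum - ν.sum)) (infl (SPl ν)))) → V w s (tens Z (SPl μ)) := by
  intro μ
  induction μ with
  | nil =>
    intro Z _ h
    exact V_iso (iso_tens (iso_shift_zero Z) iso_infl_triv) w s (h [] List.Forall₂.nil)
  | cons n μ ih =>
    intro Z _ h
    refine V_iso (iso_tens_assoc Z (SP n) (SPl μ)) w s ?_
    haveI : IsCmd (tens Z (SP n)) := cmd_tens Z (SP n)
    apply ih (tens Z (SP n))
    intro ν hν
    have hsum := fl_sum_le hν
    set E := μ.sum - ν.sum with hE
    have e1 : Iso (tens (tens (shift Z E) (infl (SPl ν))) (SP n))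
        (tens (shift (tens Z (SP n)) E) (infl (SPl ν))) :=
      iso_trans (iso_tens_assoc (shift Z E) (infl (SPl ν)) (SP n))
        (iso_trans (iso_tens (iso_refl (shift Z E)) (iso_tens_comm (infl (SPl ν)) (SP n)))
          (iso_trans (iso_symm (iso_tens_assoc (shift Z E) (SP n) (infl (SPl ν))))
            (iso_tens (iso_symm (iso_shift_tens Z (SP n) E)) (iso_refl (infl (SPl ν))))))
    refine V_iso e1 w s ?_
    haveI : IsCmd (shift Z E) := cmd_shift Z E
    haveI : IsCmd (infl (SPl ν)) := cmd_infl (SPl ν)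
    haveI : IsCmd (tens (shift Z E) (infl (SPl ν))) := cmd_tens (shift Z E) (infl (SPl ν))
    apply FL1 w s n (tens (shift Z E) (infl (SPl ν)))
    intro m hm
    have h1 := h (m :: ν) (List.Forall₂.cons hm hν)
    have e2 : Iso (shift (tens (shift Z E) (infl (SPl ν))) (n - m))
        (tens (shift Z (E + (n - m))) (infl (SPl ν))) :=
      iso_trans (iso_shift_tens (shift Z E) (infl (SPl ν)) (n - m))
        (iso_tens (iso_shift_shift Z E (n - m)) (iso_refl (infl (SPl ν))))
    have e3 : Iso (tens (shift (tens (shift Z E) (infl (SPl ν))) (n - m)) (infl (SP m)))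
        (tens (shift Z ((n :: μ).sum - (m :: ν).sum)) (infl (SPl (m :: ν)))) :=
      iso_trans (iso_tens e2 (iso_refl (infl (SP m))))
        (iso_trans (iso_tens_assoc (shift Z (E + (n - m))) (infl (SPl ν)) (infl (SP m)))
          (iso_tens
            (fl_shift_congr Z (by
              rw [List.sum_cons, List.sum_cons]
              omega : E + (n - m) = (n :: μ).sum - (m :: ν).sum))
            (iso_trans (iso_tens_comm (infl (SPl ν)) (infl (SP m)))
              (iso_symm (iso_infl_tens (SP m) (SPl ν))))))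
    exact V_iso (iso_symm e3) w s h1

end

end Pool.Agent.Pet19
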