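import Pool.Agent.Pet19.DSU

/-!
# Pet19.KHO: dimension shifting, positive degrees

`Z = subP _ (ker (Kd (a+1) Ω))`, `i` the inclusion, `b` the corestriction of `Kd a Ω`
(`Kd_Kd`), `π` from `DSU (a+1)`; a cycle of `Kc (a+1) (cof M.N)` is a boundary by `Kd_cof_exact`, so
the kernel of `π` is the image of `Kd a Ω`.
-/

set_option autoImplicit false
open MvPolynomial TensorProduct

namespace Pool.Agent.Pet19

noncomputable section

theorem KH_Om (a : ℕ) (M Q : Pre) [IsCmd M] (h : IsKH (a + 1) M Q) : IsKH a (Om M) Q := by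
  obtain ⟨π, hπ, hsurj, hker⟩ := DSU (a + 1) M Q h
  have hS := ses_Om M
  refine ⟨subP (Kc (a + 1) (Om M)) (LinearMap.ker (Kd (a + 1) (Om M))),
    LinearMap.codRestrict _ (Kd a (Om M)) (fun x => Kd_Kd a (Om M) x),
    (LinearMap.ker (Kd (a + 1) (Om M))).subtype, π,
    (haveI := cmd_tens (SV (a + 1)) (Om M); subP_cmd _ _ (isSub_ker_Kd (a + 1) (Om M))),
    subP_hom _ _ (isSub_ker_Kd (a + 1) (Om M)), hπ, rfl, Submodule.injective_subtype _, ?_, ?_,
    hsurj⟩
  · intro x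
    simp
  · intro z
    rw [hker]
    constructor
    · rintro ⟨y, hy, hyz⟩
      obtain ⟨x, hx⟩ := Kd_cof_exact M.N a y hy
      refine ⟨LinearMap.lTensor (HH a) (LinearMap.range M.δ).mkQ x, ?_⟩
      apply Subtype.ext
      rw [← hyz, ← hx]
      exact Kd_nat a hS.hp x
    · rintro ⟨x, rfl⟩
      obtain ⟨y, hy⟩ := (ses_lTens hS (SV a)).surj x
      refine ⟨Kd a (cof M.N) y, Kd_Kd a (cof M.N) y, ?_⟩
      rw [← hy]
      exact (Kd_nat a hS.hp y).symm

end

end Pool.Agent.Pet19
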