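import Pool.Agent.Pet19.Om0
import Pool.Agent.Pet19.KHO
import Pool.Agent.Pet19.Contr
import Pool.Agent.Pet19.LES

/-!
# Pet19.GL: the doubling lemma (Cartan - Eilenberg spectral sequence in vanishing form)

Induction on `s` generalizing `M`.  Use `Om0` for `a = 0`.
* `s = 0`: `Y0_V0`.
* `s = 1`: `V1_of_H0` for `ses_Om M` (`V_cof`): let `(Om M).d (2w) y = 0`; `Y0_H0`: `y = ι' y'`,
  `Y'.d w y' = 0`; `κ y'` is a cocycle of `Y1`, so `κ y' = 0` and `y' = γ j`, `J.d w j = 0`; `H0_surj` for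
  `Y → cof → J` gives `u` with `β u = j`, `(cof).d w u = 0`; take `x = (Fr ⊗ 1) u` (`Y0_d` for `Y0_cof`).
* `s + 2`: `V_left` for `ses_Om M`: need `V (2w) (s+1) (Om M)` (and `V_cof`); induction hypothesis with
  `Y'`: `V w (s+1) Y'` from `V_mid` (`J → Y' → Y1`), `V w (s+1) J` from `V_right` (`Y → cof → J`), and for
  `a ≥ 0` use `KH_Om`.
-/

set_option autoImplicit false
open MvPolynomial TensorProduct

namespace Pool.Agent.Pet19

noncomputable section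

theorem GLd (w : ℕ) : ∀ (s : ℕ) (M : Pre) [IsCmd M],
    (∃ (Y : Pre) (ι : Y.N →ₗ[ZMod 2] M.N), IsCmd Y ∧ IsY0 M Y ι ∧ V w s Y) →
    (∀ a, a + 1 ≤ s → ∃ (Q Y : Pre) (ι : Y.N →ₗ[ZMod 2] Q.N), IsCmd Q ∧ IsCmd Y ∧ IsKH a M Q ∧
      IsY0 Q Y ι ∧ V w (s - (a + 1)) Y) →
    V (2 * w) s M := by
  intro s
  induction s with
  | zero =>
    intro M _ ⟨Y, ι, _, hY, hV⟩ _
    exact Y0_V0 hY w hV
  | succ s ih =>
    intro M _ ⟨Y, ι, cY, hY, hV⟩ hK
    obtain ⟨Q, Y1, ι1, cQ, cY1, hQ, hY1, hV1⟩ := hK 0 (by omega)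
    obtain ⟨Y', J, ι', α, β, γ, κ, cY', cJ, hY', S1, S2, hc⟩ := Om0 M Y Q Y1 ι ι1 hY hQ hY1
    have hco : IsCo (cof M.N) := IsCmd.co
    cases s with
    | zero =>
      apply V1_of_H0 (2 * w) (ses_Om M) hco (V_cof M.N (2 * w) 0)
      intro y hy
      obtain ⟨y', rfl, hy'⟩ := Y0_H0 hY' w y hy
      have h1 : Y1.d w (κ y') = 0 := by rw [hom_d S2.hp, hy', map_zero]
      have h2 : κ y' = 0 := hV1 _ h1
      obtain ⟨j, rfl⟩ := (S2.ex y').mp h2
      have h3 : J.d w j = 0 := by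
        apply lTensor_inj PP S2.inj
        rw [← hom_d S2.hi, hy', map_zero]
      obtain ⟨u, hu, rfl⟩ := H0_surj w S1 hco hV j h3
      refine ⟨LinearMap.rTensor M.N FrL u, (Y0_d (Y0_cof M.N) w u).mpr hu, (hc u).symm⟩
    | succ s =>
      apply V_left (2 * w) (s + 1) (ses_Om M) hco ?_ (V_cof M.N (2 * w) (s + 1))
      apply ih (Om M)
      · refine ⟨Y', ι', cY', hY', ?_⟩
        exact V_mid w (s + 1) S2 IsCmd.co
          (V_right w (s + 1) S1 hco (V_cof M.N w s) hV) hV1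
      · intro a ha
        obtain ⟨Q', Y'', ι'', cQ', cY'', hQ', hY'', hV''⟩ := hK (a + 1) (by omega)
        refine ⟨Q', Y'', ι'', cQ', cY'', KH_Om a M Q' hQ', hY'', ?_⟩
        have h1 : s + 1 + 1 - (a + 1 + 1) = s + 1 - (a + 1) := by omega
        rw [← h1]
        exact hV''

end

end Pool.Agent.Pet19
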