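import Pool.Agent.Pet19.LnF

/-!
# Pet19.KE: exactness of the (characteristic 2) Koszul - de Rham complex

`D = ∑_j X_j ⊗ ∂/∂X_(j+1)` on `S ⊗ S`.  On monomials `x^α ⊗ x^β` let `i` be the least index such that
`α_i ≥ 1` or `β_(i+1)` is odd (the active index).  If it exists and `β_(i+1)` is even (so `α_i ≥ 1`) put
`h (x^α ⊗ x^β) = x^(α - e_i) ⊗ x^(β + e_(i+1))`; otherwise `h = 0`.
Then `D h + h D = 1` on every monomial with an active index, in particular when `α ≠ 0`:
writing `D = ∑ D_j`, `D_j` kills the monomial for `j < i`, does not change the active index for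
`j ≥ i`, commutes with `h_i` for `j > i`, and `D_i h_i + h_i D_i = 1`.
Define `h` on the monomial basis (`MvPolynomial.basisMonomials`, `Basis.tensorProduct`,
`Basis.constr`) and restrict to `HH (a+1) ⊗ PP → HH a ⊗ PP` with `hc`.
-/

set_option autoImplicit false
open MvPolynomial TensorProduct

namespace Pool.Agent.Pet19

noncomputable section

namespace KEx

/-- the monomial `x^α` as an element of `HH a` (zero unless `α` has degree `a`) -/
def mo (a : ℕ) (α : ℕ →₀ ℕ) : HH a := hc a (monomial α 1)

theorem mo_coe {a : ℕ} {α : ℕ →₀ ℕ} (h : α.degree = a) : ((mo a α : HH a) : PP) = monomial α 1 := by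
  unfold mo
  rw [hc_coe, homogeneousComponent_of_mem (n := a), if_pos rfl]
  rw [mem_homogeneousSubmodule]
  exact isHomogeneous_monomial 1 h

theorem mo_span {a : ℕ} (f : HH a) :
    f ∈ Submodule.span (ZMod 2) {x | ∃ α : ℕ →₀ ℕ, α.degree = a ∧ mo a α = x} := by
  have h1 : f = ∑ α ∈ (f : PP).support, coeff α (f : PP) • mo a α := by
    apply Subtype.ext
    rw [Submodule.coe_sum]
    conv_lhs => rw [(f : PP).as_sum]
    refine Finset.sum_congr rfl fun α hα => ?_
    have h2 : α.degree = a := by
      have h3 : (f : PP).IsHomogeneous a := (mem_homogeneousSubmodule a (f : PP)).1 f.2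
      by_contra h4
      exact (mem_support_iff.1 hα) (h3.coeff_eq_zero h4)
    rw [Submodule.coe_smul, mo_coe h2, smul_monomial, smul_eq_mul, mul_one]
  rw [h1]
  refine Submodule.sum_mem _ fun α hα => Submodule.smul_mem _ _ (Submodule.subset_span ⟨α, ?_, rfl⟩)
  have h3 : (f : PP).IsHomogeneous a := (mem_homogeneousSubmodule a (f : PP)).1 f.2
  by_contra h4
  exact (mem_support_iff.1 hα) (h3.coeff_eq_zero h4)

/-- `x^α ⊗ x^β` -/
def EE (a : ℕ) (α β : ℕ →₀ ℕ) : HH a ⊗[ZMod 2] PP := mo a α ⊗ₜ[ZMod 2] monomial β 1

theorem ext_EE {a : ℕ} {M : Type} [AddCommGroup M] [Module (ZMod 2) M]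
    {f g : HH a ⊗[ZMod 2] PP →ₗ[ZMod 2] M}
    (h : ∀ α β : ℕ →₀ ℕ, α.degree = a → f (EE a α β) = g (EE a α β)) : f = g := by
  apply TensorProduct.ext'
  intro x y
  induction mo_span x using Submodule.span_induction with
  | mem x hx =>
    obtain ⟨α, hα, rfl⟩ := hx
    have h1 : f ∘ₗ TensorProduct.mk (ZMod 2) (HH a) PP (mo a α) =
        g ∘ₗ TensorProduct.mk (ZMod 2) (HH a) PP (mo a α) := by
      apply MvPolynomial.linearMap_ext
      intro β
      apply LinearMap.ext_ring
      exact h α β hα
    exact LinearMap.congr_fun h1 y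
  | zero => rw [TensorProduct.zero_tmul, map_zero, map_zero]
  | add x x' _ _ hx hx' => rw [TensorProduct.add_tmul, map_add, map_add, hx, hx']
  | smul c x _ hx => rw [← TensorProduct.smul_tmul', map_smul, map_smul, hx]

theorem Dp_EE {a : ℕ} {α β : ℕ →₀ ℕ} (hα : α.degree = a) (N : ℕ) (hN : ∀ n, β n ≠ 0 → n ≤ N) :
    Dp a (EE a α β) = ∑ j ∈ Finset.range N, ((β (j + 1) : ℕ) : ZMod 2) •
      EE (a + 1) (α + Finsupp.single j 1) (β - Finsupp.single (j + 1) 1) := by
  unfold EE Dp
  rw [LinearMap.comp_apply, LinearMap.comp_apply, LinearMap.lTensor_tmul,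
    tauP_eq (monomial β 1) N (fun n hn => hN n ?_), TensorProduct.tmul_sum, map_sum, map_sum]
  · refine Finset.sum_congr rfl fun j _ => ?_
    rw [LinearEquiv.coe_coe, TensorProduct.assoc_symm_tmul, LinearMap.rTensor_tmul,
      pderiv_monomial, one_mul]
    have h1 : mulh a (mo a α ⊗ₜ[ZMod 2] (X j : PP)) = mo (a + 1) (α + Finsupp.single j 1) := by
      apply Subtype.ext
      have h2 : (α + Finsupp.single j 1).degree = a + 1 := by
        rw [map_add, hα, Finsupp.degree_single]
      rw [mo_coe h2]
      unfold mulh
      rw [LinearMap.comp_apply, LinearMap.comp_apply, LinearMap.rTensor_tmul,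
        LinearMap.mul'_apply, hc_coe, Submodule.subtype_apply, mo_coe hα]
      have h3 : (monomial α (1 : ZMod 2)) * X j = monomial (α + Finsupp.single j 1) 1 := by
        rw [X, monomial_mul, one_mul]
      rw [h3, homogeneousComponent_of_mem (n := a + 1), if_pos rfl]
      rw [mem_homogeneousSubmodule]
      exact isHomogeneous_monomial 1 h2
    rw [h1, ← TensorProduct.tmul_smul, smul_monomial, smul_eq_mul, mul_one]
  · rw [vars_monomial one_ne_zero, Finsupp.mem_support_iff] at hn
    exact hn

/-- active indices -/
def act (α β : ℕ →₀ ℕ) (i : ℕ) : Prop := 1 ≤ α i ∨ Odd (β (i + 1))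

open Classical in
/-- the homotopy on monomials -/
def hval (a : ℕ) (α β : ℕ →₀ ℕ) : HH a ⊗[ZMod 2] PP :=
  if h : ∃ i, act α β i then
    if Even (β (Nat.find h + 1)) then
      EE a (α - Finsupp.single (Nat.find h) 1) (β + Finsupp.single (Nat.find h + 1) 1) else 0
  else 0

/-- `i` is the least active index -/
def isAct (α β : ℕ →₀ ℕ) (i : ℕ) : Prop := act α β i ∧ ∀ k < i, ¬ act α β k

theorem hval_even {a : ℕ} {α β : ℕ →₀ ℕ} {i : ℕ} (h : isAct α β i) (h2 : Even (β (i + 1))) :
    hval a α β = EE a (α - Finsupp.single i 1) (β + Finsupp.single (i + 1) 1) := by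
  classical
  have h0 : ∃ i, act α β i := ⟨i, h.1⟩
  have h1 : Nat.find h0 = i := (Nat.find_eq_iff h0).2 h
  unfold hval
  rw [dif_pos h0]
  have h3 : Even (β (Nat.find h0 + 1)) := by rw [h1]; exact h2
  rw [if_pos h3, h1]

theorem hval_odd {a : ℕ} {α β : ℕ →₀ ℕ} {i : ℕ} (h : isAct α β i) (h2 : Odd (β (i + 1))) :
    hval a α β = 0 := by
  classical
  have h0 : ∃ i, act α β i := ⟨i, h.1⟩
  have h1 : Nat.find h0 = i := (Nat.find_eq_iff h0).2 h
  unfold hval
  rw [dif_pos h0]
  have h3 : ¬ Even (β (Nat.find h0 + 1)) := by rw [h1, Nat.not_even_iff_odd]; exact h2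
  rw [if_neg h3]

/-- the homotopy -/
def hmap (a : ℕ) : HH (a + 1) ⊗[ZMod 2] PP →ₗ[ZMod 2] HH a ⊗[ZMod 2] PP :=
  (((basisMonomials ℕ (ZMod 2)).tensorProduct (basisMonomials ℕ (ZMod 2))).constr (ZMod 2)
    fun x => hval a x.1 x.2) ∘ₗ LinearMap.rTensor PP (HH (a + 1)).subtype

theorem hmap_EE {a : ℕ} {α β : ℕ →₀ ℕ} (hα : α.degree = a + 1) :
    hmap a (EE (a + 1) α β) = hval a α β := by
  unfold hmap EE
  rw [LinearMap.comp_apply, LinearMap.rTensor_tmul, Submodule.subtype_apply, mo_coe hα]
  have h1 := Module.Basis.constr_basis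
    ((basisMonomials ℕ (ZMod 2)).tensorProduct (basisMonomials ℕ (ZMod 2))) (ZMod 2)
    (fun x => hval a x.1 x.2) (α, β)
  rw [Module.Basis.tensorProduct_apply, coe_basisMonomials] at h1
  exact h1

theorem cast_even {n : ℕ} (h : Even n) : ((n : ℕ) : ZMod 2) = 0 := by
  rw [ZMod.natCast_eq_zero_iff]
  exact h.two_dvd

theorem cast_odd {n : ℕ} (h : Odd n) : ((n : ℕ) : ZMod 2) = 1 := by
  rw [ZMod.natCast_eq_one_iff_odd]
  exact h

theorem add_self_two {M : Type} [AddCommGroup M] [Module (ZMod 2) M] (x : M) : x + x = 0 := by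
  have h1 : x + x = ((1 : ZMod 2) + 1) • x := by rw [add_smul, one_smul]
  have h2 : (1 : ZMod 2) + 1 = 0 := by decide
  rw [h1, h2, zero_smul]

theorem degree_sub_single {α : ℕ →₀ ℕ} {i a : ℕ} (hα : α.degree = a + 1) (hi : 1 ≤ α i) :
    (α - Finsupp.single i 1).degree = a := by
  have h1 : Finsupp.single i 1 ≤ α := by rwa [Finsupp.single_le_iff]
  have h2 : (α - Finsupp.single i 1).degree + (Finsupp.single i 1 : ℕ →₀ ℕ).degree = α.degree := by
    rw [← map_add, tsub_add_cancel_of_le h1]
  rw [Finsupp.degree_single, hα] at h2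
  omega

theorem sub_apply' (α : ℕ →₀ ℕ) (i j : ℕ) :
    (α - (Finsupp.single i 1 : ℕ →₀ ℕ)) j = α j - if i = j then 1 else 0 := by
  rw [Finsupp.tsub_apply, Finsupp.single_apply]

theorem add_apply' (α : ℕ →₀ ℕ) (i j : ℕ) :
    (α + (Finsupp.single i 1 : ℕ →₀ ℕ)) j = α j + if i = j then 1 else 0 := by
  rw [Finsupp.add_apply, Finsupp.single_apply]

theorem KE_mono {a : ℕ} {α β : ℕ →₀ ℕ} (hα : α.degree = a + 1) :
    Dp a (hmap a (EE (a + 1) α β)) + hmap (a + 1) (Dp (a + 1) (EE (a + 1) α β)) =
      EE (a + 1) α β := by
  classical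
  have hex : ∃ i, act α β i := by
    by_contra h
    push Not at h
    have h1 : α = 0 := by
      ext i
      have := h i
      unfold act at this
      push Not at this
      have h2 := this.1
      simp only [Finsupp.coe_zero, Pi.zero_apply]
      omega
    rw [h1] at hα
    simp at hα
  obtain ⟨i, hi⟩ : ∃ i, isAct α β i := ⟨Nat.find hex, Nat.find_spec hex, fun k hk =>
    Nat.find_min hex hk⟩
  obtain ⟨N, hN, hiN⟩ : ∃ N, (∀ n, β n ≠ 0 → n ≤ N) ∧ i < N := by
    refine ⟨β.support.sup id + i + 1, fun n hn => ?_, by omega⟩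
    have h1 : n ≤ β.support.sup id := Finset.le_sup (f := id) (Finsupp.mem_support_iff.2 hn)
    omega
  rw [hmap_EE hα, Dp_EE hα N hN, map_sum]
  have hterm : ∀ j ∈ Finset.range N, hmap (a + 1) (((β (j + 1) : ℕ) : ZMod 2) •
      EE (a + 1 + 1) (α + Finsupp.single j 1) (β - Finsupp.single (j + 1) 1)) =
      ((β (j + 1) : ℕ) : ZMod 2) •
      hval (a + 1) (α + Finsupp.single j 1) (β - Finsupp.single (j + 1) 1) := by
    intro j _
    rw [map_smul, hmap_EE]
    rw [map_add, hα, Finsupp.degree_single]
  rw [Finset.sum_congr rfl hterm]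
  -- indices with odd exponent are at least `i`
  have hge : ∀ j, Odd (β (j + 1)) → i ≤ j := by
    intro j hj
    by_contra h
    exact hi.2 j (by omega) (Or.inr hj)
  -- the active index after applying a summand of `D`
  have hact : ∀ j, Odd (β (j + 1)) → i ≤ j → (1 ≤ α i ∨ i = j ∨ Odd (β (i + 1))) →
      isAct (α + Finsupp.single j 1) (β - Finsupp.single (j + 1) 1) i := by
    intro j hj hij hh
    constructor
    · unfold act
      rw [add_apply', sub_apply']
      by_cases h : i = j
      · left
        rw [if_pos h.symm]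
        omega
      · rcases hh with h1 | h1 | h1
        · left; omega
        · exact absurd h1 h
        · right
          rw [if_neg (by omega), Nat.sub_zero]
          exact h1
    · intro k hk hka
      apply hi.2 k hk
      unfold act at hka ⊢
      rw [add_apply', sub_apply', if_neg (by omega), if_neg (by omega)] at hka
      simpa using hka
  rcases Nat.even_or_odd (β (i + 1)) with he | ho
  · -- even case
    have hαi : 1 ≤ α i := by
      rcases hi.1 with h | h
      · exact h
      · exact absurd he (Nat.not_even_iff_odd.2 h)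
    rw [hval_even hi he, Dp_EE (degree_sub_single hα hαi) N, ← Finset.sum_add_distrib]
    · rw [Finset.sum_eq_single i]
      · rw [cast_even he, zero_smul, add_zero, add_apply', if_pos rfl, cast_odd he.add_one,
          one_smul]
        congr 1
        · ext j
          rw [add_apply', sub_apply']
          split_ifs with h
          · subst h; omega
          · omega
        · ext j
          rw [sub_apply', add_apply']
          omega
      · intro j _ hji
        have e0 : (β + (Finsupp.single (i + 1) 1 : ℕ →₀ ℕ)) (j + 1) = β (j + 1) := by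
          rw [add_apply', if_neg (by omega), Nat.add_zero]
        rw [e0]
        rcases Nat.even_or_odd (β (j + 1)) with hje | hjo
        · rw [cast_even hje, zero_smul, zero_smul, add_zero]
        · have hij := hge j hjo
          rw [cast_odd hjo, one_smul, one_smul, hval_even (hact j hjo hij (Or.inl hαi))]
          · have e1 : α - Finsupp.single i 1 + Finsupp.single j 1 =
                α + Finsupp.single j 1 - Finsupp.single i 1 := by
              ext k
              rw [add_apply', sub_apply', sub_apply', add_apply']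
              by_cases h : i = k
              · subst h
                rw [if_pos rfl, if_neg (by omega : ¬ (j = i))]
                omega
              · rw [if_neg h]
                omega
            have e2 : β + Finsupp.single (i + 1) 1 - Finsupp.single (j + 1) 1 =
                β - Finsupp.single (j + 1) 1 + Finsupp.single (i + 1) 1 := by
              ext k
              rw [sub_apply', add_apply', add_apply', sub_apply']
              by_cases h : i + 1 = k
              · subst h
                rw [if_pos rfl, if_neg (by omega : ¬ (j + 1 = i + 1))]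
                omega
              · rw [if_neg h]
                omega
            rw [e1, e2]
            exact add_self_two _
          · rw [sub_apply', if_neg (by omega), Nat.sub_zero]
            exact he
      · intro h
        exact absurd (Finset.mem_range.2 hiN) h
    · intro n hn
      rw [add_apply'] at hn
      by_cases h : i + 1 = n
      · omega
      · rw [if_neg h, Nat.add_zero] at hn
        exact hN n hn
  · -- odd case
    rw [hval_odd hi ho, map_zero, zero_add, Finset.sum_eq_single i]
    · rw [cast_odd ho, one_smul, hval_even (hact i ho le_rfl (Or.inr (Or.inl rfl)))]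
      · congr 1
        · ext j
          rw [sub_apply', add_apply']
          omega
        · ext j
          rw [add_apply', sub_apply']
          have := ho.pos
          split_ifs with h
          · subst h; omega
          · omega
      · rw [sub_apply', if_pos rfl]
        obtain ⟨k, hk⟩ := ho
        exact ⟨k, by omega⟩
    · intro j _ hji
      rcases Nat.even_or_odd (β (j + 1)) with hje | hjo
      · rw [cast_even hje, zero_smul]
      · have hij := hge j hjo
        rw [hval_odd (hact j hjo hij (Or.inr (Or.inr ho))), smul_zero]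
        rw [sub_apply', if_neg (by omega), Nat.sub_zero]
        exact ho
    · intro h
      exact absurd (Finset.mem_range.2 hiN) h

end KEx

open KEx in
theorem KE_homotopy :
    ∃ h : ∀ a : ℕ, HH (a + 1) ⊗[ZMod 2] PP →ₗ[ZMod 2] HH a ⊗[ZMod 2] PP,
      (∀ a (z : HH (a + 1) ⊗[ZMod 2] PP), Dp a (h a z) + h (a + 1) (Dp (a + 1) z) = z) ∧
      (∀ a n (z : HH (a + 1) ⊗[ZMod 2] HH n), ∃ y : HH a ⊗[ZMod 2] HH (n + 1),
        h a (LinearMap.lTensor (HH (a + 1)) (HH n).subtype z) =
          LinearMap.lTensor (HH a) (HH (n + 1)).subtype y) := by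
  classical
  refine ⟨hmap, ?_, ?_⟩
  · intro a z
    have h1 : Dp a ∘ₗ hmap a + hmap (a + 1) ∘ₗ Dp (a + 1) = LinearMap.id := by
      apply ext_EE
      intro α β hα
      rw [LinearMap.add_apply, LinearMap.comp_apply, LinearMap.comp_apply, LinearMap.id_apply]
      exact KE_mono hα
    exact LinearMap.congr_fun h1 z
  · intro a n z
    have h1 : ∀ z : HH (a + 1) ⊗[ZMod 2] HH n,
        hmap a (LinearMap.lTensor (HH (a + 1)) (HH n).subtype z) ∈
          LinearMap.range (LinearMap.lTensor (HH a) (HH (n + 1)).subtype) := by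
      intro z
      induction z using TensorProduct.induction_on with
      | zero => rw [map_zero, map_zero]; exact Submodule.zero_mem _
      | add x y hx hy => rw [map_add, map_add]; exact Submodule.add_mem _ hx hy
      | tmul x y =>
        rw [LinearMap.lTensor_tmul]
        induction mo_span x using Submodule.span_induction with
        | zero => rw [TensorProduct.zero_tmul, map_zero]; exact Submodule.zero_mem _
        | add x x' _ _ hx hx' =>
          rw [TensorProduct.add_tmul, map_add]
          exact Submodule.add_mem _ hx hx'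
        | smul c x _ hx =>
          rw [← TensorProduct.smul_tmul', map_smul]
          exact Submodule.smul_mem _ _ hx
        | mem x hx =>
          obtain ⟨α, hα, rfl⟩ := hx
          induction mo_span y using Submodule.span_induction with
          | zero => rw [map_zero, TensorProduct.tmul_zero, map_zero]; exact Submodule.zero_mem _
          | add x x' _ _ hx hx' =>
            rw [map_add, TensorProduct.tmul_add, map_add]
            exact Submodule.add_mem _ hx hx'
          | smul c x _ hx =>
            rw [map_smul, TensorProduct.tmul_smul, map_smul]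
            exact Submodule.smul_mem _ _ hx
          | mem y hy =>
            obtain ⟨β, hβ, rfl⟩ := hy
            have h2 : mo (a + 1) α ⊗ₜ[ZMod 2] (HH n).subtype (mo n β) = EE (a + 1) α β := by
              unfold EE
              rw [Submodule.subtype_apply, mo_coe hβ]
            rw [h2, hmap_EE hα]
            unfold hval
            split_ifs with h3 h4
            · refine ⟨mo a (α - Finsupp.single (Nat.find h3) 1) ⊗ₜ[ZMod 2]
                mo (n + 1) (β + Finsupp.single (Nat.find h3 + 1) 1), ?_⟩
              rw [LinearMap.lTensor_tmul, Submodule.subtype_apply, mo_coe]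
              · rfl
              · rw [map_add, hβ, Finsupp.degree_single]
            · exact Submodule.zero_mem _
            · exact Submodule.zero_mem _
    obtain ⟨y, hy⟩ := h1 z
    exact ⟨y, hy.symm⟩

/-- exactness in positive degree, graded in the second variable:
a cycle of `HH (a+1) ⊗ HH n` is a boundary from `HH a ⊗ HH (n+1)` -/
theorem KE_exact (a n : ℕ) (z : HH (a + 1) ⊗[ZMod 2] HH n)
    (hz : Dp (a + 1) (LinearMap.lTensor (HH (a + 1)) (HH n).subtype z) = 0) :
    ∃ y : HH a ⊗[ZMod 2] HH (n + 1), Dp a (LinearMap.lTensor (HH a) (HH (n + 1)).subtype y) =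
      LinearMap.lTensor (HH (a + 1)) (HH n).subtype z := by
  obtain ⟨h, h1, h2⟩ := KE_homotopy
  obtain ⟨y, hy⟩ := h2 a n z
  refine ⟨y, ?_⟩
  rw [← hy]
  have := h1 a (LinearMap.lTensor (HH (a + 1)) (HH n).subtype z)
  rw [hz, map_zero, add_zero] at this
  exact this

end

end Pool.Agent.Pet19
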