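import Pool.Agent.Pet19.ThC
import Pool.Agent.Pet19.KdN
import Pool.Agent.Pet19.Poly

/-!
# Pet19.KdH: the Koszul differential is colinear and squares to zero

With `δ m = ∑ a ⊗ m_0`: `Kd (f ⊗ m) = ∑ f θ(a) ⊗ m_0`.
Colinearity: by coassociativity reduce to `theta_co`; `Kd ∘ Kd = 0`: reduce to `theta_theta`.
-/

set_option autoImplicit false
open MvPolynomial TensorProduct

namespace Pool.Agent.Pet19

noncomputable section

/-- apply a linear map of `PP ⊗ PP` to the first two factors of `PP ⊗ (PP ⊗ N)` -/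
private def app2 (N : Type) [AddCommGroup N] [Module (ZMod 2) N]
    (g : PP ⊗[ZMod 2] PP →ₗ[ZMod 2] PP ⊗[ZMod 2] PP) :
    PP ⊗[ZMod 2] (PP ⊗[ZMod 2] N) →ₗ[ZMod 2] PP ⊗[ZMod 2] (PP ⊗[ZMod 2] N) :=
  (TensorProduct.assoc (ZMod 2) PP PP N).toLinearMap ∘ₗ LinearMap.rTensor N g ∘ₗ
    (TensorProduct.assoc (ZMod 2) PP PP N).symm.toLinearMap

private theorem app2_tmul (N : Type) [AddCommGroup N] [Module (ZMod 2) N]
    (g : PP ⊗[ZMod 2] PP →ₗ[ZMod 2] PP ⊗[ZMod 2] PP) (a b : PP) (n : N) :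
    app2 N g (a ⊗ₜ[ZMod 2] (b ⊗ₜ[ZMod 2] n)) =
      TensorProduct.assoc (ZMod 2) PP PP N (g (a ⊗ₜ[ZMod 2] b) ⊗ₜ[ZMod 2] n) := by
  simp [app2]

private theorem app2_DlT (N : Type) [AddCommGroup N] [Module (ZMod 2) N]
    (g : PP ⊗[ZMod 2] PP →ₗ[ZMod 2] PP ⊗[ZMod 2] PP) (y : PP ⊗[ZMod 2] N) :
    app2 N g (DlT N y) =
      TensorProduct.assoc (ZMod 2) PP PP N (LinearMap.rTensor N (g ∘ₗ Dl.toLinearMap) y) := by
  induction y using TensorProduct.induction_on with
  | zero => simp only [map_zero]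
  | add u v hu hv => simp only [map_add, hu, hv]
  | tmul c n =>
    rw [DlT_tmul, app2, LinearMap.comp_apply, LinearMap.comp_apply, LinearEquiv.coe_coe,
      LinearEquiv.coe_coe, LinearEquiv.symm_apply_apply, LinearMap.rTensor_tmul,
      LinearMap.rTensor_tmul]
    rfl

private def KL : PP ⊗[ZMod 2] PP →ₗ[ZMod 2] PP ⊗[ZMod 2] PP :=
  LinearMap.mul' (ZMod 2) (PP ⊗[ZMod 2] PP) ∘ₗ
    TensorProduct.map (coV.toLinearMap ∘ₗ theta)
      (Algebra.TensorProduct.includeLeft : PP →ₐ[ZMod 2] PP ⊗[ZMod 2] PP).toLinearMap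

private theorem KL_tmul (u v : PP) :
    KL (u ⊗ₜ[ZMod 2] v) = coV (theta u) * (v ⊗ₜ[ZMod 2] 1) := by
  simp [KL]

private theorem KL_Dl : KL ∘ₗ Dl.toLinearMap = LinearMap.lTensor PP theta ∘ₗ Dl.toLinearMap :=
  LinearMap.ext fun a => theta_co a

private theorem mulh_theta (a : ℕ) (f : HH a) (c : PP) :
    ((mulh a (f ⊗ₜ[ZMod 2] theta c) : HH (a + 1)) : PP) = (f : PP) * theta c :=
  mulh_coe a f _ (theta_mem c)

/-- the inclusion of `PP ⊗ (HH b ⊗ N)` into `PP ⊗ (PP ⊗ N)` -/
private def JJ (b : ℕ) (N : Type) [AddCommGroup N] [Module (ZMod 2) N] :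
    PP ⊗[ZMod 2] (HH b ⊗[ZMod 2] N) →ₗ[ZMod 2] PP ⊗[ZMod 2] (PP ⊗[ZMod 2] N) :=
  LinearMap.lTensor PP (LinearMap.rTensor N (HH b).subtype)

private theorem JJ_inj (b : ℕ) (N : Type) [AddCommGroup N] [Module (ZMod 2) N] :
    Function.Injective (JJ b N) :=
  lTensor_inj PP (rTensor_inj N (HH b).injective_subtype)

private theorem JJ_star (b : ℕ) (N : Type) [AddCommGroup N] [Module (ZMod 2) N]
    (u : PP ⊗[ZMod 2] HH b) (c : PP) (n : N) :
    JJ b N (star (HH b) N (u ⊗ₜ[ZMod 2] (c ⊗ₜ[ZMod 2] n))) =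
      TensorProduct.assoc (ZMod 2) PP PP N
        ((LinearMap.lTensor PP (HH b).subtype u * (c ⊗ₜ[ZMod 2] (1 : PP))) ⊗ₜ[ZMod 2] n) := by
  induction u using TensorProduct.induction_on with
  | zero => simp only [TensorProduct.zero_tmul, map_zero, zero_mul]
  | add u v hu hv => simp only [TensorProduct.add_tmul, map_add, add_mul, hu, hv]
  | tmul g f =>
    rw [star_tmul, JJ, LinearMap.lTensor_tmul, LinearMap.rTensor_tmul, LinearMap.lTensor_tmul,
      Algebra.TensorProduct.tmul_mul_tmul, mul_one, TensorProduct.assoc_tmul]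

private theorem part1 (a : ℕ) (M : Pre) (f : HH a) (y : PP ⊗[ZMod 2] M.N) :
    JJ (a + 1) M.N (tensδ (SV (a + 1)) M
      (LinearMap.rTensor M.N (mulh a ∘ₗ LinearMap.lTensor (HH a) theta)
        ((TensorProduct.assoc (ZMod 2) (HH a) PP M.N).symm (f ⊗ₜ[ZMod 2] y)))) =
      app2 M.N (LinearMap.mulLeft (ZMod 2) (coV (f : PP)) ∘ₗ KL)
        (LinearMap.lTensor PP M.δ y) := by
  induction y using TensorProduct.induction_on with
  | zero => simp only [TensorProduct.tmul_zero, map_zero]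
  | add u v hu hv => simp only [TensorProduct.tmul_add, map_add, hu, hv]
  | tmul c n =>
    rw [TensorProduct.assoc_symm_tmul, LinearMap.rTensor_tmul, LinearMap.comp_apply,
      LinearMap.lTensor_tmul, LinearMap.lTensor_tmul, tensδ_tmul]
    generalize M.δ n = z
    induction z using TensorProduct.induction_on with
    | zero => simp only [TensorProduct.tmul_zero, map_zero]
    | add u v hu hv => simp only [TensorProduct.tmul_add, map_add, hu, hv]
    | tmul c' n' =>
      rw [app2_tmul, LinearMap.comp_apply, KL_tmul, LinearMap.mulLeft_apply]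
      refine (JJ_star (a + 1) M.N _ c' n').trans ?_
      rw [SV_δ, mulh_theta, map_mul, mul_assoc]

private theorem part2 (a : ℕ) (M : Pre) (u : PP ⊗[ZMod 2] HH a) (y : PP ⊗[ZMod 2] M.N) :
    JJ (a + 1) M.N (LinearMap.lTensor PP (Kd a M) (star (HH a) M.N (u ⊗ₜ[ZMod 2] y))) =
      app2 M.N (LinearMap.mulLeft (ZMod 2) (LinearMap.lTensor PP (HH a).subtype u) ∘ₗ
        LinearMap.lTensor PP theta) (LinearMap.lTensor PP M.δ y) := by
  induction y using TensorProduct.induction_on with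
  | zero => simp only [TensorProduct.tmul_zero, map_zero]
  | add u v hu hv => simp only [TensorProduct.tmul_add, map_add, hu, hv]
  | tmul c n =>
    have key : ∀ z : PP ⊗[ZMod 2] M.N, ∀ g : PP, ∀ f : HH a,
        (g * c) ⊗ₜ[ZMod 2] (LinearMap.rTensor M.N (HH (a + 1)).subtype
          (LinearMap.rTensor M.N (mulh a ∘ₗ LinearMap.lTensor (HH a) theta)
            ((TensorProduct.assoc (ZMod 2) (HH a) PP M.N).symm (f ⊗ₜ[ZMod 2] z)))) =
        app2 M.N (LinearMap.mulLeft (ZMod 2) (g ⊗ₜ[ZMod 2] (f : PP)) ∘ₗ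
          LinearMap.lTensor PP theta) (c ⊗ₜ[ZMod 2] z) := by
      intro z g f
      induction z using TensorProduct.induction_on with
      | zero => simp only [TensorProduct.tmul_zero, map_zero]
      | add u v hu hv => simp only [TensorProduct.tmul_add, map_add, hu, hv]
      | tmul c' n' =>
        rw [TensorProduct.assoc_symm_tmul, LinearMap.rTensor_tmul, LinearMap.rTensor_tmul,
          LinearMap.comp_apply, LinearMap.lTensor_tmul, app2_tmul, LinearMap.comp_apply,
          LinearMap.lTensor_tmul, LinearMap.mulLeft_apply, Algebra.TensorProduct.tmul_mul_tmul,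
          TensorProduct.assoc_tmul, Submodule.subtype_apply, mulh_theta]
    induction u using TensorProduct.induction_on with
    | zero =>
      rw [TensorProduct.zero_tmul, map_zero, map_zero, map_zero, map_zero]
      have h0 : LinearMap.mulLeft (ZMod 2) (0 : PP ⊗[ZMod 2] PP) = 0 := by
        ext; simp
      rw [h0, LinearMap.zero_comp]
      simp [app2]
    | add u v hu hv =>
      have h0 : ∀ x y : PP ⊗[ZMod 2] PP, LinearMap.mulLeft (ZMod 2) (x + y) =
          LinearMap.mulLeft (ZMod 2) x + LinearMap.mulLeft (ZMod 2) y := by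
        intro x y
        exact LinearMap.ext fun w => by simp [add_mul]
      rw [TensorProduct.add_tmul, map_add, map_add, map_add, hu, hv, map_add, h0,
        LinearMap.add_comp]
      simp only [app2, LinearMap.rTensor_add, LinearMap.add_comp, LinearMap.comp_add,
        LinearMap.add_apply]
    | tmul g f =>
      rw [star_tmul, LinearMap.lTensor_tmul, Kd_tmul, JJ, LinearMap.lTensor_tmul,
        LinearMap.lTensor_tmul, LinearMap.lTensor_tmul, key, Submodule.subtype_apply]

theorem Kd_hom (a : ℕ) (M : Pre) [IsCmd M] : IsHom (Kc a M) (Kc (a + 1) M) (Kd a M) := by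
  intro x
  induction x using TensorProduct.induction_on with
  | zero => rw [map_zero, map_zero, map_zero, map_zero]
  | add u v hu hv => rw [map_add, map_add, hu, hv, map_add, map_add]
  | tmul f m =>
    apply JJ_inj (a + 1) M.N
    have hco : LinearMap.lTensor PP M.δ (M.δ m) = DlT M.N (M.δ m) := (IsCmd.co m).symm
    have h1 := part1 a M f (M.δ m)
    have h2 := part2 a M ((SV a).δ f) (M.δ m)
    rw [hco, app2_DlT] at h1 h2
    rw [Kd_tmul]
    change JJ (a + 1) M.N (tensδ (SV (a + 1)) M _) =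
      JJ (a + 1) M.N (LinearMap.lTensor PP (Kd a M) (tensδ (SV a) M (f ⊗ₜ[ZMod 2] m)))
    rw [tensδ_tmul, h1]
    refine Eq.trans ?_ h2.symm
    rw [SV_δ, LinearMap.comp_assoc, LinearMap.comp_assoc, KL_Dl]

/-- apply a linear map `PP ⊗ PP → PP` to the first two factors of `PP ⊗ (PP ⊗ N)` -/
private def app1 (N : Type) [AddCommGroup N] [Module (ZMod 2) N]
    (g : PP ⊗[ZMod 2] PP →ₗ[ZMod 2] PP) :
    PP ⊗[ZMod 2] (PP ⊗[ZMod 2] N) →ₗ[ZMod 2] PP ⊗[ZMod 2] N :=
  LinearMap.rTensor N g ∘ₗ (TensorProduct.assoc (ZMod 2) PP PP N).symm.toLinearMap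

private theorem app1_tmul (N : Type) [AddCommGroup N] [Module (ZMod 2) N]
    (g : PP ⊗[ZMod 2] PP →ₗ[ZMod 2] PP) (a b : PP) (n : N) :
    app1 N g (a ⊗ₜ[ZMod 2] (b ⊗ₜ[ZMod 2] n)) = g (a ⊗ₜ[ZMod 2] b) ⊗ₜ[ZMod 2] n := by
  simp [app1]

private theorem app1_DlT (N : Type) [AddCommGroup N] [Module (ZMod 2) N]
    (g : PP ⊗[ZMod 2] PP →ₗ[ZMod 2] PP) (y : PP ⊗[ZMod 2] N) :
    app1 N g (DlT N y) = LinearMap.rTensor N (g ∘ₗ Dl.toLinearMap) y := by
  induction y using TensorProduct.induction_on with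
  | zero => simp only [map_zero]
  | add u v hu hv => simp only [map_add, hu, hv]
  | tmul c n =>
    rw [DlT_tmul, app1, LinearMap.comp_apply, LinearEquiv.coe_coe,
      LinearEquiv.symm_apply_apply, LinearMap.rTensor_tmul, LinearMap.rTensor_tmul]
    rfl

private def K2 : PP ⊗[ZMod 2] PP →ₗ[ZMod 2] PP :=
  LinearMap.mul' (ZMod 2) PP ∘ₗ TensorProduct.map theta theta

private theorem K2_tmul (u v : PP) : K2 (u ⊗ₜ[ZMod 2] v) = theta u * theta v := by
  simp [K2]

private theorem K2_Dl : K2 ∘ₗ Dl.toLinearMap = 0 := LinearMap.ext fun a => theta_theta a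

private theorem part3 (a : ℕ) (M : Pre) (f : HH a) (y : PP ⊗[ZMod 2] M.N) :
    LinearMap.rTensor M.N (HH (a + 1 + 1)).subtype (Kd (a + 1) M
      (LinearMap.rTensor M.N (mulh a ∘ₗ LinearMap.lTensor (HH a) theta)
        ((TensorProduct.assoc (ZMod 2) (HH a) PP M.N).symm (f ⊗ₜ[ZMod 2] y)))) =
      app1 M.N (LinearMap.mulLeft (ZMod 2) (f : PP) ∘ₗ K2) (LinearMap.lTensor PP M.δ y) := by
  induction y using TensorProduct.induction_on with
  | zero => simp only [TensorProduct.tmul_zero, map_zero]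
  | add u v hu hv => simp only [TensorProduct.tmul_add, map_add, hu, hv]
  | tmul c n =>
    rw [TensorProduct.assoc_symm_tmul, LinearMap.rTensor_tmul, LinearMap.comp_apply,
      LinearMap.lTensor_tmul, LinearMap.lTensor_tmul, Kd_tmul]
    generalize M.δ n = z
    induction z using TensorProduct.induction_on with
    | zero => simp only [TensorProduct.tmul_zero, map_zero]
    | add u v hu hv => simp only [TensorProduct.tmul_add, map_add, hu, hv]
    | tmul c' n' =>
      rw [TensorProduct.assoc_symm_tmul, LinearMap.rTensor_tmul, LinearMap.rTensor_tmul,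
        LinearMap.comp_apply, LinearMap.lTensor_tmul, app1_tmul, LinearMap.comp_apply, K2_tmul,
        LinearMap.mulLeft_apply, Submodule.subtype_apply, mulh_theta, mulh_theta, mul_assoc]

theorem Kd_Kd (a : ℕ) (M : Pre) [IsCmd M] (x : (Kc a M).N) : Kd (a + 1) M (Kd a M x) = 0 := by
  induction x using TensorProduct.induction_on with
  | zero => rw [map_zero, map_zero]
  | add u v hu hv => rw [map_add, map_add, hu, hv, add_zero]
  | tmul f m =>
    apply rTensor_inj M.N (HH (a + 1 + 1)).injective_subtype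
    have hco : LinearMap.lTensor PP M.δ (M.δ m) = DlT M.N (M.δ m) := (IsCmd.co m).symm
    rw [Kd_tmul, part3, hco, app1_DlT, LinearMap.comp_assoc, K2_Dl, LinearMap.comp_zero,
      LinearMap.rTensor_zero, map_zero]
    rfl

end

end Pool.Agent.Pet19
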