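import Pool.Agent.Pet19.KE
import Pool.Agent.Pet19.KdH

/-!
# Pet19.KEc: the Koszul complex of a cofree comodule is exact in positive degrees

`Kd a (cof N) = Dp a ⊗ 1_N` up to associativity; use `KE_homotopy` tensored with `N`.
-/

set_option autoImplicit false
open MvPolynomial TensorProduct

namespace Pool.Agent.Pet19

noncomputable section

theorem Kd_cof (N : Type) [AddCommGroup N] [Module (ZMod 2) N] (a : ℕ) (f : HH a) (g : PP)
    (n : N) :
    Kd a (cof N) (f ⊗ₜ[ZMod 2] (g ⊗ₜ[ZMod 2] n)) =
      TensorProduct.assoc (ZMod 2) (HH (a + 1)) PP N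
        (Dp a (f ⊗ₜ[ZMod 2] g) ⊗ₜ[ZMod 2] n) := by
  rw [Kd_tmul, DlT_tmul]
  unfold Dp tauP
  rw [LinearMap.comp_apply, LinearMap.comp_apply, LinearMap.lTensor_tmul, LinearMap.comp_apply,
    AlgHom.toLinearMap_apply]
  generalize Dl g = u
  induction u using TensorProduct.induction_on with
  | zero =>
    simp only [TensorProduct.zero_tmul, TensorProduct.tmul_zero, map_zero]
  | add x y hx hy =>
    simp only [TensorProduct.add_tmul, TensorProduct.tmul_add, map_add] at hx hy ⊢
    rw [hx, hy]
  | tmul p q =>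
    rw [TensorProduct.assoc_tmul, TensorProduct.assoc_symm_tmul, LinearMap.rTensor_tmul,
      LinearMap.rTensor_tmul, LinearEquiv.coe_coe, TensorProduct.assoc_symm_tmul,
      LinearMap.rTensor_tmul, TensorProduct.assoc_tmul, LinearMap.comp_apply,
      LinearMap.lTensor_tmul]

/-- the Koszul differential of a cofree comodule is `Dp ⊗ 1`, as a map -/
theorem Kd_cof_assoc (N : Type) [AddCommGroup N] [Module (ZMod 2) N] (a : ℕ)
    (x : (HH a ⊗[ZMod 2] PP) ⊗[ZMod 2] N) :
    Kd a (cof N) (TensorProduct.assoc (ZMod 2) (HH a) PP N x) =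
      TensorProduct.assoc (ZMod 2) (HH (a + 1)) PP N (LinearMap.rTensor N (Dp a) x) := by
  induction x using TensorProduct.induction_on with
  | zero => simp only [map_zero]
  | add x y hx hy => simp only [map_add, hx, hy]
  | tmul x n =>
    induction x using TensorProduct.induction_on with
    | zero => simp only [TensorProduct.zero_tmul, map_zero]
    | add x y hx hy => simp only [TensorProduct.add_tmul, map_add, hx, hy]
    | tmul f g =>
      rw [TensorProduct.assoc_tmul, LinearMap.rTensor_tmul]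
      exact Kd_cof N a f g n

theorem Kd_cof_exact (N : Type) [AddCommGroup N] [Module (ZMod 2) N] (a : ℕ)
    (z : (Kc (a + 1) (cof N)).N) (hz : Kd (a + 1) (cof N) z = 0) :
    ∃ y : (Kc a (cof N)).N, Kd a (cof N) y = z := by
  obtain ⟨h, h1, -⟩ := KE_homotopy
  obtain ⟨z', rfl⟩ := (TensorProduct.assoc (ZMod 2) (HH (a + 1)) PP N).surjective z
  have h2 : LinearMap.rTensor N (Dp (a + 1)) z' = 0 := by
    have h3 := Kd_cof_assoc N (a + 1) z'
    rw [hz] at h3
    exact (LinearEquiv.map_eq_zero_iff _).1 h3.symm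
  refine ⟨TensorProduct.assoc (ZMod 2) (HH a) PP N (LinearMap.rTensor N (h a) z'), ?_⟩
  rw [Kd_cof_assoc]
  congr 1
  have h4 : Dp a ∘ₗ h a + h (a + 1) ∘ₗ Dp (a + 1) = LinearMap.id := by
    apply LinearMap.ext
    intro x
    exact h1 a x
  have h5 := LinearMap.congr_fun (congrArg (LinearMap.rTensor N) h4) z'
  rw [LinearMap.rTensor_add, LinearMap.rTensor_id, LinearMap.add_apply, LinearMap.rTensor_comp,
    LinearMap.rTensor_comp, LinearMap.comp_apply, LinearMap.comp_apply, h2, map_zero,
    add_zero] at h5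
  exact h5

end

end Pool.Agent.Pet19
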