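import Pool.Agent.Pet19.D0h
import Pool.Agent.Pet19.SEST

/-!
# Pet19.KKs: the coresolution of `K^{a,n}`

`ses_KK`: `i` is the inclusion of the kernel, `p z` is the unique element of
`ker (D0n (a+1) n) ⊆ HH (a+1) ⊗ HH n` with `D0 a (z) = (its image)` (`D0_deg`, `D0_D0`,
`lTensor_inj`); surjective by `D0_exact`.  Colinear by `hom_of_inj` into `tens (SP (a+1)) SfP`.
`V_KK`: induction on `n` generalizing `a σ`, with `V_left` (`V_left0` for `σ = 0`) for
`ses_rTens (ses_shift (ses_KK a n) e) N`.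
-/

set_option autoImplicit false
open MvPolynomial TensorProduct

namespace Pool.Agent.Pet19

noncomputable section

private theorem kks_D0n (a n : ℕ) (z : HH a ⊗[ZMod 2] HH n) :
    D0n a n z = D0 a (LinearMap.lTensor (HH a) (HH n).subtype z) := by
  unfold D0n
  rfl

private theorem kks_inj (a n : ℕ) :
    Function.Injective (LinearMap.lTensor (HH a) (HH n).subtype) :=
  lTensor_inj (HH a) (HH n).injective_subtype

private theorem kks_hom (a n : ℕ) :
    IsHom (tens (SP a) (SP n)) (tens (SP a) SfP) (LinearMap.lTensor (HH a) (HH n).subtype) :=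
  hom_map (hom_id (SP a)) (subP_hom SfP (HH n) (isSub_SfP n))

theorem iso_KK_zero (a : ℕ) : Iso (KK a 0) (tens (SP a) (SP 0)) := by
  have h : LinearMap.ker (D0n a 0) = ⊤ := by
    rw [LinearMap.ker_eq_top]
    apply LinearMap.ext
    intro z
    rw [LinearMap.zero_apply]
    exact (kks_D0n a 0 z).trans (D0_deg0 a z)
  refine ⟨LinearEquiv.ofTop _ h, ?_⟩
  exact subP_hom (tens (SP a) (SP 0)) _ (isSub_ker (D0n_hom a 0))

theorem ses_KK (a n : ℕ) :
    ∃ (i : (KK a (n + 1)).N →ₗ[ZMod 2] (tens (SP a) (SP (n + 1))).N)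
      (p : (tens (SP a) (SP (n + 1))).N →ₗ[ZMod 2] (KK (a + 1) n).N),
      SES (KK a (n + 1)) (tens (SP a) (SP (n + 1))) (KK (a + 1) n) i p := by
  obtain ⟨r, hr⟩ := LinearMap.exists_leftInverse_of_injective
    (LinearMap.lTensor (HH (a + 1)) (HH n).subtype) (LinearMap.ker_eq_bot.2 (kks_inj (a + 1) n))
  have hr' : ∀ y, r (LinearMap.lTensor (HH (a + 1)) (HH n).subtype y) = y :=
    fun y => LinearMap.congr_fun hr y
  let p0 : (tens (SP a) (SP (n + 1))).N →ₗ[ZMod 2] (tens (SP (a + 1)) (SP n)).N :=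
    r ∘ₗ D0n a (n + 1)
  have hp0 : ∀ z, LinearMap.lTensor (HH (a + 1)) (HH n).subtype (p0 z) = D0n a (n + 1) z := by
    intro z
    obtain ⟨y, hy⟩ := D0_deg a n z
    have h1 : D0n a (n + 1) z = LinearMap.lTensor (HH (a + 1)) (HH n).subtype y :=
      (kks_D0n a (n + 1) z).trans hy
    have h2 : p0 z = y := by
      change r (D0n a (n + 1) z) = y
      rw [h1, hr']
    rw [h2, h1]
  have hker : ∀ z, p0 z ∈ LinearMap.ker (D0n (a + 1) n) := by
    intro z
    rw [LinearMap.mem_ker]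
    refine (kks_D0n (a + 1) n (p0 z)).trans ?_
    rw [hp0 z]
    refine (congrArg (D0 (a + 1)) (kks_D0n a (n + 1) z)).trans ?_
    exact D0_D0 a _
  have hp0hom : IsHom (tens (SP a) (SP (n + 1))) (tens (SP (a + 1)) (SP n)) p0 := by
    refine hom_of_inj (kks_hom (a + 1) n) (kks_inj (a + 1) n) ?_
    have h3 : LinearMap.lTensor (HH (a + 1)) (HH n).subtype ∘ₗ p0 = D0n a (n + 1) :=
      LinearMap.ext hp0
    have h4 := D0n_hom a (n + 1)
    rw [← h3] at h4
    exact h4
  let p : (tens (SP a) (SP (n + 1))).N →ₗ[ZMod 2] (KK (a + 1) n).N :=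
    LinearMap.codRestrict (LinearMap.ker (D0n (a + 1) n)) p0 hker
  have hp : ∀ z, ((p z : LinearMap.ker (D0n (a + 1) n)) : (tens (SP (a + 1)) (SP n)).N) = p0 z :=
    fun z => rfl
  refine ⟨(LinearMap.ker (D0n a (n + 1))).subtype, p, ?_, ?_, ?_, ?_, ?_⟩
  · exact subP_hom (tens (SP a) (SP (n + 1))) _ (isSub_ker (D0n_hom a (n + 1)))
  · exact hom_of_inj (subP_hom (tens (SP (a + 1)) (SP n)) _ (isSub_ker (D0n_hom (a + 1) n)))
      (Submodule.injective_subtype _) hp0hom
  · exact Submodule.injective_subtype _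
  · intro y
    have hy : D0 (a + 1) (LinearMap.lTensor (HH (a + 1)) (HH n).subtype
        (y : HH (a + 1) ⊗[ZMod 2] HH n)) = 0 :=
      (kks_D0n (a + 1) n _).symm.trans (LinearMap.mem_ker.1 y.2)
    obtain ⟨z, hz⟩ := D0_exact a n _ hy
    refine ⟨z, Subtype.ext ?_⟩
    rw [hp]
    apply kks_inj (a + 1) n
    rw [hp0 z]
    exact (kks_D0n a (n + 1) z).trans hz
  · intro z
    constructor
    · intro hz
      have h1 : p0 z = 0 := by
        rw [← hp z, hz]
        rfl
      have h2 : D0n a (n + 1) z = 0 := by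
        rw [← hp0 z, h1, map_zero]
      exact ⟨⟨z, LinearMap.mem_ker.2 h2⟩, rfl⟩
    · rintro ⟨x, rfl⟩
      apply Subtype.ext
      rw [hp]
      apply kks_inj (a + 1) n
      rw [hp0]
      exact (LinearMap.mem_ker.1 x.2).trans (map_zero _).symm

theorem V_KK (N : Pre) [IsCmd N] (w e : ℕ) : ∀ (n a σ : ℕ),
    (∀ j, j ≤ n → j ≤ σ → V w (σ - j) (tens (shift (tens (SP (a + j)) (SP (n - j))) e) N)) →
    V w σ (tens (shift (KK a n) e) N) := by
  intro n
  induction n with
  | zero =>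
    intro a σ h
    exact V_iso (iso_tens (iso_shift (iso_symm (iso_KK_zero a)) e) (iso_refl N)) w σ
      (h 0 le_rfl (Nat.zero_le _))
  | succ n ih =>
    intro a σ h
    obtain ⟨i, p, hs⟩ := ses_KK a n
    have hs' := ses_rTens (ses_shift hs e) N
    cases σ with
    | zero => exact V_left0 w hs' (h 0 (Nat.zero_le _) le_rfl)
    | succ s =>
      refine V_left w s hs' IsCmd.co (ih (a + 1) s fun j hj1 hj2 => ?_)
        (h 0 (Nat.zero_le _) (Nat.zero_le _))
      have h1 := h (j + 1) (by omega) (by omega)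
      rw [show a + 1 + j = a + (j + 1) by omega, show n - j = n + 1 - (j + 1) by omega,
        show s - j = s + 1 - (j + 1) by omega]
      exact h1

end

end Pool.Agent.Pet19
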