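import Pool.Agent.Pet19.Th

/-!
# Pet19.LnF: the operators `Ln n = (φ_n ⊗ 1) Δ` and `tauP`

`phi n` is an `ε`-derivation, so `Ln n` is a derivation; on generators: `Ln (n+1) (X m) = δ_(m,n+1)`
(`m ≥ 0`), `Ln 0 (X m) = X m`.  `tauP = (θ ⊗ 1) Δ = ∑_j X_j ⊗ Ln (j+1)` is a derivation too.
-/

set_option autoImplicit false
open MvPolynomial TensorProduct

namespace Pool.Agent.Pet19

noncomputable section

/-- the counit on the first factor -/
private def lnE : PP ⊗[ZMod 2] PP →ₗ[ZMod 2] PP :=
  (TensorProduct.lid (ZMod 2) PP).toLinearMap ∘ₗ LinearMap.rTensor PP ep.toLinearMap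

private theorem lnE_tmul (a b : PP) : lnE (a ⊗ₜ[ZMod 2] b) = ep a • b := by
  simp [lnE]

private theorem lnE_mul (u v : PP ⊗[ZMod 2] PP) : lnE (u * v) = lnE u * lnE v := by
  induction u using TensorProduct.induction_on with
  | zero => rw [zero_mul, map_zero, zero_mul]
  | add u u' hu hu' => rw [add_mul, map_add, hu, hu', map_add, add_mul]
  | tmul a b =>
    induction v using TensorProduct.induction_on with
    | zero => rw [mul_zero, map_zero, mul_zero]
    | add v v' hv hv' => rw [mul_add, map_add, hv, hv', map_add, mul_add]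
    | tmul c d =>
      rw [Algebra.TensorProduct.tmul_mul_tmul, lnE_tmul, lnE_tmul, lnE_tmul, map_mul,
        smul_mul_smul_comm]

private theorem lnE_Dl (x : PP) : lnE (Dl x) = x := by
  induction x using MvPolynomial.induction_on with
  | C a =>
    have h : (C a : PP) = a • 1 := by rw [smul_eq_C_mul, mul_one]
    have h1 : lnE (Dl 1) = 1 := by
      rw [map_one, Algebra.TensorProduct.one_def, lnE_tmul, map_one, one_smul]
    rw [h, map_smul, map_smul, h1]
  | add p q hp hq => rw [map_add, map_add, hp, hq]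
  | mul_X p i hp =>
    rw [map_mul, lnE_mul, hp]
    congr 1
    cases i with
    | zero =>
      have h : (X 0 : PP) = T := by simp [T]
      rw [h, Dl_T, lnE_tmul, ep_T, one_smul]
    | succ m =>
      rw [← xi_succ, Dl_xi, map_sum]
      rw [Finset.sum_eq_single (m + 1)]
      · rw [lnE_tmul, Nat.sub_self, xi_zero, one_pow, one_mul, map_pow, ep_T, one_pow, one_smul]
      · intro i hi hne
        rw [Finset.mem_range] at hi
        rw [lnE_tmul, map_mul, map_pow, ep_xi, if_neg (by omega), zero_pow (by positivity), zero_mul,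
          zero_smul]
      · intro h
        exact absurd (Finset.mem_range.2 (by omega)) h

private theorem phi_mul (n : ℕ) (x y : PP) :
    phi n (x * y) = ep x * phi n y + ep y * phi n x := by
  rw [phi_apply, phi_apply, phi_apply, pderiv_mul, map_add, map_mul, map_mul]
  ring

private theorem phi_one (n : ℕ) : phi n 1 = 0 := by
  rw [phi_apply, pderiv_one, map_zero]

private theorem phi_Fr (n : ℕ) (x : PP) : phi n (Fr x) = 0 := by
  rw [Fr_apply, pow_two, phi_mul]
  exact CharTwo.add_self_eq_zero _

private theorem phi_sq (n : ℕ) (x : PP) (m : ℕ) (hm : 1 ≤ m) : phi n (x ^ (2 ^ m)) = 0 := by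
  obtain ⟨k, rfl⟩ := Nat.exists_eq_add_of_le hm
  rw [add_comm, pow_succ, pow_mul, ← Fr_apply, phi_Fr]

private theorem ep_T_pow (j : ℕ) : ep (T ^ j) = 1 := by rw [map_pow, ep_T, one_pow]

private theorem phi_T_pow (n j : ℕ) : phi n (T ^ j) = if n = 0 then (j : ZMod 2) else 0 := by
  induction j with
  | zero => rw [pow_zero, phi_one, Nat.cast_zero, ite_self]
  | succ j ih =>
    rw [pow_succ, phi_mul, ih, ep_T_pow, ep_T, one_mul, one_mul]
    have h : phi n T = if n = 0 then 1 else 0 := by
      rw [phi_apply]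
      have hT : (T : PP) = X 0 := by simp [T]
      rw [hT]
      by_cases hn : n = 0
      · rw [hn, pderiv_X_self, map_one, if_pos rfl]
      · rw [pderiv_X_of_ne (Ne.symm hn), map_zero, if_neg hn]
    rw [h]
    split_ifs
    · push_cast
      ring
    · ring

private theorem Ln_mul_aux (n : ℕ) (u v : PP ⊗[ZMod 2] PP) :
    TensorProduct.lid (ZMod 2) PP (LinearMap.rTensor PP (phi n) (u * v)) =
      lnE u * TensorProduct.lid (ZMod 2) PP (LinearMap.rTensor PP (phi n) v) +
      lnE v * TensorProduct.lid (ZMod 2) PP (LinearMap.rTensor PP (phi n) u) := by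
  induction u using TensorProduct.induction_on with
  | zero => simp only [zero_mul, map_zero, mul_zero, add_zero]
  | add u u' hu hu' =>
    simp only [add_mul, map_add, hu, hu', mul_add]
    ring
  | tmul a b =>
    induction v using TensorProduct.induction_on with
    | zero => simp only [zero_mul, map_zero, mul_zero, add_zero]
    | add v v' hv hv' =>
      simp only [mul_add, map_add, hv, hv', add_mul]
      ring
    | tmul c d =>
      rw [Algebra.TensorProduct.tmul_mul_tmul, lnE_tmul, lnE_tmul, LinearMap.rTensor_tmul,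
        LinearMap.rTensor_tmul, LinearMap.rTensor_tmul, TensorProduct.lid_tmul,
        TensorProduct.lid_tmul, TensorProduct.lid_tmul, phi_mul, smul_mul_smul_comm,
        smul_mul_smul_comm, add_smul, mul_comm d b]

private theorem Ln_mul (n : ℕ) (x y : PP) : Ln n (x * y) = x * Ln n y + y * Ln n x := by
  rw [Ln_apply, Ln_apply, Ln_apply, map_mul, Ln_mul_aux, lnE_Dl, lnE_Dl]

private theorem Ln_one (n : ℕ) : Ln n 1 = 0 := by
  rw [Ln_apply, map_one, Algebra.TensorProduct.one_def, LinearMap.rTensor_tmul,
    TensorProduct.lid_tmul, phi_one, zero_smul]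

private theorem Ln_T (n : ℕ) : Ln n T = if n = 0 then T else 0 := by
  rw [Ln_apply, Dl_T, LinearMap.rTensor_tmul, TensorProduct.lid_tmul]
  have h := phi_T_pow n 1
  rw [pow_one, Nat.cast_one] at h
  rw [h]
  split_ifs
  · rw [one_smul]
  · rw [zero_smul]

private theorem phi_term (n m i : ℕ) (hi : 1 ≤ i) (him : i ≤ m) :
    phi n (xi (m - i) ^ (2 ^ i) * T ^ (2 ^ i - 1)) = if n = 0 ∧ i = m then 1 else 0 := by
  rw [phi_mul, phi_sq n _ i hi, mul_zero, add_zero, phi_T_pow, map_pow, ep_xi]
  by_cases h : i = m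
  · rw [h, Nat.sub_self, if_pos rfl, one_pow, one_mul]
    by_cases hn : n = 0
    · rw [if_pos hn, if_pos ⟨hn, rfl⟩]
      have h2 : (1 : ℕ) ≤ 2 ^ m := Nat.one_le_two_pow
      rw [Nat.cast_sub h2, Nat.cast_pow]
      have h3 : ((2 : ℕ) : ZMod 2) = 0 := by decide
      rw [h3, zero_pow (by omega)]
      decide
    · rw [if_neg hn, if_neg (fun h => hn h.1)]
  · rw [if_neg (by omega : ¬ (m - i = 0)), zero_pow (by positivity), zero_mul,
      if_neg (fun h' => h h'.2)]

private theorem Ln_X_succ (n m : ℕ) : Ln n (X (m + 1)) =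
    if n = 0 then X (m + 1) else if n = m + 1 then 1 else 0 := by
  rw [Ln_apply, ← xi_succ, Dl_xi, map_sum, map_sum, Finset.sum_range_succ', pow_zero, pow_one,
    Nat.sub_self, pow_zero, mul_one, Nat.sub_zero]
  have h0 : TensorProduct.lid (ZMod 2) PP (LinearMap.rTensor PP (phi n)
      (xi (m + 1) ⊗ₜ[ZMod 2] xi 0)) = if n = m + 1 then 1 else 0 := by
    rw [LinearMap.rTensor_tmul, TensorProduct.lid_tmul, xi_zero, xi_succ, phi_apply]
    by_cases h : n = m + 1
    · rw [h, pderiv_X_self, map_one, one_smul, if_pos rfl]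
    · rw [pderiv_X_of_ne (Ne.symm h), map_zero, zero_smul, if_neg h]
  rw [h0]
  have h1 : ∀ i ∈ Finset.range (m + 1), TensorProduct.lid (ZMod 2) PP (LinearMap.rTensor PP (phi n)
      ((xi (m + 1 - (i + 1)) ^ (2 ^ (i + 1)) * T ^ (2 ^ (i + 1) - 1)) ⊗ₜ[ZMod 2] xi (i + 1))) =
      if n = 0 ∧ i = m then xi (m + 1) else 0 := by
    intro i hi
    rw [Finset.mem_range] at hi
    rw [LinearMap.rTensor_tmul, TensorProduct.lid_tmul,
      phi_term n (m + 1) (i + 1) (by omega) (by omega)]
    by_cases h : n = 0 ∧ i = m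
    · rw [if_pos h, if_pos ⟨h.1, by omega⟩, one_smul, h.2]
    · rw [if_neg h, if_neg (fun h' => h ⟨h'.1, by omega⟩), zero_smul]
  rw [Finset.sum_congr rfl h1]
  by_cases hn : n = 0
  · rw [if_neg (by omega), if_pos hn, add_zero, Finset.sum_eq_single m]
    · rw [if_pos ⟨hn, rfl⟩]
    · intro i _ hi
      rw [if_neg (fun h => hi h.2)]
    · intro h
      exact absurd (Finset.mem_range.2 (by omega)) h
  · rw [if_neg hn, Finset.sum_eq_zero, zero_add]
    intro i _
    rw [if_neg (fun h => hn h.1)]

private theorem T_eq : (T : PP) = X 0 := by simp [T]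

theorem Ln_succ (n : ℕ) (g : PP) : Ln (n + 1) g = pderiv (n + 1) g := by
  induction g using MvPolynomial.induction_on with
  | C a =>
    have h : (C a : PP) = a • 1 := by rw [smul_eq_C_mul, mul_one]
    rw [pderiv_C, h, map_smul, Ln_one, smul_zero]
  | add p q hp hq => rw [map_add, hp, hq, map_add]
  | mul_X p i hp =>
    rw [Ln_mul, hp, pderiv_mul]
    have h : Ln (n + 1) (X i) = pderiv (n + 1) (X i) := by
      cases i with
      | zero =>
        rw [← T_eq, Ln_T, if_neg (Nat.succ_ne_zero n), T_eq, pderiv_X_of_ne (by omega)]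
      | succ m =>
        rw [Ln_X_succ, if_neg (Nat.succ_ne_zero n)]
        by_cases h : n + 1 = m + 1
        · rw [if_pos h, h, pderiv_X_self]
        · rw [if_neg h, pderiv_X_of_ne (Ne.symm h)]
    rw [h]
    ring

/-- Euler operator: `Ln 0` multiplies a monomial by its degree (all variables have odd weight) -/
theorem Ln_zero (μ : ℕ →₀ ℕ) (c : ZMod 2) :
    Ln 0 (monomial μ c) = (μ.degree : ZMod 2) • monomial μ c := by
  have hX : ∀ i : ℕ, Ln 0 (X i) = X i := by
    intro i
    cases i with
    | zero => rw [← T_eq, Ln_T, if_pos rfl]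
    | succ m => rw [Ln_X_succ, if_pos rfl]
  have hone : ∀ (i : ℕ) (c : ZMod 2), Ln 0 (monomial (Finsupp.single i 1) c) =
      monomial (Finsupp.single i 1) c := by
    intro i c
    have h : (monomial (Finsupp.single i 1) c : PP) = c • X i := by
      rw [X, smul_monomial, smul_eq_mul, mul_one]
    rw [h, map_smul, hX]
  have hadd : ∀ f g : ℕ →₀ ℕ,
      (∀ c : ZMod 2, Ln 0 (monomial f c) = (f.degree : ZMod 2) • monomial f c) →
      (∀ c : ZMod 2, Ln 0 (monomial g c) = (g.degree : ZMod 2) • monomial g c) →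
      ∀ c : ZMod 2, Ln 0 (monomial (f + g) c) = ((f + g).degree : ZMod 2) • monomial (f + g) c := by
    intro f g hf hg c
    have h : (monomial (f + g) c : PP) = monomial f c * monomial g 1 := by
      rw [monomial_mul, mul_one]
    rw [h, Ln_mul, hf, hg, map_add, Nat.cast_add, add_smul, mul_smul_comm, mul_smul_comm,
      mul_comm (monomial g 1) (monomial f c), add_comm]
  revert c
  induction μ using Finsupp.induction_linear with
  | zero =>
    intro c
    have h : (monomial (0 : ℕ →₀ ℕ) c : PP) = c • 1 := by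
      rw [smul_eq_C_mul, mul_one]
      rfl
    rw [h, map_smul, Ln_one, smul_zero, map_zero, Nat.cast_zero, zero_smul]
  | add f g hf hg => exact hadd f g hf hg
  | single i k =>
    induction k with
    | zero =>
      intro c
      rw [Finsupp.single_zero]
      have h : (monomial (0 : ℕ →₀ ℕ) c : PP) = c • 1 := by
        rw [smul_eq_C_mul, mul_one]
        rfl
      rw [h, map_smul, Ln_one, smul_zero, map_zero, Nat.cast_zero, zero_smul]
    | succ k ih =>
      rw [Finsupp.single_add]
      refine hadd _ _ ih fun c => ?_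
      rw [hone, Finsupp.degree_single, Nat.cast_one, one_smul]

theorem tauP_eq (g : PP) (N : ℕ) (h : ∀ n ∈ g.vars, n ≤ N) :
    tauP g = ∑ j ∈ Finset.range N, X j ⊗ₜ[ZMod 2] pderiv (j + 1) g := by
  have hmul : ∀ u v : PP ⊗[ZMod 2] PP, LinearMap.rTensor PP theta (u * v) =
      (1 ⊗ₜ[ZMod 2] lnE u) * LinearMap.rTensor PP theta v +
        (1 ⊗ₜ[ZMod 2] lnE v) * LinearMap.rTensor PP theta u := by
    intro u v
    induction u using TensorProduct.induction_on with
    | zero => simp only [zero_mul, map_zero, mul_zero, add_zero, TensorProduct.tmul_zero]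
    | add u u' hu hu' =>
      simp only [add_mul, map_add, hu, hu', mul_add, TensorProduct.tmul_add]
      ring
    | tmul a b =>
      induction v using TensorProduct.induction_on with
      | zero => simp only [zero_mul, map_zero, mul_zero, add_zero, TensorProduct.tmul_zero]
      | add v v' hv hv' =>
        simp only [mul_add, map_add, hv, hv', add_mul, TensorProduct.tmul_add]
        ring
      | tmul c d =>
        rw [Algebra.TensorProduct.tmul_mul_tmul, lnE_tmul, lnE_tmul, LinearMap.rTensor_tmul,
          LinearMap.rTensor_tmul, LinearMap.rTensor_tmul, theta_mul,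
          Algebra.TensorProduct.tmul_mul_tmul, Algebra.TensorProduct.tmul_mul_tmul, one_mul,
          one_mul, TensorProduct.add_tmul, smul_mul_assoc, smul_mul_assoc, TensorProduct.smul_tmul,
          TensorProduct.smul_tmul, mul_comm d b]
  have htau : ∀ x y : PP, tauP (x * y) = (1 ⊗ₜ[ZMod 2] x) * tauP y + (1 ⊗ₜ[ZMod 2] y) * tauP x := by
    intro x y
    have h1 : ∀ z : PP, tauP z = LinearMap.rTensor PP theta (Dl z) := fun z => by
      unfold tauP
      rfl
    rw [h1, h1, h1, map_mul, hmul, lnE_Dl, lnE_Dl]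
  have htau1 : ∀ r : ZMod 2, tauP (algebraMap (ZMod 2) PP r) = 0 := by
    intro r
    have h1 : tauP 1 = 0 := by
      unfold tauP
      rw [LinearMap.comp_apply, AlgHom.toLinearMap_apply, map_one,
        Algebra.TensorProduct.one_def, LinearMap.rTensor_tmul, theta_one, TensorProduct.zero_tmul]
    rw [Algebra.algebraMap_eq_smul_one, map_smul, h1, smul_zero]
  have htX : ∀ m : ℕ, tauP (X (m + 1)) = X m ⊗ₜ[ZMod 2] 1 := by
    intro m
    unfold tauP
    rw [LinearMap.comp_apply, AlgHom.toLinearMap_apply, ← xi_succ, Dl_xi, map_sum,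
      Finset.sum_range_succ', pow_zero, pow_one, Nat.sub_self, pow_zero, mul_one, Nat.sub_zero,
      Finset.sum_eq_zero, zero_add, LinearMap.rTensor_tmul, xi_succ, theta_X_succ, xi_zero]
    intro i _
    rw [LinearMap.rTensor_tmul, theta_mul, theta_T_pow, theta_sq _ _ (by omega), smul_zero,
      smul_zero, add_zero, TensorProduct.zero_tmul]
  have htT : tauP (X 0) = 0 := by
    unfold tauP
    rw [LinearMap.comp_apply, AlgHom.toLinearMap_apply, ← T_eq, Dl_T, LinearMap.rTensor_tmul,
      theta_T, TensorProduct.zero_tmul]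
  have hg : g ∈ supported (ZMod 2) {n : ℕ | n ≤ N} := by
    rw [mem_supported]
    intro n hn
    exact h n hn
  unfold supported at hg
  clear h
  induction hg using Algebra.adjoin_induction with
  | mem x hx =>
    obtain ⟨m, hm, rfl⟩ := hx
    cases m with
    | zero =>
      rw [htT]
      symm
      refine Finset.sum_eq_zero fun j _ => ?_
      rw [pderiv_X_of_ne (by omega), TensorProduct.tmul_zero]
    | succ m =>
      rw [htX, Finset.sum_eq_single m]
      · rw [pderiv_X_self]
      · intro j _ hj
        rw [pderiv_X_of_ne (by omega), TensorProduct.tmul_zero]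
      · intro h'
        have : m + 1 ≤ N := hm
        exact absurd (Finset.mem_range.2 (by omega)) h'
  | algebraMap r =>
    rw [htau1]
    symm
    refine Finset.sum_eq_zero fun j _ => ?_
    rw [algebraMap_eq, pderiv_C, TensorProduct.tmul_zero]
  | add x y _ _ hx hy =>
    rw [map_add, hx, hy, ← Finset.sum_add_distrib]
    refine Finset.sum_congr rfl fun j _ => ?_
    rw [map_add, TensorProduct.tmul_add]
  | mul x y _ _ hx hy =>
    rw [htau, hx, hy, Finset.mul_sum, Finset.mul_sum, ← Finset.sum_add_distrib]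
    refine Finset.sum_congr rfl fun j _ => ?_
    rw [Algebra.TensorProduct.tmul_mul_tmul, Algebra.TensorProduct.tmul_mul_tmul, one_mul,
      ← TensorProduct.tmul_add, pderiv_mul]
    congr 1
    ring

end

end Pool.Agent.Pet19
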