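import Pool.Agent.Pet19.Th
import Pool.Agent.Pet19.KdN

/-!
# Pet19.Om0a: Koszul degree zero

`theta_coeff`: the coefficients of `θ(x)` are the `phi (n+1) x`.
-/

set_option autoImplicit false
open MvPolynomial TensorProduct

namespace Pool.Agent.Pet19

noncomputable section

private theorem coord_rT {N κ : Type} [AddCommGroup N] [Module (ZMod 2) N] [DecidableEq κ]
    (b : Module.Basis κ (ZMod 2) N) {P' : Type} [AddCommGroup P'] [Module (ZMod 2) P']
    (f : PP →ₗ[ZMod 2] P') (x : PP ⊗[ZMod 2] N) (i : κ) :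
    TensorProduct.equivFinsuppOfBasisRight b (LinearMap.rTensor N f x) i =
      f (TensorProduct.equivFinsuppOfBasisRight b x i) := by
  induction x using TensorProduct.induction_on with
  | zero => simp only [map_zero, Finsupp.coe_zero, Pi.zero_apply]
  | add u v hu hv => simp only [map_add, Finsupp.add_apply, hu, hv]
  | tmul m n =>
    rw [LinearMap.rTensor_tmul, TensorProduct.equivFinsuppOfBasisRight_apply_tmul_apply,
      TensorProduct.equivFinsuppOfBasisRight_apply_tmul_apply, map_smul]

private theorem incl_Kd (M : Pre) (e : HH 0) (he : (e : PP) = 1) (y : PP ⊗[ZMod 2] M.N) :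
    LinearMap.rTensor M.N (HH (0 + 1)).subtype
      (LinearMap.rTensor M.N (mulh 0 ∘ₗ LinearMap.lTensor (HH 0) theta)
        ((TensorProduct.assoc (ZMod 2) (HH 0) PP M.N).symm (e ⊗ₜ[ZMod 2] y))) =
      LinearMap.rTensor M.N theta y := by
  induction y using TensorProduct.induction_on with
  | zero => simp only [TensorProduct.tmul_zero, map_zero]
  | add u v hu hv => simp only [TensorProduct.tmul_add, map_add, hu, hv]
  | tmul c n =>
    rw [TensorProduct.assoc_symm_tmul, LinearMap.rTensor_tmul, LinearMap.rTensor_tmul,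
      LinearMap.rTensor_tmul, LinearMap.comp_apply, LinearMap.lTensor_tmul,
      Submodule.subtype_apply, mulh_coe 0 e _ (theta_mem c), he, one_mul]

private theorem theta_eq_zero (c : PP) (h : ∀ n, phi (n + 1) c = 0) : theta c = 0 := by
  ext ν
  rw [coeff_zero]
  by_cases hd : ν.degree = 1
  · obtain ⟨n, rfl⟩ : ∃ n, ν = Finsupp.single n 1 := (Finsupp.sum_eq_one_iff ν).1 hd
    rw [theta_coeff, h n]
  · exact ((mem_homogeneousSubmodule _ _).1 (theta_mem c)).coeff_eq_zero hd

/-- `1 ⊗ x` is a Koszul cycle iff `x` is killed by all `pd M (n+1)` -/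
theorem Kd_zero_ker (M : Pre) (x : M.N) (e : HH 0) (he : (e : PP) = 1) :
    Kd 0 M (e ⊗ₜ[ZMod 2] x) = 0 ↔ ∀ n, pd M (n + 1) x = 0 := by
  classical
  have h0 : Kd 0 M (e ⊗ₜ[ZMod 2] x) = 0 ↔ LinearMap.rTensor M.N theta (M.δ x) = 0 := by
    rw [← incl_Kd M e he, Kd_tmul]
    constructor
    · intro h
      rw [h, map_zero]
    · intro h
      exact rTensor_inj M.N (HH (0 + 1)).injective_subtype (h.trans (map_zero _).symm)
  rw [h0]
  constructor
  · intro h n
    have h1 : phi (n + 1) = (MvPolynomial.lcoeff (ZMod 2) (Finsupp.single n 1)) ∘ₗ theta :=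
      LinearMap.ext fun c => (theta_coeff c n).symm
    rw [pd_apply, h1, LinearMap.rTensor_comp, LinearMap.comp_apply, h, map_zero, map_zero]
  · intro h
    let b := Module.Basis.ofVectorSpace (ZMod 2) M.N
    apply (TensorProduct.equivFinsuppOfBasisRight b).injective
    ext1 i
    rw [coord_rT, map_zero, Finsupp.coe_zero, Pi.zero_apply]
    refine theta_eq_zero _ fun n => ?_
    have h1 := h n
    rw [pd_apply] at h1
    have h2 : LinearMap.rTensor M.N (phi (n + 1)) (M.δ x) = 0 :=
      (TensorProduct.lid (ZMod 2) M.N).injective (h1.trans (map_zero _).symm)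
    rw [← coord_rT b, h2, map_zero, Finsupp.coe_zero, Pi.zero_apply]

/-- every element of `HH 0 ⊗ N` is `1 ⊗ x` -/
theorem HH_zero_tmul (N : Type) [AddCommGroup N] [Module (ZMod 2) N] (e : HH 0)
    (he : (e : PP) = 1) (z : HH 0 ⊗[ZMod 2] N) : ∃ x : N, z = e ⊗ₜ[ZMod 2] x := by
  induction z using TensorProduct.induction_on with
  | zero => exact ⟨0, (TensorProduct.tmul_zero _ _).symm⟩
  | add u v hu hv =>
    obtain ⟨x, rfl⟩ := hu
    obtain ⟨y, rfl⟩ := hv
    exact ⟨x + y, (TensorProduct.tmul_add _ _ _).symm⟩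
  | tmul f n =>
    have hf : f = coeff 0 (f : PP) • e := by
      apply Subtype.ext
      rw [Submodule.coe_smul, he]
      ext ν
      rw [coeff_smul, coeff_one, smul_eq_mul]
      by_cases hν : 0 = ν
      · rw [if_pos hν, mul_one, hν]
      · rw [if_neg hν, mul_zero]
        refine ((mem_homogeneousSubmodule _ _).1 f.2).coeff_eq_zero fun h => hν ?_
        exact ((Finsupp.degree_eq_zero_iff ν).1 h).symm
    refine ⟨coeff 0 (f : PP) • n, ?_⟩
    conv_lhs => rw [hf]
    rw [TensorProduct.smul_tmul]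

end

end Pool.Agent.Pet19
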