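import Pool.Agent.Pet19.PdG
import Pool.Agent.Pet19.LES

/-!
# Pet19.Y0: the functor `Y^0`

Basic properties of `IsY0`.
-/

set_option autoImplicit false
open MvPolynomial TensorProduct

namespace Pool.Agent.Pet19

noncomputable section

theorem y0_map_inj {M N : Type} [AddCommGroup M] [Module (ZMod 2) M] [AddCommGroup N]
    [Module (ZMod 2) N] {f : M →ₗ[ZMod 2] N} (hf : Function.Injective f) :
    Function.Injective (TensorProduct.map FrL f) := by
  have h : TensorProduct.map FrL f = LinearMap.rTensor N FrL ∘ₗ LinearMap.lTensor PP f := by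
    rw [LinearMap.rTensor_comp_lTensor]
  rw [h, LinearMap.coe_comp]
  exact (rTensor_inj N FrL_inj).comp (lTensor_inj PP hf)

theorem Y0_cof (N : Type) [AddCommGroup N] [Module (ZMod 2) N] :
    IsY0 (cof N) (cof N) (LinearMap.rTensor N FrL) := by
  refine ⟨rTensor_inj N FrL_inj, fun x => ?_, fun y => ?_⟩
  · rw [range_Fr]
    exact forall_congr' fun n => by rw [pd_cof]
  · change DlT N (LinearMap.rTensor N FrL y) =
      TensorProduct.map FrL (LinearMap.rTensor N FrL) (DlT N y)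
    induction y using TensorProduct.induction_on with
    | zero => simp only [map_zero]
    | add u v hu hv => simp only [map_add, hu, hv]
    | tmul c x =>
      rw [LinearMap.rTensor_tmul, DlT_tmul, DlT_tmul, FrL_apply, Dl_Fr]
      generalize Dl c = u
      induction u using TensorProduct.induction_on with
      | zero => simp only [map_zero, TensorProduct.zero_tmul]
      | add u v hu hv => simp only [map_add, TensorProduct.add_tmul, hu, hv]
      | tmul a b =>
        rw [TensorProduct.map_tmul, TensorProduct.assoc_tmul, TensorProduct.assoc_tmul,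
          TensorProduct.map_tmul, LinearMap.rTensor_tmul]

/-- a colinear map induces a map on `Y^0` -/
theorem Y0_map {A B Y Y' : Pre} {ι : Y.N →ₗ[ZMod 2] A.N} {ι' : Y'.N →ₗ[ZMod 2] B.N}
    (h : IsY0 A Y ι) (h' : IsY0 B Y' ι') {f : A.N →ₗ[ZMod 2] B.N} (hf : IsHom A B f) :
    ∃ g : Y.N →ₗ[ZMod 2] Y'.N, IsHom Y Y' g ∧ ∀ y, ι' (g y) = f (ι y) := by
  have hmem : ∀ y : Y.N, f (ι y) ∈ LinearMap.range ι' := by
    intro y
    refine (h'.mem _).2 fun n => ?_
    rw [pd_hom hf, (h.mem (ι y)).1 ⟨y, rfl⟩ n, map_zero]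
  set e := LinearEquiv.ofInjective ι' h'.inj with he
  set g : Y.N →ₗ[ZMod 2] Y'.N :=
    e.symm.toLinearMap ∘ₗ LinearMap.codRestrict (LinearMap.range ι') (f ∘ₗ ι) hmem with hg
  have hgy : ∀ y, ι' (g y) = f (ι y) := by
    intro y
    have h1 : e (g y) = LinearMap.codRestrict (LinearMap.range ι') (f ∘ₗ ι) hmem y := by
      rw [hg, LinearMap.comp_apply, LinearEquiv.coe_coe, LinearEquiv.apply_symm_apply]
    exact congrArg Subtype.val h1
  refine ⟨g, fun y => ?_, hgy⟩
  apply y0_map_inj h'.inj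
  rw [← h'.hom, hgy, hf, h.hom]
  have e1 : f ∘ₗ ι = ι' ∘ₗ g := by
    ext y
    exact (hgy y).symm
  have e2 : LinearMap.lTensor PP f ∘ₗ TensorProduct.map FrL ι =
      TensorProduct.map FrL ι' ∘ₗ LinearMap.lTensor PP g := by
    rw [LinearMap.lTensor_comp_map, LinearMap.map_comp_lTensor, e1]
  exact LinearMap.congr_fun e2 (Y.δ y)

theorem Y0_d {A Y : Pre} {ι : Y.N →ₗ[ZMod 2] A.N} (h : IsY0 A Y ι) (w : ℕ) (y : Y.N) :
    A.d (2 * w) (ι y) = 0 ↔ Y.d w y = 0 := by
  have h1 : A.d (2 * w) (ι y) = TensorProduct.map FrL ι (Y.d w y) := by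
    rw [d_apply, d_apply, map_add, TensorProduct.map_tmul, h.hom, FrL_sq, ← pow_mul, mul_comm w 2]
  rw [h1]
  constructor
  · intro h2
    apply y0_map_inj h.inj
    rw [h2, map_zero]
  · intro h2
    rw [h2, map_zero]

theorem Y0_H0 {A Y : Pre} {ι : Y.N →ₗ[ZMod 2] A.N} (h : IsY0 A Y ι) (w : ℕ) (x : A.N)
    (hx : A.d (2 * w) x = 0) : ∃ y, ι y = x ∧ Y.d w y = 0 := by
  obtain ⟨y, rfl⟩ := (h.mem x).2 (pd_of_d A w x hx)
  exact ⟨y, rfl, (Y0_d h w y).1 hx⟩

theorem Y0_V0 {A Y : Pre} {ι : Y.N →ₗ[ZMod 2] A.N} (h : IsY0 A Y ι) (w : ℕ)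
    (hV : V w 0 Y) : V (2 * w) 0 A := by
  intro x hx
  obtain ⟨y, rfl, hy⟩ := Y0_H0 h w x hx
  rw [hV y hy, map_zero]

end

end Pool.Agent.Pet19
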