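import Pool.Agent.Pet19.PdG

/-!
# Pet19.Y0E: existence of `Y^0`

Existence: `Y = {x | ∀ n, pd A n x = 0}` (a submodule `S`).  For `x ∈ S`, `pd_δ` and `range_Fr` give
`A.δ x = (Fr ⊗ 1) u`, `u : PP ⊗ A.N`; coassociativity gives `(1 ⊗ pd A n) (A.δ x) = 0` (apply
`1 ⊗ φ_n ⊗ 1` to `(1 ⊗ δ) δ x = (Δ ⊗ 1) δ x = (Fr ⊗ Fr ⊗ 1)(...)`, `φ_n ∘ Fr = 0`), hence
`(1 ⊗ pd A n) u = 0` for all `n`, hence `u` comes from `PP ⊗ S`.  So `A.δ x = map Fr S.subtype v` with
`v : PP ⊗ S` unique (`map Fr S.subtype` is injective); take linear left inverses to define `Y.δ`.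
-/

set_option autoImplicit false
open MvPolynomial TensorProduct

namespace Pool.Agent.Pet19

noncomputable section

namespace Y0EAux

theorem phi_FrL (n : ℕ) (x : PP) : phi n (FrL x) = 0 := by
  rw [FrL_sq, phi_apply, pow_two, Derivation.leibniz, add_self_zero, map_zero]

theorem assoc_map (M N : Type) [AddCommGroup M] [Module (ZMod 2) M] [AddCommGroup N]
    [Module (ZMod 2) N] (f : M →ₗ[ZMod 2] N) (z : PP ⊗[ZMod 2] PP) (m : M) :
    TensorProduct.assoc (ZMod 2) PP PP N (TensorProduct.map FrL FrL z ⊗ₜ[ZMod 2] f m) =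
      TensorProduct.map FrL (TensorProduct.map FrL f)
        (TensorProduct.assoc (ZMod 2) PP PP M (z ⊗ₜ[ZMod 2] m)) := by
  induction z using TensorProduct.induction_on with
  | zero => simp only [map_zero, TensorProduct.zero_tmul]
  | tmul a b =>
    rw [TensorProduct.map_tmul, TensorProduct.assoc_tmul, TensorProduct.assoc_tmul,
      TensorProduct.map_tmul, TensorProduct.map_tmul]
  | add x y hx hy =>
    rw [map_add, TensorProduct.add_tmul, map_add, hx, hy, TensorProduct.add_tmul, map_add, map_add]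

theorem DlT_map (M N : Type) [AddCommGroup M] [Module (ZMod 2) M] [AddCommGroup N]
    [Module (ZMod 2) N] (f : M →ₗ[ZMod 2] N) (u : PP ⊗[ZMod 2] M) :
    DlT N (TensorProduct.map FrL f u) =
      TensorProduct.map FrL (TensorProduct.map FrL f) (DlT M u) := by
  induction u using TensorProduct.induction_on with
  | zero => simp only [map_zero]
  | tmul c m =>
    rw [TensorProduct.map_tmul, DlT_tmul, DlT_tmul, FrL_apply, Dl_Fr, assoc_map]
  | add x y hx hy => rw [map_add, map_add, hx, hy, map_add, map_add]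

/-- the map `φ_n ⊗ 1` -/
def gg (n : ℕ) (N : Type) [AddCommGroup N] [Module (ZMod 2) N] : PP ⊗[ZMod 2] N →ₗ[ZMod 2] N :=
  (TensorProduct.lid (ZMod 2) N).toLinearMap ∘ₗ LinearMap.rTensor N (phi n)

theorem gg_kill (n : ℕ) (M N : Type) [AddCommGroup M] [Module (ZMod 2) M] [AddCommGroup N]
    [Module (ZMod 2) N] (f : M →ₗ[ZMod 2] N) (u : PP ⊗[ZMod 2] M) :
    gg n N (TensorProduct.map FrL f u) = 0 := by
  unfold gg
  induction u using TensorProduct.induction_on with
  | zero => simp only [map_zero]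
  | tmul c m =>
    rw [TensorProduct.map_tmul, LinearMap.comp_apply, LinearMap.rTensor_tmul, phi_FrL,
      TensorProduct.zero_tmul, map_zero]
  | add x y hx hy => rw [map_add, map_add, hx, hy, add_zero]

theorem gg_kill2 (n : ℕ) (M N : Type) [AddCommGroup M] [Module (ZMod 2) M] [AddCommGroup N]
    [Module (ZMod 2) N] (f : M →ₗ[ZMod 2] N) (u : PP ⊗[ZMod 2] (PP ⊗[ZMod 2] M)) :
    LinearMap.lTensor PP (gg n N) (TensorProduct.map FrL (TensorProduct.map FrL f) u) = 0 := by
  induction u using TensorProduct.induction_on with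
  | zero => simp only [map_zero]
  | tmul c m =>
    rw [TensorProduct.map_tmul, LinearMap.lTensor_tmul, gg_kill, TensorProduct.tmul_zero]
  | add x y hx hy => rw [map_add, map_add, hx, hy, add_zero]

theorem pd_eq (A : Pre) (n : ℕ) : pd A n = gg n A.N ∘ₗ A.δ := by
  apply LinearMap.ext
  intro x
  rw [pd_apply]
  rfl

theorem map_lT {M N : Type} [AddCommGroup M] [Module (ZMod 2) M] [AddCommGroup N]
    [Module (ZMod 2) N] (f : M →ₗ[ZMod 2] N) (v : PP ⊗[ZMod 2] M) :
    TensorProduct.map FrL f v = LinearMap.rTensor N FrL (LinearMap.lTensor PP f v) := by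
  induction v using TensorProduct.induction_on with
  | zero => simp only [map_zero]
  | tmul c m => rw [TensorProduct.map_tmul, LinearMap.lTensor_tmul, LinearMap.rTensor_tmul]
  | add x y hx hy => simp only [map_add, hx, hy]

theorem lT_map {M N Q : Type} [AddCommGroup M] [Module (ZMod 2) M] [AddCommGroup N]
    [Module (ZMod 2) N] [AddCommGroup Q] [Module (ZMod 2) Q] (p : N →ₗ[ZMod 2] Q)
    (f : M →ₗ[ZMod 2] N) (v : PP ⊗[ZMod 2] M) :
    LinearMap.lTensor PP p (TensorProduct.map FrL f v) =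
      TensorProduct.map FrL (p ∘ₗ f) v := by
  induction v using TensorProduct.induction_on with
  | zero => simp only [map_zero]
  | tmul c m =>
    rw [TensorProduct.map_tmul, LinearMap.lTensor_tmul, TensorProduct.map_tmul,
      LinearMap.comp_apply]
  | add x y hx hy => simp only [map_add, hx, hy]

theorem map_map' {M N Q : Type} [AddCommGroup M] [Module (ZMod 2) M] [AddCommGroup N]
    [Module (ZMod 2) N] [AddCommGroup Q] [Module (ZMod 2) Q] (p : N →ₗ[ZMod 2] Q)
    (f : M →ₗ[ZMod 2] N) (v : PP ⊗[ZMod 2] M) :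
    TensorProduct.map FrL p (LinearMap.lTensor PP f v) =
      TensorProduct.map FrL (p ∘ₗ f) v := by
  induction v using TensorProduct.induction_on with
  | zero => simp only [map_zero]
  | tmul c m =>
    rw [TensorProduct.map_tmul, LinearMap.lTensor_tmul, TensorProduct.map_tmul,
      LinearMap.comp_apply]
  | add x y hx hy => simp only [map_add, hx, hy]

theorem lid_ep {M N : Type} [AddCommGroup M] [Module (ZMod 2) M] [AddCommGroup N]
    [Module (ZMod 2) N] (f : M →ₗ[ZMod 2] N) (v : PP ⊗[ZMod 2] M) :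
    f (TensorProduct.lid (ZMod 2) M (LinearMap.rTensor M ep.toLinearMap v)) =
      TensorProduct.lid (ZMod 2) N
        (LinearMap.rTensor N ep.toLinearMap (TensorProduct.map FrL f v)) := by
  induction v using TensorProduct.induction_on with
  | zero => simp only [map_zero]
  | tmul c m =>
    rw [TensorProduct.map_tmul, LinearMap.rTensor_tmul, LinearMap.rTensor_tmul,
      TensorProduct.lid_tmul, TensorProduct.lid_tmul, AlgHom.toLinearMap_apply,
      AlgHom.toLinearMap_apply, FrL_apply, ep_Fr, map_smul]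
  | add x y hx hy => simp only [map_add, hx, hy]

theorem pd_kill (A : Pre) [IsCmd A] (n : ℕ) (x : A.N) (u : PP ⊗[ZMod 2] A.N)
    (h : TensorProduct.map FrL LinearMap.id u = A.δ x) :
    LinearMap.lTensor PP (pd A n) u = 0 := by
  have h1 : LinearMap.lTensor PP (pd A n) (A.δ x) = 0 := by
    rw [pd_eq, LinearMap.lTensor_comp_apply, ← (IsCmd.co : IsCo A) x, ← h, DlT_map, gg_kill2]
  rw [← h, lT_map, LinearMap.comp_id, map_lT] at h1
  exact rTensor_inj A.N FrL_inj (h1.trans (map_zero _).symm)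

theorem mem_range_coord {M : Type} [AddCommGroup M] [Module (ZMod 2) M]
    (S : Submodule (ZMod 2) M) (u : PP ⊗[ZMod 2] M)
    (h : ∀ l : PP →ₗ[ZMod 2] ZMod 2,
      TensorProduct.lid (ZMod 2) M (LinearMap.rTensor M l u) ∈ S) :
    ∃ v : PP ⊗[ZMod 2] S, LinearMap.lTensor PP S.subtype v = u := by
  classical
  let b := MvPolynomial.basisMonomials ℕ (ZMod 2)
  set c := TensorProduct.equivFinsuppOfBasisLeft b u with hc
  have hcS : ∀ i, c i ∈ S := by
    intro i
    rw [hc, TensorProduct.equivFinsuppOfBasisLeft_apply]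
    exact h _
  refine ⟨∑ i ∈ c.support, b i ⊗ₜ[ZMod 2] (⟨c i, hcS i⟩ : S), ?_⟩
  have hu : u = (TensorProduct.equivFinsuppOfBasisLeft b).symm c := by
    rw [hc, LinearEquiv.symm_apply_apply]
  rw [hu, TensorProduct.equivFinsuppOfBasisLeft_symm_apply, map_sum, Finsupp.sum]
  refine Finset.sum_congr rfl fun i _ => ?_
  rw [LinearMap.lTensor_tmul]
  rfl

/-- the common kernel -/
def SS (A : Pre) : Submodule (ZMod 2) A.N := ⨅ n, LinearMap.ker (pd A n)

theorem mem_SS (A : Pre) (x : A.N) : x ∈ SS A ↔ ∀ n, pd A n x = 0 := by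
  simp [SS]

theorem lid_nat {M N : Type} [AddCommGroup M] [Module (ZMod 2) M] [AddCommGroup N]
    [Module (ZMod 2) N] (f : M →ₗ[ZMod 2] N) (l : PP →ₗ[ZMod 2] ZMod 2) (u : PP ⊗[ZMod 2] M) :
    f (TensorProduct.lid (ZMod 2) M (LinearMap.rTensor M l u)) =
      TensorProduct.lid (ZMod 2) N (LinearMap.rTensor N l (LinearMap.lTensor PP f u)) := by
  induction u using TensorProduct.induction_on with
  | zero => simp only [map_zero]
  | tmul c m => simp
  | add x y hx hy => simp only [map_add, hx, hy]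

theorem exists_v (A : Pre) [IsCmd A] (x : A.N) (hx : x ∈ SS A) :
    ∃ v : PP ⊗[ZMod 2] (SS A), TensorProduct.map FrL (SS A).subtype v = A.δ x := by
  have hx' := (mem_SS A x).1 hx
  obtain ⟨u, hu⟩ := (range_Fr A.N (A.δ x)).2 (fun n => by rw [← pd_δ, hx' n, map_zero])
  have hu' : TensorProduct.map FrL LinearMap.id u = A.δ x := hu
  obtain ⟨v, hv⟩ := mem_range_coord (SS A) u (by
    intro l
    rw [mem_SS]
    intro n
    rw [lid_nat, pd_kill A n x u hu', map_zero, map_zero])
  refine ⟨v, ?_⟩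
  rw [← hu', ← hv, map_map', LinearMap.id_comp]

theorem map_inj {M N : Type} [AddCommGroup M] [Module (ZMod 2) M] [AddCommGroup N]
    [Module (ZMod 2) N] {f : M →ₗ[ZMod 2] N} (hf : Function.Injective f) :
    Function.Injective (TensorProduct.map FrL f) := by
  have : TensorProduct.map FrL f = LinearMap.rTensor N FrL ∘ₗ LinearMap.lTensor PP f := by
    rw [LinearMap.rTensor_comp_lTensor]
  rw [this]
  exact (rTensor_inj N FrL_inj).comp (lTensor_inj PP hf)

end Y0EAux

open Y0EAux in
theorem exists_Y0 (A : Pre) [IsCmd A] :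
    ∃ (Y : Pre) (ι : Y.N →ₗ[ZMod 2] A.N), IsCmd Y ∧ IsY0 A Y ι := by
  have hi : Function.Injective (SS A).subtype := (SS A).injective_subtype
  obtain ⟨g, hg⟩ := LinearMap.exists_leftInverse_of_injective
    (TensorProduct.map FrL (SS A).subtype) (LinearMap.ker_eq_bot.2 (map_inj hi))
  let Y : Pre := { N := SS A, δ := g ∘ₗ A.δ ∘ₗ (SS A).subtype }
  have hom : ∀ y : Y.N, A.δ ((SS A).subtype y) = TensorProduct.map FrL (SS A).subtype (Y.δ y) := by
    intro y
    obtain ⟨v, hv⟩ := exists_v A y.1 y.2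
    have h1 : Y.δ y = v := by
      change g (A.δ (y : A.N)) = v
      rw [← hv]
      exact LinearMap.congr_fun hg v
    rw [h1, hv]
    rfl
  refine ⟨Y, (SS A).subtype, ⟨?_, ?_⟩, ⟨hi, ?_, hom⟩⟩
  · intro y
    apply map_inj (map_inj hi)
    have h2 : A.δ ∘ₗ (SS A).subtype = TensorProduct.map FrL (SS A).subtype ∘ₗ Y.δ :=
      LinearMap.ext hom
    rw [← DlT_map, ← hom, (IsCmd.co : IsCo A) _, hom, lT_map, h2, map_map']
  · intro y
    apply hi
    rw [lid_ep, ← hom]
    exact (IsCmd.cu : IsCu A) _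
  · intro x
    rw [← mem_SS]
    constructor
    · rintro ⟨y, rfl⟩
      exact y.2
    · intro hx
      exact ⟨⟨x, hx⟩, rfl⟩

end

end Pool.Agent.Pet19
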