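import Pool.Agent.Pet19.DSU
import Pool.Agent.Pet19.Y0
import Pool.Agent.Pet19.Y0E
import Pool.Agent.Pet19.Om0a

/-!
# Pet19.Om0: `Y^0` of `Ω M`

Exact sequences `0 → Y^0(M) → Y^0(I) = cof M.N → J → 0` and `0 → J → Y^0(Ω M) → Y^1(M) → 0`.
`α y = (1 ⊗ ι)(Y.δ y)`; `Y'` from `exists_Y0 (Om M)`; `κ` is induced by
`y ↦ π (1 ⊗ ι' y)` with `π` from `DSU 0` (`1 ⊗ x` is in `ker (Kd 0 Ω)` iff all `pd Ω (n+1) x = 0`,
`HH 0` is spanned by `1`); surjectivity and the kernel use `pd_even`; `J = subP Y' (ker κ)`;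
`β` is induced by `u ↦ p ((Fr ⊗ 1) u)`.  Exactness at `cof M.N`: if `(Fr ⊗ 1) u = M.δ m` then
`pd M n m = 0` (`pd_δ`, `δ_inj`), so `m = ι y` and `u = α y` (`Fr ⊗ 1` is injective).
-/

set_option autoImplicit false
open MvPolynomial TensorProduct

namespace Pool.Agent.Pet19

noncomputable section

namespace Om0Aux

/-- the unit of `HH 0` -/
def e1 : HH 0 := ⟨1, (mem_homogeneousSubmodule 0 _).2 (isHomogeneous_one ℕ (ZMod 2))⟩

theorem e1_coe : (e1 : PP) = 1 := rfl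

theorem e1_ne : e1 ≠ 0 := by
  intro h
  have h1 : (e1 : PP) = 0 := by rw [h]; rfl
  exact one_ne_zero h1

theorem e1_δ : (SV 0).δ e1 = (1 : PP) ⊗ₜ[ZMod 2] e1 := by
  apply lTensor_inj PP (HH 0).injective_subtype
  rw [SV_δ, e1_coe, map_one, LinearMap.lTensor_tmul]
  rfl

theorem phi_one (n : ℕ) : phi n (1 : PP) = 0 := by
  rw [phi_apply, Derivation.map_one_eq_zero, map_zero]

theorem e1_pd (n : ℕ) : pd (SV 0) n e1 = 0 := by
  rw [pd_apply, e1_δ, LinearMap.rTensor_tmul, phi_one, TensorProduct.zero_tmul, map_zero]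

/-- `x ↦ 1 ⊗ x` -/
def EE (A : Pre) : A.N →ₗ[ZMod 2] (Kc 0 A).N := TensorProduct.mk (ZMod 2) (HH 0) A.N e1

theorem EE_apply (A : Pre) (x : A.N) : EE A x = e1 ⊗ₜ[ZMod 2] x := rfl

theorem EE_hom (A : Pre) : IsHom A (Kc 0 A) (EE A) := by
  intro x
  rw [EE_apply]
  change tensδ (SV 0) A (e1 ⊗ₜ[ZMod 2] x) = _
  rw [tensδ_tmul, e1_δ]
  generalize A.δ x = u
  induction u using TensorProduct.induction_on with
  | zero => simp only [map_zero, TensorProduct.tmul_zero]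
  | tmul c y =>
    rw [star_tmul, LinearMap.lTensor_tmul, one_mul, EE_apply]
  | add u v hu hv => rw [TensorProduct.tmul_add, map_add, hu, hv, map_add]

theorem EE_inj (A : Pre) : Function.Injective (EE A) := by
  intro x y h
  rw [EE_apply, EE_apply] at h
  have h1 := congrArg (LinearMap.rTensor A.N (HH 0).subtype) h
  rw [LinearMap.rTensor_tmul, LinearMap.rTensor_tmul] at h1
  exact tmul_inj (c := (1 : PP)) one_ne_zero h1

theorem EE_surj (A : Pre) (z : (Kc 0 A).N) : ∃ x, EE A x = z := by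
  obtain ⟨x, hx⟩ := HH_zero_tmul A.N e1 e1_coe z
  exact ⟨x, hx.symm⟩

theorem EE_ker (A : Pre) (x : A.N) : Kd 0 A (EE A x) = 0 ↔ ∀ n, pd A (n + 1) x = 0 :=
  Kd_zero_ker A x e1 e1_coe

/-- a map commuting with the `pd` -/
theorem pd_sub_mem {A : Pre} {S : Submodule (ZMod 2) A.N} (h : IsSub A S) (n : ℕ) (x : S) :
    ((pd (subP A S) n x : S) : A.N) = pd A n x :=
  (pd_hom (subP_hom A S h) n x).symm

/-- DSU in degree `0`, on `W = {x | ∀ n, pd Ω (n+1) x = 0}` -/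
theorem dsu_zero (M Q : Pre) [IsCmd M] (hQ : IsKH 0 M Q) :
    ∃ (W : Submodule (ZMod 2) (Om M).N) (π : W →ₗ[ZMod 2] Q.N),
      IsSub (Om M) W ∧ (∀ x, x ∈ W ↔ ∀ n, pd (Om M) (n + 1) x = 0) ∧
      IsHom (subP (Om M) W) Q π ∧ Function.Surjective π ∧
      ∀ x : W, π x = 0 ↔ ∃ y : (cof M.N).N, (∀ n, pd (cof M.N) (n + 1) y = 0) ∧
        (LinearMap.range M.δ).mkQ y = (x : (Om M).N) := by
  obtain ⟨π, hπ, hsurj, hker⟩ := DSU 0 M Q hQ
  have hWhom : IsHom (Om M) (Kc 1 (Om M)) (Kd 0 (Om M) ∘ₗ EE (Om M)) :=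
    hom_comp (EE_hom (Om M)) (Kd_hom 0 (Om M))
  set W : Submodule (ZMod 2) (Om M).N := LinearMap.ker (Kd 0 (Om M) ∘ₗ EE (Om M)) with hW
  have hWsub : IsSub (Om M) W := isSub_ker hWhom
  set F : W →ₗ[ZMod 2] LinearMap.ker (Kd 0 (Om M)) :=
    LinearMap.codRestrict _ (EE (Om M) ∘ₗ W.subtype) (fun x => x.2) with hF
  have hFc : ∀ x : W, ((F x : LinearMap.ker (Kd 0 (Om M))) : (Kc 0 (Om M)).N) =
      EE (Om M) x := fun x => rfl
  have hFhom : IsHom (subP (Om M) W)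
      (subP (Kc 0 (Om M)) (LinearMap.ker (Kd 0 (Om M)))) F := by
    refine hom_of_inj (subP_hom _ _ (isSub_ker_Kd 0 (Om M))) (Submodule.injective_subtype _) ?_
    have h1 : (LinearMap.ker (Kd 0 (Om M))).subtype ∘ₗ F = EE (Om M) ∘ₗ W.subtype := by
      ext x
      rfl
    rw [h1]
    exact hom_comp (subP_hom _ W hWsub) (EE_hom (Om M))
  have hFsurj : Function.Surjective F := by
    rintro ⟨z, hz⟩
    obtain ⟨x, hx⟩ := EE_surj (Om M) z
    refine ⟨⟨x, ?_⟩, Subtype.ext hx⟩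
    rw [hW, LinearMap.mem_ker, LinearMap.comp_apply, hx]
    exact hz
  refine ⟨W, π ∘ₗ F, hWsub, ?_, hom_comp hFhom hπ, hsurj.comp hFsurj, ?_⟩
  · intro x
    rw [← EE_ker]
    rfl
  · intro x
    rw [LinearMap.comp_apply, hker]
    constructor
    · rintro ⟨y, hy, hyx⟩
      obtain ⟨y0, rfl⟩ := EE_surj (cof M.N) y
      refine ⟨y0, (EE_ker (cof M.N) y0).1 hy, ?_⟩
      apply EE_inj (Om M)
      rw [hFc] at hyx
      rw [← hyx]
      rfl
    · rintro ⟨y0, hy0, hyx⟩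
      refine ⟨EE (cof M.N) y0, (EE_ker (cof M.N) y0).2 hy0, ?_⟩
      rw [hFc, ← hyx]
      rfl

end Om0Aux

open Om0Aux

theorem Om0 (M Y Q Y1 : Pre) [IsCmd M] [IsCmd Y] [IsCmd Q] [IsCmd Y1]
    (ι : Y.N →ₗ[ZMod 2] M.N) (ι1 : Y1.N →ₗ[ZMod 2] Q.N)
    (hY : IsY0 M Y ι) (hQ : IsKH 0 M Q) (hY1 : IsY0 Q Y1 ι1) :
    ∃ (Y' J : Pre) (ι' : Y'.N →ₗ[ZMod 2] (Om M).N) (α : Y.N →ₗ[ZMod 2] (cof M.N).N)
      (β : (cof M.N).N →ₗ[ZMod 2] J.N) (γ : J.N →ₗ[ZMod 2] Y'.N) (κ : Y'.N →ₗ[ZMod 2] Y1.N),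
      IsCmd Y' ∧ IsCmd J ∧ IsY0 (Om M) Y' ι' ∧ SES Y (cof M.N) J α β ∧ SES J Y' Y1 γ κ ∧
      ∀ u : (cof M.N).N, ι' (γ (β u)) =
        (LinearMap.range M.δ).mkQ (LinearMap.rTensor M.N FrL u) := by
  obtain ⟨Y', ι', hcY', hY'⟩ := exists_Y0 (Om M)
  have hS := ses_Om M
  have hI := Y0_cof M.N
  obtain ⟨α, hα, hαδ⟩ := Y0_map hY hI hS.hi
  obtain ⟨β₀, hβ₀, hβι⟩ := Y0_map hI hY' hS.hp
  obtain ⟨W, π, hWsub, hWmem, hπ, hπsurj, hπker⟩ := dsu_zero M Q hQ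
  -- `j : Y' → W`
  have hιW : ∀ y, ι' y ∈ W := fun y => (hWmem _).2 fun n => (hY'.mem (ι' y)).1 ⟨y, rfl⟩ (n + 1)
  set j : Y'.N →ₗ[ZMod 2] W := LinearMap.codRestrict W ι' hιW with hj
  have hjc : ∀ y, ((j y : W) : (Om M).N) = ι' y := fun y => rfl
  have hjδ : ∀ y, (subP (Om M) W).δ (j y) = TensorProduct.map FrL j (Y'.δ y) := by
    intro y
    apply lTensor_inj PP W.injective_subtype
    have h1 := subP_hom (Om M) W hWsub (j y)
    have h2 : W.subtype (j y) = ι' y := rfl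
    rw [h2, hY'.hom y] at h1
    rw [← h1]
    generalize Y'.δ y = u
    induction u using TensorProduct.induction_on with
    | zero => simp only [map_zero]
    | tmul c z =>
      rw [TensorProduct.map_tmul, TensorProduct.map_tmul, LinearMap.lTensor_tmul]
      rfl
    | add u v hu hv => rw [map_add, hu, hv, map_add, map_add]
  -- `κ₀ = π ∘ j`
  have hκ₀ : ∀ y, ∃ z, ι1 z = π (j y) := by
    intro y
    rw [hY1.mem]
    intro n
    rw [pd_hom hπ]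
    have h1 : pd (subP (Om M) W) n (j y) = 0 := by
      apply Subtype.ext
      rw [pd_sub_mem hWsub, hjc]
      exact (hY'.mem (ι' y)).1 ⟨y, rfl⟩ n
    rw [h1, map_zero]
  obtain ⟨ρ, hρ⟩ := LinearMap.exists_leftInverse_of_injective ι1
    (LinearMap.ker_eq_bot.2 hY1.inj)
  have hρ1 : ∀ z, ρ (ι1 z) = z := fun z => LinearMap.congr_fun hρ z
  set κ : Y'.N →ₗ[ZMod 2] Y1.N := ρ ∘ₗ π ∘ₗ j with hκ
  have hικ : ∀ y, ι1 (κ y) = π (j y) := by
    intro y
    obtain ⟨z, hz⟩ := hκ₀ y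
    rw [hκ]
    simp only [LinearMap.comp_apply]
    rw [← hz, hρ1]
  have hmapinj : Function.Injective (TensorProduct.map FrL ι1) := by
    have h1 : TensorProduct.map FrL ι1 =
        LinearMap.rTensor Q.N FrL ∘ₗ LinearMap.lTensor PP ι1 := by
      rw [LinearMap.rTensor_comp_lTensor]
    rw [h1]
    exact (rTensor_inj Q.N FrL_inj).comp (lTensor_inj PP hY1.inj)
  have hκhom : IsHom Y' Y1 κ := by
    intro y
    apply hmapinj
    rw [← hY1.hom, hικ, hπ, hjδ]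
    generalize Y'.δ y = u
    induction u using TensorProduct.induction_on with
    | zero => simp only [map_zero]
    | tmul c z =>
      rw [TensorProduct.map_tmul, LinearMap.lTensor_tmul, LinearMap.lTensor_tmul,
        TensorProduct.map_tmul, hικ]
    | add u v hu hv => rw [map_add, map_add, hu, hv, map_add, map_add]
  -- `κ` is surjective
  have hκsurj : Function.Surjective κ := by
    intro z
    obtain ⟨x, hx⟩ := hπsurj (ι1 z)
    have hx1 : ∀ n, pd (Om M) (n + 1) (x : (Om M).N) = 0 := (hWmem _).1 x.2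
    obtain ⟨y, hy⟩ := (hY'.mem ((x : (Om M).N) + pd (Om M) 0 x)).2
      (fun n => pd_even (Om M) x hx1 n)
    refine ⟨y, ?_⟩
    apply hY1.inj
    rw [hικ, ← hx]
    have h1 : j y = x + pd (subP (Om M) W) 0 x := by
      apply Subtype.ext
      rw [hjc, hy, Submodule.coe_add, pd_sub_mem hWsub]
    rw [h1, map_add, ← pd_hom hπ, hx, (hY1.mem (ι1 z)).1 ⟨z, rfl⟩ 0, add_zero]
  -- the kernel of `κ`
  have hκker : ∀ y, κ y = 0 ↔ ∃ u, β₀ u = y := by
    intro y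
    have h1 : κ y = 0 ↔ π (j y) = 0 := by
      rw [← hικ]
      constructor
      · intro h; rw [h, map_zero]
      · intro h; exact hY1.inj (by rw [h, map_zero])
    rw [h1, hπker]
    constructor
    · rintro ⟨y0, hy0, hy0y⟩
      obtain ⟨u, hu⟩ := (hI.mem (y0 + pd (cof M.N) 0 y0)).2
        (fun n => pd_even (cof M.N) y0 hy0 n)
      refine ⟨u, hY'.inj ?_⟩
      rw [hβι, hu, map_add, ← pd_hom hS.hp, hy0y, hjc, (hY'.mem (ι' y)).1 ⟨y, rfl⟩ 0, add_zero]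
    · rintro ⟨u, rfl⟩
      refine ⟨LinearMap.rTensor M.N FrL u, fun n => (hI.mem _).1 ⟨u, rfl⟩ (n + 1), ?_⟩
      rw [hjc, hβι]
  have hker : IsSub Y' (LinearMap.ker κ) := isSub_ker hκhom
  have hβmem : ∀ u, β₀ u ∈ LinearMap.ker κ := fun u =>
    LinearMap.mem_ker.2 ((hκker _).2 ⟨u, rfl⟩)
  set β : (cof M.N).N →ₗ[ZMod 2] LinearMap.ker κ := LinearMap.codRestrict _ β₀ hβmem with hβ
  have hβc : ∀ u, ((β u : LinearMap.ker κ) : Y'.N) = β₀ u := fun u => rfl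
  refine ⟨Y', subP Y' (LinearMap.ker κ), ι', α, β, (LinearMap.ker κ).subtype, κ, hcY',
    subP_cmd Y' _ hker, hY', ⟨hα, ?_, ?_, ?_, ?_⟩, ⟨subP_hom Y' _ hker, hκhom,
      Submodule.injective_subtype _, hκsurj, ?_⟩, ?_⟩
  · refine hom_of_inj (subP_hom Y' _ hker) (Submodule.injective_subtype _) ?_
    have h1 : (LinearMap.ker κ).subtype ∘ₗ β = β₀ := by
      apply LinearMap.ext
      intro u
      rfl
    rw [h1]
    exact hβ₀
  · intro x y hxy
    apply hY.inj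
    apply δ_inj M
    rw [← hαδ, ← hαδ, hxy]
  · rintro ⟨y, hy⟩
    obtain ⟨u, hu⟩ := (hκker y).1 hy
    exact ⟨u, Subtype.ext hu⟩
  · intro u
    have h1 : β u = 0 ↔ (LinearMap.range M.δ).mkQ (LinearMap.rTensor M.N FrL u) = 0 := by
      rw [← hβι]
      constructor
      · intro h
        rw [← hβc, h]
        simp
      · intro h
        apply Subtype.ext
        apply hY'.inj
        rw [hβc, h]
        simp
    rw [h1]
    constructor
    · intro h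
      obtain ⟨m, hm⟩ := (hS.ex _).1 h
      have hpd : ∀ n, pd M n m = 0 := by
        intro n
        apply δ_inj M
        rw [pd_δ, hm, (range_Fr M.N _).1 ⟨u, rfl⟩ n, map_zero]
      obtain ⟨y, hy⟩ := (hY.mem m).2 hpd
      refine ⟨y, ?_⟩
      apply rTensor_inj M.N FrL_inj
      rw [hαδ, hy, hm]
    · rintro ⟨y, rfl⟩
      rw [hαδ]
      exact (hS.ex _).2 ⟨_, rfl⟩
  · intro y
    simp
  · intro u
    exact hβι u

end

end Pool.Agent.Pet19
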