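import Pool.Agent.Pet19.LnF
import Pool.Agent.Pet19.CmdT

/-!
# Pet19.PdF: the operations `pd A n = (φ_n ⊗ 1) δ`

`pd_δ`: apply `φ_n ⊗ 1 ⊗ 1` to coassociativity.
-/

set_option autoImplicit false
open MvPolynomial TensorProduct

namespace Pool.Agent.Pet19

noncomputable section

private theorem pdF_phi_mul (n : ℕ) (x y : PP) :
    phi n (x * y) = ep x * phi n y + ep y * phi n x := by
  rw [phi_apply, phi_apply, phi_apply, pderiv_mul, map_add, map_mul, map_mul]
  ring

private theorem pdF_phi_Fr (n : ℕ) (x : PP) : phi n (Fr x) = 0 := by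
  rw [Fr_apply, pow_two, pdF_phi_mul]
  exact CharTwo.add_self_eq_zero _

private theorem pdF_nat {M N : Type} [AddCommGroup M] [Module (ZMod 2) M] [AddCommGroup N]
    [Module (ZMod 2) N] (f : M →ₗ[ZMod 2] N) (n : ℕ) (u : PP ⊗[ZMod 2] M) :
    TensorProduct.lid (ZMod 2) N (LinearMap.rTensor N (phi n) (LinearMap.lTensor PP f u)) =
      f (TensorProduct.lid (ZMod 2) M (LinearMap.rTensor M (phi n) u)) := by
  induction u using TensorProduct.induction_on with
  | zero => simp only [map_zero]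
  | tmul a m =>
    rw [LinearMap.lTensor_tmul, LinearMap.rTensor_tmul, LinearMap.rTensor_tmul,
      TensorProduct.lid_tmul, TensorProduct.lid_tmul, map_smul]
  | add x y hx hy => simp only [map_add, hx, hy]

private theorem pdF_assoc (N : Type) [AddCommGroup N] [Module (ZMod 2) N] (n : ℕ)
    (z : PP ⊗[ZMod 2] PP) (m : N) :
    TensorProduct.lid (ZMod 2) (PP ⊗[ZMod 2] N) (LinearMap.rTensor (PP ⊗[ZMod 2] N) (phi n)
      (TensorProduct.assoc (ZMod 2) PP PP N (z ⊗ₜ[ZMod 2] m))) =
      TensorProduct.lid (ZMod 2) PP (LinearMap.rTensor PP (phi n) z) ⊗ₜ[ZMod 2] m := by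
  induction z using TensorProduct.induction_on with
  | zero => simp only [map_zero, TensorProduct.zero_tmul]
  | tmul a b =>
    rw [TensorProduct.assoc_tmul, LinearMap.rTensor_tmul, LinearMap.rTensor_tmul,
      TensorProduct.lid_tmul, TensorProduct.lid_tmul, TensorProduct.smul_tmul']
  | add x y hx hy =>
    rw [TensorProduct.add_tmul, map_add, map_add, map_add, hx, hy, map_add, map_add,
      TensorProduct.add_tmul]

private theorem pdF_DlT (N : Type) [AddCommGroup N] [Module (ZMod 2) N] (n : ℕ)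
    (u : PP ⊗[ZMod 2] N) :
    TensorProduct.lid (ZMod 2) (PP ⊗[ZMod 2] N)
      (LinearMap.rTensor (PP ⊗[ZMod 2] N) (phi n) (DlT N u)) =
      LinearMap.rTensor N (Ln n) u := by
  induction u using TensorProduct.induction_on with
  | zero => simp only [map_zero]
  | tmul a m =>
    rw [DlT_tmul, pdF_assoc, LinearMap.rTensor_tmul, Ln_apply]
  | add x y hx hy => simp only [map_add, hx, hy]

private theorem pdF_star (M N : Type) [AddCommGroup M] [Module (ZMod 2) M] [AddCommGroup N]
    [Module (ZMod 2) N] (n : ℕ) (u : PP ⊗[ZMod 2] M) (v : PP ⊗[ZMod 2] N) :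
    TensorProduct.lid (ZMod 2) (M ⊗[ZMod 2] N)
      (LinearMap.rTensor (M ⊗[ZMod 2] N) (phi n) (star M N (u ⊗ₜ[ZMod 2] v))) =
      TensorProduct.lid (ZMod 2) M (LinearMap.rTensor M (phi n) u) ⊗ₜ[ZMod 2]
        TensorProduct.lid (ZMod 2) N (LinearMap.rTensor N ep.toLinearMap v) +
      TensorProduct.lid (ZMod 2) M (LinearMap.rTensor M ep.toLinearMap u) ⊗ₜ[ZMod 2]
        TensorProduct.lid (ZMod 2) N (LinearMap.rTensor N (phi n) v) := by
  induction u using TensorProduct.induction_on with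
  | zero => simp only [TensorProduct.zero_tmul, map_zero, add_zero]
  | tmul a m =>
    induction v using TensorProduct.induction_on with
    | zero => simp only [TensorProduct.tmul_zero, map_zero, add_zero]
    | tmul b k =>
      rw [star_tmul, LinearMap.rTensor_tmul, LinearMap.rTensor_tmul, LinearMap.rTensor_tmul,
        LinearMap.rTensor_tmul, LinearMap.rTensor_tmul,
        TensorProduct.lid_tmul, TensorProduct.lid_tmul, TensorProduct.lid_tmul,
        TensorProduct.lid_tmul, TensorProduct.lid_tmul,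
        TensorProduct.smul_tmul_smul, TensorProduct.smul_tmul_smul, AlgHom.toLinearMap_apply,
        AlgHom.toLinearMap_apply, pdF_phi_mul, add_smul, mul_comm (ep b) (phi n a), add_comm]
    | add x y hx hy =>
      simp only [TensorProduct.tmul_add, map_add, hx, hy]
      abel
  | add x y hx hy =>
    simp only [TensorProduct.add_tmul, map_add, hx, hy]
    abel

theorem pd_hom {A B : Pre} {f : A.N →ₗ[ZMod 2] B.N} (hf : IsHom A B f) (n : ℕ) (x : A.N) :
    pd B n (f x) = f (pd A n x) := by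
  rw [pd_apply, pd_apply, hf x, pdF_nat]

theorem pd_δ (A : Pre) [IsCmd A] (n : ℕ) (x : A.N) :
    A.δ (pd A n x) = LinearMap.rTensor A.N (Ln n) (A.δ x) := by
  have h : IsCo A := IsCmd.co
  rw [pd_apply, ← pdF_nat, ← h x, pdF_DlT]

theorem pd_cof (N : Type) [AddCommGroup N] [Module (ZMod 2) N] (n : ℕ) (x : PP ⊗[ZMod 2] N) :
    pd (cof N) n x = LinearMap.rTensor N (Ln n) x := by
  rw [pd_apply]
  exact pdF_DlT N n x

/-- an element `x` satisfies `A.d (2w) x = 0` only if it is killed by all `∂_n` -/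
theorem pd_of_d (A : Pre) (w : ℕ) (x : A.N) (h : A.d (2 * w) x = 0) (n : ℕ) : pd A n x = 0 := by
  rw [d_apply, add_eq_zero_iff_eq2] at h
  rw [pd_apply, ← h, LinearMap.rTensor_tmul, TensorProduct.lid_tmul]
  have h1 : (T ^ (2 * w) : PP) = Fr (T ^ w) := by
    rw [Fr_apply, ← pow_mul, mul_comm]
  rw [h1, pdF_phi_Fr, zero_smul]

/-- `pd` on a tensor product -/
theorem pd_tens (A B : Pre) [IsCmd A] [IsCmd B] (n : ℕ) (x : A.N) (y : B.N) :
    pd (tens A B) n (x ⊗ₜ[ZMod 2] y) =
      pd A n x ⊗ₜ[ZMod 2] y + x ⊗ₜ[ZMod 2] pd B n y := by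
  have hA : IsCu A := IsCmd.cu
  have hB : IsCu B := IsCmd.cu
  have h1 : pd (tens A B) n (x ⊗ₜ[ZMod 2] y) = TensorProduct.lid (ZMod 2) (A.N ⊗[ZMod 2] B.N)
      (LinearMap.rTensor (A.N ⊗[ZMod 2] B.N) (phi n) (tensδ A B (x ⊗ₜ[ZMod 2] y))) :=
    pd_apply (tens A B) n _
  rw [h1, tensδ_tmul, pdF_star, hA x, hB y, pd_apply, pd_apply]

theorem pd_infl (A : Pre) (n : ℕ) (x : A.N) : pd (infl A) n x = 0 := by
  have h1 : pd (infl A) n x = TensorProduct.lid (ZMod 2) A.N
      (LinearMap.rTensor A.N (phi n) (inflδ A x)) := pd_apply (infl A) n x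
  rw [h1, inflδ_apply]
  have h : ∀ u : PP ⊗[ZMod 2] A.N,
      LinearMap.rTensor A.N (phi n) (LinearMap.rTensor A.N FrL u) = 0 := by
    intro u
    induction u using TensorProduct.induction_on with
    | zero => simp only [map_zero]
    | tmul a m =>
      rw [LinearMap.rTensor_tmul, LinearMap.rTensor_tmul, FrL_apply, pdF_phi_Fr,
        TensorProduct.zero_tmul]
    | add x y hx hy => rw [map_add, map_add, hx, hy, add_zero]
  rw [h, map_zero]

end

end Pool.Agent.Pet19
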