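import Pool.Agent.Pet19.PdF

/-!
# Pet19.PdG: more on the operations `pd A n`

`range_Fr`: `PP ⊗ N ≅ (ℕ →₀ ℕ) →₀ N` (`MvPolynomial.scalarRTensor` or a basis of `N`); `Ln (n+1)` is
`∂/∂X_(n+1)`, so all exponents of `X_(n+1)` are even, then `Ln 0` (degree mod 2) gives that the
exponent of `T` is even too.
`pd0_pd0`: `Ln 0 ∘ Ln 0 = Ln 0` and `δ` is injective.
`pd_pd0`: `pderiv (n+1) ∘ Ln 0 = Ln 0 ∘ pderiv (n+1) + pderiv (n+1)` and `δ` is injective
(`A.δ (pd A m x) = (Ln m ⊗ 1)(A.δ x)`).
-/

set_option autoImplicit false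
open MvPolynomial TensorProduct

namespace Pool.Agent.Pet19

noncomputable section

/-- coordinates and `f ⊗ 1` -/
theorem coord_rTensor {N κ : Type} [AddCommGroup N] [Module (ZMod 2) N] [DecidableEq κ]
    (b : Module.Basis κ (ZMod 2) N) {P' : Type} [AddCommGroup P'] [Module (ZMod 2) P']
    (f : PP →ₗ[ZMod 2] P') (x : PP ⊗[ZMod 2] N) (i : κ) :
    TensorProduct.equivFinsuppOfBasisRight b (LinearMap.rTensor N f x) i =
      f (TensorProduct.equivFinsuppOfBasisRight b x i) := by
  induction x using TensorProduct.induction_on with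
  | zero => simp only [map_zero, Finsupp.coe_zero, Pi.zero_apply]
  | add u v hu hv => simp only [map_add, Finsupp.add_apply, hu, hv]
  | tmul m n =>
    rw [LinearMap.rTensor_tmul, TensorProduct.equivFinsuppOfBasisRight_apply_tmul_apply,
      TensorProduct.equivFinsuppOfBasisRight_apply_tmul_apply, map_smul]

private theorem Ln_FrL (n : ℕ) : Ln n ∘ₗ FrL = 0 := by
  refine LinearMap.ext fun g => ?_
  rw [LinearMap.comp_apply, LinearMap.zero_apply]
  induction g using MvPolynomial.induction_on' with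
  | add p q hp hq => rw [map_add, map_add, hp, hq, add_zero]
  | monomial μ c =>
    rw [FrL_sq, monomial_pow]
    cases n with
    | zero =>
      rw [Ln_zero]
      have h : (((2 : ℕ) • μ).degree : ZMod 2) = 0 := by
        have h1 : ((2 : ℕ) • μ).degree = 2 * μ.degree := by
          rw [two_nsmul, map_add, two_mul]
        rw [h1, Nat.cast_mul]
        have h2 : ((2 : ℕ) : ZMod 2) = 0 := by decide
        rw [h2, zero_mul]
      rw [h, zero_smul]
    | succ n =>
      rw [Ln_succ, pderiv_monomial]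
      have h : ((((2 : ℕ) • μ) (n + 1) : ℕ) : ZMod 2) = 0 := by
        rw [Finsupp.smul_apply, smul_eq_mul, Nat.cast_mul]
        have h2 : ((2 : ℕ) : ZMod 2) = 0 := by decide
        rw [h2, zero_mul]
      rw [h, mul_zero, monomial_zero]

private theorem coeff_Ln_zero (g : PP) (ν : ℕ →₀ ℕ) :
    coeff ν (Ln 0 g) = (ν.degree : ZMod 2) * coeff ν g := by
  induction g using MvPolynomial.induction_on' with
  | add p q hp hq => rw [map_add, coeff_add, coeff_add, hp, hq, mul_add]
  | monomial μ c =>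
    rw [Ln_zero, coeff_smul, smul_eq_mul]
    by_cases h : μ = ν
    · rw [h]
    · rw [coeff_monomial, if_neg h, mul_zero, mul_zero]

private theorem even_of_cast {n : ℕ} (h : (n : ZMod 2) = 0) : Even n :=
  (ZMod.natCast_eq_zero_iff_even).1 h

private theorem exists_Fr (g : PP) (h : ∀ n, Ln n g = 0) : ∃ y, FrL y = g := by
  have hd : ∀ ν ∈ g.support, Even ν.degree := by
    intro ν hν
    have h1 := coeff_Ln_zero g ν
    rw [h 0, coeff_zero] at h1
    rcases mul_eq_zero.1 h1.symm with h2 | h2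
    · exact even_of_cast h2
    · exact absurd h2 (mem_support_iff.1 hν)
  have hs : ∀ ν ∈ g.support, ∀ n, Even (ν (n + 1)) := by
    intro ν hν n
    by_contra hodd
    rw [Nat.not_even_iff_odd] at hodd
    have hpos : 1 ≤ ν (n + 1) := hodd.pos
    have h1 := coeff_pderiv (i := n + 1) g (ν - Finsupp.single (n + 1) 1)
    have e1 : ν - Finsupp.single (n + 1) 1 + Finsupp.single (n + 1) 1 = ν := by
      apply tsub_add_cancel_of_le
      rw [Finsupp.single_le_iff]
      exact hpos
    rw [← Ln_succ, h (n + 1), coeff_zero, e1] at h1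
    have e2 : (((ν - Finsupp.single (n + 1) 1 : ℕ →₀ ℕ) (n + 1) : ℕ) : ZMod 2) + 1 = 1 := by
      rw [Finsupp.tsub_apply, Finsupp.single_eq_same]
      have h3 : Even (ν (n + 1) - 1) := by
        obtain ⟨k, hk⟩ := hodd
        exact ⟨k, by omega⟩
      rw [(ZMod.natCast_eq_zero_iff_even).2 h3, zero_add]
    rw [e2, mul_one] at h1
    exact (mem_support_iff.1 hν) h1.symm
  have h0 : ∀ ν ∈ g.support, ∀ n, Even (ν n) := by
    intro ν hν n
    cases n with
    | succ n => exact hs ν hν n
    | zero =>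
      have h1 : ν.degree = ν 0 + ∑ i ∈ ν.support.erase 0, ν i := by
        rw [Finsupp.degree_apply]
        by_cases h2 : 0 ∈ ν.support
        · rw [Finset.add_sum_erase _ _ h2]
        · rw [Finset.erase_eq_of_notMem h2, Finsupp.notMem_support_iff.1 h2, zero_add]
      have h2 : Even (∑ i ∈ ν.support.erase 0, ν i) := by
        refine even_iff_two_dvd.2 (Finset.dvd_sum fun i hi => ?_)
        obtain ⟨k, rfl⟩ := Nat.exists_eq_succ_of_ne_zero (Finset.ne_of_mem_erase hi)
        exact even_iff_two_dvd.1 (hs ν hν k)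
      have h3 := hd ν hν
      rw [h1] at h3
      exact (Nat.even_add.1 h3).2 h2
  refine ⟨∑ ν ∈ g.support, monomial (ν.mapRange (fun k => k / 2) (by norm_num)) (coeff ν g), ?_⟩
  rw [map_sum]
  conv_rhs => rw [g.as_sum]
  refine Finset.sum_congr rfl fun ν hν => ?_
  have e1 : (2 : ℕ) • ν.mapRange (fun k => k / 2) (by norm_num) = ν := by
    ext i
    rw [Finsupp.smul_apply, Finsupp.mapRange_apply, smul_eq_mul]
    exact Nat.two_mul_div_two_of_even (h0 ν hν i)
  have e2 : coeff ν g ^ 2 = coeff ν g := ZMod.pow_card _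
  rw [FrL_sq, monomial_pow, e1, e2]

/-- an element of `PP ⊗ N` killed by all `Ln n` comes from Frobenius -/
theorem range_Fr (N : Type) [AddCommGroup N] [Module (ZMod 2) N] (x : PP ⊗[ZMod 2] N) :
    (∃ y, LinearMap.rTensor N FrL y = x) ↔
      ∀ n, LinearMap.rTensor N (Ln n) x = 0 := by
  classical
  constructor
  · rintro ⟨y, rfl⟩ n
    rw [← LinearMap.comp_apply, ← LinearMap.rTensor_comp, Ln_FrL, LinearMap.rTensor_zero,
      LinearMap.zero_apply]
  · intro h
    let b := Module.Basis.ofVectorSpace (ZMod 2) N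
    have h1 : ∀ i, ∃ y, FrL y = TensorProduct.equivFinsuppOfBasisRight b x i := by
      intro i
      refine exists_Fr _ fun n => ?_
      rw [← coord_rTensor b (Ln n) x i, h n, map_zero, Finsupp.coe_zero, Pi.zero_apply]
    choose y hy using h1
    refine ⟨∑ i ∈ (TensorProduct.equivFinsuppOfBasisRight b x).support, y i ⊗ₜ[ZMod 2] b i, ?_⟩
    rw [map_sum]
    have h2 := TensorProduct.equivFinsuppOfBasisRight_symm_apply b
      (TensorProduct.equivFinsuppOfBasisRight b x)
    rw [LinearEquiv.symm_apply_apply] at h2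
    conv_rhs => rw [h2]
    rw [Finsupp.sum]
    refine Finset.sum_congr rfl fun i _ => ?_
    rw [LinearMap.rTensor_tmul, hy]

private theorem Ln_zero_zero : Ln 0 ∘ₗ Ln 0 = Ln 0 := by
  refine LinearMap.ext fun g => ?_
  rw [LinearMap.comp_apply]
  ext ν
  rw [coeff_Ln_zero, coeff_Ln_zero, ← mul_assoc]
  congr 1
  have h : ∀ a : ZMod 2, a * a = a := by decide
  exact h _

theorem pd0_pd0 (A : Pre) [IsCmd A] (x : A.N) : pd A 0 (pd A 0 x) = pd A 0 x := by
  apply δ_inj A
  rw [pd_δ, pd_δ, ← LinearMap.comp_apply, ← LinearMap.rTensor_comp, Ln_zero_zero]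

private theorem Ln_succ_zero (n : ℕ) :
    Ln (n + 1) ∘ₗ Ln 0 = Ln 0 ∘ₗ Ln (n + 1) + Ln (n + 1) := by
  refine LinearMap.ext fun g => ?_
  rw [LinearMap.comp_apply, LinearMap.add_apply, LinearMap.comp_apply, Ln_succ, Ln_succ]
  ext ν
  rw [coeff_add, coeff_Ln_zero, coeff_pderiv, coeff_pderiv, coeff_Ln_zero, map_add,
    Finsupp.degree_single, Nat.cast_add, Nat.cast_one]
  ring

theorem pd_pd0 (A : Pre) [IsCmd A] (n : ℕ) (x : A.N) (h : pd A (n + 1) x = 0) :
    pd A (n + 1) (pd A 0 x) = 0 := by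
  apply δ_inj A
  have h1 : LinearMap.rTensor A.N (Ln (n + 1)) (A.δ x) = 0 := by
    rw [← pd_δ, h, map_zero]
  rw [pd_δ, pd_δ, ← LinearMap.comp_apply, ← LinearMap.rTensor_comp, Ln_succ_zero,
    LinearMap.rTensor_add, LinearMap.rTensor_comp, LinearMap.add_apply, LinearMap.comp_apply, h1,
    map_zero, map_zero, add_zero]

/-- the even part `x + ∂_0 x` of an element killed by the `∂_(n+1)` is killed by all `∂_n` -/
theorem pd_even (A : Pre) [IsCmd A] (x : A.N) (h : ∀ n, pd A (n + 1) x = 0) (n : ℕ) :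
    pd A n (x + pd A 0 x) = 0 := by
  rw [map_add]
  cases n with
  | zero => rw [pd0_pd0, add_self_zero]
  | succ n => rw [h n, pd_pd0 A n x (h n), add_zero]

end

end Pool.Agent.Pet19
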