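import Pool.Agent.Pet19.BiC
import Pool.Agent.Pet19.Nx

/-!
# Pet19.PolyC: the polynomial comodules

`coP`, `coV` are algebra maps, so coassociativity and counit are checked on the generators `X i`
(for `coP`, with `a_(ij) = (xi_(i-j) T)^(2^j)`: `Δ a_(ij) = ∑_(j≤l≤i) a_(il) ⊗ a_(lj)`; similarly for
`coV` with `b_(ij) = xi_(i-j)^(2^(j+1)) T^(2^(j+1)-1)`).
-/

set_option autoImplicit false
open MvPolynomial TensorProduct

namespace Pool.Agent.Pet19

noncomputable section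

namespace PolyCAux

theorem ntPP : Nontrivial (PP ⊗[ZMod 2] PP) :=
  (Algebra.TensorProduct.lmul' (ZMod 2) (S := PP)).toRingHom.domain_nontrivial

theorem chPP : CharP (PP ⊗[ZMod 2] PP) 2 := by
  have := ntPP
  exact charP_of_injective_algebraMap (algebraMap (ZMod 2) (PP ⊗[ZMod 2] PP)).injective 2

theorem sum_pow2 {ι : Type} (s : Finset ι) (f : ι → PP ⊗[ZMod 2] PP) (n : ℕ) :
    (∑ i ∈ s, f i) ^ (2 ^ n) = ∑ i ∈ s, f i ^ (2 ^ n) := by
  have := chPP
  exact sum_pow_char_pow 2 n s f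

/-- `DlT` as an algebra map -/
def DlA : PP ⊗[ZMod 2] PP →ₐ[ZMod 2] PP ⊗[ZMod 2] (PP ⊗[ZMod 2] PP) :=
  (Algebra.TensorProduct.assoc (ZMod 2) (ZMod 2) (ZMod 2) PP PP PP).toAlgHom.comp
    (Algebra.TensorProduct.map Dl (AlgHom.id (ZMod 2) PP))

theorem assoc_eq (z : PP ⊗[ZMod 2] PP) (c : PP) :
    Algebra.TensorProduct.assoc (ZMod 2) (ZMod 2) (ZMod 2) PP PP PP (z ⊗ₜ[ZMod 2] c) =
      TensorProduct.assoc (ZMod 2) PP PP PP (z ⊗ₜ[ZMod 2] c) := by
  induction z using TensorProduct.induction_on with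
  | zero => simp only [TensorProduct.zero_tmul, map_zero]
  | tmul a b => rfl
  | add x y hx hy => rw [TensorProduct.add_tmul, map_add, map_add, hx, hy]

theorem DlA_apply (z : PP ⊗[ZMod 2] PP) : DlA z = DlT PP z := by
  induction z using TensorProduct.induction_on with
  | zero => simp only [map_zero]
  | tmul a b =>
    rw [DlT_tmul, ← assoc_eq]
    rfl
  | add x y hx hy => rw [map_add, map_add, hx, hy]

theorem lT_alg (co : PP →ₐ[ZMod 2] PP ⊗[ZMod 2] PP) (z : PP ⊗[ZMod 2] PP) :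
    Algebra.TensorProduct.map (AlgHom.id (ZMod 2) PP) co z =
      LinearMap.lTensor PP co.toLinearMap z := by
  induction z using TensorProduct.induction_on with
  | zero => simp only [map_zero]
  | tmul a b => rfl
  | add x y hx hy => rw [map_add, map_add, hx, hy]

theorem rT_alg (z : PP ⊗[ZMod 2] PP) :
    Algebra.TensorProduct.lid (ZMod 2) PP (Algebra.TensorProduct.map ep (AlgHom.id (ZMod 2) PP) z) =
      TensorProduct.lid (ZMod 2) PP (LinearMap.rTensor PP ep.toLinearMap z) := by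
  induction z using TensorProduct.induction_on with
  | zero => simp only [map_zero]
  | tmul a b => rfl
  | add x y hx hy => rw [map_add, map_add, map_add, map_add, hx, hy]

theorem sum_swap {M : Type} [AddCommMonoid M] (i : ℕ) (F : ℕ → ℕ → M) :
    ∑ j ∈ Finset.range (i + 1), ∑ l ∈ Finset.Ico j (i + 1), F l j =
      ∑ l ∈ Finset.range (i + 1), ∑ j ∈ Finset.range (l + 1), F l j := by
  apply Finset.sum_comm'
  intro x y
  simp only [Finset.mem_range, Finset.mem_Ico]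
  omega

/-- criterion for a comodule algebra structure on a polynomial ring -/
theorem cmd_of (co : PP →ₐ[ZMod 2] PP ⊗[ZMod 2] PP) (b : ℕ → ℕ → PP)
    (hco : ∀ i, co (X i) = ∑ j ∈ Finset.range (i + 1), b i j ⊗ₜ[ZMod 2] X j)
    (hD : ∀ i j, j ≤ i → Dl (b i j) = ∑ l ∈ Finset.Ico j (i + 1), b i l ⊗ₜ[ZMod 2] b l j)
    (he : ∀ i j, j ≤ i → ep (b i j) = if i = j then 1 else 0) :
    (∀ x : PP, DlT PP (co x) = LinearMap.lTensor PP co.toLinearMap (co x)) ∧
    ∀ x : PP, TensorProduct.lid (ZMod 2) PP (LinearMap.rTensor PP ep.toLinearMap (co x)) = x := by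
  constructor
  · have h : DlA.comp co = (Algebra.TensorProduct.map (AlgHom.id (ZMod 2) PP) co).comp co := by
      apply MvPolynomial.algHom_ext
      intro i
      rw [AlgHom.comp_apply, AlgHom.comp_apply, hco, map_sum, map_sum]
      have h1 : ∀ j ∈ Finset.range (i + 1), DlA (b i j ⊗ₜ[ZMod 2] (X j : PP)) =
          ∑ l ∈ Finset.Ico j (i + 1), b i l ⊗ₜ[ZMod 2] (b l j ⊗ₜ[ZMod 2] (X j : PP)) := by
        intro j hj
        rw [DlA_apply, DlT_tmul, hD i j (Nat.lt_succ_iff.1 (Finset.mem_range.1 hj)),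
          TensorProduct.sum_tmul, map_sum]
        rfl
      have h2 : ∀ l ∈ Finset.range (i + 1),
          Algebra.TensorProduct.map (AlgHom.id (ZMod 2) PP) co (b i l ⊗ₜ[ZMod 2] (X l : PP)) =
          ∑ j ∈ Finset.range (l + 1), b i l ⊗ₜ[ZMod 2] (b l j ⊗ₜ[ZMod 2] (X j : PP)) := by
        intro l _
        rw [Algebra.TensorProduct.map_tmul, hco, TensorProduct.tmul_sum]
        rfl
      rw [Finset.sum_congr rfl h1, Finset.sum_congr rfl h2]
      exact sum_swap i (fun l j => b i l ⊗ₜ[ZMod 2] (b l j ⊗ₜ[ZMod 2] (X j : PP)))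
    intro x
    rw [← DlA_apply, ← lT_alg]
    exact AlgHom.congr_fun h x
  · have h : (Algebra.TensorProduct.lid (ZMod 2) PP).toAlgHom.comp
        ((Algebra.TensorProduct.map ep (AlgHom.id (ZMod 2) PP)).comp co) =
        AlgHom.id (ZMod 2) PP := by
      apply MvPolynomial.algHom_ext
      intro i
      rw [AlgHom.comp_apply, AlgHom.comp_apply, hco, map_sum, map_sum, AlgHom.id_apply]
      rw [Finset.sum_eq_single i]
      · rw [Algebra.TensorProduct.map_tmul, he i i le_rfl, if_pos rfl]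
        exact one_smul (ZMod 2) (X i : PP)
      · intro j hj hji
        rw [Algebra.TensorProduct.map_tmul, he i j (Nat.lt_succ_iff.1 (Finset.mem_range.1 hj)),
          if_neg (Ne.symm hji), TensorProduct.zero_tmul, map_zero]
      · intro hi
        exact absurd (Finset.mem_range.2 (Nat.lt_succ_self i)) hi
    intro x
    rw [← rT_alg]
    exact AlgHom.congr_fun h x

theorem coP_X (i : ℕ) : coP (X i) =
    ∑ j ∈ Finset.range (i + 1), ((xi (i - j) * T) ^ (2 ^ j)) ⊗ₜ[ZMod 2] X j := by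
  simp [coP]

theorem coV_X (i : ℕ) : coV (X i) = ∑ j ∈ Finset.range (i + 1),
    (xi (i - j) ^ (2 ^ (j + 1)) * T ^ (2 ^ (j + 1) - 1)) ⊗ₜ[ZMod 2] X j := by
  simp [coV]

theorem Dl_a (i j : ℕ) (hj : j ≤ i) : Dl ((xi (i - j) * T) ^ (2 ^ j)) =
    ∑ l ∈ Finset.Ico j (i + 1),
      ((xi (i - l) * T) ^ (2 ^ l)) ⊗ₜ[ZMod 2] ((xi (l - j) * T) ^ (2 ^ j)) := by
  rw [map_pow, map_mul, Dl_xi, Dl_T, Finset.sum_mul, sum_pow2, Finset.sum_Ico_eq_sum_range,
    show i + 1 - j = i - j + 1 by omega]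
  apply Finset.sum_congr rfl
  intro k hk
  rw [Algebra.TensorProduct.tmul_mul_tmul, Algebra.TensorProduct.tmul_pow,
    show i - (j + k) = i - j - k by omega, Nat.add_sub_cancel_left]
  congr 1
  rw [mul_assoc, ← pow_succ, Nat.sub_add_cancel Nat.one_le_two_pow, ← mul_pow, ← pow_mul,
    ← pow_add, Nat.add_comm k j]

theorem Dl_b (i j : ℕ) (hj : j ≤ i) : Dl (xi (i - j) ^ (2 ^ (j + 1)) * T ^ (2 ^ (j + 1) - 1)) =
    ∑ l ∈ Finset.Ico j (i + 1),
      (xi (i - l) ^ (2 ^ (l + 1)) * T ^ (2 ^ (l + 1) - 1)) ⊗ₜ[ZMod 2]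
        (xi (l - j) ^ (2 ^ (j + 1)) * T ^ (2 ^ (j + 1) - 1)) := by
  rw [map_mul, map_pow, Dl_T_pow, Dl_xi, sum_pow2, Finset.sum_mul, Finset.sum_Ico_eq_sum_range,
    show i + 1 - j = i - j + 1 by omega]
  apply Finset.sum_congr rfl
  intro k hk
  rw [Algebra.TensorProduct.tmul_pow, Algebra.TensorProduct.tmul_mul_tmul,
    show i - (j + k) = i - j - k by omega, Nat.add_sub_cancel_left]
  congr 1
  have h1 : (2 ^ k - 1) * 2 ^ (j + 1) + (2 ^ (j + 1) - 1) = 2 ^ (j + k + 1) - 1 := by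
    have h2 : 2 ^ (j + k + 1) = 2 ^ k * 2 ^ (j + 1) := by
      rw [← pow_add]
      congr 1
      omega
    have h3 : 1 ≤ 2 ^ k := Nat.one_le_two_pow
    have h4 : 1 ≤ 2 ^ (j + 1) := Nat.one_le_two_pow
    rw [h2, Nat.sub_mul, one_mul]
    have h5 : 2 ^ (j + 1) ≤ 2 ^ k * 2 ^ (j + 1) := Nat.le_mul_of_pos_left _ h3
    omega
  rw [mul_pow, ← pow_mul, ← pow_add, ← pow_mul, mul_assoc, ← pow_add, h1]
  congr 3
  omega

theorem ep_a (i j : ℕ) (hj : j ≤ i) :
    ep ((xi (i - j) * T) ^ (2 ^ j)) = if i = j then 1 else 0 := by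
  rw [map_pow, map_mul, ep_T, ep_xi, mul_one]
  by_cases h : i = j
  · rw [if_pos h, if_pos (by omega), one_pow]
  · rw [if_neg h, if_neg (by omega), zero_pow (by positivity)]

theorem ep_b (i j : ℕ) (hj : j ≤ i) :
    ep (xi (i - j) ^ (2 ^ (j + 1)) * T ^ (2 ^ (j + 1) - 1)) = if i = j then 1 else 0 := by
  rw [map_mul, map_pow, map_pow, ep_T, ep_xi, one_pow, mul_one]
  by_cases h : i = j
  · rw [if_pos h, if_pos (by omega), one_pow]
  · rw [if_neg h, if_neg (by omega), zero_pow (by positivity)]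

end PolyCAux

instance cmd_SfP : IsCmd (no_index SfP) :=
  ⟨(PolyCAux.cmd_of coP _ PolyCAux.coP_X PolyCAux.Dl_a PolyCAux.ep_a).1,
    (PolyCAux.cmd_of coP _ PolyCAux.coP_X PolyCAux.Dl_a PolyCAux.ep_a).2⟩

instance cmd_SfV : IsCmd (no_index SfV) :=
  ⟨(PolyCAux.cmd_of coV _ PolyCAux.coV_X PolyCAux.Dl_b PolyCAux.ep_b).1,
    (PolyCAux.cmd_of coV _ PolyCAux.coV_X PolyCAux.Dl_b PolyCAux.ep_b).2⟩

end

end Pool.Agent.Pet19
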