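import Pool.Agent.Pet19.SEST
import Pool.Agent.Pet19.Poly

/-!
# Pet19.Prm: `Good` does not depend on the order of the parts
-/

set_option autoImplicit false
open MvPolynomial TensorProduct

namespace Pool.Agent.Pet19

noncomputable section

theorem iso_perm {l l' : List ℕ} (h : l.Perm l') : Iso (SPl l) (SPl l') := by
  induction h with
  | nil => exact iso_refl _
  | cons x _ ih => exact iso_tens (iso_refl (SP x)) ih
  | swap x y l =>
    have h1 : Iso (tens (SP y) (tens (SP x) (SPl l))) (tens (tens (SP y) (SP x)) (SPl l)) :=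
      iso_symm (iso_tens_assoc _ _ _)
    have h2 : Iso (tens (tens (SP y) (SP x)) (SPl l)) (tens (tens (SP x) (SP y)) (SPl l)) :=
      iso_tens (iso_tens_comm _ _) (iso_refl _)
    have h3 : Iso (tens (tens (SP x) (SP y)) (SPl l)) (tens (SP x) (tens (SP y) (SPl l))) :=
      iso_tens_assoc _ _ _
    exact iso_trans (iso_trans h1 h2) h3
  | trans _ _ ih1 ih2 => exact iso_trans ih1 ih2

theorem good_perm (s : ℕ) {l l' : List ℕ} (h : l.Perm l') (z : ℕ) (hG : Good s l z) :
    Good s l' z :=
  fun e => V_iso (iso_shift (iso_perm h) e) _ _ (hG e)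

/-- `Good s [0] t` gives vanishing for the trivial comodule -/
theorem V_triv_of_good (s t : ℕ) (h : Good s [0] t) : V t s triv := by
  have h1 := h 0
  rw [zero_add] at h1
  have h2 : Iso (SPl [0]) (SP 0) := iso_tens_triv (SP 0)
  have h3 : Iso (shift (SPl [0]) 0) triv :=
    iso_trans (iso_shift_zero _) (iso_trans h2 iso_SP_zero)
  exact V_iso h3 t s h1

end

end Pool.Agent.Pet19
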