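import Pool.Agent.Pet19.D0h
import Pool.Agent.Pet19.KdH

/-!
# Pet19.SPK: Koszul cohomology of `S^n(P)⟨E⟩`

`Kd a (SP n) (f ⊗ g) = ∑_j f X_j ⊗ X_0 ∂g/∂X_(j+1)`, i.e.
`(1 ⊗ incl)(Kd a (SP n) z) = (1 ⊗ (X_0 ·)) (Dp a ((1 ⊗ incl) z))` (`theta_P`; the shift by `E` plays no
role because `theta (T^E c) = theta c`).
Let `Z = subP _ (ker (Kd (a+1) M))`, `M = shift (SP n) E`, `i` the inclusion, `b` the corestriction of
`Kd a M`, and `π z = (1 ⊗ qn n) z ∈ HH (a+1) ⊗ HH n`, which lies in `ker (D0n (a+1) n)` by `D0_qq`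
(and because multiplication by `X_0` is injective).
Colinearity: by `SV_twist`, `shift (SV (a+1)) (a+1)` and `infl (SP (a+1))` have the same coaction, so
`tens (SV (a+1)) (shift (SP n) E)` is `tens (shift (SV (a+1)) (a+1)) (shift (SP n) (E-(a+1)))` and
`1 ⊗ qn n` maps it colinearly to `shift (infl (tens (SP (a+1)) (SP n))) (E-(a+1))`.
Kernel of `π`: if `(1 ⊗ qn n) z = 0` then `z = (1 ⊗ X_0) u` with `u ∈ HH (a+1) ⊗ HH (n-1)` (`ses_P0`; for
`n = 0` `z = 0`), `Dp u = 0`, `u = Dp y` by `KE_exact`, `z = Kd a M y`.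
Surjectivity: `z = (1 ⊗ sh1) z'`.
-/

set_option autoImplicit false
open MvPolynomial TensorProduct

namespace Pool.Agent.Pet19

noncomputable section

/-- Leibniz rule for `θ ⊗ 1`. -/
private theorem rTheta_mul (u v : PP ⊗[ZMod 2] PP) :
    LinearMap.rTensor PP theta (u * v) =
      ((1 : PP) ⊗ₜ[ZMod 2]
        (TensorProduct.lid (ZMod 2) PP (LinearMap.rTensor PP ep.toLinearMap u))) *
          LinearMap.rTensor PP theta v +
      ((1 : PP) ⊗ₜ[ZMod 2]
        (TensorProduct.lid (ZMod 2) PP (LinearMap.rTensor PP ep.toLinearMap v))) *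
          LinearMap.rTensor PP theta u := by
  induction u using TensorProduct.induction_on with
  | zero => simp only [zero_mul, map_zero, mul_zero, tmul_zero, add_zero]
  | add u u' hu hu' =>
    simp only [add_mul, map_add, tmul_add, mul_add, hu, hu']
    abel
  | tmul a b =>
    induction v using TensorProduct.induction_on with
    | zero => simp only [zero_mul, map_zero, mul_zero, tmul_zero, add_zero]
    | add v v' hv hv' =>
      simp only [add_mul, map_add, tmul_add, mul_add, hv, hv']
      abel
    | tmul c d =>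
      rw [Algebra.TensorProduct.tmul_mul_tmul, LinearMap.rTensor_tmul, LinearMap.rTensor_tmul,
        LinearMap.rTensor_tmul, LinearMap.rTensor_tmul, LinearMap.rTensor_tmul,
        TensorProduct.lid_tmul, TensorProduct.lid_tmul, Algebra.TensorProduct.tmul_mul_tmul,
        Algebra.TensorProduct.tmul_mul_tmul, theta_mul, TensorProduct.add_tmul, one_mul, one_mul,
        AlgHom.toLinearMap_apply, AlgHom.toLinearMap_apply, smul_mul_assoc, smul_mul_assoc,
        TensorProduct.smul_tmul, TensorProduct.smul_tmul, mul_comm d b]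

private theorem lX0_mul (x : PP) (w : PP ⊗[ZMod 2] PP) :
    LinearMap.lTensor PP (LinearMap.mulLeft (ZMod 2) (X 0 : PP))
        (((1 : PP) ⊗ₜ[ZMod 2] x) * w) =
      ((1 : PP) ⊗ₜ[ZMod 2] x) *
        LinearMap.lTensor PP (LinearMap.mulLeft (ZMod 2) (X 0 : PP)) w := by
  induction w using TensorProduct.induction_on with
  | zero => simp only [mul_zero, map_zero]
  | add u v hu hv => simp only [mul_add, map_add, hu, hv]
  | tmul a b =>
    rw [Algebra.TensorProduct.tmul_mul_tmul, LinearMap.lTensor_tmul, LinearMap.lTensor_tmul,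
      Algebra.TensorProduct.tmul_mul_tmul, LinearMap.mulLeft_apply, LinearMap.mulLeft_apply]
    congr 1
    ring

private theorem tauP_def (g : PP) : tauP g = LinearMap.rTensor PP theta (Dl g) := by
  simp [tauP]

private theorem tauP_mul (x y : PP) :
    tauP (x * y) = ((1 : PP) ⊗ₜ[ZMod 2] x) * tauP y + ((1 : PP) ⊗ₜ[ZMod 2] y) * tauP x := by
  rw [tauP_def, tauP_def, tauP_def, map_mul, rTheta_mul, Dl_cu, Dl_cu]

private theorem coP_cu (x : PP) :
    TensorProduct.lid (ZMod 2) PP (LinearMap.rTensor PP ep.toLinearMap (coP x)) = x :=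
  (cmd_SfP).cu x

private theorem spk_coP_X (i : ℕ) : coP (X i) =
    ∑ j ∈ Finset.range (i + 1), ((xi (i - j) * T) ^ (2 ^ j)) ⊗ₜ[ZMod 2] X j := by
  simp [coP]

private theorem theta_P_X (i : ℕ) :
    LinearMap.rTensor PP theta (coP (X i)) =
      LinearMap.lTensor PP (LinearMap.mulLeft (ZMod 2) (X 0 : PP)) (tauP (X i)) := by
  rw [spk_coP_X, map_sum, Finset.sum_eq_single 0]
  · rw [LinearMap.rTensor_tmul, Nat.sub_zero, pow_zero, pow_one, theta_mul, theta_T, smul_zero,
      zero_add, ep_T, one_smul, tauP_eq (X i) (i + 1) (fun n hn => ?_)]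
    · rw [map_sum]
      cases i with
      | zero =>
        rw [xi_zero, theta_one, TensorProduct.zero_tmul]
        symm
        refine Finset.sum_eq_zero fun j _ => ?_
        rw [pderiv_X_of_ne (by omega), TensorProduct.tmul_zero, map_zero]
      | succ m =>
        rw [xi_succ, theta_X_succ, Finset.sum_eq_single m]
        · rw [pderiv_X_self, LinearMap.lTensor_tmul, LinearMap.mulLeft_apply, mul_one]
        · intro j _ hj
          rw [pderiv_X_of_ne (by omega), TensorProduct.tmul_zero, map_zero]
        · intro h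
          exact absurd (Finset.mem_range.2 (by omega)) h
    · rw [vars_X, Finset.mem_singleton] at hn
      omega
  · intro j _ hj
    rw [LinearMap.rTensor_tmul, theta_sq _ j (by omega), TensorProduct.zero_tmul]
  · intro h
    exact absurd (Finset.mem_range.2 (by omega)) h

/-- `(θ ⊗ 1) coP = (1 ⊗ X_0) τ` -/
theorem theta_P (g : PP) :
    LinearMap.rTensor PP theta (coP g) =
      LinearMap.lTensor PP (LinearMap.mulLeft (ZMod 2) (X 0 : PP)) (tauP g) := by
  induction g using MvPolynomial.induction_on with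
  | C c =>
    have h1 : (C c : PP) = c • (1 : PP) := by rw [MvPolynomial.smul_eq_C_mul, mul_one]
    have h2 : LinearMap.rTensor PP theta (coP (1 : PP)) = 0 := by
      rw [map_one, Algebra.TensorProduct.one_def, LinearMap.rTensor_tmul, theta_one,
        TensorProduct.zero_tmul]
    have h3 : tauP (1 : PP) = 0 := by
      rw [tauP_def, map_one, Algebra.TensorProduct.one_def, LinearMap.rTensor_tmul, theta_one,
        TensorProduct.zero_tmul]
    rw [h1, map_smul, map_smul, map_smul, map_smul, h2, h3, map_zero, smul_zero]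
  | add p q hp hq => rw [map_add, map_add, map_add, map_add, hp, hq]
  | mul_X p i hp =>
    rw [map_mul, rTheta_mul, coP_cu, coP_cu, tauP_mul, map_add, lX0_mul, lX0_mul, hp, theta_P_X]

private theorem theta_mT (E : ℕ) (x : PP) : theta (mT E x) = theta x := by
  rw [mT_apply, theta_mul, theta_T_pow, smul_zero, add_zero, map_pow, ep_T, one_pow, one_smul]

private theorem Dp_tmul' (a : ℕ) (f : HH a) (g : PP) :
    Dp a (f ⊗ₜ[ZMod 2] g) = LinearMap.rTensor PP (mulh a)
      ((TensorProduct.assoc (ZMod 2) (HH a) PP PP).symm (f ⊗ₜ[ZMod 2] tauP g)) := by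
  simp [Dp]

private theorem Kd_SfP (a E : ℕ) (w : (Kc a (shift SfP E)).N) :
    Kd a (shift SfP E) w =
      LinearMap.lTensor (HH (a + 1)) (LinearMap.mulLeft (ZMod 2) (X 0 : PP)) (Dp a w) := by
  induction w using TensorProduct.induction_on with
  | zero => rw [map_zero, map_zero, map_zero]
  | add u v hu hv => rw [map_add, map_add, map_add, hu, hv]
  | tmul f g =>
    rw [Kd_tmul, Dp_tmul']
    change LinearMap.rTensor PP (mulh a ∘ₗ LinearMap.lTensor (HH a) theta)
        ((TensorProduct.assoc (ZMod 2) (HH a) PP PP).symm (f ⊗ₜ[ZMod 2] shiftδ SfP E g)) = _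
    have h1 : ∀ u : PP ⊗[ZMod 2] PP,
        LinearMap.rTensor PP (mulh a ∘ₗ LinearMap.lTensor (HH a) theta)
          ((TensorProduct.assoc (ZMod 2) (HH a) PP PP).symm (f ⊗ₜ[ZMod 2] u)) =
        LinearMap.rTensor PP (mulh a)
          ((TensorProduct.assoc (ZMod 2) (HH a) PP PP).symm
            (f ⊗ₜ[ZMod 2] LinearMap.rTensor PP theta u)) := by
      intro u
      induction u using TensorProduct.induction_on with
      | zero => simp only [map_zero, tmul_zero]
      | add u v hu hv => simp only [map_add, tmul_add, hu, hv]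
      | tmul c n =>
        rw [LinearMap.rTensor_tmul, TensorProduct.assoc_symm_tmul, TensorProduct.assoc_symm_tmul,
          LinearMap.rTensor_tmul, LinearMap.rTensor_tmul, LinearMap.comp_apply,
          LinearMap.lTensor_tmul]
    have h2 : ∀ u : PP ⊗[ZMod 2] PP,
        LinearMap.rTensor PP (mulh a)
          ((TensorProduct.assoc (ZMod 2) (HH a) PP PP).symm
            (f ⊗ₜ[ZMod 2] LinearMap.lTensor PP (LinearMap.mulLeft (ZMod 2) (X 0 : PP)) u)) =
        LinearMap.lTensor (HH (a + 1)) (LinearMap.mulLeft (ZMod 2) (X 0 : PP))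
          (LinearMap.rTensor PP (mulh a)
            ((TensorProduct.assoc (ZMod 2) (HH a) PP PP).symm (f ⊗ₜ[ZMod 2] u))) := by
      intro u
      induction u using TensorProduct.induction_on with
      | zero => simp only [map_zero, tmul_zero]
      | add u v hu hv => simp only [map_add, tmul_add, hu, hv]
      | tmul c n =>
        rw [LinearMap.lTensor_tmul, TensorProduct.assoc_symm_tmul, TensorProduct.assoc_symm_tmul,
          LinearMap.rTensor_tmul, LinearMap.rTensor_tmul, LinearMap.lTensor_tmul]
    have h3 : LinearMap.rTensor PP theta (shiftδ SfP E g) =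
        LinearMap.rTensor PP theta (coP g) := by
      rw [shiftδ_apply]
      change LinearMap.rTensor PP theta (LinearMap.rTensor PP (mT E) (coP g)) = _
      have h4 : ∀ u : PP ⊗[ZMod 2] PP,
          LinearMap.rTensor PP theta (LinearMap.rTensor PP (mT E) u) =
            LinearMap.rTensor PP theta u := by
        intro u
        induction u using TensorProduct.induction_on with
        | zero => simp only [map_zero]
        | add u v hu hv => simp only [map_add, hu, hv]
        | tmul c n =>
          rw [LinearMap.rTensor_tmul, LinearMap.rTensor_tmul, LinearMap.rTensor_tmul, theta_mT]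
      exact h4 _
    rw [h1, h3, theta_P, h2]

theorem Kd_SP (a n E : ℕ) (z : (Kc a (shift (SP n) E)).N) :
    LinearMap.lTensor (HH (a + 1)) (HH n).subtype (Kd a (shift (SP n) E) z) =
      LinearMap.lTensor (HH (a + 1)) (LinearMap.mulLeft (ZMod 2) (X 0 : PP))
        (Dp a (LinearMap.lTensor (HH a) (HH n).subtype z)) := by
  have h1 : IsHom (shift (SP n) E) (shift SfP E) (HH n).subtype :=
    hom_shift (subP_hom SfP (HH n) (isSub_SfP n)) E
  have h2 := Kd_nat a h1 z
  rw [Kd_SfP] at h2
  exact h2.symm

/-- the reduction map is colinear -/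
theorem red_hom (a n E : ℕ) (h : a + 1 ≤ E) :
    IsHom (Kc (a + 1) (shift (SP n) E)) (shift (infl (tens (SP (a + 1)) (SP n))) (E - (a + 1)))
      (LinearMap.lTensor (HH (a + 1)) (qn n)) := by
  intro x
  change shiftδ (infl (tens (SP (a + 1)) (SP n))) (E - (a + 1))
      (LinearMap.lTensor (HH (a + 1)) (qn n) x) =
    LinearMap.lTensor PP (LinearMap.lTensor (HH (a + 1)) (qn n))
      (tensδ (SV (a + 1)) (shift (SP n) E) x)
  rw [shiftδ_apply]
  change LinearMap.rTensor _ (mT (E - (a + 1)))
      (inflδ (tens (SP (a + 1)) (SP n)) (LinearMap.lTensor (HH (a + 1)) (qn n) x)) = _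
  rw [inflδ_apply]
  change LinearMap.rTensor _ (mT (E - (a + 1))) (LinearMap.rTensor _ FrL
      (tensδ (SP (a + 1)) (SP n) (LinearMap.lTensor (HH (a + 1)) (qn n) x))) = _
  induction x using TensorProduct.induction_on with
  | zero => simp only [map_zero]
  | add u v hu hv => simp only [map_add, hu, hv]
  | tmul f g =>
    rw [LinearMap.lTensor_tmul, tensδ_tmul, tensδ_tmul]
    change LinearMap.rTensor _ (mT (E - (a + 1))) (LinearMap.rTensor _ FrL
        (star (HH (a + 1)) (HH n) ((SP (a + 1)).δ f ⊗ₜ[ZMod 2] (SP n).δ (qn n g)))) =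
      LinearMap.lTensor PP (LinearMap.lTensor (HH (a + 1)) (qn n))
        (star (HH (a + 1)) (HH n) ((SV (a + 1)).δ f ⊗ₜ[ZMod 2] shiftδ (SP n) E g))
    rw [shiftδ_apply]
    have h1 := SV_twist (a + 1) f
    have h2 : LinearMap.rTensor (HH n) FrL ((SP n).δ (qn n g)) =
        LinearMap.lTensor PP (qn n) ((SP n).δ g) := by
      have h3 := qn_hom n g
      rw [← h3]
      change _ = inflδ (SP n) (qn n g)
      rw [inflδ_apply]
    -- Frobenius is multiplicative
    have e1 : ∀ (u : PP ⊗[ZMod 2] (HH (a + 1))) (v : PP ⊗[ZMod 2] (HH n)),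
        LinearMap.rTensor _ FrL (star (HH (a + 1)) (HH n) (u ⊗ₜ[ZMod 2] v)) =
          star (HH (a + 1)) (HH n)
            (LinearMap.rTensor (HH (a + 1)) FrL u ⊗ₜ[ZMod 2] LinearMap.rTensor (HH n) FrL v) := by
      intro u v
      induction u using TensorProduct.induction_on with
      | zero => simp only [map_zero, zero_tmul]
      | add u u' hu hu' => simp only [map_add, add_tmul, hu, hu']
      | tmul c m =>
        induction v using TensorProduct.induction_on with
        | zero => simp only [map_zero, tmul_zero]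
        | add v v' hv hv' => simp only [map_add, tmul_add, hv, hv']
        | tmul c' m' =>
          rw [star_tmul, LinearMap.rTensor_tmul, LinearMap.rTensor_tmul, LinearMap.rTensor_tmul,
            star_tmul, FrL_mul]
    -- moving powers of `T`
    have e2 : ∀ (i : ℕ) (u : PP ⊗[ZMod 2] (HH (a + 1))) (v : PP ⊗[ZMod 2] (HH n)),
        LinearMap.rTensor _ (mT i) (star (HH (a + 1)) (HH n)
          (LinearMap.rTensor (HH (a + 1)) (mT (a + 1)) u ⊗ₜ[ZMod 2] v)) =
          star (HH (a + 1)) (HH n) (u ⊗ₜ[ZMod 2]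
            LinearMap.rTensor (HH n) (mT (i + (a + 1))) v) := by
      intro i u v
      induction u using TensorProduct.induction_on with
      | zero => simp only [map_zero, zero_tmul]
      | add u u' hu hu' => simp only [map_add, add_tmul, hu, hu']
      | tmul c m =>
        induction v using TensorProduct.induction_on with
        | zero => simp only [map_zero, tmul_zero]
        | add v v' hv hv' => simp only [map_add, tmul_add, hv, hv']
        | tmul c' m' =>
          rw [LinearMap.rTensor_tmul, LinearMap.rTensor_tmul, star_tmul, star_tmul,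
            LinearMap.rTensor_tmul, mT_apply, mT_apply, mT_apply, pow_add]
          congr 1
          ring
    -- naturality of `star` in the second variable
    have e3 : ∀ (u : PP ⊗[ZMod 2] (HH (a + 1))) (v : PP ⊗[ZMod 2] (HH n)),
        LinearMap.lTensor PP (LinearMap.lTensor (HH (a + 1)) (qn n))
          (star (HH (a + 1)) (HH n) (u ⊗ₜ[ZMod 2] v)) =
          star (HH (a + 1)) (HH n) (u ⊗ₜ[ZMod 2] LinearMap.lTensor PP (qn n) v) := by
      intro u v
      induction u using TensorProduct.induction_on with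
      | zero => simp only [map_zero, zero_tmul]
      | add u u' hu hu' => simp only [map_add, add_tmul, hu, hu']
      | tmul c m =>
        induction v using TensorProduct.induction_on with
        | zero => simp only [map_zero, tmul_zero]
        | add v v' hv hv' => simp only [map_add, tmul_add, hv, hv']
        | tmul c' m' =>
          rw [star_tmul, LinearMap.lTensor_tmul, LinearMap.lTensor_tmul, LinearMap.lTensor_tmul,
            star_tmul]
    have e4 : ∀ v : PP ⊗[ZMod 2] (HH n),
        LinearMap.lTensor PP (qn n) (LinearMap.rTensor (HH n) (mT E) v) =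
          LinearMap.rTensor (HH n) (mT E) (LinearMap.lTensor PP (qn n) v) := by
      intro v
      induction v using TensorProduct.induction_on with
      | zero => simp only [map_zero]
      | add v v' hv hv' => simp only [map_add, hv, hv']
      | tmul c' m' =>
        rw [LinearMap.rTensor_tmul, LinearMap.lTensor_tmul, LinearMap.lTensor_tmul,
          LinearMap.rTensor_tmul]
    rw [e1, h2, ← h1, e2, e3, e4, Nat.sub_add_cancel h]

private theorem lTensor_sub_inj (a n : ℕ) :
    Function.Injective (LinearMap.lTensor (HH a) (HH n).subtype) :=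
  lTensor_inj (HH a) (HH n).injective_subtype

private theorem lTensor_X0_inj (a : ℕ) :
    Function.Injective
      (LinearMap.lTensor (HH a) (LinearMap.mulLeft (ZMod 2) (X 0 : PP))) :=
  lTensor_inj (HH a) (fun x y hxy => by
    rw [LinearMap.mulLeft_apply, LinearMap.mulLeft_apply] at hxy
    exact mul_left_cancel₀ (X_ne_zero 0) hxy)

/-- `Dp` commutes with multiplication by `X 0` -/
private theorem Dp_X0 (a : ℕ) (w : HH a ⊗[ZMod 2] PP) :
    Dp a (LinearMap.lTensor (HH a) (LinearMap.mulLeft (ZMod 2) (X 0 : PP)) w) =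
      LinearMap.lTensor (HH (a + 1)) (LinearMap.mulLeft (ZMod 2) (X 0 : PP)) (Dp a w) := by
  induction w using TensorProduct.induction_on with
  | zero => simp only [map_zero]
  | add u v hu hv => simp only [map_add, hu, hv]
  | tmul f g =>
    have h0 : tauP (X 0 : PP) = 0 := by
      rw [tauP_eq (X 0) 0 (fun n hn => ?_)]
      · rw [Finset.range_zero, Finset.sum_empty]
      · rw [vars_X, Finset.mem_singleton] at hn
        omega
    have h1 : tauP ((X 0 : PP) * g) = ((1 : PP) ⊗ₜ[ZMod 2] (X 0 : PP)) * tauP g := by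
      rw [tauP_mul, h0, mul_zero, add_zero]
    have h2 : ∀ u : PP ⊗[ZMod 2] PP,
        LinearMap.rTensor PP (mulh a)
          ((TensorProduct.assoc (ZMod 2) (HH a) PP PP).symm
            (f ⊗ₜ[ZMod 2] (((1 : PP) ⊗ₜ[ZMod 2] (X 0 : PP)) * u))) =
        LinearMap.lTensor (HH (a + 1)) (LinearMap.mulLeft (ZMod 2) (X 0 : PP))
          (LinearMap.rTensor PP (mulh a)
            ((TensorProduct.assoc (ZMod 2) (HH a) PP PP).symm (f ⊗ₜ[ZMod 2] u))) := by
      intro u
      induction u using TensorProduct.induction_on with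
      | zero => simp only [map_zero, tmul_zero, mul_zero]
      | add u v hu hv => simp only [map_add, tmul_add, mul_add, hu, hv]
      | tmul c n =>
        rw [Algebra.TensorProduct.tmul_mul_tmul, one_mul, TensorProduct.assoc_symm_tmul,
          TensorProduct.assoc_symm_tmul, LinearMap.rTensor_tmul, LinearMap.rTensor_tmul,
          LinearMap.lTensor_tmul, LinearMap.mulLeft_apply]
    rw [LinearMap.lTensor_tmul, LinearMap.mulLeft_apply, Dp_tmul', Dp_tmul', h1, h2]

/-- `(1 ⊗ incl) (1 ⊗ qn) = (1 ⊗ qq) (1 ⊗ incl)` -/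
private theorem sub_qn (a n : ℕ) (z : HH a ⊗[ZMod 2] HH n) :
    LinearMap.lTensor (HH a) (HH n).subtype (LinearMap.lTensor (HH a) (qn n) z) =
      LinearMap.lTensor (HH a) qq.toLinearMap (LinearMap.lTensor (HH a) (HH n).subtype z) := by
  induction z using TensorProduct.induction_on with
  | zero => simp only [map_zero]
  | add u v hu hv => simp only [map_add, hu, hv]
  | tmul f g =>
    rw [LinearMap.lTensor_tmul, LinearMap.lTensor_tmul, LinearMap.lTensor_tmul,
      LinearMap.lTensor_tmul, Submodule.subtype_apply, Submodule.subtype_apply, qn_coe,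
      AlgHom.toLinearMap_apply]

private theorem D0n_apply (a n : ℕ) (z : HH a ⊗[ZMod 2] HH n) :
    D0n a n z = D0 a (LinearMap.lTensor (HH a) (HH n).subtype z) := by
  simp [D0n]

/-- a Koszul cycle of `S^n(P)` is a `Dp`-cycle -/
private theorem Dp_of_Kd (a n E : ℕ) (z : (Kc a (shift (SP n) E)).N)
    (hz : Kd a (shift (SP n) E) z = 0) :
    Dp a (LinearMap.lTensor (HH a) (HH n).subtype z) = 0 := by
  have h1 := Kd_SP a n E z
  rw [hz, map_zero] at h1
  apply lTensor_X0_inj (a + 1)
  rw [map_zero]
  exact h1.symm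

private theorem Kd_of_Dp (a n E : ℕ) (z : (Kc a (shift (SP n) E)).N)
    (hz : Dp a (LinearMap.lTensor (HH a) (HH n).subtype z) = 0) :
    Kd a (shift (SP n) E) z = 0 := by
  apply lTensor_sub_inj (a + 1) n
  rw [map_zero]
  refine (Kd_SP a n E z).trans ?_
  rw [hz, map_zero]

/-- the restriction of `sh1` to degree `n` -/
private def s1 (n : ℕ) : HH n →ₗ[ZMod 2] HH n :=
  LinearMap.codRestrict (HH n) (sh1.toLinearMap ∘ₗ (HH n).subtype)
    (fun x => sh1_mem n x.2)

private theorem s1_coe (n : ℕ) (x : HH n) : ((s1 n x : HH n) : PP) = sh1 (x : PP) := rfl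

private theorem qn_s1 (n : ℕ) : qn n ∘ₗ s1 n = LinearMap.id := by
  apply LinearMap.ext
  intro x
  apply Subtype.ext
  rw [LinearMap.comp_apply, qn_coe, s1_coe, qq_sh1, LinearMap.id_apply]

private theorem sub_s1 (a n : ℕ) (z : HH a ⊗[ZMod 2] HH n) :
    LinearMap.lTensor (HH a) (HH n).subtype (LinearMap.lTensor (HH a) (s1 n) z) =
      LinearMap.lTensor (HH a) sh1.toLinearMap (LinearMap.lTensor (HH a) (HH n).subtype z) := by
  induction z using TensorProduct.induction_on with
  | zero => simp only [map_zero]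
  | add u v hu hv => simp only [map_add, hu, hv]
  | tmul f g =>
    rw [LinearMap.lTensor_tmul, LinearMap.lTensor_tmul, LinearMap.lTensor_tmul,
      LinearMap.lTensor_tmul, Submodule.subtype_apply, Submodule.subtype_apply, s1_coe,
      AlgHom.toLinearMap_apply]

private theorem sub_mulX0 (a n : ℕ) (z : HH a ⊗[ZMod 2] HH n) :
    LinearMap.lTensor (HH a) (HH (n + 1)).subtype (LinearMap.lTensor (HH a) (mulX0 n) z) =
      LinearMap.lTensor (HH a) (LinearMap.mulLeft (ZMod 2) (X 0 : PP))
        (LinearMap.lTensor (HH a) (HH n).subtype z) := by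
  induction z using TensorProduct.induction_on with
  | zero => simp only [map_zero]
  | add u v hu hv => simp only [map_add, hu, hv]
  | tmul f g =>
    rw [LinearMap.lTensor_tmul, LinearMap.lTensor_tmul, LinearMap.lTensor_tmul,
      LinearMap.lTensor_tmul, Submodule.subtype_apply, Submodule.subtype_apply, mulX0_coe,
      LinearMap.mulLeft_apply]

private theorem qq_X0 : qq (X 0 : PP) = 0 := by
  simp [qq]

/-- `qn 0` is the identity -/
private theorem qn_zero_inj : Function.Injective (qn 0) := by
  intro x y hxy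
  have hc0 : ∀ x : HH 0, qn 0 x = x := by
    intro x
    apply Subtype.ext
    rw [qn_coe]
    have h1 : (x : PP).IsHomogeneous 0 := (mem_homogeneousSubmodule 0 (x : PP)).1 x.2
    have h2 : (x : PP).totalDegree = 0 := Nat.le_zero.1 h1.totalDegree_le
    rw [totalDegree_eq_zero_iff_eq_C] at h2
    rw [h2, ← MvPolynomial.algebraMap_eq, AlgHom.commutes]
  rw [hc0, hc0] at hxy
  exact hxy

/-- kernel of the reduction map on cycles -/
private theorem red_ker (a n E : ℕ) (z : (Kc (a + 1) (shift (SP n) E)).N)
    (hz : Kd (a + 1) (shift (SP n) E) z = 0)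
    (h0 : LinearMap.lTensor (HH (a + 1)) (qn n) z = 0) :
    ∃ y : (Kc a (shift (SP n) E)).N, Kd a (shift (SP n) E) y = z := by
  have hD := Dp_of_Kd (a + 1) n E z hz
  cases n with
  | zero =>
    refine ⟨0, ?_⟩
    rw [map_zero]
    have h1 : LinearMap.lTensor (HH (a + 1)) (qn 0) z =
        LinearMap.lTensor (HH (a + 1)) (qn 0) 0 := by rw [h0, map_zero]
    exact (lTensor_inj (HH (a + 1)) qn_zero_inj h1).symm
  | succ k =>
    obtain ⟨u, hu⟩ := (lTensor_ex (HH (a + 1)) (ses_P0 k).ex z).1 h0
    have h1 : LinearMap.lTensor (HH (a + 1)) (HH (k + 1)).subtype z =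
        LinearMap.lTensor (HH (a + 1)) (LinearMap.mulLeft (ZMod 2) (X 0 : PP))
        (LinearMap.lTensor (HH (a + 1)) (HH k).subtype u) := by
      rw [← hu]
      exact sub_mulX0 (a + 1) k u
    rw [h1, Dp_X0] at hD
    have h2 : Dp (a + 1) (LinearMap.lTensor (HH (a + 1)) (HH k).subtype u) = 0 := by
      apply lTensor_X0_inj (a + 1 + 1)
      rw [map_zero]
      exact hD
    obtain ⟨y, hy⟩ := KE_exact a k u h2
    refine ⟨y, ?_⟩
    apply lTensor_sub_inj (a + 1) (k + 1)
    refine (Kd_SP a (k + 1) E y).trans ?_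
    rw [h1, hy]

theorem SP_KH (a n E : ℕ) (h : a + 1 ≤ E) :
    IsKH a (shift (SP n) E) (shift (infl (KK (a + 1) n)) (E - (a + 1))) := by
  have hsub : IsSub (Kc (a + 1) (shift (SP n) E))
      (LinearMap.ker (Kd (a + 1) (shift (SP n) E))) :=
    isSub_ker (Kd_hom (a + 1) (shift (SP n) E))
  have hπ : ∀ z : LinearMap.ker (Kd (a + 1) (shift (SP n) E)),
      LinearMap.lTensor (HH (a + 1)) (qn n) (z : (Kc (a + 1) (shift (SP n) E)).N) ∈
        LinearMap.ker (D0n (a + 1) n) := by
    intro z
    rw [LinearMap.mem_ker, D0n_apply, sub_qn, D0_qq, Dp_of_Kd (a + 1) n E z.1 z.2, map_zero]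
  refine ⟨subP (Kc (a + 1) (shift (SP n) E)) (LinearMap.ker (Kd (a + 1) (shift (SP n) E))),
    LinearMap.codRestrict _ (Kd a (shift (SP n) E))
      (fun x => Kd_Kd a (shift (SP n) E) x),
    (LinearMap.ker (Kd (a + 1) (shift (SP n) E))).subtype,
    LinearMap.codRestrict (LinearMap.ker (D0n (a + 1) n))
      (LinearMap.lTensor (HH (a + 1)) (qn n) ∘ₗ
        (LinearMap.ker (Kd (a + 1) (shift (SP n) E))).subtype) hπ,
    subP_cmd _ _ hsub, subP_hom _ _ hsub, ?_, ?_, ?_, ?_, ?_, ?_⟩
  · have hi' : IsHom (shift (infl (KK (a + 1) n)) (E - (a + 1)))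
        (shift (infl (tens (SP (a + 1)) (SP n))) (E - (a + 1)))
        (LinearMap.ker (D0n (a + 1) n)).subtype :=
      hom_shift (hom_infl (subP_hom _ _ (isSub_ker (D0n_hom (a + 1) n)))) _
    refine hom_of_inj hi' (LinearMap.ker (D0n (a + 1) n)).injective_subtype ?_
    exact hom_comp (subP_hom _ _ hsub) (red_hom a n E h)
  · rfl
  · exact Submodule.injective_subtype _
  · intro x
    constructor
    · intro hx
      exact ⟨⟨x, hx⟩, rfl⟩
    · rintro ⟨y, rfl⟩
      exact y.2
  · intro z
    constructor
    · intro hz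
      have h1 : LinearMap.lTensor (HH (a + 1)) (qn n)
          (z : (Kc (a + 1) (shift (SP n) E)).N) = 0 := congrArg Subtype.val hz
      obtain ⟨y, hy⟩ := red_ker a n E z.1 z.2 h1
      exact ⟨y, Subtype.ext hy⟩
    · rintro ⟨y, rfl⟩
      apply Subtype.ext
      change LinearMap.lTensor (HH (a + 1)) (qn n) (Kd a (shift (SP n) E) y) = 0
      apply lTensor_sub_inj (a + 1) n
      rw [sub_qn, map_zero]
      have h1 := Kd_SP a n E y
      change LinearMap.lTensor (HH (a + 1)) (HH n).subtype (Kd a (shift (SP n) E) y) = _ at h1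
      rw [h1]
      generalize Dp a (LinearMap.lTensor (HH a) (HH n).subtype y) = w
      induction w using TensorProduct.induction_on with
      | zero => simp only [map_zero]
      | add u v hu hv => simp only [map_add, hu, hv, add_zero]
      | tmul f g =>
        rw [LinearMap.lTensor_tmul, LinearMap.lTensor_tmul, LinearMap.mulLeft_apply,
          AlgHom.toLinearMap_apply, map_mul, qq_X0, zero_mul, TensorProduct.tmul_zero]
  · intro q
    have h1 : D0 (a + 1) (LinearMap.lTensor (HH (a + 1)) (HH n).subtype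
        (q : (tens (SP (a + 1)) (SP n)).N)) = 0 := by
      rw [← D0n_apply]
      exact q.2
    have h2 : Kd (a + 1) (shift (SP n) E) (LinearMap.lTensor (HH (a + 1)) (s1 n)
        (q : (tens (SP (a + 1)) (SP n)).N)) = 0 := by
      apply Kd_of_Dp
      rw [sub_s1, Dp_sh1, h1, map_zero]
    refine ⟨⟨_, h2⟩, ?_⟩
    apply Subtype.ext
    change LinearMap.lTensor (HH (a + 1)) (qn n) (LinearMap.lTensor (HH (a + 1)) (s1 n)
        (q : (tens (SP (a + 1)) (SP n)).N)) = q
    rw [← LinearMap.lTensor_comp_apply, qn_s1, LinearMap.lTensor_id, LinearMap.id_apply]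

end

end Pool.Agent.Pet19
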