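import Pool.Agent.Pet19.Y0
import Pool.Agent.Pet19.TensF

/-!
# Pet19.Y0ops: `Y^0` of shifts, Frobenius twists and tensor products
-/

set_option autoImplicit false
open MvPolynomial TensorProduct

namespace Pool.Agent.Pet19

noncomputable section

namespace Y0opsAux

theorem coord_rTensor {M M' N κ : Type} [AddCommGroup M] [Module (ZMod 2) M] [AddCommGroup M']
    [Module (ZMod 2) M'] [AddCommGroup N] [Module (ZMod 2) N] [DecidableEq κ]
    (b : Module.Basis κ (ZMod 2) N) (f : M →ₗ[ZMod 2] M') (z : M ⊗[ZMod 2] N) (i : κ) :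
    TensorProduct.equivFinsuppOfBasisRight b (LinearMap.rTensor N f z) i =
      f (TensorProduct.equivFinsuppOfBasisRight b z i) := by
  induction z using TensorProduct.induction_on with
  | zero => simp only [map_zero, Finsupp.coe_zero, Pi.zero_apply]
  | tmul m n =>
    rw [LinearMap.rTensor_tmul, TensorProduct.equivFinsuppOfBasisRight_apply_tmul_apply,
      TensorProduct.equivFinsuppOfBasisRight_apply_tmul_apply, map_smul]
  | add x y hx hy =>
    rw [map_add, map_add, Finsupp.add_apply, hx, hy, map_add, Finsupp.add_apply, map_add]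

theorem ker_all {Y M M' N : Type} [AddCommGroup Y] [Module (ZMod 2) Y] [AddCommGroup M]
    [Module (ZMod 2) M] [AddCommGroup M'] [Module (ZMod 2) M'] [AddCommGroup N]
    [Module (ZMod 2) N] (ι : Y →ₗ[ZMod 2] M) (f : ℕ → M →ₗ[ZMod 2] M')
    (h : ∀ x, (∀ n, f n x = 0) → ∃ y, ι y = x) (z : M ⊗[ZMod 2] N)
    (hz : ∀ n, LinearMap.rTensor N (f n) z = 0) : ∃ y, LinearMap.rTensor N ι y = z := by
  classical
  let b := Module.Basis.ofVectorSpace (ZMod 2) N
  let e := TensorProduct.equivFinsuppOfBasisRight (M := M) b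
  have h1 : ∀ i, ∃ y, ι y = e z i := by
    intro i
    apply h
    intro n
    have h2 := coord_rTensor b (f n) z i
    rw [hz n, map_zero, Finsupp.coe_zero, Pi.zero_apply] at h2
    exact h2.symm
  choose y hy using h1
  refine ⟨∑ i ∈ (e z).support, y i ⊗ₜ[ZMod 2] b i, ?_⟩
  rw [map_sum]
  have h3 : ∀ i ∈ (e z).support, LinearMap.rTensor N ι (y i ⊗ₜ[ZMod 2] b i) =
      (e z i) ⊗ₜ[ZMod 2] b i := by
    intro i _
    rw [LinearMap.rTensor_tmul, hy]
  rw [Finset.sum_congr rfl h3]
  have h4 := TensorProduct.equivFinsuppOfBasisRight_symm_apply b (e z)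
  have h5 : (TensorProduct.equivFinsuppOfBasisRight b).symm (e z) = z := e.symm_apply_apply z
  rw [h5] at h4
  exact h4.symm

theorem pd_tens_infl (A N : Pre) [IsCmd A] [IsCmd N] (n : ℕ) (x : A.N ⊗[ZMod 2] N.N) :
    pd (tens A (infl N)) n x = LinearMap.rTensor N.N (pd A n) x := by
  induction x using TensorProduct.induction_on with
  | zero => simp only [map_zero]
  | tmul a m =>
    have h1 := pd_tens A (infl N) n a m
    rw [pd_infl, TensorProduct.tmul_zero, add_zero] at h1
    exact h1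
  | add x y hx hy =>
    have h1 : pd (tens A (infl N)) n (x + y) =
      pd (tens A (infl N)) n x + pd (tens A (infl N)) n y := map_add _ _ _
    rw [h1, hx, hy, map_add]

theorem star_map {M M' N : Type} [AddCommGroup M] [Module (ZMod 2) M] [AddCommGroup M']
    [Module (ZMod 2) M'] [AddCommGroup N] [Module (ZMod 2) N] (ι : M →ₗ[ZMod 2] M')
    (u : PP ⊗[ZMod 2] M) (v : PP ⊗[ZMod 2] N) :
    star M' N (TensorProduct.map FrL ι u ⊗ₜ[ZMod 2] LinearMap.rTensor N FrL v) =
      TensorProduct.map FrL (LinearMap.rTensor N ι) (star M N (u ⊗ₜ[ZMod 2] v)) := by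
  induction u using TensorProduct.induction_on with
  | zero => simp only [map_zero, TensorProduct.zero_tmul]
  | tmul a m =>
    induction v using TensorProduct.induction_on with
    | zero => simp only [map_zero, TensorProduct.tmul_zero]
    | tmul b n =>
      rw [TensorProduct.map_tmul, LinearMap.rTensor_tmul, star_tmul, star_tmul,
        TensorProduct.map_tmul, LinearMap.rTensor_tmul, FrL_mul]
    | add x y hx hy =>
      rw [map_add, TensorProduct.tmul_add, map_add, hx, hy, TensorProduct.tmul_add, map_add,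
        map_add]
  | add x y hx hy =>
    rw [map_add, TensorProduct.add_tmul, map_add, hx, hy, TensorProduct.add_tmul, map_add,
      map_add]

theorem pderiv_sq (n : ℕ) (c : PP) : pderiv n (c ^ 2) = 0 := by
  rw [sq, pderiv_mul, mul_comm c]
  exact add_self_zero _

theorem phi_even (n e : ℕ) (c : PP) : phi n (mT (2 * e) (FrL c)) = 0 := by
  have h1 : T ^ (2 * e) * c ^ 2 = (T ^ e * c) ^ 2 := by ring
  rw [phi_apply, mT_apply, FrL_sq, h1, pderiv_sq, map_zero]

theorem phi_odd (e : ℕ) (c : PP) : phi 0 (mT (2 * e + 1) (FrL c)) = ep c := by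
  have h1 : T ^ (2 * e + 1) * c ^ 2 = T * (T ^ e * c) ^ 2 := by ring
  have h2 : pderiv 0 T = 1 := by
    unfold T
    exact pderiv_X_self 0
  have h3 : ∀ z : ZMod 2, z ^ 2 = z := by decide
  rw [phi_apply, mT_apply, FrL_sq, h1, pderiv_mul, pderiv_sq, h2, mul_zero, add_zero, one_mul,
    map_pow, map_mul, map_pow, ep_T, one_pow, one_mul, h3]

theorem rT_comp2 {M : Type} [AddCommGroup M] [Module (ZMod 2) M] (f g h k : PP →ₗ[ZMod 2] PP)
    (hk : ∀ c, g (f c) = k (h c)) (u : PP ⊗[ZMod 2] M) :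
    LinearMap.rTensor M g (LinearMap.rTensor M f u) =
      LinearMap.rTensor M k (LinearMap.rTensor M h u) := by
  have h1 : g ∘ₗ f = k ∘ₗ h := LinearMap.ext hk
  have h2 := LinearMap.rTensor_comp M g f
  have h3 := LinearMap.rTensor_comp M k h
  rw [h1, h3] at h2
  exact (LinearMap.congr_fun h2 u).symm

theorem rT_comp3 {M : Type} [AddCommGroup M] [Module (ZMod 2) M] (f g : PP →ₗ[ZMod 2] PP)
    (h : PP →ₗ[ZMod 2] ZMod 2) (k : PP →ₗ[ZMod 2] ZMod 2) (hk : ∀ c, h (g (f c)) = k c)
    (u : PP ⊗[ZMod 2] M) :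
    LinearMap.rTensor M h (LinearMap.rTensor M g (LinearMap.rTensor M f u)) =
      LinearMap.rTensor M k u := by
  have h1 : h ∘ₗ g ∘ₗ f = k := LinearMap.ext hk
  rw [← h1, LinearMap.rTensor_comp, LinearMap.rTensor_comp]
  rfl

end Y0opsAux

/-- `Y^0(A ⊗ N^(1)) = Y^0(A) ⊗ N`.  The kernel of all `pd A n ⊗ 1` is `Y ⊗ N` (expand along a basis
of `N`). -/
theorem Y0_tens_infl {A Y : Pre} [IsCmd A] {ι : Y.N →ₗ[ZMod 2] A.N} (h : IsY0 A Y ι) (N : Pre)
    [IsCmd N] : IsY0 (tens A (infl N)) (tens Y N) (LinearMap.rTensor N.N ι) := by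
  refine ⟨rTensor_inj N.N h.inj, ?_, ?_⟩
  · intro x
    constructor
    · rintro ⟨y, rfl⟩ n
      rw [Y0opsAux.pd_tens_infl]
      have h1 : pd A n ∘ₗ ι = 0 := LinearMap.ext fun z => (h.mem (ι z)).1 ⟨z, rfl⟩ n
      rw [← LinearMap.comp_apply, ← LinearMap.rTensor_comp, h1, LinearMap.rTensor_zero,
        LinearMap.zero_apply]
    · intro hx
      refine Y0opsAux.ker_all ι (fun n => pd A n) (fun z hz => (h.mem z).2 hz) x ?_
      exact fun n => (Y0opsAux.pd_tens_infl A N n x).symm.trans (hx n)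
  · intro y
    change tensδ A (infl N) (LinearMap.rTensor N.N ι y) =
      TensorProduct.map FrL (LinearMap.rTensor N.N ι) (tensδ Y N y)
    induction y using TensorProduct.induction_on with
    | zero => simp only [map_zero]
    | tmul a m =>
      rw [LinearMap.rTensor_tmul, tensδ_tmul, tensδ_tmul, h.hom]
      change star A.N N.N (TensorProduct.map FrL ι (Y.δ a) ⊗ₜ[ZMod 2] inflδ N m) = _
      rw [inflδ_apply, Y0opsAux.star_map]
    | add x y hx hy => rw [map_add, map_add, hx, hy, map_add, map_add]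

theorem Y0_shift_infl_even (Y : Pre) (e : ℕ) :
    IsY0 (shift (infl Y) (2 * e)) (shift Y e) (LinearMap.id : Y.N →ₗ[ZMod 2] Y.N) := by
  refine ⟨fun x y h => h, ?_, ?_⟩
  · intro x
    refine ⟨fun _ n => ?_, fun _ => ⟨x, rfl⟩⟩
    rw [pd_apply]
    change TensorProduct.lid (ZMod 2) Y.N
      (LinearMap.rTensor Y.N (phi n) (shiftδ (infl Y) (2 * e) x)) = 0
    rw [shiftδ_apply]
    change TensorProduct.lid (ZMod 2) Y.N
      (LinearMap.rTensor Y.N (phi n) (LinearMap.rTensor Y.N (mT (2 * e)) (inflδ Y x))) = 0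
    rw [inflδ_apply, Y0opsAux.rT_comp3 FrL (mT (2 * e)) (phi n) 0
      (fun c => Y0opsAux.phi_even n e c), LinearMap.rTensor_zero, LinearMap.zero_apply, map_zero]
  · intro y
    change shiftδ (infl Y) (2 * e) y = TensorProduct.map FrL LinearMap.id (shiftδ Y e y)
    rw [shiftδ_apply, shiftδ_apply]
    change LinearMap.rTensor Y.N (mT (2 * e)) (inflδ Y y) =
      LinearMap.rTensor Y.N FrL (LinearMap.rTensor Y.N (mT e) (Y.δ y))
    rw [inflδ_apply]
    refine Y0opsAux.rT_comp2 _ _ _ _ (fun c => ?_) _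
    rw [mT_apply, mT_apply, FrL_mul, FrL_sq, FrL_sq, ← pow_mul, mul_comm e 2]

theorem Y0_shift_infl_odd (Y : Pre) [IsCmd Y] (e : ℕ) :
    IsY0 (shift (infl Y) (2 * e + 1)) zeroP 0 := by
  have key : ∀ x : Y.N, pd (shift (infl Y) (2 * e + 1)) 0 x = x := by
    intro x
    rw [pd_apply]
    change TensorProduct.lid (ZMod 2) Y.N
      (LinearMap.rTensor Y.N (phi 0) (shiftδ (infl Y) (2 * e + 1) x)) = x
    rw [shiftδ_apply]
    change TensorProduct.lid (ZMod 2) Y.N
      (LinearMap.rTensor Y.N (phi 0) (LinearMap.rTensor Y.N (mT (2 * e + 1)) (inflδ Y x))) = x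
    rw [inflδ_apply, Y0opsAux.rT_comp3 FrL (mT (2 * e + 1)) (phi 0) ep.toLinearMap
      (fun c => Y0opsAux.phi_odd e c)]
    exact (IsCmd.cu : IsCu Y) x
  refine ⟨fun x y _ => Subsingleton.elim (α := PUnit) x y, ?_, ?_⟩
  · intro x
    constructor
    · rintro ⟨y, rfl⟩ n
      rw [LinearMap.zero_apply, map_zero]
    · intro hx
      refine ⟨PUnit.unit, ?_⟩
      rw [LinearMap.zero_apply]
      exact (hx 0).symm.trans (key x)
  · intro y
    rw [LinearMap.zero_apply, map_zero, TensorProduct.map_zero_right, LinearMap.zero_apply]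

/-- transport along an isomorphism of the ambient comodule -/
theorem Y0_iso {A A' Y : Pre} (h : Iso A A') (hY : ∃ ι, IsY0 A Y ι) : ∃ ι, IsY0 A' Y ι := by
  obtain ⟨e, he⟩ := h
  obtain ⟨ι, hι⟩ := hY
  refine ⟨e.toLinearMap ∘ₗ ι, ?_, ?_, ?_⟩
  · exact e.injective.comp hι.inj
  · intro x
    obtain ⟨z, rfl⟩ := e.surjective x
    have h1 : ∀ n, pd A' n (e z) = e (pd A n z) := fun n => pd_hom he n z
    constructor
    · rintro ⟨y, hy⟩ n
      have h2 : ι y = z := e.injective hy
      rw [h1, (hι.mem z).1 ⟨y, h2⟩ n, map_zero]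
    · intro hx
      have h2 : ∀ n, pd A n z = 0 := fun n => by
        have h3 := hx n
        rw [h1] at h3
        exact e.map_eq_zero_iff.1 h3
      obtain ⟨y, hy⟩ := (hι.mem z).2 h2
      exact ⟨y, congrArg e hy⟩
  · intro y
    have h1 := he (ι y)
    rw [hι.hom y] at h1
    rw [LinearMap.comp_apply]
    refine h1.trans ?_
    rw [← LinearMap.comp_apply]
    congr 1
    refine TensorProduct.ext' fun a b => ?_
    rfl

end

end Pool.Agent.Pet19
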