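import Pool.Agent.Pet19.Poly
import Pool.Agent.Pet19.P0
import Pool.Agent.Pet19.Y0ops

/-!
# Pet19.SPY: `Y^0` of `S^n(P)⟨E⟩`

For `f ∈ HH n`: `pd (SP n) (j+1) f = X_0 ∂f/∂X_(j+1)` and `pd (SP n) 0 f = X_0 ∂f/∂X_0`
(`(phi m ⊗ 1) coP` is a derivation; `phi (j+1) ((xi_(i-l) T)^(2^l))` is nonzero only for `l = 0`,
`i = j+1`).  With the shift, `pd (shift A E) (j+1) = pd A (j+1)` and `pd (shift A E) 0 x = pd A 0 x + E x`.
The common kernel of the `∂/∂X_(j+1)` in `HH n` is `X_0^(n%2) * {squares of HH (n/2)}`; there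
`pd 0 x = n x`.  For `n + E` even: `ι f = X_0^(n%2) * f^2` (linear over `ZMod 2`, `f^2 = Fr f`), and
`coP (X_0^ε f^2) = (T^ε ⊗ X_0^ε)(Fr ⊗ Fr)(coP f)`.  For `n + E` odd the common kernel is `0`.
-/

set_option autoImplicit false
open MvPolynomial TensorProduct

namespace Pool.Agent.Pet19

noncomputable section

/-- `(φ_m ⊗ 1)` -/
private def helper23_K (M : Type) [AddCommGroup M] [Module (ZMod 2) M] (m : ℕ) :
    PP ⊗[ZMod 2] M →ₗ[ZMod 2] M :=
  (TensorProduct.lid (ZMod 2) M).toLinearMap ∘ₗ LinearMap.rTensor M (phi m)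

/-- `(ε ⊗ 1)` -/
private def helper23_E (M : Type) [AddCommGroup M] [Module (ZMod 2) M] :
    PP ⊗[ZMod 2] M →ₗ[ZMod 2] M :=
  (TensorProduct.lid (ZMod 2) M).toLinearMap ∘ₗ LinearMap.rTensor M ep.toLinearMap

private theorem helper23_K_tmul (M : Type) [AddCommGroup M] [Module (ZMod 2) M] (m : ℕ)
    (c : PP) (x : M) : helper23_K M m (c ⊗ₜ[ZMod 2] x) = phi m c • x := by
  simp [helper23_K]

private theorem helper23_E_tmul (M : Type) [AddCommGroup M] [Module (ZMod 2) M]
    (c : PP) (x : M) : helper23_E M (c ⊗ₜ[ZMod 2] x) = ep c • x := by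
  simp [helper23_E]

private theorem helper23_pd (A : Pre) (m : ℕ) (x : A.N) : pd A m x = helper23_K A.N m (A.δ x) := by
  rw [pd_apply]; rfl

private theorem helper23_phi_mul (m : ℕ) (a b : PP) :
    phi m (a * b) = phi m a * ep b + ep a * phi m b := by
  simp only [phi_apply, pderiv_mul, map_add, map_mul]

private theorem helper23_K_mul (m : ℕ) (u v : PP ⊗[ZMod 2] PP) :
    helper23_K PP m (u * v) =
      helper23_K PP m u * helper23_E PP v + helper23_E PP u * helper23_K PP m v := by
  induction u using TensorProduct.induction_on with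
  | zero => simp only [zero_mul, map_zero, add_zero]
  | add a b ha hb => simp only [add_mul, map_add, ha, hb]; abel
  | tmul a b =>
    induction v using TensorProduct.induction_on with
    | zero => simp only [mul_zero, map_zero, add_zero]
    | add a b ha hb => simp only [mul_add, map_add, ha, hb]; abel
    | tmul c d =>
      rw [Algebra.TensorProduct.tmul_mul_tmul, helper23_K_tmul, helper23_K_tmul, helper23_K_tmul,
        helper23_E_tmul, helper23_E_tmul, helper23_phi_mul, add_smul, mul_smul, mul_smul]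
      simp only [Algebra.smul_mul_assoc, Algebra.mul_smul_comm]
      rw [smul_comm (ep c) (phi m a), smul_comm (phi m c) (ep a)]

private theorem helper23_phi_pow (m k : ℕ) (x : PP) : phi m (x ^ (2 ^ (k + 1))) = 0 := by
  rw [pow_succ, pow_mul, pow_two, helper23_phi_mul, mul_comm (ep _)]
  exact add_self_zero _

private theorem helper23_phi_xiT (m i : ℕ) : phi m (xi i * T) = if m = i then 1 else 0 := by
  rw [helper23_phi_mul, ep_T, ep_xi, mul_one]
  simp only [phi_apply]
  have hT : ep (pderiv m T) = if m = 0 then 1 else 0 := by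
    rw [T]
    by_cases h : m = 0
    · subst h; rw [pderiv_X_self, map_one, if_pos rfl]
    · rw [pderiv_X_of_ne (Ne.symm h), map_zero, if_neg h]
  rw [hT]
  cases i with
  | zero =>
    rw [xi_zero, pderiv_one, map_zero, zero_add, if_pos rfl, one_mul]
  | succ i =>
    rw [xi_succ, if_neg (Nat.succ_ne_zero i), zero_mul, add_zero]
    by_cases h : m = i + 1
    · subst h; rw [pderiv_X_self, map_one, if_pos rfl]
    · rw [pderiv_X_of_ne (Ne.symm h), map_zero, if_neg h]

private theorem helper23_phi_T (m E : ℕ) : phi m (T ^ E) = if m = 0 then (E : ZMod 2) else 0 := by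
  have hT : ep (pderiv m T) = if m = 0 then 1 else 0 := by
    rw [T]
    by_cases h : m = 0
    · subst h; rw [pderiv_X_self, map_one, if_pos rfl]
    · rw [pderiv_X_of_ne (Ne.symm h), map_zero, if_neg h]
  rw [phi_apply, pderiv_pow, map_mul, map_mul, map_pow, ep_T, one_pow, mul_one, hT, map_natCast]
  by_cases h : m = 0
  · rw [if_pos h, if_pos h, mul_one]
  · rw [if_neg h, if_neg h, mul_zero]

private theorem helper23_K_shift (M : Type) [AddCommGroup M] [Module (ZMod 2) M] (m E : ℕ)
    (u : PP ⊗[ZMod 2] M) :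
    helper23_K M m (LinearMap.rTensor M (mT E) u) =
      helper23_K M m u + (if m = 0 then (E : ZMod 2) else 0) • helper23_E M u := by
  induction u using TensorProduct.induction_on with
  | zero => simp only [map_zero, smul_zero, add_zero]
  | add a b ha hb => simp only [map_add, ha, hb, smul_add]; abel
  | tmul c x =>
    rw [LinearMap.rTensor_tmul, mT_apply, helper23_K_tmul, helper23_K_tmul, helper23_E_tmul,
      helper23_phi_mul, helper23_phi_T, map_pow, ep_T, one_pow, one_mul, add_smul, mul_smul]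
    exact add_comm _ _

private theorem helper23_pd_shift (A : Pre) [IsCmd A] (m E : ℕ) (x : A.N) :
    pd (shift A E) m x = pd A m x + (if m = 0 then (E : ZMod 2) else 0) • x := by
  rw [helper23_pd, helper23_pd]
  have h1 : (shift A E).δ x = LinearMap.rTensor A.N (mT E) (A.δ x) := shiftδ_apply A E x
  have h2 : helper23_E A.N (A.δ x) = x := IsCmd.cu (A := A) x
  rw [h1, helper23_K_shift, h2]

private theorem helper23_map_FrL (u : PP ⊗[ZMod 2] PP) : TensorProduct.map FrL FrL u = u ^ 2 := by
  induction u using TensorProduct.induction_on with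
  | zero => rw [map_zero, zero_pow two_ne_zero]
  | tmul a b =>
    rw [TensorProduct.map_tmul, FrL_apply, FrL_apply, Fr_apply, Fr_apply,
      Algebra.TensorProduct.tmul_pow]
  | add u v hu hv =>
    have e : (u + v) ^ 2 = (u ^ 2 + v ^ 2) + (u * v + u * v) := by ring
    rw [map_add, hu, hv, e, add_self_zero, add_zero]

/-- `g ↦ X_0^ε g^2` -/
private def helper23_sq (ε : ℕ) : PP →ₗ[ZMod 2] PP :=
  LinearMap.mulLeft (ZMod 2) ((X 0 : PP) ^ ε) ∘ₗ FrL

private theorem helper23_sq_apply (ε : ℕ) (g : PP) : helper23_sq ε g = X 0 ^ ε * g ^ 2 := by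
  simp [helper23_sq, FrL_sq]

private theorem helper23_sq_inj (ε : ℕ) : Function.Injective (helper23_sq ε) := by
  intro x y h
  rw [helper23_sq_apply, helper23_sq_apply] at h
  have h2 := mul_left_cancel₀ (pow_ne_zero ε (X_ne_zero 0 : (X 0 : PP) ≠ 0)) h
  rw [← Fr_apply, ← Fr_apply] at h2
  exact Fr_inj h2

private theorem helper23_sq_mem (ε a n : ℕ) (hn : n = ε + 2 * a) {g : PP} (hg : g ∈ HH a) :
    helper23_sq ε g ∈ HH n := by
  rw [helper23_sq_apply]
  rw [mem_homogeneousSubmodule] at hg ⊢
  have h1 : ((X 0 : PP) ^ ε).IsHomogeneous (1 * ε) := (isHomogeneous_X (ZMod 2) 0).pow ε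
  have h2 := h1.mul (hg.pow 2)
  have h3 : 1 * ε + a * 2 = n := by omega
  rwa [h3] at h2

/-- derivatives of `X_0^ε g^2` -/
private theorem helper23_sq_pderiv (ε : ℕ) (hε : ε ≤ 1) (g : PP) (m : ℕ) :
    X 0 * pderiv m (helper23_sq ε g) =
      (if m = 0 then (ε : ZMod 2) else 0) • helper23_sq ε g := by
  have h0 : pderiv m (g ^ 2) = 0 := by
    rw [pow_two, pderiv_mul, mul_comm g]
    exact add_self_zero _
  rw [helper23_sq_apply, pderiv_mul, h0, mul_zero, add_zero]
  interval_cases ε
  · simp
  · rw [pow_one, ]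
    by_cases h : m = 0
    · subst h
      rw [pderiv_X_self, if_pos rfl]
      simp
    · rw [pderiv_X_of_ne (Ne.symm h), if_neg h]
      simp

/-- description of the polynomials whose derivatives with respect to `X_(j+1)` vanish -/
private theorem helper23_sq_of_pderiv (n : ℕ) (f : PP) (hf : f ∈ HH n)
    (h : ∀ j, pderiv (j + 1) f = 0) : ∃ g ∈ HH (n / 2), helper23_sq (n % 2) g = f := by
  classical
  have hdeg : ∀ s ∈ f.support, s.sum (fun _ e => e) = n := by
    intro s hs
    have h1 := hf (mem_support_iff.1 hs)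
    rw [Finsupp.weight_apply] at h1
    simpa [Finsupp.sum] using h1
  have hev : ∀ s ∈ f.support, ∀ j, s (j + 1) % 2 = 0 := by
    intro s hs j
    by_contra hodd
    have hodd' : s (j + 1) % 2 = 1 := by omega
    have hle : Finsupp.single (j + 1) 1 ≤ s := by
      rw [Finsupp.single_le_iff]; omega
    obtain ⟨t, ht⟩ := exists_add_of_le hle
    have h1 := congrArg (coeff t) (h j)
    rw [coeff_pderiv, coeff_zero, add_comm t, ← ht] at h1
    have h2 : s (j + 1) = 1 + t (j + 1) := by
      rw [ht]; simp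
    have h3 : ((t (j + 1) : ZMod 2) + 1) = 1 := by
      have h4 : ((t (j + 1) + 1 : ℕ) : ZMod 2) = ((1 : ℕ) : ZMod 2) := by
        rw [ZMod.natCast_eq_natCast_iff]
        unfold Nat.ModEq
        omega
      simpa using h4
    rw [h3, mul_one] at h1
    exact mem_support_iff.1 hs h1
  have hrep : ∀ s ∈ f.support, Finsupp.single 0 (n % 2) +
      2 • s.mapRange (fun e => e / 2) (Nat.zero_div 2) = s := by
    intro s hs
    have hsum : s.sum (fun _ e => e) % 2 = s 0 % 2 := by
      rw [Finsupp.sum]
      by_cases h0 : 0 ∈ s.support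
      · rw [← Finset.add_sum_erase _ _ h0]
        have hy : ∀ x ∈ s.support.erase 0, s x % 2 = 0 := by
          intro x hx
          have hx0 : x ≠ 0 := (Finset.mem_erase.1 hx).1
          obtain ⟨j, rfl⟩ := Nat.exists_eq_succ_of_ne_zero hx0
          exact hev s hs j
        have hz : (∑ x ∈ s.support.erase 0, s x) % 2 = 0 := by
          rw [Finset.sum_nat_mod, Finset.sum_congr rfl hy, Finset.sum_const_zero, Nat.zero_mod]
        omega
      · have h0' : s 0 = 0 := by simpa using h0
        have hy : ∀ x ∈ s.support, s x % 2 = 0 := by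
          intro x hx
          have hx0 : x ≠ 0 := by rintro rfl; exact h0 hx
          obtain ⟨j, rfl⟩ := Nat.exists_eq_succ_of_ne_zero hx0
          exact hev s hs j
        rw [h0', Finset.sum_nat_mod, Finset.sum_congr rfl hy, Finset.sum_const_zero]
    rw [hdeg s hs] at hsum
    ext i
    rw [Finsupp.add_apply, Finsupp.smul_apply, Finsupp.mapRange_apply, Finsupp.single_apply]
    cases i with
    | zero => simp only [smul_eq_mul, if_true]; omega
    | succ j =>
      have := hev s hs j
      rw [if_neg (by omega), smul_eq_mul]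
      omega
  refine ⟨∑ s ∈ f.support, monomial (s.mapRange (fun e => e / 2) (Nat.zero_div 2)) (f.coeff s),
    ?_, ?_⟩
  · apply Submodule.sum_mem
    intro s hs
    rw [mem_homogeneousSubmodule]
    apply isHomogeneous_monomial
    have h1 := congrArg (fun t : ℕ →₀ ℕ => t.degree) (hrep s hs)
    simp only [map_add, map_nsmul, Finsupp.degree_single] at h1
    have h2 : s.degree = n := by
      have := hdeg s hs
      rw [← this]
      rfl
    rw [h2] at h1
    rw [smul_eq_mul] at h1
    omega
  · rw [map_sum]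
    conv_rhs => rw [f.as_sum]
    apply Finset.sum_congr rfl
    intro s hs
    rw [helper23_sq_apply, monomial_pow, X_pow_eq_monomial, monomial_mul, one_mul, hrep s hs]
    congr 1
    exact ZMod.pow_card (f.coeff s)

private theorem helper23_pd_SfP (m : ℕ) (f : PP) : pd SfP m f = X 0 * pderiv m f := by
  have hmul : ∀ a b : PP, pd SfP m (a * b) = pd SfP m a * b + a * pd SfP m b := by
    intro a b
    have ha : helper23_E PP (coP a) = a := IsCmd.cu (A := SfP) a
    have hb : helper23_E PP (coP b) = b := IsCmd.cu (A := SfP) b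
    have h1 : pd SfP m (a * b) = helper23_K PP m (coP a * coP b) := by
      rw [← map_mul]; exact helper23_pd SfP m (a * b)
    have h2 : pd SfP m a = helper23_K PP m (coP a) := helper23_pd SfP m a
    have h3 : pd SfP m b = helper23_K PP m (coP b) := helper23_pd SfP m b
    rw [h1, h2, h3, helper23_K_mul, ha, hb]
  have hX : ∀ i : ℕ, pd SfP m (X i : PP) = if m = i then X 0 else 0 := by
    intro i
    have h2 : pd SfP m (X i : PP) = helper23_K PP m (coP (X i)) := helper23_pd SfP m (X i)
    rw [h2, PolyCAux.coP_X, map_sum, Finset.sum_range_succ', Finset.sum_eq_zero, zero_add,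
      helper23_K_tmul, Nat.sub_zero, pow_zero, pow_one, helper23_phi_xiT]
    · by_cases h : m = i
      · rw [if_pos h, if_pos h, one_smul]
      · rw [if_neg h, if_neg h, zero_smul]
    · intro k _
      rw [helper23_K_tmul, helper23_phi_pow, zero_smul]
  have h1 : pd SfP m (1 : PP) = 0 := by
    have h := hmul 1 1
    rw [mul_one, mul_one, one_mul] at h
    rw [h]
    exact add_self_zero _
  induction f using MvPolynomial.induction_on with
  | C a =>
    have hC : (C a : PP) = a • (1 : PP) := by rw [smul_eq_C_mul, mul_one]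
    rw [hC, map_smul, h1, smul_zero, Derivation.map_smul, pderiv_one, smul_zero, mul_zero]
  | add a b ha hb => rw [map_add, map_add, ha, hb, mul_add]
  | mul_X a i ha =>
    rw [hmul, ha, hX, pderiv_mul]
    by_cases h : m = i
    · subst h
      rw [if_pos rfl, pderiv_X_self]
      ring
    · rw [if_neg h, pderiv_X_of_ne (Ne.symm h)]
      ring

private theorem helper23_pd_SP (n m : ℕ) (f : HH n) :
    ((pd (SP n) m f : HH n) : PP) = X 0 * pderiv m (f : PP) := by
  rw [← helper23_pd_SfP]
  exact (pd_hom (subP_hom SfP (HH n) (isSub_SfP n)) m f).symm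

private theorem helper23_pd_SPs (n E m : ℕ) (f : HH n) :
    ((pd (shift (SP n) E) m f : HH n) : PP) =
      X 0 * pderiv m (f : PP) + (if m = 0 then (E : ZMod 2) else 0) • (f : PP) := by
  rw [← helper23_pd_SP, helper23_pd_shift]
  rfl

/-- elements of the common kernel -/
private theorem helper23_ker (n E : ℕ) (f : HH n)
    (h : ∀ m, pd (shift (SP n) E) m f = 0) :
    (∃ g ∈ HH (n / 2), helper23_sq (n % 2) g = (f : PP)) ∧ ((n + E : ℕ) : ZMod 2) • (f : PP) = 0 := by
  have h1 : ∀ j, pderiv (j + 1) (f : PP) = 0 := by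
    intro j
    have h2 := helper23_pd_SPs n E (j + 1) f
    rw [h (j + 1), if_neg (Nat.succ_ne_zero j), zero_smul, add_zero] at h2
    have h3 : (X 0 : PP) * pderiv (j + 1) (f : PP) = 0 := h2.symm
    exact (mul_eq_zero.1 h3).resolve_left (X_ne_zero 0)
  obtain ⟨g, hg, hgf⟩ := helper23_sq_of_pderiv n (f : PP) f.2 h1
  refine ⟨⟨g, hg, hgf⟩, ?_⟩
  have h2 := helper23_pd_SPs n E 0 f
  rw [h 0, if_pos rfl, ← hgf, helper23_sq_pderiv (n % 2) (by omega) g 0, if_pos rfl, ← add_smul]
    at h2
  have h3 : ((n + E : ℕ) : ZMod 2) = ((n % 2 : ℕ) : ZMod 2) + (E : ZMod 2) := by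
    rw [← Nat.cast_add, ZMod.natCast_eq_natCast_iff]
    unfold Nat.ModEq
    omega
  rw [h3, ← hgf]
  exact h2.symm

theorem SP_Y0_even (n E : ℕ) (h : Even (n + E)) :
    ∃ ι, IsY0 (shift (SP n) E) (shift (SP (n / 2)) ((n % 2 + E) / 2)) ι := by
  obtain ⟨e, he⟩ : ∃ e, n % 2 + E = 2 * e := by
    obtain ⟨r, hr⟩ := h
    exact ⟨(n % 2 + E) / 2, by omega⟩
  have he2 : (n % 2 + E) / 2 = e := by omega
  rw [he2]
  have hmem : ∀ g : HH (n / 2), (helper23_sq (n % 2) ∘ₗ (HH (n / 2)).subtype) g ∈ HH n := by
    intro g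
    exact helper23_sq_mem (n % 2) (n / 2) n (by omega) g.2
  have hcast : ((n % 2 : ℕ) : ZMod 2) + (E : ZMod 2) = 0 := by
    rw [← Nat.cast_add, he]
    rw [Nat.cast_mul]
    have : ((2 : ℕ) : ZMod 2) = 0 := by decide
    rw [this, zero_mul]
  let ι : HH (n / 2) →ₗ[ZMod 2] HH n :=
    LinearMap.codRestrict (HH n) (helper23_sq (n % 2) ∘ₗ (HH (n / 2)).subtype) hmem
  have hι : ∀ g : HH (n / 2), ((ι g : HH n) : PP) = helper23_sq (n % 2) (g : PP) := fun g => rfl
  refine ⟨ι, ?_, ?_, ?_⟩
  · intro x y hxy
    apply Subtype.ext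
    apply helper23_sq_inj (n % 2)
    rw [← hι, ← hι, hxy]
  · intro x
    constructor
    · rintro ⟨y, rfl⟩ m
      apply Subtype.ext
      refine (helper23_pd_SPs n E m (ι y)).trans ?_
      rw [hι, helper23_sq_pderiv (n % 2) (by omega), ← add_smul]
      by_cases hm : m = 0
      · rw [if_pos hm, if_pos hm, hcast, zero_smul]; rfl
      · rw [if_neg hm, if_neg hm, add_zero, zero_smul]; rfl
    · intro hx
      obtain ⟨⟨g, hg, hgf⟩, _⟩ := helper23_ker n E x hx
      exact ⟨⟨g, hg⟩, Subtype.ext hgf⟩
  · intro y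
    apply lTensor_inj PP (HH n).injective_subtype
    have hL : (shift (SP n) E).δ (ι y) =
        LinearMap.rTensor (HH n) (mT E) ((SP n).δ (ι y)) := shiftδ_apply (SP n) E (ι y)
    have hR : (shift (SP (n / 2)) e).δ y =
        LinearMap.rTensor (HH (n / 2)) (mT e) ((SP (n / 2)).δ y) := shiftδ_apply (SP (n / 2)) e y
    rw [hL, hR]
    have hL2 : ∀ u : PP ⊗[ZMod 2] HH n, LinearMap.lTensor PP (HH n).subtype
        (LinearMap.rTensor (HH n) (mT E) u) =
        LinearMap.rTensor PP (mT E) (LinearMap.lTensor PP (HH n).subtype u) := by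
      intro u
      induction u using TensorProduct.induction_on with
      | zero => simp only [map_zero]
      | add a b ha hb => simp only [map_add, ha, hb]
      | tmul c g => rfl
    have hR2 : ∀ u : PP ⊗[ZMod 2] HH (n / 2), LinearMap.lTensor PP (HH n).subtype
        (TensorProduct.map FrL ι (LinearMap.rTensor (HH (n / 2)) (mT e) u)) =
        TensorProduct.map (FrL ∘ₗ mT e) (helper23_sq (n % 2))
          (LinearMap.lTensor PP (HH (n / 2)).subtype u) := by
      intro u
      induction u using TensorProduct.induction_on with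
      | zero => simp only [map_zero]
      | add a b ha hb => simp only [map_add, ha, hb]
      | tmul c g => rfl
    rw [hL2, hR2, SP_δ, SP_δ, hι, helper23_sq_apply, map_mul, map_pow, map_pow, PolyCAux.coP_X,
      zero_add, Finset.sum_range_one, Nat.sub_zero, pow_zero, pow_one, xi_zero, one_mul,
      Algebra.TensorProduct.tmul_pow, ← helper23_map_FrL]
    generalize coP (y : PP) = u
    induction u using TensorProduct.induction_on with
    | zero => simp only [map_zero, mul_zero]
    | add a b ha hb => simp only [map_add, mul_add, ha, hb]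
    | tmul c g =>
      rw [TensorProduct.map_tmul, TensorProduct.map_tmul, Algebra.TensorProduct.tmul_mul_tmul,
        LinearMap.rTensor_tmul, LinearMap.comp_apply, helper23_sq_apply, FrL_sq, FrL_sq, FrL_sq,
        mT_apply, mT_apply, ← mul_assoc, ← pow_add, mul_pow, ← pow_mul]
      congr 3
      omega

theorem SP_Y0_odd (n E : ℕ) (h : Odd (n + E)) : IsY0 (shift (SP n) E) zeroP 0 := by
  refine ⟨?_, ?_, ?_⟩
  · intro x y _
    rfl
  · intro x
    constructor
    · rintro ⟨y, rfl⟩ m
      rw [LinearMap.zero_apply, map_zero]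
    · intro hx
      obtain ⟨_, h0⟩ := helper23_ker n E x hx
      have h1 : ((n + E : ℕ) : ZMod 2) = 1 := (ZMod.natCast_eq_one_iff_odd).2 h
      rw [h1, one_smul] at h0
      refine ⟨PUnit.unit, ?_⟩
      rw [LinearMap.zero_apply]
      exact (Subtype.ext h0).symm
  · intro y
    rw [LinearMap.zero_apply, map_zero]
    have : (zeroP.δ y) = 0 := rfl
    rw [this, map_zero]

end

end Pool.Agent.Pet19
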