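import Pool.Agent.Pet19.BiQ
import Pool.Agent.Pet19.Nx

/-!
# Pet19.ShV: removing a shift

Say `(u, q)` is a shift pair from `A` to `B` (`A B : Pre`, `i : ℕ`) if `u : A.N → B.N`,
`q : B.N → A.N`, `q (u x) = x`, `B.δ (u x) = (T^i· ⊗ u)(A.δ x)`, `A.δ (q y) = (q_i ⊗ q)(B.δ y)`
(`q_i = qT i`).  (1) `(id, id)` is a shift pair from `A` to `shift A i`.
(2) if `(u, q)` is a shift pair from `A` to `B` then `(T^i· ⊗ u, q_i ⊗ q)` is one from `A.next` to
`B.next` (uses `Dl (T^i c) = (T^i ⊗ T^i) Dl c` and `Dl_qT_both`).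
(3) With a shift pair, `V (w+i) 0 B → V w 0 A` and `V (w+i) 1 B → V w 1 A`:
`B.d (w+i) (u x) = (T^i· ⊗ u)(A.d w x)` and `(q_i ⊗ q)(B.d (w+i) y) = A.d w (q y)`.
Then induct on `s`, generalizing `A B u q`.
-/

set_option autoImplicit false
open MvPolynomial TensorProduct

namespace Pool.Agent.Pet19

noncomputable section

/-- shift pairs -/
private structure ShPair (i : ℕ) (A B : Pre) where
  u : A.N →ₗ[ZMod 2] B.N
  q : B.N →ₗ[ZMod 2] A.N
  qu : ∀ x, q (u x) = x
  hu : ∀ x, B.δ (u x) = TensorProduct.map (mT i) u (A.δ x)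
  hq : ∀ y, A.δ (q y) = TensorProduct.map (qT i) q (B.δ y)

private theorem qT_mT (i : ℕ) : qT i ∘ₗ mT i = LinearMap.id := by
  apply LinearMap.ext
  intro x
  rw [LinearMap.comp_apply, mT_apply, qT_mul, LinearMap.id_apply]

private def ShPair.base (i : ℕ) (A : Pre) : ShPair i A (shift A i) where
  u := LinearMap.id
  q := LinearMap.id
  qu := fun _ => rfl
  hu := by
    intro x
    change shiftδ A i x = _
    rw [shiftδ_apply]
    rfl
  hq := by
    intro y
    change A.δ y = TensorProduct.map (qT i) LinearMap.id (shiftδ A i y)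
    rw [shiftδ_apply]
    have h : TensorProduct.map (qT i) LinearMap.id ∘ₗ LinearMap.rTensor A.N (mT i) =
        LinearMap.id := by
      change LinearMap.rTensor A.N (qT i) ∘ₗ LinearMap.rTensor A.N (mT i) = _
      rw [← LinearMap.rTensor_comp, qT_mT, LinearMap.rTensor_id]
    exact (LinearMap.congr_fun h _).symm

private theorem assoc_map {M N : Type} [AddCommGroup M] [Module (ZMod 2) M] [AddCommGroup N]
    [Module (ZMod 2) N] (a b : PP →ₗ[ZMod 2] PP) (f : M →ₗ[ZMod 2] N) (z : PP ⊗[ZMod 2] PP)
    (x : M) :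
    TensorProduct.assoc (ZMod 2) PP PP N (TensorProduct.map a b z ⊗ₜ[ZMod 2] f x) =
      TensorProduct.map a (TensorProduct.map b f)
        (TensorProduct.assoc (ZMod 2) PP PP M (z ⊗ₜ[ZMod 2] x)) := by
  induction z using TensorProduct.induction_on with
  | zero => simp only [map_zero, TensorProduct.zero_tmul]
  | tmul c d => simp only [TensorProduct.map_tmul, TensorProduct.assoc_tmul]
  | add v w hv hw => simp only [map_add, TensorProduct.add_tmul, hv, hw]

private theorem Dl_mT (i : ℕ) (c : PP) :
    Dl (mT i c) = TensorProduct.map (mT i) (mT i) (Dl c) := by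
  rw [mT_apply, map_mul, Dl_T_pow]
  generalize Dl c = z
  induction z using TensorProduct.induction_on with
  | zero => simp only [map_zero, mul_zero]
  | tmul c d =>
    rw [TensorProduct.map_tmul, mT_apply, mT_apply, Algebra.TensorProduct.tmul_mul_tmul]
  | add v w hv hw => rw [mul_add, map_add, hv, hw]

private def ShPair.nx {i : ℕ} {A B : Pre} (P : ShPair i A B) : ShPair i A.next B.next where
  u := TensorProduct.map (mT i) P.u
  q := TensorProduct.map (qT i) P.q
  qu := by
    intro x
    have h : TensorProduct.map (qT i) P.q ∘ₗ TensorProduct.map (mT i) P.u = LinearMap.id := by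
      rw [← TensorProduct.map_comp, qT_mT]
      have h2 : P.q ∘ₗ P.u = LinearMap.id := LinearMap.ext P.qu
      rw [h2, TensorProduct.map_id]
    exact LinearMap.congr_fun h x
  hu := by
    intro x
    change nextδ B (TensorProduct.map (mT i) P.u x) =
      TensorProduct.map (mT i) (TensorProduct.map (mT i) P.u) (nextδ A x)
    induction x using TensorProduct.induction_on with
    | zero => simp only [map_zero]
    | tmul c x =>
      rw [TensorProduct.map_tmul, nextδ_tmul, nextδ_tmul, map_add, TensorProduct.map_tmul,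
        P.hu, Dl_mT, assoc_map]
    | add v w hv hw => simp only [map_add, hv, hw]
  hq := by
    intro x
    change nextδ A (TensorProduct.map (qT i) P.q x) =
      TensorProduct.map (qT i) (TensorProduct.map (qT i) P.q) (nextδ B x)
    induction x using TensorProduct.induction_on with
    | zero => simp only [map_zero]
    | tmul c x =>
      rw [TensorProduct.map_tmul, nextδ_tmul, nextδ_tmul, map_add, TensorProduct.map_tmul,
        P.hq, ← Dl_qT_both, assoc_map]
    | add v w hv hw => simp only [map_add, hv, hw]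

private theorem ShPair.d_u {i : ℕ} {A B : Pre} (P : ShPair i A B) (w : ℕ) (x : A.N) :
    B.d (w + i) (P.u x) = TensorProduct.map (mT i) P.u (A.d w x) := by
  rw [d_apply, d_apply, map_add, TensorProduct.map_tmul, P.hu, mT_apply, pow_add, mul_comm]

private theorem ShPair.d_q {i : ℕ} {A B : Pre} (P : ShPair i A B) (w : ℕ) (y : B.N) :
    TensorProduct.map (qT i) P.q (B.d (w + i) y) = A.d w (P.q y) := by
  rw [d_apply, d_apply, map_add, TensorProduct.map_tmul, P.hq, pow_add, mul_comm, qT_mul]

private theorem V_of_shPair (w i : ℕ) : ∀ (s : ℕ) (A B : Pre) (_ : ShPair i A B),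
    V (w + i) s B → V w s A
  | 0, A, B, P, h => by
    change ∀ y : B.N, B.d (w + i) y = 0 → y = 0 at h
    change ∀ x : A.N, A.d w x = 0 → x = 0
    intro x hx
    have h1 := h (P.u x) (by rw [P.d_u, hx, map_zero])
    rw [← P.qu x, h1, map_zero]
  | 1, A, B, P, h => by
    change ∀ x : PP ⊗[ZMod 2] B.N, B.next.d (w + i) x = 0 → ∃ y : B.N, B.d (w + i) y = x at h
    change ∀ x : PP ⊗[ZMod 2] A.N, A.next.d w x = 0 → ∃ y : A.N, A.d w y = x
    intro x hx
    obtain ⟨y, hy⟩ := h (P.nx.u x) (by rw [P.nx.d_u, hx, map_zero])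
    refine ⟨P.q y, ?_⟩
    rw [← P.d_q, hy]
    exact P.nx.qu x
  | (s + 2), A, B, P, h => by
    change V (w + i) (s + 1) B.next at h
    change V w (s + 1) A.next
    exact V_of_shPair w i (s + 1) A.next B.next P.nx h

theorem V_of_shift (A : Pre) (w i s : ℕ) (h : V (w + i) s (shift A i)) : V w s A :=
  V_of_shPair w i s A (shift A i) (ShPair.base i A) h

end

end Pool.Agent.Pet19
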