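import Pool.Agent.Pet19.KdH
import Pool.Agent.Pet19.SEST

/-!
# Pet19.TN: Koszul cohomology of `M ⊗ N^(1)`

`theta (c Fr(d)) = ε(d) theta c`, so `Kd a (tens M (infl N))` is `Kd a M ⊗ 1_N` up to associativity
(counit of `N`).  Given `(Z, b, i, π)` for `M` take `tens Z (infl N)`,
`b' = (b ⊗ 1) ∘ assoc⁻¹`, `i' = assoc ∘ (i ⊗ 1)`, `π' = π ⊗ 1`; `- ⊗ N` is exact.
-/

set_option autoImplicit false
open MvPolynomial TensorProduct

namespace Pool.Agent.Pet19

noncomputable section

private lemma tn_key {A B M N : Type} [AddCommGroup A] [Module (ZMod 2) A] [AddCommGroup B]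
    [Module (ZMod 2) B] [AddCommGroup M] [Module (ZMod 2) M] [AddCommGroup N] [Module (ZMod 2) N]
    (G : A ⊗[ZMod 2] PP →ₗ[ZMod 2] B) (f : A) (u : PP ⊗[ZMod 2] M) (v : PP ⊗[ZMod 2] N) :
    LinearMap.rTensor (M ⊗[ZMod 2] N) (G ∘ₗ LinearMap.lTensor A theta)
      ((TensorProduct.assoc (ZMod 2) A PP (M ⊗[ZMod 2] N)).symm
        (f ⊗ₜ[ZMod 2] star M N (u ⊗ₜ[ZMod 2] LinearMap.rTensor N FrL v))) =
      TensorProduct.assoc (ZMod 2) B M N
        (LinearMap.rTensor M (G ∘ₗ LinearMap.lTensor A theta)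
          ((TensorProduct.assoc (ZMod 2) A PP M).symm (f ⊗ₜ[ZMod 2] u)) ⊗ₜ[ZMod 2]
            TensorProduct.lid (ZMod 2) N (LinearMap.rTensor N ep.toLinearMap v)) := by
  induction u using TensorProduct.induction_on with
  | zero => simp only [TensorProduct.zero_tmul, TensorProduct.tmul_zero, map_zero]
  | add x y hx hy => simp only [TensorProduct.add_tmul, TensorProduct.tmul_add, map_add, hx, hy]
  | tmul c m =>
    induction v using TensorProduct.induction_on with
    | zero => simp only [TensorProduct.tmul_zero, map_zero]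
    | add x y hx hy => simp only [TensorProduct.tmul_add, map_add, hx, hy]
    | tmul d n =>
      rw [LinearMap.rTensor_tmul, star_tmul, TensorProduct.assoc_symm_tmul,
        TensorProduct.assoc_symm_tmul, LinearMap.rTensor_tmul, LinearMap.rTensor_tmul,
        LinearMap.rTensor_tmul, TensorProduct.lid_tmul, TensorProduct.assoc_tmul,
        LinearMap.comp_apply, LinearMap.comp_apply, LinearMap.lTensor_tmul,
        LinearMap.lTensor_tmul, theta_mul, FrL_apply, theta_Fr, ep_Fr, smul_zero, zero_add,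
        AlgHom.toLinearMap_apply, TensorProduct.tmul_smul, map_smul, TensorProduct.tmul_smul,
        TensorProduct.tmul_smul, ← TensorProduct.smul_tmul']

private lemma tn_star_assoc {L M N : Type} [AddCommGroup L] [Module (ZMod 2) L]
    [AddCommGroup M] [Module (ZMod 2) M] [AddCommGroup N] [Module (ZMod 2) N]
    (t : PP ⊗[ZMod 2] L) (u : PP ⊗[ZMod 2] M) (v : PP ⊗[ZMod 2] N) :
    star L (M ⊗[ZMod 2] N) (t ⊗ₜ[ZMod 2] star M N (u ⊗ₜ[ZMod 2] v)) =
      LinearMap.lTensor PP (TensorProduct.assoc (ZMod 2) L M N).toLinearMap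
        (star (L ⊗[ZMod 2] M) N (star L M (t ⊗ₜ[ZMod 2] u) ⊗ₜ[ZMod 2] v)) := by
  induction t using TensorProduct.induction_on with
  | zero => simp only [map_zero, TensorProduct.zero_tmul]
  | add a b ha hb => simp only [TensorProduct.add_tmul, map_add, ha, hb]
  | tmul a l =>
    induction u using TensorProduct.induction_on with
    | zero => simp only [map_zero, TensorProduct.tmul_zero, TensorProduct.zero_tmul]
    | add c d hc hd =>
      simp only [TensorProduct.add_tmul, TensorProduct.tmul_add, map_add, hc, hd]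
    | tmul b m =>
      induction v using TensorProduct.induction_on with
      | zero => simp only [map_zero, TensorProduct.tmul_zero]
      | add c d hc hd => simp only [TensorProduct.tmul_add, map_add, hc, hd]
      | tmul c n =>
        rw [star_tmul, star_tmul, star_tmul, star_tmul, LinearMap.lTensor_tmul, mul_assoc]
        rfl

private lemma tn_hom_assoc (A B C : Pre) : IsHom (tens (tens A B) C) (tens A (tens B C))
    (TensorProduct.assoc (ZMod 2) A.N B.N C.N).toLinearMap := by
  intro x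
  change tensδ A (tens B C) (TensorProduct.assoc (ZMod 2) A.N B.N C.N x) =
    LinearMap.lTensor PP (TensorProduct.assoc (ZMod 2) A.N B.N C.N).toLinearMap
      (tensδ (tens A B) C x)
  induction x using TensorProduct.induction_on with
  | zero => simp only [map_zero]
  | add a b ha hb => rw [map_add, map_add, ha, hb, map_add, map_add]
  | tmul y c =>
    induction y using TensorProduct.induction_on with
    | zero => simp only [map_zero, TensorProduct.zero_tmul]
    | add a b ha hb =>
      rw [TensorProduct.add_tmul, map_add, map_add, ha, hb, map_add, map_add]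
    | tmul a b =>
      rw [TensorProduct.assoc_tmul, tensδ_tmul A (tens B C) a (b ⊗ₜ[ZMod 2] c),
        tensδ_tmul (tens A B) C (a ⊗ₜ[ZMod 2] b) c]
      change star A.N (B.N ⊗[ZMod 2] C.N) (A.δ a ⊗ₜ[ZMod 2] tensδ B C (b ⊗ₜ[ZMod 2] c)) =
        LinearMap.lTensor PP (TensorProduct.assoc (ZMod 2) A.N B.N C.N).toLinearMap
          (star (A.N ⊗[ZMod 2] B.N) C.N (tensδ A B (a ⊗ₜ[ZMod 2] b) ⊗ₜ[ZMod 2] C.δ c))
      rw [tensδ_tmul, tensδ_tmul, tn_star_assoc]

private lemma tn_hom_comp {A B C : Pre} {f : A.N →ₗ[ZMod 2] B.N} {g : B.N →ₗ[ZMod 2] C.N}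
    (hf : IsHom A B f) (hg : IsHom B C g) : IsHom A C (g ∘ₗ f) := by
  intro x
  rw [LinearMap.comp_apply, hg, hf, LinearMap.lTensor_comp, LinearMap.comp_apply]

theorem Kd_tens_infl (a : ℕ) (M N : Pre) [IsCmd M] [IsCmd N] (z : (Kc a M).N) (n : N.N) :
    Kd a (tens M (infl N)) (TensorProduct.assoc (ZMod 2) (HH a) M.N N.N (z ⊗ₜ[ZMod 2] n)) =
      TensorProduct.assoc (ZMod 2) (HH (a + 1)) M.N N.N (Kd a M z ⊗ₜ[ZMod 2] n) := by
  induction z using TensorProduct.induction_on with
  | zero => simp only [TensorProduct.zero_tmul, map_zero]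
  | add x y hx hy => rw [TensorProduct.add_tmul, map_add, map_add, hx, hy, map_add,
      TensorProduct.add_tmul, map_add]
  | tmul f m =>
    rw [TensorProduct.assoc_tmul, Kd_tmul, Kd_tmul, tensδ_tmul]
    have h1 : (infl N).δ n = LinearMap.rTensor N.N FrL (N.δ n) := inflδ_apply N n
    rw [h1]
    refine (tn_key (mulh a) f (M.δ m) (N.δ n)).trans ?_
    rw [(IsCmd.cu : IsCu N) n]

private lemma tn_Kd (a : ℕ) (M N : Pre) [IsCmd M] [IsCmd N] (x : (Kc a M).N ⊗[ZMod 2] N.N) :
    Kd a (tens M (infl N)) (TensorProduct.assoc (ZMod 2) (HH a) M.N N.N x) =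
      TensorProduct.assoc (ZMod 2) (HH (a + 1)) M.N N.N (LinearMap.rTensor N.N (Kd a M) x) := by
  induction x using TensorProduct.induction_on with
  | zero => simp only [map_zero]
  | add x y hx hy => rw [map_add, map_add, hx, hy, map_add, map_add]
  | tmul z n => rw [Kd_tens_infl, LinearMap.rTensor_tmul]

theorem KH_tens (a : ℕ) (M Q N : Pre) [IsCmd M] [IsCmd Q] [IsCmd N] (h : IsKH a M Q) :
    IsKH a (tens M (infl N)) (tens Q (infl N)) := by
  obtain ⟨Z, b, i, π, hZ, hi, hπ, hib, hinj, hex1, hex2, hsurj⟩ := h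
  have hi' : IsHom (tens Z (infl N)) (tens (Kc (a + 1) M) (infl N))
      (LinearMap.rTensor N.N i) := hom_map hi (hom_id (infl N))
  refine ⟨tens Z (infl N),
    LinearMap.rTensor N.N b ∘ₗ (TensorProduct.assoc (ZMod 2) (HH a) M.N N.N).symm.toLinearMap,
    (TensorProduct.assoc (ZMod 2) (HH (a + 1)) M.N N.N).toLinearMap ∘ₗ LinearMap.rTensor N.N i,
    LinearMap.rTensor N.N π, inferInstance,
    tn_hom_comp hi' (tn_hom_assoc (SV (a + 1)) M (infl N)),
    hom_map hπ (hom_id (infl N)), ?_, ?_, ?_, ?_, ?_⟩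
  · apply LinearMap.ext
    intro x
    obtain ⟨x', rfl⟩ := (TensorProduct.assoc (ZMod 2) (HH a) M.N N.N).surjective x
    rw [tn_Kd, ← hib, LinearMap.rTensor_comp]
    simp only [LinearMap.comp_apply, LinearEquiv.coe_coe, LinearEquiv.symm_apply_apply]
  · intro x y hxy
    exact rTensor_inj N.N hinj ((TensorProduct.assoc (ZMod 2) (HH (a + 1)) M.N N.N).injective hxy)
  · intro y
    obtain ⟨y', rfl⟩ := (TensorProduct.assoc (ZMod 2) (HH (a + 1)) M.N N.N).surjective y
    rw [tn_Kd, LinearEquiv.map_eq_zero_iff]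
    refine (rTensor_ex N.N hex1 y').trans ?_
    constructor
    · rintro ⟨z, hz⟩
      exact ⟨z, congrArg (TensorProduct.assoc (ZMod 2) (HH (a + 1)) M.N N.N) hz⟩
    · rintro ⟨z, hz⟩
      exact ⟨z, (TensorProduct.assoc (ZMod 2) (HH (a + 1)) M.N N.N).injective hz⟩
  · intro y
    refine (rTensor_ex N.N hex2 y).trans ?_
    constructor
    · rintro ⟨z, hz⟩
      refine ⟨TensorProduct.assoc (ZMod 2) (HH a) M.N N.N z, ?_⟩
      rw [LinearMap.comp_apply, LinearEquiv.coe_coe, LinearEquiv.symm_apply_apply, hz]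
    · rintro ⟨z, hz⟩
      exact ⟨(TensorProduct.assoc (ZMod 2) (HH a) M.N N.N).symm z, hz⟩
  · exact LinearMap.rTensor_surjective N.N hsurj

end

end Pool.Agent.Pet19
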