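import Pool.Agent.Pet19.GL
import Pool.Agent.Pet19.SPK
import Pool.Agent.Pet19.SPY
import Pool.Agent.Pet19.TN
import Pool.Agent.Pet19.KKs
import Pool.Agent.Pet19.FL
import Pool.Agent.Pet19.ShV
import Pool.Agent.Pet19.DivB

/-!
# Pet19.RecL: the recursion

`good_low`: `Div` of `shift (SPl l) e` is `e + l.sum` and `V_div`.
`rec_GL`: apply `GLd` with `2W = E + z` to `M = tens (shift (SP n) E) (infl N)`.
`recursion`: let `e` be given.  By `V_of_shift` it is enough to treat `e` large (`≥ s + 1`) with `e + z`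
even.  `shift (tens (SP n) (SPl μ)) e ≅ tens (shift (SP n) e) (SPl μ)`; by `FL` reduce to
`tens (shift (SP n) (e + |μ| - |ν|)) (infl (SPl ν))`; then `rec_GL`.  The hypotheses of `rec_GL` are
instances of `Good` (for the weights `z'` given in the hypothesis; when `z'` would be negative use
`V_div`), through `shift (SPl ((a+j) :: (n-j) :: ν)) e' ≅ tens (shift (tens (SP (a+j)) (SP (n-j))) e') (SPl ν)`.
-/

set_option autoImplicit false
open MvPolynomial TensorProduct

namespace Pool.Agent.Pet19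

noncomputable section

theorem Div_SPl : ∀ l : List ℕ, Div l.sum (SPl l) := by
  intro l
  induction l with
  | nil =>
    intro x
    refine ⟨(SPl []).δ x, ?_⟩
    have h1 : mT 0 = LinearMap.id := by
      apply LinearMap.ext
      intro y
      rw [mT_apply, pow_zero, one_mul, LinearMap.id_apply]
    rw [List.sum_nil, h1, LinearMap.rTensor_id, LinearMap.id_apply]
  | cons n l ih =>
    rw [List.sum_cons]
    exact div_tens (Div_SP n) ih

theorem good_low (s : ℕ) (l : List ℕ) (z : ℕ) (h : z < l.sum) : Good s l z := by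
  intro e
  exact V_div (shift (SPl l) e) (l.sum + e) (e + z) s (div_shift (Div_SPl l) e) (by omega)

private theorem rec_V_zero (w s : ℕ) (N : Pre) : V w s (tens zeroP N) := by
  apply V_subsingleton
  intro x
  induction x using TensorProduct.induction_on with
  | zero => rfl
  | add u v hu hv => rw [hu, hv, add_zero]
  | tmul a b =>
    have h1 : a = 0 := Subsingleton.elim (α := PUnit) a 0
    rw [h1, TensorProduct.zero_tmul]

/-- doubling lemma for `S^n(P)⟨E⟩ ⊗ N^(1)` -/
theorem rec_GL (s n E W : ℕ) (N : Pre) [IsCmd N] (hE : s ≤ E)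
    (h0 : Even (n + E) → V W s (tens (shift (SP (n / 2)) ((n % 2 + E) / 2)) N))
    (h1 : ∀ a j, 1 ≤ a → j ≤ n → a + j ≤ s → Even (a + E) →
      V W (s - (a + j)) (tens (shift (tens (SP (a + j)) (SP (n - j))) ((E - a) / 2)) N)) :
    V (2 * W) s (tens (shift (SP n) E) (infl N)) := by
  apply GLd
  · rcases Nat.even_or_odd (n + E) with hp | hp
    · obtain ⟨ι, hι⟩ := SP_Y0_even n E hp
      exact ⟨tens (shift (SP (n / 2)) ((n % 2 + E) / 2)) N, _, inferInstance,
        Y0_tens_infl hι N, h0 hp⟩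
    · exact ⟨tens zeroP N, _, inferInstance, Y0_tens_infl (SP_Y0_odd n E hp) N,
        rec_V_zero W s N⟩
  · intro a ha
    have hK : IsKH a (tens (shift (SP n) E) (infl N))
        (tens (shift (infl (KK (a + 1) n)) (E - (a + 1))) (infl N)) :=
      KH_tens a (shift (SP n) E) (shift (infl (KK (a + 1) n)) (E - (a + 1))) N
        (SP_KH a n E (ha.trans hE))
    rcases Nat.even_or_odd' (E - (a + 1)) with ⟨e, he | he⟩
    · rw [he] at hK
      refine ⟨_, tens (shift (KK (a + 1) n) e) N, _, inferInstance, inferInstance, hK,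
        Y0_tens_infl (Y0_shift_infl_even (KK (a + 1) n) e) N, ?_⟩
      apply V_KK N W e n (a + 1) (s - (a + 1))
      intro j hj hjs
      have h2 := h1 (a + 1) j (Nat.le_add_left 1 a) hj (by omega)
        ⟨e + (a + 1), by omega⟩
      have h3 : (E - (a + 1)) / 2 = e := by omega
      have h4 : s - (a + 1 + j) = s - (a + 1) - j := by omega
      rw [h3, h4] at h2
      exact h2
    · rw [he] at hK
      exact ⟨_, tens zeroP N, _, inferInstance, inferInstance, hK,
        Y0_tens_infl (Y0_shift_infl_odd (KK (a + 1) n) e) N, rec_V_zero W _ N⟩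

private theorem rec_sum_le {ν μ : List ℕ} (h : List.Forall₂ (· ≤ ·) ν μ) : ν.sum ≤ μ.sum := by
  induction h with
  | nil => exact le_refl _
  | cons h1 _ ih => rw [List.sum_cons, List.sum_cons]; exact Nat.add_le_add h1 ih

theorem recursion (s n : ℕ) (μ : List ℕ) (z : ℕ)
    (h : ∀ ν : List ℕ, List.Forall₂ (· ≤ ·) ν μ →
      (∀ z', z + ν.sum = 2 * z' + n % 2 + μ.sum → Good s (n / 2 :: ν) z') ∧
      (∀ a j z', 1 ≤ a → j ≤ n → a + j ≤ s → z + a + ν.sum = 2 * z' + μ.sum →
        Good (s - (a + j)) ((a + j) :: (n - j) :: ν) z')) :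
    Good s (n :: μ) z := by
  intro e
  -- a large shift
  obtain ⟨i, W, hi1, hi2⟩ : ∃ i W, s ≤ e + i ∧ e + i + z = 2 * W := by
    rcases Nat.even_or_odd' (e + s + z) with ⟨k, hk | hk⟩
    · exact ⟨s, k, by omega, by omega⟩
    · exact ⟨s + 1, k + 1, by omega, by omega⟩
  apply V_of_shift (shift (SPl (n :: μ)) e) (e + z) i s
  have e1 : Iso (tens (shift (SP n) (e + i)) (SPl μ))
      (shift (shift (SPl (n :: μ)) e) i) :=
    iso_trans (iso_symm (iso_shift_tens (SP n) (SPl μ) (e + i)))
      (iso_symm (iso_shift_shift (tens (SP n) (SPl μ)) e i))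
  apply V_iso e1
  have hw : e + z + i = 2 * W := by omega
  rw [hw]
  apply FL
  intro ν hν
  have hle := rec_sum_le hν
  have e2 : Iso (tens (shift (SP n) (e + i + (μ.sum - ν.sum))) (infl (SPl ν)))
      (tens (shift (shift (SP n) (e + i)) (μ.sum - ν.sum)) (infl (SPl ν))) :=
    iso_tens (iso_symm (iso_shift_shift (SP n) (e + i) (μ.sum - ν.sum))) (iso_refl _)
  apply V_iso e2
  obtain ⟨hA, hB⟩ := h ν hν
  apply rec_GL s n (e + i + (μ.sum - ν.sum)) W (SPl ν) (by omega)
  · intro hp
    have e3 : Iso (shift (SPl (n / 2 :: ν)) ((n % 2 + (e + i + (μ.sum - ν.sum))) / 2))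
        (tens (shift (SP (n / 2)) ((n % 2 + (e + i + (μ.sum - ν.sum))) / 2)) (SPl ν)) :=
      iso_shift_tens (SP (n / 2)) (SPl ν) _
    apply V_iso e3
    have hev : 2 * ((n % 2 + (e + i + (μ.sum - ν.sum))) / 2) =
        n % 2 + (e + i + (μ.sum - ν.sum)) := by
      obtain ⟨k, hk⟩ := hp
      omega
    by_cases hlt : W < (n % 2 + (e + i + (μ.sum - ν.sum))) / 2
    · exact V_shift_big (SPl (n / 2 :: ν)) _ W s hlt
    · have h3 := hA (W - (n % 2 + (e + i + (μ.sum - ν.sum))) / 2) (by omega)
        ((n % 2 + (e + i + (μ.sum - ν.sum))) / 2)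
      have h4 : (n % 2 + (e + i + (μ.sum - ν.sum))) / 2 +
          (W - (n % 2 + (e + i + (μ.sum - ν.sum))) / 2) = W := by omega
      rw [h4] at h3
      exact h3
  · intro a j ha hj has hp
    have e3 : Iso (shift (SPl ((a + j) :: (n - j) :: ν)) ((e + i + (μ.sum - ν.sum) - a) / 2))
        (tens (shift (tens (SP (a + j)) (SP (n - j))) ((e + i + (μ.sum - ν.sum) - a) / 2))
          (SPl ν)) :=
      iso_trans (iso_shift (iso_symm (iso_tens_assoc (SP (a + j)) (SP (n - j)) (SPl ν))) _)
        (iso_shift_tens (tens (SP (a + j)) (SP (n - j))) (SPl ν) _)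
    apply V_iso e3
    have hev : 2 * ((e + i + (μ.sum - ν.sum) - a) / 2) =
        e + i + (μ.sum - ν.sum) - a := by
      obtain ⟨k, hk⟩ := hp
      omega
    by_cases hlt : W < (e + i + (μ.sum - ν.sum) - a) / 2
    · exact V_shift_big (SPl ((a + j) :: (n - j) :: ν)) _ W _ hlt
    · have h3 := hB a j (W - (e + i + (μ.sum - ν.sum) - a) / 2) ha hj has (by omega)
        ((e + i + (μ.sum - ν.sum) - a) / 2)
      have h4 : (e + i + (μ.sum - ν.sum) - a) / 2 +
          (W - (e + i + (μ.sum - ν.sum) - a) / 2) = W := by omega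
      rw [h4] at h3
      exact h3

end

end Pool.Agent.Pet19
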