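import Pool.Agent.Pet19.Bi

/-!
# Pet19.Th: the map `theta`

`theta x = ∑_n φ_(n+1)(x) X_n` is an `ε`-derivation.
-/

set_option autoImplicit false
open MvPolynomial TensorProduct

namespace Pool.Agent.Pet19

noncomputable section

/-- the substitution in the definition of `theta` -/
private def ths : PP →ₐ[ZMod 2] PP := aeval (fun n => if n = 0 then (1 : PP) else X (n - 1))

private theorem theta_eq (x : PP) : theta x = homogeneousComponent 1 (ths x) := by
  unfold theta ths
  rfl

private theorem ths_coeff (x : PP) : coeff 0 (ths x) = ep x := by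
  have h : (constantCoeff : PP →+* ZMod 2).comp ths.toRingHom = ep.toRingHom := by
    refine MvPolynomial.ringHom_ext (fun r => ?_) (fun i => ?_)
    · simp [ths, ep, constantCoeff_C]
    · by_cases hi : i = 0
      · simp [ths, ep, hi]
      · simp [ths, ep, hi]
  have h1 := congrArg (fun f : PP →+* ZMod 2 => f x) h
  exact h1

private theorem coeff_one_mul (p q : PP) (n : ℕ) :
    coeff (Finsupp.single n 1) (p * q) =
      coeff 0 p * coeff (Finsupp.single n 1) q + coeff 0 q * coeff (Finsupp.single n 1) p := by
  rw [coeff_mul, Finsupp.antidiagonal_single, Finset.sum_map, Finset.Nat.sum_antidiagonal_succ]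
  simp only [Finset.Nat.antidiagonal_zero, Finset.sum_singleton]
  simp
  ring

private theorem hc_one_mul (p q : PP) :
    homogeneousComponent 1 (p * q) =
      coeff 0 p • homogeneousComponent 1 q + coeff 0 q • homogeneousComponent 1 p := by
  ext d
  rw [coeff_add, coeff_smul, coeff_smul, coeff_homogeneousComponent, coeff_homogeneousComponent,
    coeff_homogeneousComponent]
  by_cases hd : d.degree = 1
  · rw [if_pos hd, if_pos hd, if_pos hd]
    obtain ⟨n, rfl⟩ : ∃ n, d = Finsupp.single n 1 := by
      exact (Finsupp.sum_eq_one_iff d).1 hd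
    rw [coeff_one_mul, smul_eq_mul, smul_eq_mul]
  · rw [if_neg hd, if_neg hd, if_neg hd]
    simp

theorem theta_mul (x y : PP) : theta (x * y) = ep x • theta y + ep y • theta x := by
  rw [theta_eq, map_mul, hc_one_mul, ths_coeff, ths_coeff, ← theta_eq, ← theta_eq]

theorem theta_one : theta 1 = 0 := by
  rw [theta_eq, map_one]
  have := homogeneousComponent_C_mul (R := ZMod 2) (σ := ℕ) 1 1 1
  ext d
  rw [coeff_homogeneousComponent]
  by_cases hd : d.degree = 1
  · rw [if_pos hd, coeff_one, if_neg]
    · simp
    · rintro rfl
      simp at hd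
  · rw [if_neg hd]
    simp

theorem theta_T : theta T = 0 := by
  have h : ths T = 1 := by simp [ths, T]
  rw [theta_eq, h]
  have h2 := theta_one
  rw [theta_eq, map_one] at h2
  exact h2

theorem theta_T_pow (j : ℕ) : theta (T ^ j) = 0 := by
  induction j with
  | zero => rw [pow_zero, theta_one]
  | succ j ih => rw [pow_succ, theta_mul, ih, theta_T, smul_zero, smul_zero, add_zero]

theorem theta_X_succ (n : ℕ) : theta (X (n + 1)) = X n := by
  have h : ths (X (n + 1)) = X n := by simp [ths]
  rw [theta_eq, h, homogeneousComponent_of_mem (n := 1), if_pos rfl]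
  rw [mem_homogeneousSubmodule]
  exact isHomogeneous_X _ _

theorem theta_Fr (x : PP) : theta (Fr x) = 0 := by
  rw [Fr_apply, pow_two, theta_mul]
  have h : ∀ y : PP, y + y = 0 := fun y => CharTwo.add_self_eq_zero y
  exact h _

theorem theta_sq (x : PP) (m : ℕ) (hm : 1 ≤ m) : theta (x ^ (2 ^ m)) = 0 := by
  obtain ⟨k, rfl⟩ := Nat.exists_eq_add_of_le hm
  rw [add_comm, pow_succ, pow_mul, ← Fr_apply, theta_Fr]

theorem theta_mem (x : PP) : theta x ∈ HH 1 := by
  rw [theta_eq]
  exact homogeneousComponent_mem _ _

/-- `theta` collects the functionals `phi (n+1)` -/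
theorem theta_coeff (x : PP) (n : ℕ) : coeff (Finsupp.single n 1) (theta x) = phi (n + 1) x := by
  rw [phi_apply]
  induction x using MvPolynomial.induction_on with
  | C a =>
    have h : (C a : PP) = a • 1 := by rw [smul_eq_C_mul, mul_one]
    rw [pderiv_C, map_zero, h, map_smul, theta_one, smul_zero, coeff_zero]
  | add p q hp hq => rw [map_add, coeff_add, hp, hq, map_add, map_add]
  | mul_X p i hp =>
    rw [theta_mul, coeff_add, coeff_smul, coeff_smul, hp, pderiv_mul, map_add, map_mul, map_mul,
      smul_eq_mul, smul_eq_mul]
    have h1 : coeff (Finsupp.single n 1) (theta (X i)) = ep (pderiv (n + 1) (X i)) := by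
      cases i with
      | zero =>
        have h0 : theta (X 0) = 0 := by
          have := theta_T
          simpa [T] using this
        rw [h0, pderiv_X_of_ne (by omega)]
        simp
      | succ k =>
        rw [theta_X_succ, coeff_X]
        by_cases hk : k = n
        · rw [hk, if_pos rfl, pderiv_X_self, map_one]
        · rw [if_neg, pderiv_X_of_ne (by omega), map_zero]
          intro h
          have := (Finsupp.single_eq_single_iff _ _ _ _).1 h
          omega
    rw [h1]
    ring

end

end Pool.Agent.Pet19
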