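import Pool.Agent.Pet19.Th
import Pool.Agent.Pet19.BiC

/-!
# Pet19.ThC: two identities for `theta`

Both are proved by induction on `a` (`MvPolynomial.induction_on`, using `theta_mul`):
`theta_co`: both sides `L` satisfy `L (a b) = (a ⊗ 1) L b + (b ⊗ 1) L a`; on `T` both vanish, on
`X (n+1) = xi (n+1)`: `θ` kills `xi^(2^i) T^(2^i-1)` for `i ≥ 1`, so the left side is `coV (X n)` and the
right side is `∑_(i≥1) xi_(n+1-i)^(2^i) T^(2^i-1) ⊗ X (i-1) = coV (X n)`.
`theta_theta`: `q (a b) = ε(a) q(b) + ε(b) q(a) + 2 θ(a) θ(b)`, and `q = 0` on generators.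
-/

set_option autoImplicit false
open MvPolynomial TensorProduct

namespace Pool.Agent.Pet19

noncomputable section

private theorem add_self2 {M : Type} [AddCommGroup M] [Module (ZMod 2) M] (x : M) :
    x + x = 0 := by
  have h : (2 : ZMod 2) • x = 0 := by
    have : (2 : ZMod 2) = 0 := by decide
    rw [this, zero_smul]
  rwa [two_smul] at h

private theorem theta_gen (n i : ℕ) (hi : i ≠ 0) :
    theta (xi n ^ (2 ^ i) * T ^ (2 ^ i - 1)) = 0 := by
  rw [theta_mul, theta_T_pow, theta_sq _ _ (Nat.one_le_iff_ne_zero.2 hi), smul_zero, smul_zero,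
    add_zero]

private def cl : PP ⊗[ZMod 2] PP →ₗ[ZMod 2] PP :=
  (TensorProduct.lid (ZMod 2) PP).toLinearMap ∘ₗ LinearMap.rTensor PP ep.toLinearMap

private def cr : PP ⊗[ZMod 2] PP →ₗ[ZMod 2] PP :=
  (TensorProduct.rid (ZMod 2) PP).toLinearMap ∘ₗ LinearMap.lTensor PP ep.toLinearMap

private theorem cl_tmul (u v : PP) : cl (u ⊗ₜ[ZMod 2] v) = ep u • v := by
  simp [cl]

private theorem cr_tmul (u v : PP) : cr (u ⊗ₜ[ZMod 2] v) = ep v • u := by
  simp [cr]

private theorem cl_Dl (a : PP) : cl (Dl a) = a := Dl_cu a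

private theorem cr_Dl (a : PP) : cr (Dl a) = a := Dl_cu' a

private def KL : PP ⊗[ZMod 2] PP →ₗ[ZMod 2] PP ⊗[ZMod 2] PP :=
  LinearMap.mul' (ZMod 2) (PP ⊗[ZMod 2] PP) ∘ₗ
    TensorProduct.map (coV.toLinearMap ∘ₗ theta)
      (Algebra.TensorProduct.includeLeft : PP →ₐ[ZMod 2] PP ⊗[ZMod 2] PP).toLinearMap

private theorem KL_tmul (u v : PP) :
    KL (u ⊗ₜ[ZMod 2] v) = coV (theta u) * (v ⊗ₜ[ZMod 2] 1) := by
  simp [KL]

private theorem tmul_one_add (x y : PP) :
    ((x + y) ⊗ₜ[ZMod 2] (1 : PP)) = x ⊗ₜ[ZMod 2] 1 + y ⊗ₜ[ZMod 2] 1 :=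
  TensorProduct.add_tmul x y 1

private theorem KL_mul (w1 w2 : PP ⊗[ZMod 2] PP) :
    KL (w1 * w2) = (cl w1 ⊗ₜ[ZMod 2] 1) * KL w2 + (cl w2 ⊗ₜ[ZMod 2] 1) * KL w1 := by
  induction w1 using TensorProduct.induction_on with
  | zero => simp only [zero_mul, map_zero, TensorProduct.zero_tmul, mul_zero, add_zero]
  | add a b ha hb =>
    simp only [add_mul, map_add, TensorProduct.add_tmul, ha, hb, mul_add]
    ring
  | tmul u1 v1 =>
    induction w2 using TensorProduct.induction_on with
    | zero => simp only [zero_mul, map_zero, TensorProduct.zero_tmul, mul_zero, add_zero]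
    | add a b ha hb =>
      simp only [add_mul, map_add, TensorProduct.add_tmul, ha, hb, mul_add]
      ring
    | tmul u2 v2 =>
      rw [Algebra.TensorProduct.tmul_mul_tmul, KL_tmul, KL_tmul, KL_tmul, cl_tmul, cl_tmul,
        theta_mul, map_add, map_smul, map_smul]
      have e : ((v1 * v2) ⊗ₜ[ZMod 2] (1 : PP)) = (v1 ⊗ₜ[ZMod 2] 1) * (v2 ⊗ₜ[ZMod 2] 1) := by
        rw [Algebra.TensorProduct.tmul_mul_tmul, one_mul]
      rw [e, ← TensorProduct.smul_tmul', ← TensorProduct.smul_tmul', add_mul, smul_mul_assoc,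
        smul_mul_assoc, smul_mul_assoc, smul_mul_assoc]
      congr 1
      · congr 1
        ring
      · congr 1
        ring

private theorem RL_mul (w1 w2 : PP ⊗[ZMod 2] PP) :
    LinearMap.lTensor PP theta (w1 * w2) =
      (cr w1 ⊗ₜ[ZMod 2] 1) * LinearMap.lTensor PP theta w2 +
        (cr w2 ⊗ₜ[ZMod 2] 1) * LinearMap.lTensor PP theta w1 := by
  induction w1 using TensorProduct.induction_on with
  | zero => simp only [zero_mul, map_zero, TensorProduct.zero_tmul, mul_zero, add_zero]
  | add a b ha hb =>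
    simp only [add_mul, map_add, TensorProduct.add_tmul, ha, hb, mul_add]
    ring
  | tmul u1 v1 =>
    induction w2 using TensorProduct.induction_on with
    | zero => simp only [zero_mul, map_zero, TensorProduct.zero_tmul, mul_zero, add_zero]
    | add a b ha hb =>
      simp only [add_mul, map_add, TensorProduct.add_tmul, ha, hb, mul_add]
      ring
    | tmul u2 v2 =>
      rw [Algebra.TensorProduct.tmul_mul_tmul, LinearMap.lTensor_tmul, LinearMap.lTensor_tmul,
        LinearMap.lTensor_tmul, cr_tmul, cr_tmul, theta_mul, Algebra.TensorProduct.tmul_mul_tmul,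
        Algebra.TensorProduct.tmul_mul_tmul, one_mul, one_mul, TensorProduct.tmul_add,
        TensorProduct.tmul_smul, TensorProduct.tmul_smul, smul_mul_assoc, smul_mul_assoc,
        TensorProduct.smul_tmul', TensorProduct.smul_tmul', mul_comm u2 u1]

/-- induction for `ε`-derivations -/
private theorem der_ext {R : Type} [AddCommGroup R] [Module (ZMod 2) R]
    (L R' : PP →ₗ[ZMod 2] R) (m : PP → R →+ R)
    (hL : ∀ a b, L (a * b) = m a (L b) + m b (L a))
    (hR : ∀ a b, R' (a * b) = m a (R' b) + m b (R' a))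
    (h1 : L 1 = R' 1) (hT : L T = R' T) (hx : ∀ n, L (xi (n + 1)) = R' (xi (n + 1))) (a : PP) :
    L a = R' a := by
  induction a using MvPolynomial.induction_on with
  | C a =>
    have h : (C a : PP) = a • 1 := by rw [smul_eq_C_mul, mul_one]
    rw [h, map_smul, map_smul, h1]
  | add p q hp hq => rw [map_add, map_add, hp, hq]
  | mul_X p i hp =>
    have hX : L (X i) = R' (X i) := by
      cases i with
      | zero =>
        have h2 : T = X 0 := by simp [T]
        rwa [h2] at hT
      | succ n =>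
        have := hx n
        rwa [xi_succ] at this
    rw [hL, hR, hp, hX]

/-- `θ` is colinear: `∑ coV (θ a') (a'' ⊗ 1) = ∑ a' ⊗ θ a''`.
Both sides are derivations of `a` over left multiplication by `a ⊗ 1`; check on `T` and `X (n+1)`. -/
theorem theta_co (a : PP) :
    LinearMap.mul' (ZMod 2) (PP ⊗[ZMod 2] PP)
      (TensorProduct.map (coV.toLinearMap ∘ₗ theta)
        (Algebra.TensorProduct.includeLeft : PP →ₐ[ZMod 2] PP ⊗[ZMod 2] PP).toLinearMap (Dl a)) =
    LinearMap.lTensor PP theta (Dl a) := by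
  refine der_ext (KL ∘ₗ Dl.toLinearMap) (LinearMap.lTensor PP theta ∘ₗ Dl.toLinearMap)
    (fun a => AddMonoidHom.mulLeft (a ⊗ₜ[ZMod 2] (1 : PP))) ?_ ?_ ?_ ?_ ?_ a
  · intro a b
    simp only [LinearMap.comp_apply, AlgHom.toLinearMap_apply, AddMonoidHom.coe_mulLeft]
    rw [map_mul, KL_mul, cl_Dl, cl_Dl]
  · intro a b
    simp only [LinearMap.comp_apply, AlgHom.toLinearMap_apply, AddMonoidHom.coe_mulLeft]
    rw [map_mul, RL_mul, cr_Dl, cr_Dl]
  · simp only [LinearMap.comp_apply, AlgHom.toLinearMap_apply]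
    rw [map_one, Algebra.TensorProduct.one_def, KL_tmul, LinearMap.lTensor_tmul, theta_one,
      map_zero, zero_mul, TensorProduct.tmul_zero]
  · simp only [LinearMap.comp_apply, AlgHom.toLinearMap_apply]
    rw [Dl_T, KL_tmul, LinearMap.lTensor_tmul, theta_T, map_zero, zero_mul,
      TensorProduct.tmul_zero]
  · intro n
    simp only [LinearMap.comp_apply, AlgHom.toLinearMap_apply]
    rw [Dl_xi, map_sum, map_sum, Finset.sum_eq_single 0, Finset.sum_range_succ']
    · rw [KL_tmul, Nat.sub_zero, pow_zero, pow_one, Nat.sub_self, pow_zero, mul_one, xi_succ,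
        theta_X_succ, xi_zero, LinearMap.lTensor_tmul, theta_one, TensorProduct.tmul_zero,
        add_zero]
      have e1 : ((1 : PP) ⊗ₜ[ZMod 2] (1 : PP)) = 1 := rfl
      rw [e1, mul_one]
      conv_lhs => rw [coV, aeval_X]
      refine Finset.sum_congr rfl fun j hj => ?_
      rw [LinearMap.lTensor_tmul, xi_succ, theta_X_succ]
      congr 2
      have : n + 1 - (j + 1) = n - j := by omega
      rw [this]
    · intro i _ hi
      rw [KL_tmul, theta_gen _ _ hi, map_zero, zero_mul]
    · intro h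
      exact absurd (Finset.mem_range.2 (Nat.succ_pos _)) h

private def K2 : PP ⊗[ZMod 2] PP →ₗ[ZMod 2] PP :=
  LinearMap.mul' (ZMod 2) PP ∘ₗ TensorProduct.map theta theta

private theorem K2_tmul (u v : PP) : K2 (u ⊗ₜ[ZMod 2] v) = theta u * theta v := by
  simp [K2]

private theorem K2_mul (w1 w2 : PP ⊗[ZMod 2] PP) :
    K2 (w1 * w2) = ep (cl w1) • K2 w2 + ep (cl w2) • K2 w1 +
      (theta (cl w1) * theta (cr w2) + theta (cr w1) * theta (cl w2)) := by
  induction w1 using TensorProduct.induction_on with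
  | zero => simp only [zero_mul, map_zero, smul_zero, zero_smul, add_zero]
  | add a b ha hb =>
    simp only [add_mul, map_add, ha, hb, add_smul, smul_add]
    ring
  | tmul u1 v1 =>
    induction w2 using TensorProduct.induction_on with
    | zero => simp only [mul_zero, map_zero, smul_zero, zero_smul, add_zero]
    | add a b ha hb =>
      simp only [mul_add, map_add, ha, hb, add_smul, smul_add]
      ring
    | tmul u2 v2 =>
      rw [Algebra.TensorProduct.tmul_mul_tmul, K2_tmul, K2_tmul, K2_tmul, cl_tmul, cl_tmul,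
        cr_tmul, cr_tmul, theta_mul, theta_mul, map_smul, map_smul, map_smul, map_smul, map_smul,
        map_smul]
      simp only [smul_eq_C_mul, smul_eq_mul, map_mul]
      ring

/-- `∑ θ(a') θ(a'') = 0` -/
theorem theta_theta (a : PP) :
    LinearMap.mul' (ZMod 2) PP (TensorProduct.map theta theta (Dl a)) = 0 := by
  refine der_ext (K2 ∘ₗ Dl.toLinearMap) 0
    (fun a => DistribSMul.toAddMonoidHom PP (ep a)) ?_ ?_ ?_ ?_ ?_ a
  · intro a b
    simp only [LinearMap.comp_apply, AlgHom.toLinearMap_apply,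
      DistribSMul.toAddMonoidHom_apply]
    rw [map_mul, K2_mul, cl_Dl, cl_Dl, cr_Dl, cr_Dl, add_self2, add_zero]
  · intro a b
    simp
  · simp only [LinearMap.comp_apply, AlgHom.toLinearMap_apply, LinearMap.zero_apply]
    rw [map_one, Algebra.TensorProduct.one_def, K2_tmul, theta_one, mul_zero]
  · simp only [LinearMap.comp_apply, AlgHom.toLinearMap_apply, LinearMap.zero_apply]
    rw [Dl_T, K2_tmul, theta_T, mul_zero]
  · intro n
    simp only [LinearMap.comp_apply, AlgHom.toLinearMap_apply, LinearMap.zero_apply]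
    rw [Dl_xi, map_sum]
    refine Finset.sum_eq_zero fun i _ => ?_
    rw [K2_tmul]
    by_cases hi : i = 0
    · rw [hi, xi_zero, theta_one, mul_zero]
    · rw [theta_gen _ _ hi, zero_mul]

end

end Pool.Agent.Pet19
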