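import Pool.Agent.Pet19.RecL
import Pool.Agent.Pet19.Prm
import Pool.Agent.Pet19.Comb
import Pool.Agent.Pet19.Br6

/-!
# Pet19.ZFinal: assembly
-/

set_option autoImplicit false
open MvPolynomial

namespace Pool.Agent.Pet19

theorem V_triv (s t : ℕ) (h : 2 * s < ga t) : V t s triv :=
  V_triv_of_good s t (comb Good (fun s l z h => good_low s l z h)
    (fun s _ _ z hp hG => good_perm s hp z hG) (fun s n μ z h => recursion s n μ z h) s t h)

theorem shS_eq (p : EE) :
    shS p = MvPolynomial.aeval (fun v : ℕ × ℕ =>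
      (X (v.1 + 1, v.2) : MvPolynomial (ℕ × ℕ) (ZMod 2))) p := by
  unfold shS
  rw [MvPolynomial.rename_eq_aeval]
  rfl

end Pool.Agent.Pet19
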